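import Mathlib

/-!
Definitions used in the statements about `k`-rational groups.
-/

set_option autoImplicit false

namespace Pool.Agent.Lib.MP_3c3661_al

/-- `G` is `k`-rational: for every irreducible finite-dimensional complex representation of `G`,
the field generated over the rationals by the values of its character has degree dividing `k`. -/
def KRational (k : ℕ) (G : Type) [Group G] : Prop :=
  ∀ (V : Type) [AddCommGroup V] [Module ℂ V] [FiniteDimensional ℂ V] (ρ : Representation ℂ G V),
    ρ.IsIrreducible →
      Module.finrank ℚ (IntermediateField.adjoin ℚ (Set.range ρ.character)) ∣ k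

/-- `G` is `p`-solvable: it has a chain of normal subgroups from `1` to `G` whose successive
factors have order a power of `p` or order prime to `p`. -/
def IsPSolvable (p : ℕ) (G : Type*) [Group G] : Prop :=
  ∃ (n : ℕ) (S : ℕ → Subgroup G), S 0 = ⊥ ∧ S n = ⊤ ∧ (∀ i, (S i).Normal) ∧
    (∀ i, S i ≤ S (i + 1)) ∧
    ∀ i, (∃ a : ℕ, (S i).relIndex (S (i + 1)) = p ^ a) ∨ ((S i).relIndex (S (i + 1))).Coprime p

end Pool.Agent.Lib.MP_3c3661_al
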