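import Mathlib
import Pool.Agent.Lib.MP_3c3661_al.Defs

/-!
Characters and power maps: a finite group all of whose irreducible complex characters have fields
of values of degree dividing `k` has the property that `g` is conjugate to `g ^ (j ^ k)` for
every `j` coprime to the group order.
-/

set_option autoImplicit false

namespace Pool.Agent.Lib.MP_3c3661_al

open Representation
open scoped MonoidAlgebra

section Trace

variable {V : Type*} [AddCommGroup V] [Module ℂ V] [FiniteDimensional ℂ V]

/-- Traces of powers of a finite order operator. -/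
lemma exists_trace_pow (T : Module.End ℂ V) {n : ℕ} (hn : 0 < n) (hT : T ^ n = 1) {ζ : ℂ}
    (hζ : IsPrimitiveRoot ζ n) :
    ∃ r : ℕ → ℕ, ∀ j : ℕ, LinearMap.trace ℂ V (T ^ j) =
      ∑ i ∈ Finset.range n, (r i : ℂ) * ζ ^ (i * j) := by
  have hn' : (n : ℂ) ≠ 0 := by exact_mod_cast hn.ne'
  have hζ0 : ζ ≠ 0 := hζ.ne_zero hn.ne'
  -- the projections
  let P : ℕ → Module.End ℂ V := fun i => ((n : ℂ)⁻¹) • ∑ l ∈ Finset.range n, (ζ⁻¹ ^ (i * l)) • T ^ l
  have hPT : ∀ i, T * P i = ζ ^ i • P i := by
    intro i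
    simp only [P]
    rw [mul_smul_comm, smul_comm]
    congr 1
    rw [Finset.mul_sum, Finset.smul_sum]
    have h1 := Finset.sum_range_succ (fun l => (ζ ^ i) • (ζ⁻¹ ^ (i * l)) • T ^ l) n
    have h2 := Finset.sum_range_succ' (fun l => (ζ ^ i) • (ζ⁻¹ ^ (i * l)) • T ^ l) n
    rw [h1] at h2
    have h3 : (ζ ^ i) • (ζ⁻¹ ^ (i * n)) • T ^ n = (ζ ^ i) • (ζ⁻¹ ^ (i * 0)) • T ^ 0 := by
      rw [hT, mul_comm i n, pow_mul, inv_pow ζ n, hζ.pow_eq_one]; simp
    rw [h3] at h2
    rw [add_right_cancel h2]
    apply Finset.sum_congr rfl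
    intro l _
    rw [mul_smul_comm, ← pow_succ', smul_smul]
    congr 1
    have h4 : ζ ^ i * ζ⁻¹ ^ i = 1 := by rw [← mul_pow, mul_inv_cancel₀ hζ0, one_pow]
    rw [mul_add, mul_one, pow_add, mul_left_comm, h4, mul_one]
  have hPTl : ∀ i l, T ^ l * P i = ζ ^ (i * l) • P i := by
    intro i l
    induction l with
    | zero => simp
    | succ l ih =>
      rw [pow_succ', mul_assoc, ih, mul_smul_comm, hPT, smul_smul]
      congr 1
      rw [← pow_add, mul_add, mul_one]
  have hidem : ∀ i, IsIdempotentElem (P i) := by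
    intro i
    have : P i * P i = ((n : ℂ)⁻¹) • ∑ l ∈ Finset.range n, (ζ⁻¹ ^ (i * l)) • (T ^ l * P i) := by
      conv_lhs => enter [1]; simp only [P]
      rw [smul_mul_assoc, Finset.sum_mul]
      simp only [smul_mul_assoc]
    rw [IsIdempotentElem, this]
    have h2 : ∀ l ∈ Finset.range n, (ζ⁻¹ ^ (i * l)) • (T ^ l * P i) = P i := by
      intro l _
      rw [hPTl, smul_smul, ← mul_pow, inv_mul_cancel₀ hζ0, one_pow, one_smul]
    rw [Finset.sum_congr rfl h2, Finset.sum_const, Finset.card_range, ← Nat.cast_smul_eq_nsmul ℂ,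
      smul_smul, inv_mul_cancel₀ hn', one_smul]
  have hsum1 : ∑ i ∈ Finset.range n, P i = 1 := by
    simp only [P]
    rw [← Finset.smul_sum, Finset.sum_comm]
    have h1 : ∀ l ∈ Finset.range n, (∑ i ∈ Finset.range n, (ζ⁻¹ ^ (i * l)) • T ^ l)
        = if l = 0 then (n : ℂ) • (1 : Module.End ℂ V) else 0 := by
      intro l hl
      rw [← Finset.sum_smul]
      split_ifs with h0
      · subst h0; simp
      · have : ∑ i ∈ Finset.range n, (ζ⁻¹ ^ (i * l) : ℂ) = 0 := by
          have h2 : ∀ i ∈ Finset.range n, (ζ⁻¹ ^ (i * l) : ℂ) = (ζ⁻¹ ^ l) ^ i := by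
            intro i _; rw [← pow_mul, mul_comm]
          rw [Finset.sum_congr rfl h2]
          have h3 : (ζ⁻¹ ^ l) ≠ 1 := by
            intro h
            rw [inv_pow, inv_eq_one] at h
            have := hζ.dvd_of_pow_eq_one l h
            have := Nat.le_of_dvd (Nat.pos_of_ne_zero h0) this
            rw [Finset.mem_range] at hl
            omega
          have h4 := mul_geom_sum (ζ⁻¹ ^ l) n
          rw [← pow_mul, mul_comm l n, pow_mul, inv_pow ζ n, hζ.pow_eq_one, inv_one, one_pow,
            sub_self, mul_eq_zero] at h4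
          exact h4.resolve_left (sub_ne_zero.2 h3)
        rw [this, zero_smul]
    rw [Finset.sum_congr rfl h1, Finset.sum_ite_eq' (Finset.range n) 0, if_pos (Finset.mem_range.2 hn),
      smul_smul, inv_mul_cancel₀ hn', one_smul]
  refine ⟨fun i => Module.finrank ℂ (LinearMap.range (P i)), fun j => ?_⟩
  have htr : ∀ i, LinearMap.trace ℂ V (P i) = (Module.finrank ℂ (LinearMap.range (P i)) : ℂ) := by
    intro i
    exact (LinearMap.IsIdempotentElem.isProj_range _ (hidem i)).trace
  calc LinearMap.trace ℂ V (T ^ j) = LinearMap.trace ℂ V (T ^ j * ∑ i ∈ Finset.range n, P i) := by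
        rw [hsum1, mul_one]
    _ = LinearMap.trace ℂ V (∑ i ∈ Finset.range n, ζ ^ (i * j) • P i) := by
        rw [Finset.mul_sum]
        congr 1
        exact Finset.sum_congr rfl (fun i _ => hPTl i j)
    _ = _ := by
        rw [map_sum]
        apply Finset.sum_congr rfl
        intro i _
        rw [map_smul, htr, smul_eq_mul, mul_comm]

end Trace

section Galois

/-- Power maps and fields of values: if the sums `c g = ∑ i, r g i * ζ ^ i` generate a field of
degree dividing `k`, then they are unchanged by replacing `ζ` with `ζ ^ (j ^ k)`. -/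
lemma sum_eq_of_finrank_dvd {ι : Type*} {n : ℕ} (hn : 0 < n) {ζ : ℂ} (hζ : IsPrimitiveRoot ζ n)
    (r : ι → ℕ → ℕ) {k : ℕ}
    (hk : Module.finrank ℚ (IntermediateField.adjoin ℚ
      (Set.range fun x : ι => ∑ i ∈ Finset.range n, (r x i : ℂ) * ζ ^ i)) ∣ k)
    {j : ℕ} (hj : j.Coprime n) (x : ι) :
    ∑ i ∈ Finset.range n, (r x i : ℂ) * ζ ^ (i * j ^ k) =
      ∑ i ∈ Finset.range n, (r x i : ℂ) * ζ ^ i := by
  have : NeZero n := ⟨hn.ne'⟩
  have : NeZero ((n : ℕ) : ℚ) := ⟨by exact_mod_cast hn.ne'⟩
  let K := CyclotomicField n ℚ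
  have : IsCyclotomicExtension {n} ℚ K := CyclotomicField.isCyclotomicExtension n ℚ
  have hirr : Irreducible (Polynomial.cyclotomic n ℚ) := Polynomial.cyclotomic.irreducible_rat hn
  -- embed the cyclotomic field so that the root is hit
  obtain ⟨φ, a, hφz⟩ : ∃ (φ : K →ₐ[ℚ] ℂ) (a : ℕ), φ ((IsCyclotomicExtension.zeta n ℚ K) ^ a) = ζ := by
    let φ : K →ₐ[ℚ] ℂ := IsAlgClosed.lift
    have hz0 : IsPrimitiveRoot (IsCyclotomicExtension.zeta n ℚ K) n :=
      IsCyclotomicExtension.zeta_spec n ℚ K
    have h1 : IsPrimitiveRoot (φ (IsCyclotomicExtension.zeta n ℚ K)) n :=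
      hz0.map_of_injective φ.injective
    obtain ⟨a, -, ha⟩ := h1.eq_pow_of_pow_eq_one hζ.pow_eq_one
    exact ⟨φ, a, by rw [map_pow, ha]⟩
  set z : K := (IsCyclotomicExtension.zeta n ℚ K) ^ a with hz
  set c : ι → K := fun x => ∑ i ∈ Finset.range n, (r x i : K) * z ^ i with hc
  have hφc : ∀ x, φ (c x) = ∑ i ∈ Finset.range n, (r x i : ℂ) * ζ ^ i := by
    intro x
    rw [hc, map_sum]
    apply Finset.sum_congr rfl
    intro i _
    rw [map_mul, map_natCast, map_pow, hφz]
  let E : IntermediateField ℚ K := IntermediateField.adjoin ℚ (Set.range c)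
  have hE : Module.finrank ℚ E ∣ k := by
    have h1 : E.map φ = IntermediateField.adjoin ℚ
      (Set.range fun x : ι => ∑ i ∈ Finset.range n, (r x i : ℂ) * ζ ^ i) := by
      rw [IntermediateField.adjoin_map, ← Set.range_comp]
      congr 2
      ext x
      exact hφc x
    have h2 : Module.finrank ℚ E = Module.finrank ℚ (E.map φ) :=
      (E.equivMap φ).toLinearEquiv.finrank_eq
    rw [h2, h1]
    exact hk
  -- the automorphism
  obtain ⟨σ, hσ⟩ : ∃ σ : K ≃ₐ[ℚ] K, σ z = z ^ j := by
    let e := IsCyclotomicExtension.autEquivPow K hirr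
    refine ⟨e.symm (ZMod.unitOfCoprime j hj), ?_⟩
    have h1 := IsPrimitiveRoot.autToPow_spec ℚ (IsCyclotomicExtension.zeta_spec n ℚ K)
      (e.symm (ZMod.unitOfCoprime j hj))
    have h2 : IsPrimitiveRoot.autToPow ℚ (IsCyclotomicExtension.zeta_spec n ℚ K)
      (e.symm (ZMod.unitOfCoprime j hj)) = ZMod.unitOfCoprime j hj :=
      e.apply_symm_apply (ZMod.unitOfCoprime j hj)
    rw [h2, ZMod.coe_unitOfCoprime, ZMod.val_natCast] at h1
    rw [hz, map_pow, ← h1, ← pow_mul, ← pow_mul, mul_comm a j, pow_mul, pow_mul]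
    congr 1
    have h3 := (IsCyclotomicExtension.zeta_spec n ℚ K).pow_eq_one
    conv_rhs => rw [← Nat.mod_add_div j n, pow_add, pow_mul, h3, one_pow, mul_one]
  have hσl : ∀ l : ℕ, (σ ^ l) z = z ^ (j ^ l) := by
    intro l
    induction l with
    | zero => simp
    | succ l ih =>
      rw [pow_succ', AlgEquiv.mul_apply, ih, map_pow, hσ, ← pow_mul, pow_succ']
  have : FiniteDimensional ℚ K := IsCyclotomicExtension.finiteDimensional {n} ℚ K
  have hab : IsAbelianGalois ℚ K := IsCyclotomicExtension.isAbelianGalois {n} ℚ K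
  let U : Subgroup (K ≃ₐ[ℚ] K) := E.fixingSubgroup
  have hUn : U.Normal := by
    refine ⟨fun u hu g => ?_⟩
    have : g * u = u * g := mul_comm' g u
    rw [this, mul_inv_cancel_right]
    exact hu
  have hindex : U.index = Module.finrank ℚ E := by
    have h1 := U.index_mul_card
    rw [IsGalois.card_fixingSubgroup_eq_finrank, IsGalois.card_aut_eq_finrank,
      ← Module.finrank_mul_finrank ℚ E K] at h1
    have h2 : 0 < Module.finrank E K := Module.finrank_pos
    exact Nat.eq_of_mul_eq_mul_right h2 h1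
  have hmem : σ ^ k ∈ U := by
    obtain ⟨b, hb⟩ : U.index ∣ k := by rw [hindex]; exact hE
    rw [hb, pow_mul]
    exact U.pow_mem (U.pow_index_mem σ) b
  have hfix : (σ ^ k) (c x) = c x :=
    (IntermediateField.mem_fixingSubgroup_iff E (σ ^ k)).1 hmem (c x)
      (IntermediateField.subset_adjoin ℚ _ ⟨x, rfl⟩)
  have hfix2 : (σ ^ k) (c x) = ∑ i ∈ Finset.range n, (r x i : K) * z ^ (i * j ^ k) := by
    rw [hc, map_sum]
    apply Finset.sum_congr rfl
    intro i _
    rw [map_mul, map_natCast, map_pow, hσl, ← pow_mul, mul_comm i]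
  rw [← hφc x, ← hfix, hfix2, map_sum]
  apply Finset.sum_congr rfl
  intro i _
  rw [map_mul, map_natCast, map_pow, hφz]

end Galois

section Separate

variable {G : Type} [Group G] [Fintype G]

/-- A class function orthogonal to an irreducible character acts as zero. -/
lemma sum_smul_eq_zero {V : Type*} [AddCommGroup V] [Module ℂ V] [FiniteDimensional ℂ V]
    (ρ : Representation ℂ G V) [ρ.IsIrreducible] (z : G → ℂ)
    (hz : ∀ g x, z (g * x * g⁻¹) = z x) (h0 : ∑ x, z x * ρ.character x = 0) :
    ∑ x, z x • ρ x = 0 := by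
  let f : IntertwiningMap ρ ρ := ⟨∑ x, z x • ρ x, by
    intro g
    change (∑ x, z x • ρ x) * ρ g = ρ g * ∑ x, z x • ρ x
    rw [Finset.sum_mul, Finset.mul_sum]
    refine Fintype.sum_equiv (MulAut.conj g⁻¹).toEquiv _ _ (fun x => ?_)
    have h1 : (MulAut.conj g⁻¹).toEquiv x = g⁻¹ * x * g := by simp
    have h2 : z (g⁻¹ * x * g) = z x := by
      have := hz g⁻¹ x
      rwa [inv_inv] at this
    rw [h1, h2, smul_mul_assoc, mul_smul_comm, ← map_mul, ← map_mul]
    congr 2
    group⟩
  obtain ⟨c, hc⟩ := (IsIrreducible.algebraMap_intertwiningMap_bijective_of_isAlgClosed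
    (ρ := ρ)).2 f
  have h1 : ∑ x, z x • ρ x = c • (1 : Module.End ℂ V) := by
    have h2 : f.toLinearMap = ∑ x, z x • ρ x := rfl
    rw [← h2, ← hc]
    rfl
  have h3 : LinearMap.trace ℂ V (∑ x, z x • ρ x) = 0 := by
    rw [map_sum, ← h0]
    apply Finset.sum_congr rfl
    intro x _
    rw [map_smul]; rfl
  rw [h1, map_smul, LinearMap.trace_one, smul_eq_mul, mul_eq_zero] at h3
  rcases h3 with h3 | h3
  · rw [h1, h3, zero_smul]
  · have h4 : Module.finrank ℂ V = 0 := by exact_mod_cast h3
    have h5 : Subsingleton V := Module.finrank_zero_iff.1 h4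
    ext v
    exact Subsingleton.elim _ _

omit [Fintype G] in
/-- Simple left ideals give irreducible representations. -/
lemma isIrreducible_ofModule' {M : Type*} [AddCommGroup M] [Module ℂ M] [Module ℂ[G] M]
    [IsScalarTower ℂ ℂ[G] M] [IsSimpleModule ℂ[G] M] :
    (ofModule' (k := ℂ) (G := G) M).IsIrreducible := by
  have hof : ∀ (g : G) (m : M), ofModule' (k := ℂ) (G := G) M g m = MonoidAlgebra.of ℂ G g • m := by
    intro g m
    simp [ofModule']
  let e : Submodule ℂ[G] M ≃o Subrepresentation (ofModule' (k := ℂ) (G := G) M) :=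
    { toFun := fun N => ⟨N.restrictScalars ℂ, fun g v hv => by
        rw [hof]; exact N.smul_mem _ hv⟩
      invFun := fun σ =>
        { carrier := σ.toSubmodule
          add_mem' := fun ha hb => σ.toSubmodule.add_mem ha hb
          zero_mem' := σ.toSubmodule.zero_mem
          smul_mem' := by
            intro c m hm
            induction c using MonoidAlgebra.induction_linear with
            | zero => rw [zero_smul]; exact σ.toSubmodule.zero_mem
            | add x y hx hy => rw [add_smul]; exact σ.toSubmodule.add_mem hx hy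
            | single g a =>
              have h1 : MonoidAlgebra.single g a = a • MonoidAlgebra.of ℂ G g := by
                rw [MonoidAlgebra.of_apply, MonoidAlgebra.smul_single, smul_eq_mul, mul_one]
              rw [h1, smul_assoc, ← hof]
              exact σ.toSubmodule.smul_mem a (σ.apply_mem_toSubmodule g hm) }
      left_inv := fun N => rfl
      right_inv := fun σ => rfl
      map_rel_iff' := Iff.rfl }
  have : IsSimpleOrder (Submodule ℂ[G] M) := (isSimpleModule_iff _ _).1 inferInstance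
  exact (OrderIso.isSimpleOrder_iff e).1 this

/-- Irreducible characters separate conjugacy classes. -/
theorem isConj_of_character_eq {g h : G}
    (hχ : ∀ (V : Type) [AddCommGroup V] [Module ℂ V] [FiniteDimensional ℂ V]
      (ρ : Representation ℂ G V), ρ.IsIrreducible → ρ.character g = ρ.character h) :
    IsConj g h := by
  classical
  by_contra hcon
  -- the two conjugacy class averages
  let cl : G → Finset G := fun a => Finset.univ.filter (fun x => IsConj a x)
  have hclmem : ∀ a x, x ∈ cl a ↔ IsConj a x := by intro a x; simp [cl]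
  have hclpos : ∀ a, (cl a).card ≠ 0 := by
    intro a
    exact Finset.card_ne_zero_of_mem ((hclmem a a).2 (IsConj.refl a))
  have hconjinv : ∀ a u x : G, IsConj a (u * x * u⁻¹) ↔ IsConj a x := by
    intro a u x
    have h1 : IsConj x (u * x * u⁻¹) := isConj_iff.2 ⟨u, rfl⟩
    exact ⟨fun h => h.trans h1.symm, fun h => h.trans h1⟩
  let z : G → ℂ := fun x => (if IsConj g x then ((cl g).card : ℂ)⁻¹ else 0)
    - (if IsConj h x then ((cl h).card : ℂ)⁻¹ else 0)
  have hz : ∀ u x, z (u * x * u⁻¹) = z x := by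
    intro u x
    simp only [z, hconjinv]
  have hsum : ∀ (a : G) (χ : G → ℂ) (hχ : ∀ u x, χ (u * x * u⁻¹) = χ x),
      ∑ x, (if IsConj a x then ((cl a).card : ℂ)⁻¹ else 0) * χ x = χ a := by
    intro a χ hχ
    have h1 : ∀ x, (if IsConj a x then ((cl a).card : ℂ)⁻¹ else 0) * χ x
        = if x ∈ cl a then ((cl a).card : ℂ)⁻¹ * χ a else 0 := by
      intro x
      by_cases hx : IsConj a x
      · rw [if_pos hx, if_pos ((hclmem a x).2 hx)]
        obtain ⟨u, hu⟩ := isConj_iff.1 hx
        rw [← hu, hχ]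
      · rw [if_neg hx, if_neg (fun h => hx ((hclmem a x).1 h)), zero_mul]
    rw [Finset.sum_congr rfl (fun x _ => h1 x), Finset.sum_ite_mem, Finset.univ_inter,
      Finset.sum_const, nsmul_eq_mul, ← mul_assoc, mul_inv_cancel₀, one_mul]
    exact_mod_cast hclpos a
  have hzχ : ∀ (χ : G → ℂ) (hχ : ∀ u x, χ (u * x * u⁻¹) = χ x),
      ∑ x, z x * χ x = χ g - χ h := by
    intro χ hχ
    simp only [z, sub_mul]
    rw [Finset.sum_sub_distrib, hsum g χ hχ, hsum h χ hχ]
  -- the central element
  let Z : ℂ[G] := ∑ x, z x • MonoidAlgebra.of ℂ G x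
  have hZc : ∀ a : ℂ[G], Z * a = a * Z := by
    intro a
    induction a using MonoidAlgebra.induction_linear with
    | zero => simp
    | add x y hx hy => rw [mul_add, add_mul, hx, hy]
    | single u c =>
      have h1 : MonoidAlgebra.single u c = c • MonoidAlgebra.of ℂ G u := by
        rw [MonoidAlgebra.of_apply, MonoidAlgebra.smul_single, smul_eq_mul, mul_one]
      rw [h1, mul_smul_comm, smul_mul_assoc]
      congr 1
      simp only [Z]
      rw [Finset.sum_mul, Finset.mul_sum]
      refine Fintype.sum_equiv (MulAut.conj u⁻¹).toEquiv _ _ (fun x => ?_)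
      have h1 : (MulAut.conj u⁻¹).toEquiv x = u⁻¹ * x * u := by simp
      have h2 : z (u⁻¹ * x * u) = z x := by
        have := hz u⁻¹ x
        rwa [inv_inv] at this
      rw [h1, h2, smul_mul_assoc, mul_smul_comm, ← map_mul, ← map_mul]
      congr 2
      group
  have hNZ : NeZero (Nat.card G : ℂ) := ⟨by exact_mod_cast Nat.card_pos.ne'⟩
  have hkill : ∀ S : Submodule ℂ[G] ℂ[G], IsSimpleModule ℂ[G] S → ∀ s ∈ S, Z * s = 0 := by
    intro S hS s hs
    have hirr := isIrreducible_ofModule' (G := G) (M := S)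
    have h1 := sum_smul_eq_zero (ofModule' (k := ℂ) (G := G) S) z hz (by
      rw [hzχ _ (fun u x => Representation.char_conj _ x u), hχ S _ hirr, sub_self])
    have h2 := LinearMap.congr_fun h1 ⟨s, hs⟩
    rw [LinearMap.sum_apply] at h2
    have h3 := congrArg (fun t : S => (t : ℂ[G])) h2
    simp only [LinearMap.smul_apply, LinearMap.zero_apply, ZeroMemClass.coe_zero] at h3
    rw [← h3]
    simp only [Z, Finset.sum_mul, AddSubmonoidClass.coe_finsetSum]
    apply Finset.sum_congr rfl
    intro x _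
    rw [smul_mul_assoc]
    simp [ofModule']
  have hZ0 : Z = 0 := by
    have htop : (⊤ : Submodule ℂ[G] ℂ[G]) ≤
        LinearMap.ker (LinearMap.toSpanSingleton ℂ[G] ℂ[G] Z) := by
      rw [← IsSemisimpleModule.sSup_simples_eq_top ℂ[G] ℂ[G]]
      apply sSup_le
      intro S hS s hs
      rw [LinearMap.mem_ker, LinearMap.toSpanSingleton_apply, smul_eq_mul, ← hZc]
      exact hkill S hS s hs
    have := htop (Submodule.mem_top (x := (1 : ℂ[G])))
    rw [LinearMap.mem_ker, LinearMap.toSpanSingleton_apply, one_smul] at this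
    exact this
  have hcoef : Z.coeff g = z g := by
    simp only [Z]
    simp [Finsupp.single_apply]
  have hzg : z g = ((cl g).card : ℂ)⁻¹ := by
    simp only [z]
    rw [if_pos (IsConj.refl g), if_neg (fun h => hcon h.symm), sub_zero]
  rw [hZ0, hzg] at hcoef
  have : ((cl g).card : ℂ)⁻¹ ≠ 0 := inv_ne_zero (by exact_mod_cast hclpos g)
  exact this hcoef.symm

end Separate

/-- In a `k`-rational group, `g` is conjugate to `g ^ (j ^ k)` for `j` coprime to the order. -/
theorem KRational.isConj_pow {k : ℕ} {G : Type} [Group G] [Finite G] (hG : KRational k G)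
    {j : ℕ} (hj : j.Coprime (Nat.card G)) (g : G) : IsConj g (g ^ (j ^ k)) := by
  classical
  have : Fintype G := Fintype.ofFinite G
  apply isConj_of_character_eq
  intro V _ _ _ ρ hρ
  have hn : 0 < Nat.card G := Nat.card_pos
  have hζ := Complex.isPrimitiveRoot_exp (Nat.card G) hn.ne'
  set ζ := Complex.exp (2 * Real.pi * Complex.I / (Nat.card G)) with hζdef
  have hT : ∀ x : G, (ρ x) ^ (Nat.card G) = 1 := by
    intro x
    rw [← map_pow, pow_card_eq_one', map_one]
  choose r hr using fun x : G => exists_trace_pow (ρ x) hn (hT x) hζ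
  have hch : ∀ x : G, ρ.character x = ∑ i ∈ Finset.range (Nat.card G), (r x i : ℂ) * ζ ^ i := by
    intro x
    have := hr x 1
    simp only [pow_one, mul_one] at this
    exact this
  have hkk : Module.finrank ℚ (IntermediateField.adjoin ℚ
      (Set.range fun x : G => ∑ i ∈ Finset.range (Nat.card G), (r x i : ℂ) * ζ ^ i)) ∣ k := by
    have h1 := hG V ρ hρ
    have h2 : ρ.character = fun x : G => ∑ i ∈ Finset.range (Nat.card G), (r x i : ℂ) * ζ ^ i :=
      funext hch
    rwa [h2] at h1
  have h3 := sum_eq_of_finrank_dvd hn hζ r hkk hj g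
  have h4 := hr g (j ^ k)
  rw [← map_pow] at h4
  calc ρ.character g = _ := hch g
    _ = _ := h3.symm
    _ = LinearMap.trace ℂ V (ρ (g ^ j ^ k)) := h4.symm
    _ = ρ.character (g ^ j ^ k) := rfl

end Pool.Agent.Lib.MP_3c3661_al
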