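import Mathlib

section

/-!
Traces of idempotent matrices over `ZMod (p ^ i)`.
-/

set_option autoImplicit false

namespace Pool.Agent.Lib.MP_3c3661_al

open Matrix

section Trace

variable {R : Type*} [CommRing R] {n : Type*} [Fintype n] [DecidableEq n]

lemma isUnit_one_add_nat_mul {q N : ℕ} (hq : (q : R) ^ N = 0) (a : Matrix n n R) :
    IsUnit (1 + (q : R) • a) := by
  apply IsNilpotent.isUnit_one_add
  exact ⟨N, by rw [smul_pow, hq, zero_smul]⟩

/-- Two idempotent matrices which are congruent modulo a nilpotent integer have the same trace. -/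
theorem trace_eq_of_idem_congr {q N : ℕ} (hq : (q : R) ^ N = 0) {E F a : Matrix n n R}
    (hE : E * E = E) (hF : F * F = F) (h : E = F + (q : R) • a) : E.trace = F.trace := by
  set U := E * F + (1 - E) * (1 - F) with hU
  have hU1 : U = 1 + (q : R) • (a * F - a * (1 - F)) := by
    rw [hU]
    have h1 : E * F = F + (q : R) • (a * F) := by
      rw [h, add_mul, hF, smul_mul_assoc]
    have h2 : (1 - E) * (1 - F) = (1 - F) - (q : R) • (a * (1 - F)) := by
      have : (1 - F) * (1 - F) = 1 - F := by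
        rw [sub_mul, mul_sub, mul_sub, hF]; simp
      calc (1 - E) * (1 - F) = ((1 - F) - (q : R) • a) * (1 - F) := by rw [h]; congr 1; abel
        _ = _ := by rw [sub_mul, this, smul_mul_assoc]
    rw [h1, h2, smul_sub]
    abel
  obtain ⟨u, hu⟩ := isUnit_one_add_nat_mul hq (a * F - a * (1 - F))
  rw [← hU1] at hu
  have hEU : E * U = U * F := by
    rw [hU]
    have hE0 : E * (1 - E) = 0 := by rw [mul_sub, hE, mul_one, sub_self]
    have hF0 : (1 - F) * F = 0 := by rw [sub_mul, hF, one_mul, sub_self]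
    have e1 : E * (E * F + (1 - E) * (1 - F)) = E * F := by
      rw [mul_add, ← mul_assoc, hE, ← mul_assoc, hE0, zero_mul, add_zero]
    have e2 : (E * F + (1 - E) * (1 - F)) * F = E * F := by
      rw [add_mul, mul_assoc E, hF, mul_assoc (1 - E), hF0, mul_zero, add_zero]
    rw [e1, e2]
  have : E = (u : Matrix n n R) * F * (↑u⁻¹ : Matrix n n R) := by
    rw [hu, ← hEU, ← hu, mul_assoc, Units.mul_inv, mul_one]
  rw [this, Matrix.trace_mul_cycle, Units.inv_mul, one_mul]

end Trace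

section Field

variable {F : Type*} [Field F] {n : ℕ}

/-- An idempotent matrix over a field is conjugate to a block diagonal matrix. -/
theorem exists_conj_blocks (E : Matrix (Fin n) (Fin n) F) (hE : E * E = E) :
    ∃ s : ℕ, Fintype.card (Fin E.rank ⊕ Fin s) = n ∧
      ∃ (P : Matrix (Fin n) (Fin E.rank ⊕ Fin s) F) (Q : Matrix (Fin E.rank ⊕ Fin s) (Fin n) F),
      P * Q = 1 ∧ Q * P = 1 ∧
      E = P * (fromBlocks 1 0 0 0 : Matrix (Fin E.rank ⊕ Fin s) (Fin E.rank ⊕ Fin s) F) * Q := by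
  classical
  set f : (Fin n → F) →ₗ[F] (Fin n → F) := Matrix.toLin' E with hf
  have hff : f ∘ₗ f = f := by
    rw [hf, ← Matrix.toLin'_mul, hE]
  have hr : Module.finrank F (LinearMap.range f) = E.rank := rfl
  have hcompl : IsCompl (LinearMap.range f) (LinearMap.ker f) := by
    refine LinearMap.IsIdempotentElem.isCompl ?_
    exact hff
  let s := Module.finrank F (LinearMap.ker f)
  let b₁ : Module.Basis (Fin E.rank) F (LinearMap.range f) :=
    Module.finBasisOfFinrankEq F _ hr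
  let b₂ : Module.Basis (Fin s) F (LinearMap.ker f) := Module.finBasisOfFinrankEq F _ rfl
  let b : Module.Basis (Fin E.rank ⊕ Fin s) F (Fin n → F) :=
    (b₁.prod b₂).map (Submodule.prodEquivOfIsCompl _ _ hcompl)
  let c : Module.Basis (Fin n) F (Fin n → F) := Pi.basisFun F (Fin n)
  have hb1 : ∀ i, b (Sum.inl i) = (b₁ i : Fin n → F) := by
    intro i; simp [b]
  have hb2 : ∀ i, b (Sum.inr i) = (b₂ i : Fin n → F) := by
    intro i; simp [b]
  have hcard : Fintype.card (Fin E.rank ⊕ Fin s) = n := by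
    have := Module.finrank_eq_card_basis b
    rw [Module.finrank_eq_card_basis c] at this
    simpa using this.symm
  refine ⟨s, hcard, c.toMatrix b, b.toMatrix c, ?_, ?_, ?_⟩
  · exact Module.Basis.toMatrix_mul_toMatrix_flip _ _
  · exact Module.Basis.toMatrix_mul_toMatrix_flip _ _
  · have hblock : LinearMap.toMatrix b b f =
        (fromBlocks 1 0 0 0 : Matrix (Fin E.rank ⊕ Fin s) (Fin E.rank ⊕ Fin s) F) := by
      ext i j
      rw [LinearMap.toMatrix_apply]
      rcases j with j | j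
      · have hfj : f (b (Sum.inl j)) = b (Sum.inl j) := by
          rw [hb1]
          obtain ⟨x, hx⟩ := (b₁ j).2
          rw [← hx]
          exact LinearMap.congr_fun hff x
        rw [hfj, b.repr_self]
        rcases i with i | i
        · simp [Matrix.one_apply, Finsupp.single_apply, eq_comm]
        · simp
      · have hfj : f (b (Sum.inr j)) = 0 := by
          rw [hb2]
          exact (b₂ j).2
        rw [hfj]
        rcases i with i | i <;> simp
    have := basis_toMatrix_mul_linearMap_toMatrix_mul_basis_toMatrix c b c b f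
    rw [hblock] at this
    rw [this]
    ext i j
    simp [c, hf]

theorem exists_conj_blocks' (E : Matrix (Fin n) (Fin n) F) (hE : E * E = E) :
    ∃ r s : ℕ, r = E.rank ∧ Fintype.card (Fin r ⊕ Fin s) = n ∧
      ∃ (P : Matrix (Fin n) (Fin r ⊕ Fin s) F) (Q : Matrix (Fin r ⊕ Fin s) (Fin n) F),
      P * Q = 1 ∧ Q * P = 1 ∧
      E = P * (fromBlocks 1 0 0 0 : Matrix (Fin r ⊕ Fin s) (Fin r ⊕ Fin s) F) * Q := by
  obtain ⟨s, h⟩ := exists_conj_blocks E hE
  exact ⟨E.rank, s, rfl, h⟩

end Field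

section ZModPow

variable {p : ℕ} [Fact p.Prime] {i : ℕ}

/-- The reduction map `ZMod (p ^ (i+1)) → ZMod p`. -/
def red (p i : ℕ) [Fact p.Prime] : ZMod (p ^ (i + 1)) →+* ZMod p :=
  ZMod.castHom (dvd_pow_self p (Nat.succ_ne_zero i)) (ZMod p)

instance (p i : ℕ) [Fact p.Prime] : NeZero (p ^ (i + 1)) :=
  ⟨pow_ne_zero _ (Fact.out : p.Prime).ne_zero⟩

lemma red_surj (x : ZMod p) : red p i ((x.val : ℕ) : ZMod (p ^ (i + 1))) = x := by
  rw [map_natCast, ZMod.natCast_val, ZMod.cast_id', id]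

lemma red_eq_zero {x : ZMod (p ^ (i + 1))} (hx : red p i x = 0) :
    ∃ y, x = (p : ZMod (p ^ (i + 1))) * y := by
  have h1 : x = ((x.val : ℕ) : ZMod (p ^ (i + 1))) := by
    rw [ZMod.natCast_val, ZMod.cast_id', id]
  rw [h1, map_natCast, ZMod.natCast_eq_zero_iff] at hx
  obtain ⟨m, hm⟩ := hx
  exact ⟨(m : ZMod (p ^ (i + 1))), by rw [h1, hm]; push_cast; ring⟩

omit [Fact p.Prime] in
lemma p_pow_zero : ((p : ℕ) : ZMod (p ^ (i + 1))) ^ (i + 1) = 0 := by
  have := ZMod.natCast_self (p ^ (i + 1))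
  rw [← this]; push_cast; rfl

lemma congr_of_map_eq {m n : Type*} {A B : Matrix m n (ZMod (p ^ (i + 1)))}
    (h : A.map (red p i) = B.map (red p i)) :
    ∃ C : Matrix m n (ZMod (p ^ (i + 1))), A = B + ((p : ℕ) : ZMod (p ^ (i + 1))) • C := by
  have : ∀ a b, ∃ y, A a b - B a b = ((p : ℕ) : ZMod (p ^ (i + 1))) * y := by
    intro a b
    apply red_eq_zero
    rw [map_sub, sub_eq_zero]
    have := congrFun (congrFun h a) b
    simpa using this
  choose C hC using this
  refine ⟨Matrix.of C, ?_⟩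
  ext a b
  simp only [Matrix.add_apply, Matrix.smul_apply, Matrix.of_apply, smul_eq_mul]
  rw [← hC]; ring

/-- The trace of an idempotent matrix over `ZMod (p ^ (i+1))` is the rank of its reduction. -/
theorem trace_idem_eq_rank {n : ℕ} (E : Matrix (Fin n) (Fin n) (ZMod (p ^ (i + 1))))
    (hE : E * E = E) :
    E.trace = (((E.map (red p i)).rank : ℕ) : ZMod (p ^ (i + 1))) := by
  classical
  have hEbar : (E.map (red p i)) * (E.map (red p i)) = E.map (red p i) := by
    rw [← Matrix.map_mul, hE]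
  obtain ⟨r, s, hr, hcard, P, Q, hPQ, hQP, hdec⟩ := exists_conj_blocks' (E.map (red p i)) hEbar
  rw [← hr]
  set D : Matrix (Fin r ⊕ Fin s) (Fin r ⊕ Fin s) (ZMod (p ^ (i + 1))) :=
    fromBlocks 1 0 0 0 with hD
  set lift : ZMod p → ZMod (p ^ (i + 1)) := fun x => ((x.val : ℕ) : ZMod (p ^ (i + 1)))
    with hlift
  have hredlift : ∀ x, red p i (lift x) = x := fun x => red_surj x
  set P' := P.map lift with hP'
  set Q' := Q.map lift with hQ'
  have hP'' : P'.map (red p i) = P := by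
    ext a b; simp [hP', hredlift]
  have hQ'' : Q'.map (red p i) = Q := by
    ext a b; simp [hQ', hredlift]
  have h1 : (P' * Q').map (red p i) = (1 : Matrix (Fin n) (Fin n) _).map (red p i) := by
    rw [Matrix.map_mul, hP'', hQ'', hPQ]
    ext a b
    simp [Matrix.one_apply, apply_ite]
  obtain ⟨C, hC⟩ := congr_of_map_eq h1
  obtain ⟨u, hu⟩ := isUnit_one_add_nat_mul (p_pow_zero (p := p) (i := i)) C
  rw [← hC] at hu
  set V : Matrix (Fin n) (Fin n) (ZMod (p ^ (i + 1))) :=
    (↑u⁻¹ : Matrix (Fin n) (Fin n) (ZMod (p ^ (i + 1)))) with hV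
  have huV : P' * Q' * V = 1 := by rw [← hu, hV, Units.mul_inv]
  have hPQV : P' * (Q' * V) = 1 := by rw [← Matrix.mul_assoc]; exact huV
  have hQVP : (Q' * V) * P' = 1 := by
    rw [Matrix.mul_eq_one_comm_of_card_eq]
    · exact hPQV
    · rw [hcard]; simp
  have hVred : V.map (red p i) = 1 := by
    have h2 : (P' * Q' * V).map (red p i) = 1 := by
      rw [huV]; ext a b; simp [Matrix.one_apply, apply_ite]
    rw [Matrix.map_mul, h1] at h2
    have h3 : (1 : Matrix (Fin n) (Fin n) (ZMod (p ^ (i + 1)))).map (red p i) = 1 := by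
      ext a b; simp [Matrix.one_apply, apply_ite]
    rw [h3, one_mul] at h2
    exact h2
  have hDD : D * D = D := by
    rw [hD, Matrix.fromBlocks_multiply]; simp
  set E₂ := P' * D * (Q' * V) with hE₂
  have hE₂idem : E₂ * E₂ = E₂ := by
    rw [hE₂]
    calc P' * D * (Q' * V) * (P' * D * (Q' * V))
        = P' * D * ((Q' * V) * P') * D * (Q' * V) := by simp only [Matrix.mul_assoc]
      _ = _ := by rw [hQVP, Matrix.mul_one, Matrix.mul_assoc P' D D, hDD]
  have hred : E.map (red p i) = E₂.map (red p i) := by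
    have hDred : D.map (red p i) =
        (fromBlocks 1 0 0 0 : Matrix (Fin r ⊕ Fin s) (Fin r ⊕ Fin s) (ZMod p)) := by
      ext a b
      rcases a with a | a <;> rcases b with b | b <;>
        simp [hD, Matrix.one_apply, apply_ite]
    rw [hE₂, Matrix.map_mul, Matrix.map_mul, Matrix.map_mul, hP'', hQ'', hVred, hDred,
      Matrix.mul_one]
    exact hdec
  obtain ⟨C', hC'⟩ := congr_of_map_eq hred
  rw [trace_eq_of_idem_congr (p_pow_zero (p := p) (i := i)) hE hE₂idem hC']
  rw [hE₂, Matrix.mul_assoc, Matrix.trace_mul_comm, Matrix.mul_assoc, hQVP, Matrix.mul_one, hD]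
  rw [Matrix.trace, Fintype.sum_sum_type]
  simp [Matrix.diag]

end ZModPow

end Pool.Agent.Lib.MP_3c3661_al
end

section

/-!
Lifting of group homomorphisms modulo a central nilpotent element, for groups of invertible order.
-/

set_option autoImplicit false

namespace Pool.Agent.Lib.MP_3c3661_al

section Lift

variable {A : Type*} [Ring A] {G : Type*} [Group G] [Fintype G]

/-- An approximate homomorphism modulo `q ^ m` which reduces to `s₀` modulo `q`. -/
def ApproxHom (q : ℕ) (s₀ : G → A) (m : ℕ) (s : G → A) : Prop :=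
  (∀ g, ∃ a, s g = s₀ g + (q : A) * a) ∧
    ∀ g h, ∃ c, s (g * h) = s g * s h + (q : A) ^ m * c

omit [Fintype G] in
lemma isUnit_of_approx {q : ℕ} {N : ℕ} (hq : (q : A) ^ N = 0) {s₀ : G → A}
    (h1 : s₀ 1 = 1) {m : ℕ} (hm : 1 ≤ m) {s : G → A} (hs : ApproxHom q s₀ m s) (g : G) :
    IsUnit (s g) := by
  -- general fact: `1 + q * a` is a unit
  have key : ∀ a : A, IsUnit (1 + (q : A) * a) := by
    intro a
    apply IsNilpotent.isUnit_one_add
    refine ⟨N, ?_⟩
    rw [(Nat.cast_commute q a).mul_pow, hq, zero_mul]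
  have hone : ∃ a, s 1 = 1 + (q : A) * a := by
    obtain ⟨a, ha⟩ := hs.1 1
    exact ⟨a, by rw [ha, h1]⟩
  obtain ⟨a, ha⟩ := hone
  -- right inverse
  have hr : ∀ g, ∃ b, s g * s g⁻¹ = 1 + (q : A) * b := by
    intro g
    obtain ⟨c, hc⟩ := hs.2 g g⁻¹
    rw [mul_inv_cancel, ha] at hc
    refine ⟨a - (q : A) ^ (m - 1) * c, ?_⟩
    have : (q : A) ^ m = (q : A) * (q : A) ^ (m - 1) := by
      rw [← pow_succ']; congr 1; omega
    rw [this] at hc
    rw [mul_sub, ← mul_assoc, ← add_sub_assoc, hc]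
    abel
  have hR : ∀ g, ∃ b, s g * b = 1 := by
    intro g
    obtain ⟨b, hb⟩ := hr g
    obtain ⟨u, hu⟩ := key b
    refine ⟨s g⁻¹ * ↑u⁻¹, ?_⟩
    rw [← mul_assoc, hb, ← hu, Units.mul_inv]
  have hL : ∀ g, ∃ b, b * s g = 1 := by
    intro g
    obtain ⟨b, hb⟩ := hr g⁻¹
    rw [inv_inv] at hb
    obtain ⟨u, hu⟩ := key b
    refine ⟨↑u⁻¹ * s g⁻¹, ?_⟩
    rw [mul_assoc, hb, ← hu, Units.inv_mul]
  obtain ⟨b, hb⟩ := hR g
  obtain ⟨c, hc⟩ := hL g
  exact isUnit_iff_exists.2 ⟨b, hb, by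
    have : c = b := by
      calc c = c * (s g * b) := by rw [hb, mul_one]
        _ = b := by rw [← mul_assoc, hc, one_mul]
    rw [← this]; exact hc⟩

lemma approx_improve {q : ℕ} {N : ℕ} (hq : (q : A) ^ N = 0) {s₀ : G → A}
    (h1 : s₀ 1 = 1) (hcard : ∃ u : A, (Fintype.card G : A) * u = 1)
    {m : ℕ} (hm : 1 ≤ m) {s : G → A} (hs : ApproxHom q s₀ m s) :
    ∃ s' : G → A, ApproxHom q s₀ (m + 1) s' := by
  classical
  obtain ⟨u, hu⟩ := hcard
  have huc : ∀ a : A, Commute u a := by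
    intro a
    have h1' : u * (Fintype.card G : A) = 1 := by
      rw [(Nat.cast_commute (Fintype.card G) u).eq.symm, hu]
    have : u * a = a * u := by
      calc u * a = u * a * ((Fintype.card G : A) * u) := by rw [hu, mul_one]
        _ = u * (a * (Fintype.card G : A)) * u := by noncomm_ring
        _ = u * ((Fintype.card G : A) * a) * u := by
              rw [(Nat.cast_commute (Fintype.card G) a).eq]
        _ = (u * (Fintype.card G : A)) * a * u := by noncomm_ring
        _ = a * u := by rw [h1', one_mul]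
    exact this
  have hunit := isUnit_of_approx hq h1 hm hs
  choose v hv using hunit
  -- `c g h = s (g h) (s h)⁻¹`
  set c : G → G → A := fun g h => s (g * h) * ↑(v h)⁻¹ with hc
  have hcoc : ∀ g₁ g₂ h, c (g₁ * g₂) h = c g₁ (g₂ * h) * c g₂ h := by
    intro g₁ g₂ h
    simp only [hc]
    have : (↑(v (g₂ * h))⁻¹ : A) * s (g₂ * h) = 1 := by
      rw [← hv (g₂ * h), Units.inv_mul]
    calc s (g₁ * g₂ * h) * ↑(v h)⁻¹
        = s (g₁ * (g₂ * h)) * (↑(v (g₂ * h))⁻¹ * s (g₂ * h)) * ↑(v h)⁻¹ := by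
          rw [this, mul_one, mul_assoc g₁]
      _ = _ := by noncomm_ring
  have hcq : ∀ g h, ∃ d, c g h = s g + (q : A) ^ m * d := by
    intro g h
    obtain ⟨e, he⟩ := hs.2 g h
    refine ⟨e * ↑(v h)⁻¹, ?_⟩
    simp only [hc]
    rw [he, add_mul, mul_assoc (s g), ← hv h, Units.mul_inv, mul_one, mul_assoc]
  choose d hd using hcq
  set T : G → A := fun g => u * ∑ h, c g h with hT
  have hucard : ∀ a : A, u * ((Fintype.card G : A) * a) = a := by
    intro a
    rw [← mul_assoc, (huc _).eq, hu, one_mul]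
  have hTs : ∀ g, T g = s g + (q : A) ^ m * (u * ∑ h, d g h) := by
    intro g
    simp only [hT]
    have : ∑ h, c g h = (Fintype.card G : A) * s g + (q : A) ^ m * ∑ h, d g h := by
      rw [Finset.mul_sum, ← nsmul_eq_mul]
      have h2 : Fintype.card G • s g = ∑ _h : G, s g := by simp
      rw [h2, ← Finset.sum_add_distrib]
      exact Finset.sum_congr rfl fun h _ => hd g h
    rw [this, mul_add, hucard, ← mul_assoc, (huc _).eq, mul_assoc]
  set ε : G → G → A := fun g h => c g h - T g with hε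
  have hεsum : ∀ g, ∑ h, ε g h = 0 := by
    intro g
    simp only [hε, Finset.sum_sub_distrib]
    rw [Finset.sum_const, nsmul_eq_mul]
    simp only [hT]
    rw [Finset.card_univ, ← mul_assoc, hu, one_mul, sub_self]
  have hεsum' : ∀ g k, ∑ h, ε g (k * h) = 0 := by
    intro g k
    rw [← hεsum g]
    exact Fintype.sum_equiv (Equiv.mulLeft k) _ _ (fun h => by simp)
  have hεq : ∀ g h, ∃ e, ε g h = (q : A) ^ m * e := by
    intro g h
    refine ⟨d g h - u * ∑ h, d g h, ?_⟩
    simp only [hε]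
    rw [hTs, hd]
    noncomm_ring
  choose e he using hεq
  refine ⟨T, ⟨?_, ?_⟩⟩
  · intro g
    obtain ⟨a, ha⟩ := hs.1 g
    refine ⟨a + (q : A) ^ (m - 1) * (u * ∑ h, d g h), ?_⟩
    have : (q : A) ^ m = (q : A) * (q : A) ^ (m - 1) := by
      rw [← pow_succ']; congr 1; omega
    rw [hTs, ha, this]
    noncomm_ring
  · intro g₁ g₂
    refine ⟨(q : A) ^ (m - 1) * (u * ∑ h, e g₁ (g₂ * h) * e g₂ h), ?_⟩
    have hexp : T (g₁ * g₂) = T g₁ * T g₂ + u * ∑ h, ε g₁ (g₂ * h) * ε g₂ h := by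
      have hh : ∀ h, c (g₁ * g₂) h = T g₁ * T g₂ + T g₁ * ε g₂ h + ε g₁ (g₂ * h) * T g₂
          + ε g₁ (g₂ * h) * ε g₂ h := by
        intro h
        rw [hcoc]
        simp only [hε]
        noncomm_ring
      have hsum : ∑ h, c (g₁ * g₂) h = (Fintype.card G : A) * (T g₁ * T g₂)
          + ∑ h, ε g₁ (g₂ * h) * ε g₂ h := by
        have e1 : ∑ h, T g₁ * ε g₂ h = 0 := by rw [← Finset.mul_sum, hεsum, mul_zero]
        have e2 : ∑ h, ε g₁ (g₂ * h) * T g₂ = 0 := by rw [← Finset.sum_mul, hεsum', zero_mul]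
        have e3 : ∑ _h : G, T g₁ * T g₂ = (Fintype.card G : A) * (T g₁ * T g₂) := by
          rw [Finset.sum_const, nsmul_eq_mul, Finset.card_univ]
        rw [Finset.sum_congr rfl fun h _ => hh h]
        rw [Finset.sum_add_distrib, Finset.sum_add_distrib, Finset.sum_add_distrib, e1, e2, e3,
          add_zero, add_zero]
      calc T (g₁ * g₂) = u * ∑ h, c (g₁ * g₂) h := rfl
        _ = _ := by rw [hsum, mul_add, hucard]
    have h2 : ∑ h, ε g₁ (g₂ * h) * ε g₂ h
        = (q : A) ^ m * (q : A) ^ m * ∑ h, e g₁ (g₂ * h) * e g₂ h := by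
      rw [Finset.mul_sum]
      refine Finset.sum_congr rfl fun h _ => ?_
      rw [he, he]
      have hcomm : Commute ((q : A) ^ m) (e g₁ (g₂ * h)) := (Nat.cast_commute q _).pow_left m
      calc (q : A) ^ m * e g₁ (g₂ * h) * ((q : A) ^ m * e g₂ h)
          = (q : A) ^ m * (e g₁ (g₂ * h) * (q : A) ^ m) * e g₂ h := by noncomm_ring
        _ = (q : A) ^ m * ((q : A) ^ m * e g₁ (g₂ * h)) * e g₂ h := by rw [hcomm.eq]
        _ = _ := by noncomm_ring
    rw [hexp, h2]
    congr 1
    have h3 : (q : A) ^ m * (q : A) ^ m = (q : A) ^ (m + 1) * (q : A) ^ (m - 1) := by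
      rw [← pow_add, ← pow_add]; congr 1; omega
    rw [h3]
    calc u * ((q : A) ^ (m + 1) * (q : A) ^ (m - 1) * ∑ h, e g₁ (g₂ * h) * e g₂ h)
        = (u * (q : A) ^ (m + 1)) * ((q : A) ^ (m - 1) * ∑ h, e g₁ (g₂ * h) * e g₂ h) := by
          noncomm_ring
      _ = ((q : A) ^ (m + 1) * u) * ((q : A) ^ (m - 1) * ∑ h, e g₁ (g₂ * h) * e g₂ h) := by
          rw [(huc _).eq]
      _ = (q : A) ^ (m + 1) * ((u * (q : A) ^ (m - 1)) * ∑ h, e g₁ (g₂ * h) * e g₂ h) := by
          noncomm_ring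
      _ = (q : A) ^ (m + 1) * (((q : A) ^ (m - 1) * u) * ∑ h, e g₁ (g₂ * h) * e g₂ h) := by
          rw [(huc _).eq]
      _ = _ := by noncomm_ring

/-- If `q` is nilpotent in `A` and `|G|` is invertible in `A`, every map `s₀ : G → A` which is
multiplicative modulo `q` is congruent modulo `q` to a homomorphism. -/
theorem exists_lift {q : ℕ} {N : ℕ} (hq : (q : A) ^ N = 0) {s₀ : G → A}
    (h1 : s₀ 1 = 1) (hcard : ∃ u : A, (Fintype.card G : A) * u = 1)
    (hs₀ : ∀ g h, ∃ c, s₀ (g * h) = s₀ g * s₀ h + (q : A) * c) :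
    ∃ ρ : G →* A, ∀ g, ∃ a, ρ g = s₀ g + (q : A) * a := by
  have hind : ∀ m : ℕ, ∃ s : G → A, ApproxHom q s₀ (m + 1) s := by
    intro m
    induction m with
    | zero =>
      refine ⟨s₀, fun g => ⟨0, by simp⟩, fun g h => ?_⟩
      simpa using hs₀ g h
    | succ m ih =>
      obtain ⟨s, hs⟩ := ih
      exact approx_improve hq h1 hcard (by omega) hs
  obtain ⟨s, hs⟩ := hind N
  have hmul : ∀ g h, s (g * h) = s g * s h := by
    intro g h
    obtain ⟨c, hc⟩ := hs.2 g h
    rw [hc, pow_succ, hq]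
    simp
  have hone : s 1 = 1 := by
    have hu := isUnit_of_approx hq h1 (by omega) hs 1
    have := hmul 1 1
    rw [mul_one] at this
    exact (hu.mul_left_cancel (by rw [mul_one]; exact this)).symm
  exact ⟨⟨⟨s, hone⟩, hmul⟩, hs.1⟩

end Lift

end Pool.Agent.Lib.MP_3c3661_al
end

section

/-!
Almost conjugate subgroups of a finite `p'`-group have fixed spaces of the same dimension in every
`ZMod p`-representation.
-/

set_option autoImplicit false

namespace Pool.Agent.Lib.MP_3c3661_al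

open Matrix

variable {p : ℕ} [Fact p.Prime]

section Fixed

variable {G : Type*} [Group G] {M : Type*} [AddCommGroup M] [Module (ZMod p) M]

/-- The vectors fixed by the subgroup `Γ`. -/
def fixedBy (σ : G →* (M →ₗ[ZMod p] M)) (Γ : Subgroup G) : Submodule (ZMod p) M where
  carrier := {v | ∀ g ∈ Γ, σ g v = v}
  add_mem' := by
    intro a b ha hb g hg
    rw [map_add, ha g hg, hb g hg]
  zero_mem' := by intro g _; rw [map_zero]
  smul_mem' := by
    intro c v hv g hg
    rw [map_smul, hv g hg]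

lemma mem_fixedBy {σ : G →* (M →ₗ[ZMod p] M)} {Γ : Subgroup G} {v : M} :
    v ∈ fixedBy σ Γ ↔ ∀ g ∈ Γ, σ g v = v := Iff.rfl

/-- the average over a finite subgroup -/
noncomputable def avg (σ : G →* (M →ₗ[ZMod p] M)) (Γ : Subgroup G) [Fintype Γ] : M →ₗ[ZMod p] M :=
  ((Fintype.card Γ : ZMod p)⁻¹) • ∑ γ : Γ, σ (γ : G)

lemma range_avg (σ : G →* (M →ₗ[ZMod p] M)) (Γ : Subgroup G) [Fintype Γ]
    (h : (Fintype.card Γ : ZMod p) ≠ 0) : LinearMap.range (avg σ Γ) = fixedBy σ Γ := by
  apply le_antisymm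
  · rintro _ ⟨v, rfl⟩ g hg
    simp only [avg, LinearMap.smul_apply, map_smul, LinearMap.sum_apply, map_sum]
    congr 1
    refine Fintype.sum_equiv (Equiv.mulLeft (⟨g, hg⟩ : Γ)) _ _ (fun γ => ?_)
    simp [map_mul]
  · intro v hv
    refine ⟨v, ?_⟩
    simp only [avg, LinearMap.smul_apply, LinearMap.sum_apply]
    have h1 : ∑ γ : Γ, (σ (γ : G)) v = ∑ _γ : Γ, v :=
      Finset.sum_congr rfl fun γ _ => hv (γ : G) γ.2
    rw [h1, Finset.sum_const, Finset.card_univ, ← Nat.cast_smul_eq_nsmul (ZMod p), smul_smul,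
      inv_mul_cancel₀ h, one_smul]

end Fixed

section Main

variable {G : Type*} [Group G] [Fintype G] {M : Type*} [AddCommGroup M] [Module (ZMod p) M]
  [Module.Finite (ZMod p) M]

/-- Lifting a representation of a `p'`-group modulo `p ^ (i+1)`. -/
theorem exists_lift_rep (hG : (Fintype.card G).Coprime p) {n : ℕ} (i : ℕ)
    (ρ : G →* Matrix (Fin n) (Fin n) (ZMod p)) :
    ∃ ρ' : G →* Matrix (Fin n) (Fin n) (ZMod (p ^ (i + 1))), ∀ g, (ρ' g).map (red p i) = ρ g := by
  classical
  set lift : ZMod p → ZMod (p ^ (i + 1)) := fun x => ((x.val : ℕ) : ZMod (p ^ (i + 1)))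
    with hlift
  have hredlift : ∀ x, red p i (lift x) = x := fun x => red_surj x
  have hl0 : lift 0 = 0 := by simp [hlift]
  have hp1 : 1 < p := (Fact.out : p.Prime).one_lt
  have hl1 : lift 1 = 1 := by
    have : Fact (1 < p) := ⟨hp1⟩
    show ((ZMod.val (1 : ZMod p) : ℕ) : ZMod (p ^ (i + 1))) = 1
    rw [ZMod.val_one, Nat.cast_one]
  have hcast : ∀ C : Matrix (Fin n) (Fin n) (ZMod (p ^ (i + 1))),
      ((p : ℕ) : ZMod (p ^ (i + 1))) • C =
        ((p : ℕ) : Matrix (Fin n) (Fin n) (ZMod (p ^ (i + 1)))) * C := by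
    intro C
    rw [Nat.cast_smul_eq_nsmul, nsmul_eq_mul]
  have hq : ((p : ℕ) : Matrix (Fin n) (Fin n) (ZMod (p ^ (i + 1)))) ^ (i + 1) = 0 := by
    have : ((p : ℕ) : Matrix (Fin n) (Fin n) (ZMod (p ^ (i + 1)))) =
        algebraMap (ZMod (p ^ (i + 1))) _ ((p : ℕ) : ZMod (p ^ (i + 1))) := by
      rw [map_natCast]
    rw [this, ← map_pow, p_pow_zero, map_zero]
  have hcard : ∃ u : Matrix (Fin n) (Fin n) (ZMod (p ^ (i + 1))),
      ((Fintype.card G : ℕ) : Matrix (Fin n) (Fin n) (ZMod (p ^ (i + 1)))) * u = 1 := by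
    have hc : IsUnit ((Fintype.card G : ℕ) : ZMod (p ^ (i + 1))) := by
      rw [ZMod.isUnit_iff_coprime]
      exact hG.pow_right _
    obtain ⟨u, hu⟩ := hc.exists_right_inv
    refine ⟨algebraMap _ _ u, ?_⟩
    have : ((Fintype.card G : ℕ) : Matrix (Fin n) (Fin n) (ZMod (p ^ (i + 1)))) =
        algebraMap (ZMod (p ^ (i + 1))) _ ((Fintype.card G : ℕ) : ZMod (p ^ (i + 1))) := by
      rw [map_natCast]
    rw [this, ← map_mul, hu, map_one]
  obtain ⟨ρ', hρ'⟩ := exists_lift (A := Matrix (Fin n) (Fin n) (ZMod (p ^ (i + 1)))) (G := G)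
    (q := p) (N := i + 1) hq (s₀ := fun g => (ρ g).map lift) (by
      simp only [map_one]
      exact Matrix.map_one lift hl0 hl1) hcard (by
      intro g h
      have : ((ρ (g * h)).map lift).map (red p i) =
          ((ρ g).map lift * (ρ h).map lift).map (red p i) := by
        rw [Matrix.map_mul]
        have : ∀ g, ((ρ g).map lift).map (red p i) = ρ g := by
          intro g; ext a b; simp [hredlift]
        rw [this, this, this, map_mul]
      obtain ⟨C, hC⟩ := congr_of_map_eq this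
      exact ⟨C, by rw [hC, hcast]⟩)
  refine ⟨ρ', fun g => ?_⟩
  obtain ⟨a, ha⟩ := hρ' g
  rw [ha, ← hcast]
  ext x y
  simp [hredlift, Matrix.map_apply, map_mul]

/-- **Almost conjugate subgroups have fixed spaces of equal dimension.** -/
theorem finrank_fixedBy_eq (hG : (Fintype.card G).Coprime p) (σ : G →* (M →ₗ[ZMod p] M))
    (Γ Γ' : Subgroup G) (φ : Γ ≃ Γ') (hφ : ∀ γ : Γ, ∃ h : G, h * (γ : G) * h⁻¹ = (φ γ : G)) :
    Module.finrank (ZMod p) (fixedBy σ Γ) = Module.finrank (ZMod p) (fixedBy σ Γ') := by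
  classical
  set n := Module.finrank (ZMod p) M with hn
  let b : Module.Basis (Fin n) (ZMod p) M := Module.finBasis (ZMod p) M
  let ρ : G →* Matrix (Fin n) (Fin n) (ZMod p) :=
    { toFun := fun g => LinearMap.toMatrix b b (σ g)
      map_one' := by rw [map_one]; exact LinearMap.toMatrix_one b
      map_mul' := fun g h => by rw [map_mul]; exact LinearMap.toMatrix_mul b _ _ }
  have hρ : ∀ g, ρ g = LinearMap.toMatrix b b (σ g) := fun g => rfl
  obtain ⟨ρ', hρ'⟩ := exists_lift_rep hG n ρ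
  set R := ZMod (p ^ (n + 1)) with hR
  have key : ∀ Δ : Subgroup G, ∀ u : R, u * (Fintype.card Δ : R) = 1 →
      u * ∑ δ : Δ, (ρ' (δ : G)).trace =
        ((Module.finrank (ZMod p) (fixedBy σ Δ) : ℕ) : R) := by
    intro Δ u hu
    set E : Matrix (Fin n) (Fin n) R := u • ∑ δ : Δ, ρ' (δ : G) with hE
    have hmul : ∀ δ : Δ, ρ' (δ : G) * ∑ δ : Δ, ρ' (δ : G) = ∑ δ : Δ, ρ' (δ : G) := by
      intro δ
      rw [Finset.mul_sum]
      refine Fintype.sum_equiv (Equiv.mulLeft δ) _ _ (fun γ => ?_)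
      simp [map_mul]
    have hEE : E * E = E := by
      rw [hE, smul_mul_smul_comm, Finset.sum_mul, Finset.sum_congr rfl fun δ _ => hmul δ,
        Finset.sum_const, Finset.card_univ, ← Nat.cast_smul_eq_nsmul R, smul_smul, mul_assoc, hu,
        mul_one]
    have htr : E.trace = u * ∑ δ : Δ, (ρ' (δ : G)).trace := by
      rw [hE, Matrix.trace_smul, Matrix.trace_sum, smul_eq_mul]
    rw [← htr, trace_idem_eq_rank E hEE]
    congr 1
    have hcardΔ : (Fintype.card Δ : ZMod p) ≠ 0 := by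
      intro h0
      have := congrArg (red p n) hu
      rw [map_mul, map_natCast, h0, mul_zero, map_one] at this
      exact zero_ne_one this
    have hEred : E.map (red p n) = LinearMap.toMatrix b b (avg σ Δ) := by
      have hured : red p n u = (Fintype.card Δ : ZMod p)⁻¹ := by
        have := congrArg (red p n) hu
        rw [map_mul, map_natCast, map_one] at this
        exact eq_inv_of_mul_eq_one_left this
      have h1 : (∑ δ : Δ, ρ' (δ : G)).map (red p n) = ∑ δ : Δ, ρ (δ : G) := by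
        have : (∑ δ : Δ, ρ' (δ : G)).map (red p n) = ∑ δ : Δ, (ρ' (δ : G)).map (red p n) := by
          ext x y
          simp [Matrix.sum_apply]
        rw [this]
        exact Finset.sum_congr rfl fun δ _ => hρ' _
      have h2 : E.map (red p n) = (red p n u) • (∑ δ : Δ, ρ' (δ : G)).map (red p n) := by
        ext x y
        simp [hE]
      rw [h2, h1, hured, avg]
      rw [map_smul, map_sum]
      rfl
    rw [hEred]
    rw [Matrix.rank_eq_finrank_range_toLin _ b b, Matrix.toLin_toMatrix, range_avg σ Δ hcardΔ]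
  have hcardeq : Fintype.card Γ = Fintype.card Γ' := Fintype.card_congr φ
  have hunit : IsUnit ((Fintype.card Γ : ℕ) : R) := by
    rw [ZMod.isUnit_iff_coprime]
    have : Fintype.card Γ ∣ Fintype.card G := by
      rw [← Nat.card_eq_fintype_card, ← Nat.card_eq_fintype_card]
      exact Subgroup.card_subgroup_dvd_card Γ
    exact (Nat.Coprime.coprime_dvd_left this hG).pow_right _
  obtain ⟨u, hu⟩ := hunit.exists_left_inv
  have h1 := key Γ u hu
  have h2 := key Γ' u (by rw [← hcardeq]; exact hu)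
  have h3 : ∑ δ : Γ, (ρ' (δ : G)).trace = ∑ δ : Γ', (ρ' (δ : G)).trace := by
    refine Fintype.sum_equiv φ _ _ (fun γ => ?_)
    obtain ⟨h, hh⟩ := hφ γ
    rw [← hh, map_mul, map_mul, Matrix.trace_mul_cycle, ← map_mul, inv_mul_cancel, map_one,
      Matrix.one_mul]
  rw [h3, h2] at h1
  have hle : ∀ Δ : Subgroup G, Module.finrank (ZMod p) (fixedBy σ Δ) < p ^ (n + 1) := by
    intro Δ
    have h4 : Module.finrank (ZMod p) (fixedBy σ Δ) ≤ n := Submodule.finrank_le _
    have h5 : n < p ^ n := Nat.lt_pow_self (Fact.out : p.Prime).one_lt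
    have h6 : p ^ n ≤ p ^ (n + 1) := Nat.pow_le_pow_right (Fact.out : p.Prime).pos (by omega)
    omega
  have h7 := (ZMod.natCast_eq_natCast_iff' _ _ _).1 h1
  rw [Nat.mod_eq_of_lt (hle _), Nat.mod_eq_of_lt (hle _)] at h7
  exact h7.symm

end Main

end Pool.Agent.Lib.MP_3c3661_al
end
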