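import Mathlib
import Pool.Agent.Lib.MP_3c3661_al.Gassmann

/-!
Spectral invariance on fixed spaces.
-/

set_option autoImplicit false

namespace Pool.Agent.Lib.MP_3c3661_al

variable {p : ℕ} [Fact p.Prime]

section Grp

variable {H : Type*} [Group H]

lemma zpow_conj_mem {C : Subgroup H} {x : H} (hx : x ∈ Subgroup.normalizer (C : Set H)) (j : ℤ)
    {c : H} (hc : c ∈ C) : x ^ j * c * (x ^ j)⁻¹ ∈ C :=
  (Subgroup.mem_normalizer_iff.1 (Subgroup.zpow_mem _ hx j) c).1 hc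

lemma exists_pow_mul {C : Subgroup H} {x : H} (hx : x ∈ Subgroup.normalizer (C : Set H))
    {c : H} (hc : c ∈ C) (j : ℤ) (n : ℕ) : ∃ c' ∈ C, (c * x ^ j) ^ n = c' * x ^ (j * n) := by
  induction n with
  | zero => exact ⟨1, C.one_mem, by simp⟩
  | succ n ih =>
    obtain ⟨c', hc', h⟩ := ih
    refine ⟨c' * (x ^ (j * n) * c * (x ^ (j * n))⁻¹), C.mul_mem hc' (zpow_conj_mem hx _ hc), ?_⟩
    rw [pow_succ, h]
    have : j * ((n + 1 : ℕ) : ℤ) = j * n + j := by push_cast; ring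
    rw [this, zpow_add]
    group

end Grp

section Twist

variable {H : Type*} [Group H] {V : Type*} [AddCommGroup V] [Module (ZMod p) V]
  {S : Type*} [AddCommGroup S] [Module (ZMod p) S]

/-- The action of `H × A` on `Hom(S, V)`, where `A` is generated by an automorphism of `S`. -/
def homRep (ρ : H →* (V →ₗ[ZMod p] V)) (a : S ≃ₗ[ZMod p] S) :
    (H × Subgroup.zpowers a) →* ((S →ₗ[ZMod p] V) →ₗ[ZMod p] (S →ₗ[ZMod p] V)) where
  toFun g :=
    { toFun := fun L => (ρ g.1) ∘ₗ L ∘ₗ (((g.2 : S ≃ₗ[ZMod p] S)⁻¹ : S ≃ₗ[ZMod p] S) : S →ₗ[ZMod p] S)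
      map_add' := by intro L L'; ext v; simp
      map_smul' := by intro c L; ext v; simp }
  map_one' := by ext L v; simp
  map_mul' := by
    intro g h
    ext L v
    simp

lemma homRep_apply (ρ : H →* (V →ₗ[ZMod p] V)) (a : S ≃ₗ[ZMod p] S)
    (g : H × Subgroup.zpowers a) (L : S →ₗ[ZMod p] V) (v : S) :
    homRep ρ a g L v = ρ g.1 (L ((g.2 : S ≃ₗ[ZMod p] S)⁻¹ v)) := rfl

/-- The graph subgroup. -/
def graphSub (C : Subgroup H) {x : H} (hx : x ∈ Subgroup.normalizer (C : Set H))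
    (a : S ≃ₗ[ZMod p] S) (u : ℤ) : Subgroup (H × Subgroup.zpowers a) where
  carrier := {g | ∃ c ∈ C, ∃ j : ℤ, g.1 = c * x ^ j ∧ (g.2 : S ≃ₗ[ZMod p] S) = a ^ (u * j)}
  mul_mem' := by
    rintro g h ⟨c, hc, j, h1, h2⟩ ⟨c', hc', j', h1', h2'⟩
    refine ⟨c * (x ^ j * c' * (x ^ j)⁻¹), C.mul_mem hc (zpow_conj_mem hx j hc'), j + j', ?_, ?_⟩
    · rw [Prod.fst_mul, h1, h1', zpow_add]; group
    · rw [Prod.snd_mul, Subgroup.coe_mul, h2, h2', ← zpow_add]; congr 1; ring
  one_mem' := ⟨1, C.one_mem, 0, by simp, by simp⟩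
  inv_mem' := by
    rintro g ⟨c, hc, j, h1, h2⟩
    refine ⟨x ^ (-j) * c⁻¹ * (x ^ (-j))⁻¹, zpow_conj_mem hx (-j) (C.inv_mem hc), -j, ?_, ?_⟩
    · rw [Prod.fst_inv, h1]; group
    · rw [Prod.snd_inv, Subgroup.coe_inv, h2, ← zpow_neg]; congr 1; ring

/-- Linear maps `S → V^C` intertwining `a ^ u` with `x`. -/
def twistHom (ρ : H →* (V →ₗ[ZMod p] V)) (C : Subgroup H) (x : H) (a : S ≃ₗ[ZMod p] S) (u : ℕ) :
    Submodule (ZMod p) (S →ₗ[ZMod p] V) where
  carrier := {L | (∀ c ∈ C, ∀ v, ρ c (L v) = L v) ∧ ∀ v, ρ x (L v) = L ((a ^ u) v)}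
  add_mem' := by
    rintro L L' ⟨h1, h2⟩ ⟨h1', h2'⟩
    refine ⟨fun c hc v => ?_, fun v => ?_⟩
    · simp only [LinearMap.add_apply, map_add]; rw [h1 c hc, h1' c hc]
    · simp only [LinearMap.add_apply, map_add]; rw [h2, h2']
  zero_mem' := by
    refine ⟨fun c hc v => ?_, fun v => ?_⟩ <;> simp
  smul_mem' := by
    rintro t L ⟨h1, h2⟩
    refine ⟨fun c hc v => ?_, fun v => ?_⟩
    · simp only [LinearMap.smul_apply, map_smul]; rw [h1 c hc]
    · simp only [LinearMap.smul_apply, map_smul]; rw [h2]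

lemma fixedBy_graphSub (ρ : H →* (V →ₗ[ZMod p] V)) (C : Subgroup H) {x : H}
    (hx : x ∈ Subgroup.normalizer (C : Set H)) (a : S ≃ₗ[ZMod p] S) (u : ℕ) :
    fixedBy (homRep ρ a) (graphSub C hx a u) = twistHom ρ C x a u := by
  ext L
  constructor
  · intro h
    refine ⟨fun c hc v => ?_, fun v => ?_⟩
    · have := h (c, 1) ⟨c, hc, 0, by simp, by simp⟩
      have := LinearMap.congr_fun this v
      rw [homRep_apply] at this
      simpa using this
    · have := h (x, ⟨a ^ (u : ℤ), u, rfl⟩) ⟨1, C.one_mem, 1, by simp, by simp⟩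
      have := LinearMap.congr_fun this ((a ^ u) v)
      rw [homRep_apply] at this
      rw [← this]
      congr 2
      show v = (a ^ (u : ℤ))⁻¹ ((a ^ u) v)
      rw [zpow_natCast, ← LinearEquiv.mul_apply, inv_mul_cancel]
      rfl
  · rintro ⟨h1, h2⟩ g ⟨c, hc, j, hg1, hg2⟩
    -- first, `x ^ j` acts as `a ^ (u * j)`
    have hj : ∀ j : ℤ, ∀ v, ρ (x ^ j) (L v) = L ((a ^ (u * j)) v) := by
      intro j
      induction j using Int.induction_on with
      | zero => intro v; simp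
      | succ i ih =>
        intro v
        rw [zpow_add_one, map_mul]
        show ρ (x ^ (i : ℤ)) (ρ x (L v)) = _
        rw [h2, ih, ← LinearEquiv.mul_apply, ← zpow_natCast a u, ← zpow_add]
        congr 3
      | pred i ih =>
        intro v
        have e1 : L v = ρ x (L ((a ^ (-(u : ℤ))) v)) := by
          rw [h2, ← LinearEquiv.mul_apply, ← zpow_natCast a u, ← zpow_add]
          simp
        have e2 : ρ (x ^ (-(i : ℤ) - 1)) (L v)
            = ρ (x ^ (-(i : ℤ))) (L ((a ^ (-(u : ℤ))) v)) := by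
          rw [e1]
          show (ρ (x ^ (-(i : ℤ) - 1)) * ρ x) _ = _
          rw [← map_mul, zpow_sub_one, inv_mul_cancel_right]
        rw [e2, ih, ← LinearEquiv.mul_apply, ← zpow_add]
        congr 3
        ring
    ext v
    rw [homRep_apply, hg1, hg2, map_mul]
    show ρ c (ρ (x ^ j) (L _)) = _
    rw [hj, h1 c hc]
    congr 1
    rw [← LinearEquiv.mul_apply, mul_inv_cancel]
    rfl

variable [Finite H] [Module.Finite (ZMod p) V] [Module.Finite (ZMod p) S]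

/-- **Spectral invariance.** -/
theorem finrank_twistHom (ρ : H →* (V →ₗ[ZMod p] V)) (hH : (Nat.card H).Coprime p)
    (C : Subgroup H) {x : H} (hx : x ∈ Subgroup.normalizer (C : Set H))
    (a : S ≃ₗ[ZMod p] S) (ha : a ^ (Nat.card H) = 1) {J : ℕ} (hJ : J.Coprime (Nat.card H))
    (hconj : ∀ h : H, ∃ g : H, g * h * g⁻¹ = h ^ J) :
    Module.finrank (ZMod p) (twistHom ρ C x a J) = Module.finrank (ZMod p) (twistHom ρ C x a 1) := by
  classical
  have : Fintype H := Fintype.ofFinite H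
  have hfin : IsOfFinOrder a := isOfFinOrder_iff_pow_eq_one.2 ⟨Nat.card H, Nat.card_pos, ha⟩
  have hfz : Finite (Subgroup.zpowers a) := (finite_zpowers.2 hfin).to_subtype
  have : Fintype (Subgroup.zpowers a) := Fintype.ofFinite _
  have hoa : orderOf a ∣ Nat.card H := orderOf_dvd_of_pow_eq_one ha
  have hcop : (Fintype.card (H × Subgroup.zpowers a)).Coprime p := by
    rw [Fintype.card_prod, ← Nat.card_eq_fintype_card, ← Nat.card_eq_fintype_card, Nat.card_zpowers]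
    exact Nat.Coprime.mul_left hH (Nat.Coprime.coprime_dvd_left hoa hH)
  -- inverse exponent
  obtain ⟨J', hJ'⟩ : ∃ J' : ℕ, J * J' ≡ 1 [MOD Nat.card H] := by
    have : NeZero (Nat.card H) := ⟨Nat.card_pos.ne'⟩
    refine ⟨((ZMod.unitOfCoprime J hJ)⁻¹ : (ZMod (Nat.card H))ˣ).val.val, ?_⟩
    rw [← ZMod.natCast_eq_natCast_iff]
    push_cast
    rw [ZMod.natCast_val, ZMod.cast_id', id]
    have h := Units.mul_inv (ZMod.unitOfCoprime J hJ)
    rwa [ZMod.coe_unitOfCoprime] at h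
  have hpow : ∀ y : H, y ^ (J * J') = y := by
    intro y
    have : y ^ (J * J') = y ^ 1 := by
      rw [pow_eq_pow_iff_modEq]
      exact hJ'.of_dvd (orderOf_dvd_natCard y)
    rwa [pow_one] at this
  have hpowa : ∀ j : ℤ, a ^ (J * (j * J') : ℤ) = a ^ j := by
    intro j
    rw [zpow_eq_zpow_iff_modEq]
    have h1 : ((J * J' : ℕ) : ℤ) ≡ 1 [ZMOD (orderOf a : ℤ)] :=
      (Int.natCast_modEq_iff.2 (hJ'.of_dvd hoa))
    have h2 := h1.mul_right j
    push_cast at h2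
    calc (J : ℤ) * (j * J') = J * J' * j := by ring
      _ ≡ 1 * j [ZMOD (orderOf a : ℤ)] := h2
      _ = j := one_mul j
  rw [← fixedBy_graphSub ρ C hx a J, ← fixedBy_graphSub ρ C hx a 1]
  have hto : ∀ g ∈ graphSub C hx a J, ((g.1 ^ J, g.2) : H × Subgroup.zpowers a) ∈
      graphSub C hx a 1 := by
    rintro g ⟨c, hc, j, h1, h2⟩
    obtain ⟨c', hc', h3⟩ := exists_pow_mul hx hc j J
    refine ⟨c', hc', j * J, ?_, ?_⟩
    · show g.1 ^ J = _
      rw [h1, h3]
    · show (g.2 : S ≃ₗ[ZMod p] S) = _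
      rw [h2]; congr 1; ring
  have hinv : ∀ g ∈ graphSub C hx a 1, ((g.1 ^ J', g.2) : H × Subgroup.zpowers a) ∈
      graphSub C hx a J := by
    rintro g ⟨c, hc, j, h1, h2⟩
    obtain ⟨c', hc', h3⟩ := exists_pow_mul hx hc j J'
    refine ⟨c', hc', j * J', ?_, ?_⟩
    · show g.1 ^ J' = _
      rw [h1, h3]
    · show (g.2 : S ≃ₗ[ZMod p] S) = _
      rw [h2, hpowa]; congr 1; ring
  let φ : graphSub C hx a J ≃ graphSub C hx a 1 :=
    { toFun := fun g => ⟨(g.1.1 ^ J, g.1.2), hto g.1 g.2⟩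
      invFun := fun g => ⟨(g.1.1 ^ J', g.1.2), hinv g.1 g.2⟩
      left_inv := by
        intro g
        apply Subtype.ext
        apply Prod.ext
        · show (g.1.1 ^ J) ^ J' = g.1.1
          rw [← pow_mul, hpow]
        · rfl
      right_inv := by
        intro g
        apply Subtype.ext
        apply Prod.ext
        · show (g.1.1 ^ J') ^ J = g.1.1
          rw [← pow_mul, mul_comm, hpow]
        · rfl }
  refine finrank_fixedBy_eq hcop (homRep ρ a) _ _ φ ?_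
  intro γ
  obtain ⟨g, hg⟩ := hconj γ.1.1
  refine ⟨(g, 1), ?_⟩
  apply Prod.ext
  · show g * γ.1.1 * g⁻¹ = γ.1.1 ^ J
    exact hg
  · show 1 * γ.1.2 * 1⁻¹ = γ.1.2
    simp

end Twist

end Pool.Agent.Lib.MP_3c3661_al
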