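import Mathlib
import Pool.Agent.Lib.MP_3c3661_al.Twist

section

/-!
Finite groups acting freely on the nonzero vectors of a vector space.
-/

set_option autoImplicit false

namespace Pool.Agent.Lib.MP_3c3661_al

section Cyclic

variable {F : Type*} [Field F] {W : Type*} [AddCommGroup W] [Module F W]

/-- A finite abelian group acting freely on the nonzero vectors is cyclic. -/
theorem isCyclic_of_free {A : Type*} [CommGroup A] [Finite A] [Nontrivial W]
    (τ : A →* (W →ₗ[F] W)) (hfree : ∀ a : A, ∀ w : W, w ≠ 0 → τ a w = w → a = 1) :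
    IsCyclic A := by
  let ρ : Representation F A W := τ
  have hN : IsNoetherianRing (MonoidAlgebra F A) := by
    have : Module.Finite F (MonoidAlgebra F A) := inferInstance
    exact isNoetherian_of_tower F inferInstance
  have : Nontrivial ρ.asModule := inferInstanceAs (Nontrivial W)
  obtain ⟨I, hI⟩ := associatedPrimes.nonempty (MonoidAlgebra F A) ρ.asModule
  obtain ⟨hprime, f, hf⟩ := (isAssociatedPrime_iff_exists_injective_linearMap I ρ.asModule).1 hI
  have : IsDomain (MonoidAlgebra F A ⧸ I) := Ideal.Quotient.isDomain I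
  let g : A →* (MonoidAlgebra F A ⧸ I) :=
    (Ideal.Quotient.mk I : MonoidAlgebra F A →* _).comp (MonoidAlgebra.of F A)
  apply isCyclic_of_injective_ringHom g
  rw [injective_iff_map_eq_one]
  intro a ha
  set w : ρ.asModule := f 1 with hw
  have hw0 : w ≠ 0 := by
    intro h0
    have : f 1 = f 0 := by rw [map_zero, ← h0]
    exact one_ne_zero (hf this)
  have h1 : MonoidAlgebra.of F A a • w = w := by
    have h0 : MonoidAlgebra.of F A a • (1 : MonoidAlgebra F A ⧸ I) = 1 := by
      rw [Algebra.smul_def, mul_one]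
      exact ha
    have : f (MonoidAlgebra.of F A a • 1) = f 1 := by rw [h0]
    rw [map_smul] at this
    exact this
  have h2 : τ a (ρ.asModuleEquiv w) = ρ.asModuleEquiv w := by
    have := congrArg ρ.asModuleEquiv h1
    rw [Representation.asModuleEquiv_map_smul] at this
    simpa using this
  exact hfree a (ρ.asModuleEquiv w) (by simpa using hw0) h2

end Cyclic

section PGroup

/-- A finite `r`-group all of whose abelian normal subgroups are cyclic of order at most `e` has
order at most `e ^ 2`. -/
theorem exists_large_cyclic {P : Type*} [Group P] [Finite P] {r : ℕ} [Fact r.Prime]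
    (hP : IsPGroup r P) (hcyc : ∀ A : Subgroup P, IsMulCommutative A → IsCyclic A) :
    ∃ x : P, Nat.card P ≤ (orderOf x) ^ 2 := by
  classical
  -- choose a maximal abelian normal subgroup
  let 𝓐 : Set (Subgroup P) := {A | A.Normal ∧ IsMulCommutative A}
  have h𝓐 : 𝓐.Nonempty := ⟨⊥, inferInstance, ⟨⟨by
    rintro ⟨a, ha⟩ ⟨b, hb⟩
    rw [Subgroup.mem_bot] at ha hb
    subst ha; subst hb; rfl⟩⟩⟩
  obtain ⟨A, hA, hmax⟩ := Set.Finite.exists_maximal (Set.toFinite 𝓐) h𝓐
  obtain ⟨hAn, hAc⟩ := hA
  -- the centralizer of `A` is `A`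
  have hcent : Subgroup.centralizer (A : Set P) ≤ A := by
    by_contra hne
    -- work in `P ⧸ A`
    let Q := P ⧸ A
    have hQ : IsPGroup r Q := hP.to_quotient A
    let N : Subgroup Q := (Subgroup.centralizer (A : Set P)).map (QuotientGroup.mk' A)
    have hZn : (Subgroup.centralizer (A : Set P)).Normal := inferInstance
    have hNn : N.Normal := hZn.map _ (QuotientGroup.mk'_surjective A)
    have hNne : N ≠ ⊥ := by
      intro h0
      apply hne
      intro z hz
      have : (QuotientGroup.mk' A z) ∈ N := ⟨z, hz, rfl⟩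
      rw [h0, Subgroup.mem_bot] at this
      exact (QuotientGroup.eq_one_iff z).1 this
    -- conjugation action of `Q` on `N` has a nontrivial fixed point
    have hdvd : r ∣ Nat.card N := by
      have h1 : IsPGroup r N := hQ.to_subgroup N
      rcases h1.card_eq_or_dvd with h | h
      · exact absurd (Subgroup.card_eq_one.1 h) hNne
      · exact h
    obtain ⟨b, hb, hb1⟩ : ∃ b : N, b ∈ MulAction.fixedPoints (ConjAct Q) N ∧ 1 ≠ b := by
      have hQ' : IsPGroup r (ConjAct Q) := hQ.of_equiv ConjAct.toConjAct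
      apply hQ'.exists_fixed_point_of_prime_dvd_card_of_fixed_point N hdvd
      intro g
      apply Subtype.ext
      simp
    obtain ⟨z, hz, hzb⟩ := b.2
    -- `B = A ⊔ ⟨z⟩`
    have hzA : z ∉ A := by
      intro h
      apply hb1
      apply Subtype.ext
      rw [← hzb]
      exact ((QuotientGroup.eq_one_iff z).2 h).symm
    have hfix : ∀ g : P, ∃ a ∈ A, g * z * g⁻¹ = a * z := by
      intro g
      have h1 := hb (ConjAct.toConjAct (QuotientGroup.mk' A g))
      have h2 := congrArg Subtype.val h1
      rw [ConjAct.Subgroup.val_conj_smul, ConjAct.toConjAct_smul, ← hzb, ← map_mul, ← map_inv,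
        ← map_mul] at h2
      have h3 : (QuotientGroup.mk' A (g * z * g⁻¹ * z⁻¹)) = 1 := by
        rw [map_mul, h2, ← map_mul, mul_inv_cancel, map_one]
      exact ⟨g * z * g⁻¹ * z⁻¹, (QuotientGroup.eq_one_iff _).1 h3, by group⟩
    let B : Subgroup P := A ⊔ Subgroup.zpowers z
    have hBn : B.Normal := by
      constructor
      intro n hn g
      have hle : B ≤ B.comap (MulAut.conj g).toMonoidHom := by
        apply sup_le
        · intro a ha
          exact Subgroup.mem_sup_left (hAn.conj_mem a ha g)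
        · rw [Subgroup.zpowers_le]
          obtain ⟨a, ha, h⟩ := hfix g
          show g * z * g⁻¹ ∈ B
          rw [h]
          exact B.mul_mem (Subgroup.mem_sup_left ha)
            (Subgroup.mem_sup_right (Subgroup.mem_zpowers z))
      exact hle hn
    have hBc : IsMulCommutative B := by
      have hB1 : ∀ x ∈ B, ∀ y ∈ B, x * y = y * x := by
        have hAB : ∀ y ∈ B, ∀ a ∈ A, a * y = y * a := by
          have hle : B ≤ Subgroup.centralizer (A : Set P) := by
            apply sup_le
            · intro a ha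
              rw [Subgroup.mem_centralizer_iff]
              intro h hh
              have := hAc.is_comm.comm (⟨h, hh⟩ : A) ⟨a, ha⟩
              exact congrArg Subtype.val this
            · rw [Subgroup.zpowers_le]
              exact hz
          intro y hy a ha
          exact (Subgroup.mem_centralizer_iff.1 (hle hy)) a ha
        have hzB : ∀ y ∈ B, z * y = y * z := by
          have hle : B ≤ Subgroup.centralizer {z} := by
            apply sup_le
            · intro a ha
              rw [Subgroup.mem_centralizer_iff]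
              rintro h rfl
              exact ((Subgroup.mem_centralizer_iff.1 hz) a ha).symm
            · rw [Subgroup.zpowers_le, Subgroup.mem_centralizer_iff]
              rintro h rfl; rfl
          intro y hy
          exact (Subgroup.mem_centralizer_iff.1 (hle hy)) z rfl
        intro x hx
        have hle : B ≤ Subgroup.centralizer (B : Set P) := by
          apply sup_le
          · intro a ha
            rw [Subgroup.mem_centralizer_iff]
            intro y hy
            exact (hAB y hy a ha).symm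
          · rw [Subgroup.zpowers_le, Subgroup.mem_centralizer_iff]
            intro y hy
            exact (hzB y hy).symm
        intro y hy
        exact ((Subgroup.mem_centralizer_iff.1 (hle hx)) y hy).symm
      exact ⟨⟨fun x y => Subtype.ext (hB1 x x.2 y y.2)⟩⟩
    have hAB : A ≤ B := le_sup_left
    have := hmax (show B ∈ 𝓐 from ⟨hBn, hBc⟩) hAB
    exact hzA (this (Subgroup.mem_sup_right (Subgroup.mem_zpowers z)))
  have hAcyc : IsCyclic A := hcyc A hAc
  obtain ⟨x, hx⟩ := hAcyc.exists_generator
  refine ⟨(x : P), ?_⟩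
  have hcardA : Nat.card A = orderOf (x : P) := by
    rw [Subgroup.orderOf_coe, ← Nat.card_zpowers]
    have : Subgroup.zpowers x = ⊤ := by
      rw [eq_top_iff]; intro y _; exact hx y
    rw [this, Subgroup.card_top]
  -- `P / A` injects into `A` by `g ↦ g x g⁻¹`
  have hinj : Nat.card (P ⧸ A) ≤ Nat.card A := by
    let φ : P ⧸ A → A := Quotient.lift (s := QuotientGroup.leftRel A)
      (fun g => (⟨g * x * g⁻¹, hAn.conj_mem _ x.2 g⟩ : A)) (by
        intro g g' hgg'
        apply Subtype.ext
        have h1 : g⁻¹ * g' ∈ A := by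
          have : (QuotientGroup.leftRel A) g g' := hgg'
          rwa [QuotientGroup.leftRel_apply] at this
        have h2 := congrArg Subtype.val (hAc.is_comm.comm (⟨g⁻¹ * g', h1⟩ : A) x)
        have h3 : g⁻¹ * g' * x = x * (g⁻¹ * g') := h2
        show g * x * g⁻¹ = g' * x * g'⁻¹
        calc g * x * g⁻¹ = g * (x * (g⁻¹ * g')) * g'⁻¹ := by group
          _ = g * (g⁻¹ * g' * x) * g'⁻¹ := by rw [h3]
          _ = g' * x * g'⁻¹ := by group)
    have hφ : Function.Injective φ := by
      intro a b
      refine Quotient.inductionOn₂ a b ?_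
      intro g g' h
      apply Quotient.sound
      show (QuotientGroup.leftRel A) g g'
      rw [QuotientGroup.leftRel_apply]
      apply hcent
      rw [Subgroup.mem_centralizer_iff]
      intro a ha
      obtain ⟨n, hn⟩ := hx ⟨a, ha⟩
      have h1 : g * (x : P) * g⁻¹ = g' * x * g'⁻¹ := congrArg Subtype.val h
      have h2 : Commute (x : P) (g⁻¹ * g') := by
        show (x : P) * (g⁻¹ * g') = g⁻¹ * g' * x
        calc (x : P) * (g⁻¹ * g') = g⁻¹ * (g * x * g⁻¹) * g' := by group
          _ = g⁻¹ * (g' * x * g'⁻¹) * g' := by rw [h1]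
          _ = _ := by group
      have h3 : (x : P) ^ n = a := congrArg Subtype.val hn
      rw [← h3]
      exact (h2.zpow_left n).eq
    exact Nat.card_le_card_of_injective φ hφ
  calc Nat.card P = Nat.card (P ⧸ A) * Nat.card A := Subgroup.card_eq_card_quotient_mul_card_subgroup A
    _ ≤ Nat.card A * Nat.card A := Nat.mul_le_mul_right _ hinj
    _ = (orderOf (x : P)) ^ 2 := by rw [hcardA, sq]

end PGroup

end Pool.Agent.Lib.MP_3c3661_al
end

section

/-!
Number theoretic estimates.
-/

set_option autoImplicit false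

namespace Pool.Agent.Lib.MP_3c3661_al

/-- number of `k`-th powers among the units modulo `e` -/
noncomputable def powCount (k e : ℕ) : ℕ :=
  Nat.card (powMonoidHom k : (ZMod e)ˣ →* (ZMod e)ˣ).range

lemma powCount_mul_ker (k e : ℕ) :
    powCount k e * Nat.card (powMonoidHom k : (ZMod e)ˣ →* (ZMod e)ˣ).ker =
      Nat.card (ZMod e)ˣ := by
  rw [powCount, ← Nat.card_congr (QuotientGroup.quotientKerEquivRange _).toEquiv]
  exact (Subgroup.card_eq_card_quotient_mul_card_subgroup _).symm

/-- The key lower bound for the number of `k`-th powers modulo a prime power. -/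
theorem le_powCount {k : ℕ} (hk : 0 < k) {r : ℕ} (hr : r.Prime) (b : ℕ) :
    r ^ b ≤ 4 * k * powCount k (r ^ b) := by
  have hne : NeZero (r ^ b) := ⟨pow_ne_zero _ hr.ne_zero⟩
  have hpos : 0 < powCount k (r ^ b) := Nat.card_pos
  rcases Nat.eq_zero_or_pos b with rfl | hb
  · simp only [pow_zero] at hpos ⊢
    nlinarith
  rcases eq_or_ne r 2 with rfl | hr2
  · -- the prime two, via the element five
    by_cases hb2 : b ≤ 2
    · have : 2 ^ b ≤ 4 := by
        calc 2 ^ b ≤ 2 ^ 2 := Nat.pow_le_pow_right (by norm_num) hb2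
          _ = 4 := by norm_num
      nlinarith
    · obtain ⟨c, rfl⟩ : ∃ c, b = c + 2 := ⟨b - 2, by omega⟩
      have h5c : Nat.Coprime 5 (2 ^ (c + 2)) := Nat.Coprime.pow_right _ (by norm_num)
      set u : (ZMod (2 ^ (c + 2)))ˣ := ZMod.unitOfCoprime 5 h5c with hu
      have hou : orderOf u = 2 ^ c := by
        rw [← orderOf_units, hu, ZMod.coe_unitOfCoprime]
        exact_mod_cast ZMod.orderOf_five c
      have h1 : orderOf (u ^ k) ≤ powCount k (2 ^ (c + 2)) := by
        rw [powCount, ← Nat.card_zpowers]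
        apply Nat.card_le_card_of_injective (Subgroup.inclusion (H := Subgroup.zpowers (u ^ k)) _)
          (Subgroup.inclusion_injective _)
        rw [Subgroup.zpowers_le]
        exact ⟨u, rfl⟩
      have h2 : orderOf u ≤ k * orderOf (u ^ k) := by
        apply Nat.le_of_dvd
        · exact Nat.mul_pos hk (orderOf_pos _)
        · apply orderOf_dvd_of_pow_eq_one
          rw [pow_mul, pow_orderOf_eq_one]
      rw [hou] at h2
      calc 2 ^ (c + 2) = 4 * 2 ^ c := by rw [pow_add]; ring
        _ ≤ 4 * (k * orderOf (u ^ k)) := Nat.mul_le_mul_left _ h2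
        _ ≤ 4 * (k * powCount k (2 ^ (c + 2))) := by gcongr
        _ = _ := by ring
  · have hcyc : IsCyclic (ZMod (r ^ b))ˣ := ZMod.isCyclic_units_of_prime_pow r hr hr2 b
    have hker : Nat.card (powMonoidHom k : (ZMod (r ^ b))ˣ →* (ZMod (r ^ b))ˣ).ker ≤ k := by
      classical
      have := IsCyclic.card_pow_eq_one_le (α := (ZMod (r ^ b))ˣ) hk
      refine le_trans (le_of_eq ?_) this
      rw [Nat.card_eq_fintype_card, Fintype.card_subtype]
      congr 1
      ext x
      simp [MonoidHom.mem_ker]
    have h1 := powCount_mul_ker k (r ^ b)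
    rw [Nat.card_eq_fintype_card (α := (ZMod (r ^ b))ˣ), ZMod.card_units_eq_totient] at h1
    have h2 : r ^ b ≤ 2 * (r ^ b).totient := by
      rw [Nat.totient_prime_pow hr hb]
      have h3 : r ^ b = r ^ (b - 1) * r := by
        rw [← pow_succ]; congr 1; omega
      have h4 := hr.two_le
      calc r ^ b = r ^ (b - 1) * r := h3
        _ ≤ r ^ (b - 1) * (2 * (r - 1)) := by gcongr; omega
        _ = _ := by ring
    calc r ^ b ≤ 2 * (r ^ b).totient := h2
      _ = 2 * (powCount k (r ^ b) *
            Nat.card (powMonoidHom k : (ZMod (r ^ b))ˣ →* (ZMod (r ^ b))ˣ).ker) := by rw [h1]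
      _ ≤ 2 * (powCount k (r ^ b) * k) := by gcongr
      _ ≤ 4 * k * powCount k (r ^ b) := by nlinarith

/-- Lifting units: a residue coprime to `e` lifts to a number coprime to `m` when `e ∣ m`. -/
lemma exists_coprime_lift {e m : ℕ} (hm : 0 < m) (hem : e ∣ m) (u : (ZMod e)ˣ) :
    ∃ j : ℕ, j.Coprime m ∧ (j : ZMod e) = u := by
  have : NeZero m := ⟨hm.ne'⟩
  obtain ⟨v, hv⟩ := ZMod.unitsMap_surjective hem u
  refine ⟨(v : ZMod m).val, ZMod.val_coe_unit_coprime v, ?_⟩
  rw [← hv, ZMod.unitsMap_val, ZMod.natCast_val]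

/-- If `t` generates the group of `k`-th powers modulo `p` and is fixed by all power maps
`t ↦ t ^ (j ^ k)`, then `p` is bounded. -/
theorem le_of_fixed {p k m : ℕ} (hp : p.Prime) (hk : 0 < k) (hm : 0 < m) (hpm : (p - 1) ∣ m)
    (g : (ZMod p)ˣ) (hg : ∀ x, x ∈ Subgroup.zpowers g)
    (h : ∀ j : ℕ, j.Coprime m → (g ^ k) ^ (j ^ k) = g ^ k) : p ≤ k * 6 ^ k + 1 := by
  have : Fact p.Prime := ⟨hp⟩
  set τ := orderOf (g ^ k) with hτ
  have hog : orderOf g = p - 1 := by
    rw [orderOf_eq_card_of_forall_mem_zpowers hg, Nat.card_eq_fintype_card, ZMod.card_units p]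
  have hτpos : 0 < τ := orderOf_pos _
  have h1 : p - 1 ≤ k * τ := by
    rw [← hog]
    apply Nat.le_of_dvd (Nat.mul_pos hk hτpos)
    apply orderOf_dvd_of_pow_eq_one
    rw [pow_mul, hτ, pow_orderOf_eq_one]
  have hτdvd : τ ∣ p - 1 := by
    rw [← hog]; exact orderOf_pow_dvd k
  -- `j ^ k ≡ 1` modulo `τ`
  have h2 : ∀ j : ℕ, j.Coprime m → j ^ k ≡ 1 [MOD τ] := by
    intro j hj
    have h3 : (g ^ k) ^ (j ^ k) = (g ^ k) ^ 1 := by rw [pow_one]; exact h j hj
    exact pow_eq_pow_iff_modEq.1 h3
  -- decompose `τ`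
  obtain ⟨s, τ', hτ', hdec⟩ := Nat.exists_eq_two_pow_mul_odd hτpos.ne'
  have hτ'dvd : τ' ∣ m := (Dvd.intro_left _ hdec.symm).trans (hτdvd.trans hpm)
  have h2sdvd : 2 ^ s ∣ m := (Dvd.intro _ hdec.symm).trans (hτdvd.trans hpm)
  have hA : τ' ≤ 2 ^ k := by
    have hc : Nat.Coprime 2 τ' := hτ'.coprime_two_left
    obtain ⟨j, hj, hju⟩ := exists_coprime_lift hm hτ'dvd (ZMod.unitOfCoprime 2 hc)
    rw [ZMod.coe_unitOfCoprime] at hju
    have h3 : j ≡ 2 [MOD τ'] := (ZMod.natCast_eq_natCast_iff _ _ _).1 (by exact_mod_cast hju)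
    have h4 : 2 ^ k ≡ 1 [MOD τ'] :=
      ((h3.pow k).symm).trans ((h2 j hj).of_dvd (Dvd.intro_left _ hdec.symm))
    have h5 : τ' ∣ 2 ^ k - 1 := (Nat.modEq_iff_dvd' Nat.one_le_two_pow).1 h4.symm
    have h6 : 0 < 2 ^ k - 1 := by
      have : 2 ^ 1 ≤ 2 ^ k := Nat.pow_le_pow_right (by norm_num) hk
      omega
    have := Nat.le_of_dvd h6 h5
    omega
  have hB : 2 ^ s ≤ 3 ^ k := by
    have hc : Nat.Coprime 3 (2 ^ s) := Nat.Coprime.pow_right _ (by norm_num)
    obtain ⟨j, hj, hju⟩ := exists_coprime_lift hm h2sdvd (ZMod.unitOfCoprime 3 hc)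
    rw [ZMod.coe_unitOfCoprime] at hju
    have h3 : j ≡ 3 [MOD 2 ^ s] := (ZMod.natCast_eq_natCast_iff _ _ _).1 (by exact_mod_cast hju)
    have h4 : 3 ^ k ≡ 1 [MOD 2 ^ s] :=
      ((h3.pow k).symm).trans ((h2 j hj).of_dvd (Dvd.intro _ hdec.symm))
    have h31 : 1 ≤ 3 ^ k := Nat.one_le_pow _ _ (by norm_num)
    have h5 : 2 ^ s ∣ 3 ^ k - 1 := (Nat.modEq_iff_dvd' h31).1 h4.symm
    have h6 : 0 < 3 ^ k - 1 := by
      have : 3 ^ 1 ≤ 3 ^ k := Nat.pow_le_pow_right (by norm_num) hk
      omega
    have := Nat.le_of_dvd h6 h5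
    omega
  have hC : τ ≤ 6 ^ k := by
    rw [hdec]
    calc 2 ^ s * τ' ≤ 3 ^ k * 2 ^ k := Nat.mul_le_mul hB hA
      _ = 6 ^ k := by rw [← mul_pow]; norm_num
  have : k * τ ≤ k * 6 ^ k := Nat.mul_le_mul_left _ hC
  omega

/-- A finite group whose Sylow subgroups `P` have order at most `e_P ^ 2` with `e_P ≤ M` a power of
the corresponding prime has order at most `lcm(1..M) ^ 2`. -/
theorem card_le_lcmUpto_sq {X : Type*} [Group X] [Finite X] (M : ℕ)
    (h : ∀ r : ℕ, r.Prime → r ∣ Nat.card X → ∃ b : ℕ, r ^ b ≤ M ∧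
      r ^ (Nat.card X).factorization r ≤ (r ^ b) ^ 2) :
    Nat.card X ≤ (Nat.lcmUpto M) ^ 2 := by
  classical
  have hX : Nat.card X ≠ 0 := Nat.card_pos.ne'
  have h1 : Nat.card X = ∏ r ∈ (Nat.card X).primeFactors, r ^ (Nat.card X).factorization r := by
    conv_lhs => rw [← Nat.prod_factorization_pow_eq_self hX]
    rw [Nat.prod_factorization_eq_prod_primeFactors]
  rw [h1, Nat.lcmUpto_eq_prod_pow_log, ← Finset.prod_pow]
  have hsub : (Nat.card X).primeFactors ⊆ Nat.primesLE M := by
    intro r hr
    have hrp := Nat.prime_of_mem_primeFactors hr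
    obtain ⟨b, hb1, hb2⟩ := h r hrp (Nat.dvd_of_mem_primeFactors hr)
    rw [Nat.mem_primesLE]
    refine ⟨?_, hrp⟩
    have hfac : 1 ≤ (Nat.card X).factorization r :=
      (hrp.dvd_iff_one_le_factorization hX).1 (Nat.dvd_of_mem_primeFactors hr)
    have hb0 : b ≠ 0 := by
      rintro rfl
      have h3 : r ^ 1 ≤ r ^ (Nat.card X).factorization r := Nat.pow_le_pow_right hrp.pos hfac
      rw [pow_zero, one_pow] at hb2
      rw [pow_one] at h3
      have := hrp.two_le
      omega
    calc r = r ^ 1 := (pow_one r).symm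
      _ ≤ r ^ b := Nat.pow_le_pow_right hrp.pos (Nat.one_le_iff_ne_zero.2 hb0)
      _ ≤ M := hb1
  calc ∏ r ∈ (Nat.card X).primeFactors, r ^ (Nat.card X).factorization r
      ≤ ∏ r ∈ (Nat.card X).primeFactors, (r ^ r.log M) ^ 2 := by
        apply Finset.prod_le_prod'
        intro r hr
        have hrp := Nat.prime_of_mem_primeFactors hr
        obtain ⟨b, hb1, hb2⟩ := h r hrp (Nat.dvd_of_mem_primeFactors hr)
        refine hb2.trans (Nat.pow_le_pow_left ?_ 2)
        apply Nat.pow_le_pow_right hrp.pos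
        exact Nat.le_log_of_pow_le hrp.one_lt hb1
    _ ≤ ∏ r ∈ Nat.primesLE M, (r ^ r.log M) ^ 2 := by
        apply Finset.prod_le_prod_of_subset_of_one_le' hsub
        intro r hr _
        have hrp := Nat.prime_of_mem_primesLE hr
        exact Nat.one_le_pow _ _ (Nat.pow_pos hrp.pos)

/-- The final numerical estimate. -/
theorem final_bound {p n k c : ℕ} (hn : 0 < n) (h1 : p ^ n ≤ c ^ 2)
    (h2 : c ≤ (Nat.lcmUpto (4 * k * n)) ^ 2) (hp : 0 < p) (hk : 0 < k) : p ≤ 2 ^ (125 * k) := by
  have hL : (0 : ℝ) < (Nat.lcmUpto (4 * k * n) : ℝ) := by exact_mod_cast Nat.lcmUpto_pos _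
  have h3 : (p : ℝ) ^ n ≤ (Nat.lcmUpto (4 * k * n) : ℝ) ^ 4 := by
    have : p ^ n ≤ (Nat.lcmUpto (4 * k * n)) ^ 4 := by
      calc p ^ n ≤ c ^ 2 := h1
        _ ≤ ((Nat.lcmUpto (4 * k * n)) ^ 2) ^ 2 := Nat.pow_le_pow_left h2 2
        _ = _ := by ring
    exact_mod_cast this
  have h4 : (n : ℝ) * Real.log p ≤ 4 * Real.log (Nat.lcmUpto (4 * k * n)) := by
    have hp' : (0 : ℝ) < p := by exact_mod_cast hp
    have := Real.log_le_log (by positivity) h3
    rw [Real.log_pow, Real.log_pow] at this
    exact_mod_cast this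
  have h5 : Real.log (Nat.lcmUpto (4 * k * n)) ≤ (Real.log 4 + 4) * (4 * k * n) := by
    rw [← Chebyshev.psi_eq_log_lcmUpto]
    have := Chebyshev.psi_le_const_mul_self (x := ((4 * k * n : ℕ) : ℝ)) (by positivity)
    push_cast at this ⊢
    exact this
  have hn' : (0 : ℝ) < n := by exact_mod_cast hn
  have hk' : (0 : ℝ) < k := by exact_mod_cast hk
  have h6 : Real.log p ≤ 16 * (Real.log 4 + 4) * k := by
    have : (n : ℝ) * Real.log p ≤ n * (16 * (Real.log 4 + 4) * k) := by nlinarith
    exact le_of_mul_le_mul_left this hn'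
  have hlog4 : Real.log 4 = 2 * Real.log 2 := by
    rw [show (4 : ℝ) = 2 ^ 2 by norm_num, Real.log_pow]; norm_num
  have h7 : Real.log p ≤ (125 * k) * Real.log 2 := by
    have h8 := Real.log_two_gt_d9
    rw [hlog4] at h6
    nlinarith
  have h8 : Real.log p ≤ Real.log (2 ^ (125 * k)) := by
    rw [Real.log_pow]; push_cast; exact h7
  have h9 : (p : ℝ) ≤ 2 ^ (125 * k) := by
    have hp' : (0 : ℝ) < p := by exact_mod_cast hp
    exact (Real.log_le_log_iff hp' (by positivity)).1 h8
  exact_mod_cast h9

end Pool.Agent.Lib.MP_3c3661_al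
end

section

/-!
Counting eigenvalues.
-/

set_option autoImplicit false

namespace Pool.Agent.Lib.MP_3c3661_al

open Polynomial

section Eig

variable {F : Type*} [Field F] {W : Type*} [AddCommGroup W] [Module F W] [Module.Finite F W]

omit [Module.Finite F W] in
/-- If `aeval T h` kills a nonzero vector, then `h` and the minimal polynomial of `T` have a common
root in an algebraically closed extension. -/
lemma exists_common_root (K : Type*) [Field K] [Algebra F K] [IsAlgClosed K]
    (T : Module.End F W) {h : F[X]} {w : W} (hw : w ≠ 0) (hh : aeval T h w = 0) :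
    ∃ ν : K, aeval ν h = 0 ∧ aeval ν (minpoly F T) = 0 := by
  by_contra hcon
  push Not at hcon
  have hcop : IsCoprime h (minpoly F T) := by
    rw [Polynomial.isCoprime_iff_aeval_ne_zero_of_isAlgClosed F K]
    intro a
    by_cases ha : aeval a h = 0
    · exact Or.inr (hcon a ha)
    · exact Or.inl ha
  obtain ⟨u, v, huv⟩ := hcop
  apply hw
  have := congrArg (fun q => aeval T q w) huv
  simp only [map_add, map_mul, minpoly.aeval, mul_zero, add_zero, map_one] at this
  rw [Module.End.mul_apply, hh, map_zero] at this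
  exact this.symm

/-- Conversely, if `h` and `minpoly T` have a common root then `aeval T h` is not injective. -/
lemma exists_ker_of_common_root {K : Type*} [Field K] [Algebra F K]
    (T : Module.End F W) {h : F[X]} {ν : K} (h1 : aeval ν h = 0)
    (h2 : aeval ν (minpoly F T) = 0) : ∃ w : W, w ≠ 0 ∧ aeval T h w = 0 := by
  by_contra hcon
  push Not at hcon
  have hinj : Function.Injective (aeval T h) := by
    rw [injective_iff_map_eq_zero]
    intro a ha
    by_contra hne
    exact hcon a hne ha
  -- `aeval T h` is invertible, and we get coprimality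
  have hint : IsIntegral F T := Algebra.IsIntegral.isIntegral T
  have hint' : IsIntegral F (aeval T h) := Algebra.IsIntegral.isIntegral _
  have hnc : ¬ IsCoprime h (minpoly F T) := by
    intro hc
    rcases Polynomial.aeval_ne_zero_of_isCoprime hc ν with h3 | h3
    · exact h3 h1
    · exact h3 h2
  classical
  -- a common factor
  set d := EuclideanDomain.gcd h (minpoly F T) with hd
  have hd1 : d ∣ h := EuclideanDomain.gcd_dvd_left _ _
  have hd2 : d ∣ minpoly F T := EuclideanDomain.gcd_dvd_right _ _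
  obtain ⟨q, hq⟩ := hd2
  have hdT : aeval T d * aeval T q = 0 := by
    rw [← map_mul, ← hq, minpoly.aeval]
  have hdinj : Function.Injective (aeval T d) := by
    obtain ⟨c, hc⟩ := hd1
    rw [hc, mul_comm, map_mul] at hinj
    exact Function.Injective.of_comp hinj
  have hq0 : aeval T q = 0 := by
    ext w
    apply hdinj
    have := LinearMap.congr_fun hdT w
    rw [Module.End.mul_apply] at this
    rw [this]; simp
  have hdvd : minpoly F T ∣ q := minpoly.dvd F T hq0
  have hne0 : minpoly F T ≠ 0 := minpoly.ne_zero hint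
  have hqne : q ≠ 0 := by
    rintro rfl
    rw [mul_zero] at hq
    exact hne0 hq
  have hdu : IsUnit d := by
    obtain ⟨c, hc⟩ := hdvd
    have : minpoly F T * (d * c) = minpoly F T * 1 := by
      calc minpoly F T * (d * c) = d * (minpoly F T * c) := by ring
        _ = d * q := by rw [← hc]
        _ = minpoly F T * 1 := by rw [← hq, mul_one]
    exact IsUnit.of_mul_eq_one _ (mul_left_cancel₀ hne0 this)
  apply hnc
  rw [← EuclideanDomain.gcd_isUnit_iff]
  exact hdu

/-- **Eigenvalue count.** -/
theorem powCount_le_finrank [Nontrivial W] (T : Module.End F W) {e k m : ℕ} (hm : 0 < m)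
    (hem : e ∣ m) (hTe : T ^ e = 1)
    (hfree : ∀ i, 0 < i → i < e → ∀ w, (T ^ i) w = w → w = 0)
    (hyp : ∀ j : ℕ, j.Coprime m → ∀ S : Submodule F W, (∀ s ∈ S, T s ∈ S) → S ≠ ⊥ →
      ∃ L : S →ₗ[F] W, L ≠ 0 ∧ ∀ (s : S) (s' : S), (s' : W) = (T ^ (j ^ k)) s → T (L s) = L s') :
    powCount k e ≤ Module.finrank F W := by
  classical
  have hepos : 0 < e := by
    rcases Nat.eq_zero_or_pos e with rfl | h
    · rw [zero_dvd_iff] at hem; omega
    · exact h
  let K := AlgebraicClosure F
  have hint : IsIntegral F T := Algebra.IsIntegral.isIntegral T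
  have hne0 : minpoly F T ≠ 0 := minpoly.ne_zero hint
  obtain ⟨w₀, hw₀⟩ := exists_ne (0 : W)
  obtain ⟨μ, -, hμ⟩ := exists_common_root K T (h := 0) hw₀ (by simp)
  -- roots of the minimal polynomial are `e`-th roots of unity
  have hroot : ∀ ν : K, aeval ν (minpoly F T) = 0 → ν ^ e = 1 := by
    intro ν hν
    have h1 : minpoly F T ∣ X ^ e - 1 := by
      apply minpoly.dvd
      simp [hTe]
    obtain ⟨c, hc⟩ := h1
    have := congrArg (aeval ν) hc
    rw [map_mul, hν, zero_mul] at this
    simp only [map_sub, map_pow, aeval_X, map_one] at this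
    exact sub_eq_zero.1 this
  -- `μ` has order `e`
  have hord : ∀ i, 0 < i → i < e → μ ^ i ≠ 1 := by
    intro i hi hie hμi
    obtain ⟨w, hw, hw2⟩ := exists_ker_of_common_root (K := K) T (h := X ^ i - 1) (ν := μ)
      (by simp [hμi]) hμ
    apply hw
    apply hfree i hi hie
    simp only [map_sub, map_pow, aeval_X, map_one, LinearMap.sub_apply, Module.End.one_apply] at hw2
    exact sub_eq_zero.1 hw2
  have hμe : μ ^ e = 1 := hroot μ hμ
  have horder : orderOf μ = e := by
    apply Nat.le_antisymm
    · exact orderOf_le_of_pow_eq_one hepos hμe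
    · by_contra hlt
      push Not at hlt
      exact hord (orderOf μ) (orderOf_pos_iff.2 (isOfFinOrder_iff_pow_eq_one.2 ⟨e, hepos, hμe⟩))
        hlt (pow_orderOf_eq_one μ)
  -- power maps preserve the set of eigenvalues
  have hpow : ∀ j : ℕ, j.Coprime m → aeval (μ ^ (j ^ k)) (minpoly F T) = 0 := by
    intro j hj
    set J := j ^ k with hJ
    have hJe : J.Coprime e := (Nat.Coprime.coprime_dvd_right hem hj).pow_left k
    obtain ⟨J', hJ'⟩ : ∃ J' : ℕ, J * J' ≡ 1 [MOD e] := by
      have : NeZero e := ⟨hepos.ne'⟩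
      refine ⟨((ZMod.unitOfCoprime J hJe)⁻¹ : (ZMod e)ˣ).val.val, ?_⟩
      rw [← ZMod.natCast_eq_natCast_iff]
      push_cast
      rw [ZMod.natCast_val, ZMod.cast_id', id]
      have h := Units.mul_inv (ZMod.unitOfCoprime J hJe)
      rwa [ZMod.coe_unitOfCoprime] at h
    have hTpow : ∀ a b : ℕ, a ≡ b [MOD e] → T ^ a = T ^ b := by
      intro a b hab
      rw [← Nat.mod_add_div a e, ← Nat.mod_add_div b e, pow_add, pow_add, pow_mul, pow_mul, hTe,
        one_pow, one_pow, hab]
    set f := minpoly F μ with hf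
    have hfint : IsIntegral F μ := Algebra.IsIntegral.isIntegral μ
    set S : Submodule F W := LinearMap.ker (aeval T f) with hS
    have hST : ∀ s ∈ S, T s ∈ S := by
      intro s hs
      rw [hS, LinearMap.mem_ker] at hs ⊢
      have : aeval T f (T s) = T (aeval T f s) := by
        have h1 : aeval T f * T = T * aeval T f := by
          have := (Algebra.commutes' (R := F) (A := F[X]))
          calc aeval T f * T = aeval T (f * X) := by simp
            _ = aeval T (X * f) := by rw [mul_comm]
            _ = T * aeval T f := by simp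
        exact LinearMap.congr_fun h1 s
      rw [this, hs, map_zero]
    have hSne : S ≠ ⊥ := by
      obtain ⟨w, hw, hw2⟩ := exists_ker_of_common_root (K := K) T (h := f) (ν := μ)
        (minpoly.aeval F μ) hμ
      intro h0
      apply hw
      have : w ∈ S := hw2
      rw [h0] at this
      exact (Submodule.mem_bot F).1 this
    obtain ⟨L, hL0, hL⟩ := hyp j hj S hST hSne
    have hSpow : ∀ i : ℕ, ∀ s ∈ S, (T ^ i) s ∈ S := by
      intro i
      induction i with
      | zero => intro s hs; simpa using hs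
      | succ i ih => intro s hs; rw [pow_succ, Module.End.mul_apply]; exact ih _ (hST s hs)
    -- iterate
    have hiter : ∀ i : ℕ, ∀ s s' : S, (s' : W) = (T ^ (J * i)) s → (T ^ i) (L s) = L s' := by
      intro i
      induction i with
      | zero =>
        intro s s' h
        simp only [mul_zero, pow_zero, Module.End.one_apply] at h ⊢
        rw [Subtype.ext h]
      | succ i ih =>
        intro s s' h
        rw [pow_succ', Module.End.mul_apply, ih s ⟨(T ^ (J * i)) s, hSpow _ _ s.2⟩ rfl]
        apply hL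
        rw [h]
        show (T ^ (J * (i + 1))) (s : W) = (T ^ J) ((T ^ (J * i)) s)
        rw [← Module.End.mul_apply, ← pow_add]
        congr 2
        ring
    have hLT : ∀ s s' : S, (s' : W) = T s → (T ^ J') (L s) = L s' := by
      intro s s' h
      apply hiter
      rw [hTpow _ 1 hJ', pow_one, h]
    -- polynomial relation
    have hpoly : ∀ q : F[X], ∀ s s' : S, (s' : W) = aeval T q s → aeval (T ^ J') q (L s) = L s' := by
      intro q
      induction q using Polynomial.induction_on' with
      | add q₁ q₂ h₁ h₂ =>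
        intro s s' h
        have hmem : ∀ q : F[X], aeval T q (s : W) ∈ S := by
          intro q
          show aeval T f (aeval T q (s : W)) = 0
          rw [← Module.End.mul_apply, ← map_mul, mul_comm, map_mul,
            Module.End.mul_apply]
          have : aeval T f (s : W) = 0 := LinearMap.mem_ker.1 s.2
          rw [this, map_zero]
        rw [map_add, LinearMap.add_apply, h₁ s ⟨aeval T q₁ s, hmem _⟩ rfl,
          h₂ s ⟨aeval T q₂ s, hmem _⟩ rfl, ← map_add]
        congr 1
        apply Subtype.ext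
        rw [h, map_add]
        rfl
      | monomial n a =>
        intro s s' h
        rw [aeval_monomial] at h ⊢
        have h3 : ∀ n : ℕ, ∀ s s' : S, (s' : W) = (T ^ n) s → ((T ^ J') ^ n) (L s) = L s' := by
          intro n
          induction n with
          | zero =>
            intro s s' h
            simp only [pow_zero, Module.End.one_apply] at h ⊢
            rw [Subtype.ext h]
          | succ n ih =>
            intro s s' h
            rw [pow_succ', Module.End.mul_apply, ih s ⟨(T ^ n) s, hSpow _ _ s.2⟩ rfl]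
            apply hLT
            rw [h, pow_succ', Module.End.mul_apply]
        rw [Module.End.mul_apply, h3 n s ⟨(T ^ n) s, hSpow _ _ s.2⟩ rfl]
        rw [Module.algebraMap_end_apply, ← map_smul]
        congr 1
        apply Subtype.ext
        rw [h, Module.End.mul_apply, Module.algebraMap_end_apply]
        rfl
    obtain ⟨s, hs⟩ : ∃ s, L s ≠ 0 := by
      by_contra hcon
      push Not at hcon
      exact hL0 (LinearMap.ext hcon)
    have hkill : aeval (T ^ J') f (L s) = 0 := by
      rw [hpoly f s 0]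
      · simp
      · have : aeval T f (s : W) = 0 := LinearMap.mem_ker.1 s.2
        rw [this]; rfl
    have hkill' : aeval T (expand F J' f) (L s) = 0 := by
      rw [expand_aeval]; exact hkill
    obtain ⟨ν, hν1, hν2⟩ := exists_common_root K T hs hkill'
    rw [expand_aeval] at hν1
    -- `ν ^ J'` is conjugate to `μ`
    have hconj : IsConjRoot F μ (ν ^ J') := by
      rw [IsConjRoot]
      refine (minpoly.eq_of_irreducible_of_monic (minpoly.irreducible hfint) hν1
        (minpoly.monic hfint))
    obtain ⟨σ, hσ⟩ := isConjRoot_iff_exists_algEquiv.1 hconj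
    set ν' : K := σ ν with hν'
    have h1 : ν' ^ J' = μ := by
      rw [hν', ← map_pow, hσ]
    have h2 : aeval ν' (minpoly F T) = 0 := by
      have := Polynomial.aeval_algHom_apply (σ : K →ₐ[F] K) ν (minpoly F T)
      rw [hν2, map_zero] at this
      exact this
    have h3 : ν' ^ e = 1 := hroot ν' h2
    have h4 : μ ^ J = ν' := by
      rw [← h1, ← pow_mul, mul_comm J' J]
      have h5 : J * J' % e = 1 % e := hJ'
      rw [← Nat.mod_add_div (J * J') e, pow_add, pow_mul, h3, one_pow, mul_one, h5]
      conv_rhs => rw [← pow_one ν', ← Nat.mod_add_div 1 e, pow_add, pow_mul, h3, one_pow, mul_one]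
    rw [h4]
    exact h2
  -- count the roots
  have hNZ : NeZero e := ⟨hepos.ne'⟩
  have hcast : ∀ (j : ℕ) (u : (ZMod e)ˣ), (j : ZMod e) = u → μ ^ (u : ZMod e).val = μ ^ j := by
    intro j u hju
    rw [← hju, ZMod.val_natCast, ← horder, pow_mod_orderOf]
  set Rt := ((minpoly F T).aroots K).toFinset with hRt
  have hmemR : ∀ x : (powMonoidHom k : (ZMod e)ˣ →* (ZMod e)ˣ).range,
      μ ^ ((x : (ZMod e)ˣ) : ZMod e).val ∈ Rt := by
    rintro ⟨x, u, rfl⟩
    obtain ⟨j, hj, hju⟩ := exists_coprime_lift hm hem u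
    rw [hRt, Multiset.mem_toFinset, Polynomial.mem_aroots]
    refine ⟨hne0, ?_⟩
    rw [hcast (j ^ k) (powMonoidHom k u)]
    · exact hpow j hj
    · push_cast
      rw [hju]; rfl
  have hinjR : Function.Injective (fun x : (powMonoidHom k : (ZMod e)ˣ →* (ZMod e)ˣ).range =>
      (⟨μ ^ ((x : (ZMod e)ˣ) : ZMod e).val, hmemR x⟩ : Rt)) := by
    intro x y hxy
    have h1 : μ ^ ((x : (ZMod e)ˣ) : ZMod e).val = μ ^ ((y : (ZMod e)ˣ) : ZMod e).val :=
      congrArg Subtype.val hxy
    apply Subtype.ext
    apply Units.ext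
    apply ZMod.val_injective e
    exact pow_injOn_Iio_orderOf (by rw [Set.mem_Iio, horder]; exact ZMod.val_lt _)
      (by rw [Set.mem_Iio, horder]; exact ZMod.val_lt _) h1
  have hcard := Nat.card_le_card_of_injective _ hinjR
  rw [powCount]
  refine hcard.trans ?_
  rw [Nat.card_eq_fintype_card, Fintype.card_coe, hRt]
  calc ((minpoly F T).aroots K).toFinset.card ≤ ((minpoly F T).aroots K).card :=
        Multiset.toFinset_card_le _
    _ ≤ (minpoly F T).natDegree := by
        rw [Polynomial.aroots]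
        exact (Polynomial.card_roots' _).trans (Polynomial.natDegree_map_le)
    _ ≤ Module.finrank F W := by
        have hdvd := LinearMap.minpoly_dvd_charpoly T
        have := Polynomial.natDegree_le_of_dvd hdvd (LinearMap.charpoly_monic T).ne_zero
        rwa [LinearMap.charpoly_natDegree] at this

end Eig

end Pool.Agent.Lib.MP_3c3661_al
end

section

/-!
The core estimate for coprime linear groups.
-/

set_option autoImplicit false

namespace Pool.Agent.Lib.MP_3c3661_al

section Core

variable {p : ℕ} [Fact p.Prime] {H : Type*} [Group H] {V : Type*} [AddCommGroup V]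
  [Module (ZMod p) V] (ρ : H →* (V →ₗ[ZMod p] V))

/-- The stabiliser of a vector. -/
def stab (v : V) : Subgroup H where
  carrier := {h | ρ h v = v}
  mul_mem' := by
    intro a b ha hb
    show ρ (a * b) v = v
    rw [map_mul, Module.End.mul_apply]
    rw [show ρ b v = v from hb]; exact ha
  one_mem' := by show ρ 1 v = v; rw [map_one]; rfl
  inv_mem' := by
    intro a ha
    show ρ a⁻¹ v = v
    have h1 : ρ a v = v := ha
    conv_lhs => rw [← h1]
    rw [← Module.End.mul_apply, ← map_mul, inv_mul_cancel, map_one]; rfl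

lemma mem_stab {v : V} {h : H} : h ∈ stab ρ v ↔ ρ h v = v := Iff.rfl

lemma rho_inv_apply (h : H) (v : V) : ρ h⁻¹ (ρ h v) = v := by
  rw [← Module.End.mul_apply, ← map_mul, inv_mul_cancel, map_one]; rfl

lemma rho_apply_inv (h : H) (v : V) : ρ h (ρ h⁻¹ v) = v := by
  rw [← Module.End.mul_apply, ← map_mul, mul_inv_cancel, map_one]; rfl

lemma rho_mul_apply (g h : H) (v : V) : ρ (g * h) v = ρ g (ρ h v) := by
  rw [map_mul, Module.End.mul_apply]

/-- If `h` maps `w` to a scalar multiple, it normalises the stabiliser. -/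
lemma mem_normalizer_stab {w : V} {h : H} {c : ZMod p} (hc : c ≠ 0) (hw : ρ h w = c • w) :
    h ∈ Subgroup.normalizer (stab ρ w : Set H) := by
  rw [Subgroup.mem_normalizer_iff]
  intro x
  rw [mem_stab, mem_stab]
  have hinv : ρ h⁻¹ w = c⁻¹ • w := by
    have h1 := rho_inv_apply ρ h w
    rw [hw, map_smul] at h1
    rw [← h1, smul_smul, inv_mul_cancel₀ hc, one_smul, h1]
  rw [rho_mul_apply, rho_mul_apply, hinv, map_smul, map_smul]
  constructor
  · intro hx
    rw [hx, hw, smul_smul, inv_mul_cancel₀ hc, one_smul]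
  · intro hx
    have h2 := congrArg (ρ h⁻¹) hx
    rw [map_smul, rho_inv_apply, hinv] at h2
    have h3 := congrArg (fun y => c • y) h2
    simpa only [smul_smul, mul_inv_cancel₀ hc, one_smul] using h3

lemma mem_fixedBy_of_normalizer {C : Subgroup H} {n : H}
    (hn : n ∈ Subgroup.normalizer (C : Set H)) {w : V} (hw : w ∈ fixedBy ρ C) :
    ρ n w ∈ fixedBy ρ C := by
  intro g hg
  have h1 : n⁻¹ * g * n ∈ C := by
    have := (Subgroup.mem_normalizer_iff.1 (Subgroup.inv_mem _ hn) g).1 hg
    rwa [inv_inv] at this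
  have h2 := hw _ h1
  rw [rho_mul_apply, rho_mul_apply] at h2
  have h3 := congrArg (ρ n) h2
  rwa [rho_apply_inv] at h3

/-- The action of the normaliser of `C` on the fixed space of `C`. -/
def actHom (C : Subgroup H) : Subgroup.normalizer (C : Set H) →* Module.End (ZMod p) (fixedBy ρ C) where
  toFun n := (ρ n).restrict (fun _ hw => mem_fixedBy_of_normalizer ρ n.2 hw)
  map_one' := by ext w; simp
  map_mul' := by
    intro a b
    ext w
    simp [LinearMap.restrict_apply]

lemma actHom_apply (C : Subgroup H) (n : Subgroup.normalizer (C : Set H)) (w : fixedBy ρ C) :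
    ((actHom ρ C n w : fixedBy ρ C) : V) = ρ n w := rfl

variable [Finite H] [Module.Finite (ZMod p) V]

/-- Eigenvalue count for an element of the normaliser. -/
lemma powCount_bound (hHp : (Nat.card H).Coprime p) {k m : ℕ} (hm : 0 < m) (hcard : Nat.card H ∣ m)
    (hconj : ∀ j : ℕ, j.Coprime m → ∀ h : H, ∃ g : H, g * h * g⁻¹ = h ^ (j ^ k))
    (C : Subgroup H) [Nontrivial (fixedBy ρ C)] (n : Subgroup.normalizer (C : Set H)) {e : ℕ}
    (he0 : 0 < e) (he : e ∣ Nat.card H) (hTe : (actHom ρ C n) ^ e = 1)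
    (hfree : ∀ i, 0 < i → i < e → ∀ w, ((actHom ρ C n) ^ i) w = w → w = 0) :
    powCount k e ≤ Module.finrank (ZMod p) (fixedBy ρ C) := by
  set T := actHom ρ C n with hTdef
  apply powCount_le_finrank T hm (he.trans hcard) hTe hfree
  intro j hj S hST hSne
  have hJ : (j ^ k).Coprime (Nat.card H) := (Nat.Coprime.coprime_dvd_right hcard hj).pow_left k
  have hTinj : Function.Injective T := by
    intro a b hab
    have h1 : ∀ w, (T ^ (e - 1)) (T w) = w := by
      intro w
      rw [← Module.End.mul_apply, ← pow_succ, Nat.sub_add_cancel he0, hTe]; rfl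
    rw [← h1 a, ← h1 b, hab]
  let a : S ≃ₗ[ZMod p] S := LinearEquiv.ofInjectiveEndo (T.restrict hST) (by
    intro x y hxy
    apply Subtype.ext
    apply hTinj
    exact congrArg Subtype.val hxy)
  have ha1 : ∀ s : S, ((a s : S) : fixedBy ρ C) = T s := fun s => rfl
  have hai : ∀ (i : ℕ) (s : S), (((a ^ i) s : S) : fixedBy ρ C) = (T ^ i) s := by
    intro i
    induction i with
    | zero => intro s; simp
    | succ i ih =>
      intro s
      rw [pow_succ', LinearEquiv.mul_apply, ha1, ih, pow_succ', Module.End.mul_apply]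
  have hTc : T ^ (Nat.card H) = 1 := by
    obtain ⟨b, hb⟩ := he
    rw [hb, pow_mul, hTe, one_pow]
  have hacard : a ^ (Nat.card H) = 1 := by
    ext s
    rw [hai, hTc]; rfl
  have hfr := finrank_twistHom ρ hHp C n.2 a hacard hJ (hconj j hj)
  have hpos : 0 < Module.finrank (ZMod p) (twistHom ρ C (n : H) a 1) := by
    rw [Module.finrank_pos_iff_exists_ne_zero]
    refine ⟨⟨(fixedBy ρ C).subtype ∘ₗ S.subtype, ?_, ?_⟩, ?_⟩
    · intro c hc s
      exact s.1.2 c hc
    · intro s
      rw [pow_one]
      rfl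
    · intro h0
      apply hSne
      rw [Submodule.eq_bot_iff]
      intro s hs
      have h1 := congrArg Subtype.val h0
      have h2 := LinearMap.congr_fun h1 ⟨s, hs⟩
      apply Subtype.ext
      exact h2
  rw [← hfr, Module.finrank_pos_iff_exists_ne_zero] at hpos
  obtain ⟨⟨L', hL'1, hL'2⟩, hL'0⟩ := hpos
  refine ⟨LinearMap.codRestrict (fixedBy ρ C) L' (fun s c hc => hL'1 c hc s), ?_, ?_⟩
  · intro h0
    apply hL'0
    apply Subtype.ext
    ext s
    have := LinearMap.congr_fun h0 s
    exact congrArg Subtype.val this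
  · intro s s' hs
    apply Subtype.ext
    show ρ n (L' s) = L' s'
    rw [hL'2 s]
    congr 1
    apply Subtype.ext
    rw [hai, hs]

/-- Equality of eigenspace dimensions. -/
lemma finrank_eigenspace_eq (hHp : (Nat.card H).Coprime p) (C : Subgroup H)
    (n : Subgroup.normalizer (C : Set H)) (t : (ZMod p)ˣ) (ht : t ^ (Nat.card H) = 1) {J : ℕ}
    (hJ : J.Coprime (Nat.card H)) (hconj : ∀ h : H, ∃ g : H, g * h * g⁻¹ = h ^ J) :
    Module.finrank (ZMod p) (Module.End.eigenspace (actHom ρ C n) ((t : ZMod p) ^ J)) =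
      Module.finrank (ZMod p) (Module.End.eigenspace (actHom ρ C n) (t : ZMod p)) := by
  let a : ZMod p ≃ₗ[ZMod p] ZMod p := LinearEquiv.smulOfUnit t
  have hai : ∀ (i : ℕ) (v : ZMod p), (a ^ i) v = (t : ZMod p) ^ i * v := by
    intro i
    induction i with
    | zero => intro v; simp
    | succ i ih =>
      intro v
      rw [pow_succ', LinearEquiv.mul_apply, ih, pow_succ', mul_assoc]
      rfl
  have hacard : a ^ (Nat.card H) = 1 := by
    ext
    rw [hai]
    have : ((t ^ (Nat.card H) : (ZMod p)ˣ) : ZMod p) = 1 := by rw [ht]; rfl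
    push_cast at this
    rw [this]; simp
  have key : ∀ u : ℕ, Module.finrank (ZMod p)
      (Module.End.eigenspace (actHom ρ C n) ((t : ZMod p) ^ u)) =
      Module.finrank (ZMod p) (twistHom ρ C (n : H) a u) := by
    intro u
    let f : twistHom ρ C (n : H) a u →ₗ[ZMod p]
        Module.End.eigenspace (actHom ρ C n) ((t : ZMod p) ^ u) :=
      { toFun := fun L => ⟨⟨L.1 1, fun c hc => L.2.1 c hc 1⟩, by
          rw [Module.End.mem_eigenspace_iff]
          apply Subtype.ext
          show ρ n (L.1 1) = (t : ZMod p) ^ u • L.1 1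
          rw [L.2.2 1, hai, mul_one, ← map_smul, smul_eq_mul, mul_one]⟩
        map_add' := fun L L' => rfl
        map_smul' := fun c L => rfl }
    let g : Module.End.eigenspace (actHom ρ C n) ((t : ZMod p) ^ u) →ₗ[ZMod p]
        twistHom ρ C (n : H) a u :=
      { toFun := fun w => ⟨LinearMap.toSpanSingleton (ZMod p) V (w.1 : V), by
          constructor
          · intro c hc v
            rw [LinearMap.toSpanSingleton_apply, map_smul, w.1.2 c hc]
          · intro v
            rw [LinearMap.toSpanSingleton_apply, LinearMap.toSpanSingleton_apply, map_smul, hai]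
            have h1 := Module.End.mem_eigenspace_iff.1 w.2
            have h2 : ρ n (w.1 : V) = (t : ZMod p) ^ u • (w.1 : V) := congrArg Subtype.val h1
            rw [h2, smul_smul, mul_comm]⟩
        map_add' := fun w w' => by
          apply Subtype.ext
          ext
          simp
        map_smul' := fun c w => by
          apply Subtype.ext
          ext
          simp }
    refine (LinearEquiv.finrank_eq (LinearEquiv.ofLinearMap f g ?_ ?_)).symm
    · ext w
      show (LinearMap.toSpanSingleton (ZMod p) V (w.1 : V)) 1 = (w.1 : V)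
      rw [LinearMap.toSpanSingleton_apply, one_smul]
    · ext L
      show (LinearMap.toSpanSingleton (ZMod p) V (L.1 1)) 1 = L.1 1
      rw [LinearMap.toSpanSingleton_apply, one_smul]
  have h1 := key 1
  rw [pow_one] at h1
  rw [key J, h1]
  exact finrank_twistHom ρ hHp C n.2 a hacard hJ hconj

/-- The core theorem. -/
theorem core [Nontrivial V] (hHp : (Nat.card H).Coprime p) {k m : ℕ} (hk : 0 < k) (hm : 0 < m)
    (hcard : Nat.card H ∣ m) (hpm : p ∣ m) (hpm1 : (p - 1) ∣ m)
    (hconj : ∀ j : ℕ, j.Coprime m → ∀ h : H, ∃ g : H, g * h * g⁻¹ = h ^ (j ^ k))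
    (hT : ∀ j : ℕ, j.Coprime m → ∀ v : V, ∃ g : H, ρ g v = (j ^ k) • v) :
    p ≤ 2 ^ (125 * k) := by
  classical
  have hp : p.Prime := Fact.out
  have hVfin : Finite V := Module.finite_of_finite (ZMod p)
  -- a vector with maximal stabiliser
  obtain ⟨v₀, hv₀, hmax⟩ := Set.exists_max_image {v : V | v ≠ 0}
    (fun v => Nat.card (stab ρ v)) (Set.toFinite _) (exists_ne (0 : V))
  have hv₀ : v₀ ≠ 0 := hv₀
  set C := stab ρ v₀ with hC
  have hv₀W : v₀ ∈ fixedBy ρ C := fun c hc => hc
  have hNontriv : Nontrivial (fixedBy ρ C) := ⟨⟨⟨v₀, hv₀W⟩, 0, fun h => hv₀ (congrArg Subtype.val h)⟩⟩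
  have hstab : ∀ w : fixedBy ρ C, w ≠ 0 → stab ρ (w : V) = C := by
    intro w hw
    have hw' : (w : V) ≠ 0 := fun h => hw (Subtype.ext h)
    refine (Subgroup.eq_of_le_of_card_ge (fun c hc => w.2 c hc) (hmax _ hw')).symm
  set N := Subgroup.normalizer (C : Set H) with hN
  have hCN : C ≤ N := Subgroup.le_normalizer
  let τ : N →* (Module.End (ZMod p) (fixedBy ρ C))ˣ := (actHom ρ C).toHomUnits
  have hτ : ∀ n : N, ((τ n : (Module.End (ZMod p) (fixedBy ρ C))ˣ) :
      Module.End (ZMod p) (fixedBy ρ C)) = actHom ρ C n := fun n => rfl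
  let Q : Subgroup (Module.End (ZMod p) (fixedBy ρ C))ˣ := τ.range
  have hQfin : Finite Q := Finite.of_surjective τ.rangeRestrict τ.rangeRestrict_surjective
  -- `Q` acts freely
  have hQfree : ∀ q : Q, ∀ w : fixedBy ρ C, w ≠ 0 →
      ((q : (Module.End (ZMod p) (fixedBy ρ C))ˣ) : Module.End (ZMod p) (fixedBy ρ C)) w = w →
      q = 1 := by
    rintro ⟨_, n, rfl⟩ w hw h
    apply Subtype.ext
    apply Units.ext
    show actHom ρ C n = 1
    have h1 : (n : H) ∈ stab ρ (w : V) := congrArg Subtype.val h
    rw [hstab w hw] at h1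
    ext u
    exact u.2 n h1
  -- the scalar
  obtain ⟨g, hg⟩ := IsCyclic.exists_generator (α := (ZMod p)ˣ)
  set t : (ZMod p)ˣ := g ^ k with ht
  by_cases hfix : ∀ j : ℕ, j.Coprime m → t ^ (j ^ k) = t
  · -- the scalar has few conjugates
    have h1 := le_of_fixed hp hk hm hpm1 g hg hfix
    have h2 : k * 6 ^ k + 1 ≤ 2 ^ (125 * k) := by
      have h3 : k < 2 ^ k := Nat.lt_two_pow_self
      have h4 : 6 ^ k ≤ 2 ^ (3 * k) := by
        rw [pow_mul]; exact Nat.pow_le_pow_left (by norm_num) k
      calc k * 6 ^ k + 1 ≤ 2 ^ k * 2 ^ (3 * k) := by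
            have h5 : 1 ≤ 6 ^ k := Nat.one_le_pow _ _ (by norm_num)
            have h6 : (k + 1) * 6 ^ k ≤ 2 ^ k * 2 ^ (3 * k) := Nat.mul_le_mul h3 h4
            nlinarith
        _ = 2 ^ (4 * k) := by rw [← pow_add]; congr 1; ring
        _ ≤ 2 ^ (125 * k) := Nat.pow_le_pow_right (by norm_num) (by omega)
    exact h1.trans h2
  push Not at hfix
  obtain ⟨j₀, hj₀, hj₀t⟩ := hfix
  -- the element realising the scalar
  have hscal : ∀ w : fixedBy ρ C, ∃ n : N, actHom ρ C n w = (t : ZMod p) • w := by
    intro w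
    by_cases hw : w = 0
    · exact ⟨1, by rw [hw, map_zero, smul_zero]⟩
    obtain ⟨j, hj, hjg⟩ := exists_coprime_lift hm hpm g
    obtain ⟨h, hh⟩ := hT j hj (w : V)
    have h1 : ρ h (w : V) = (t : ZMod p) • (w : V) := by
      rw [hh, ht, Units.val_pow_eq_pow_val, ← hjg, ← Nat.cast_pow, Nat.cast_smul_eq_nsmul]
    have h2 : h ∈ Subgroup.normalizer (stab ρ (w : V) : Set H) :=
      mem_normalizer_stab ρ t.ne_zero h1
    rw [hstab w hw] at h2
    exact ⟨⟨h, h2⟩, Subtype.ext h1⟩
  have htcard : t ^ (Nat.card H) = 1 := by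
    obtain ⟨n, hn⟩ := hscal ⟨v₀, hv₀W⟩
    have h1 : ∀ i : ℕ, ((actHom ρ C n) ^ i) ⟨v₀, hv₀W⟩ = ((t : ZMod p) ^ i) • ⟨v₀, hv₀W⟩ := by
      intro i
      induction i with
      | zero => simp
      | succ i ih => rw [pow_succ, Module.End.mul_apply, hn, map_smul, ih, smul_smul, pow_succ']
    have h2 : n ^ (Nat.card H) = 1 := by
      apply Subtype.ext
      push_cast
      exact pow_card_eq_one'
    have h3 := h1 (Nat.card H)
    rw [← map_pow, h2, map_one, Module.End.one_apply] at h3
    have h4 : (t : ZMod p) ^ (Nat.card H) • v₀ = v₀ := (congrArg Subtype.val h3).symm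
    apply Units.ext
    push_cast
    by_contra hne
    have h5 : ((t : ZMod p) ^ (Nat.card H) - 1) • v₀ = 0 := by
      rw [sub_smul, h4, one_smul, sub_self]
    rcases smul_eq_zero.1 h5 with h6 | h6
    · exact hne (sub_eq_zero.1 h6)
    · exact hv₀ h6
  set n := Module.finrank (ZMod p) (fixedBy ρ C) with hn
  have hnpos : 0 < n := Module.finrank_pos
  -- eigenspaces are at most half
  have hJ₀ : (j₀ ^ k).Coprime (Nat.card H) :=
    (Nat.Coprime.coprime_dvd_right hcard hj₀).pow_left k
  have heig : ∀ x : N, 2 * Module.finrank (ZMod p)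
      (Module.End.eigenspace (actHom ρ C x) (t : ZMod p)) ≤ n := by
    intro x
    have h1 := finrank_eigenspace_eq ρ hHp C x t htcard hJ₀ (hconj j₀ hj₀)
    have h2 : ((t : ZMod p) ^ (j₀ ^ k)) ≠ (t : ZMod p) := by
      intro h
      apply hj₀t
      apply Units.ext
      push_cast
      exact h
    have h3 : Disjoint (Module.End.eigenspace (actHom ρ C x) ((t : ZMod p) ^ (j₀ ^ k)))
        (Module.End.eigenspace (actHom ρ C x) (t : ZMod p)) :=
      Module.End.disjoint_genEigenspace _ h2 1 1
    have h4 := Submodule.finrank_add_finrank_le_of_disjoint h3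
    rw [h1] at h4
    omega
  -- counting vectors
  have hQeig : ∀ q : Q, 2 * Module.finrank (ZMod p) (Module.End.eigenspace
      ((q : (Module.End (ZMod p) (fixedBy ρ C))ˣ) : Module.End (ZMod p) (fixedBy ρ C))
      (t : ZMod p)) ≤ n := by
    rintro ⟨_, x, rfl⟩
    exact heig x
  have hcount : p ^ n ≤ Nat.card Q ^ 2 := by
    have hch : ∀ w : fixedBy ρ C, ∃ q : Q, w ∈ Module.End.eigenspace
      ((q : (Module.End (ZMod p) (fixedBy ρ C))ˣ) : Module.End (ZMod p) (fixedBy ρ C))
      (t : ZMod p) := by
      intro w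
      obtain ⟨x, hx⟩ := hscal w
      exact ⟨⟨τ x, x, rfl⟩, Module.End.mem_eigenspace_iff.2 hx⟩
    choose qf hqf using hch
    have hinj : Function.Injective (fun w : fixedBy ρ C =>
        (⟨qf w, ⟨w, hqf w⟩⟩ : Σ q : Q, Module.End.eigenspace
      ((q : (Module.End (ZMod p) (fixedBy ρ C))ˣ) : Module.End (ZMod p) (fixedBy ρ C))
      (t : ZMod p))) := by
      intro w w' h
      have := congrArg (fun z : (Σ q : Q, Module.End.eigenspace
      ((q : (Module.End (ZMod p) (fixedBy ρ C))ˣ) : Module.End (ZMod p) (fixedBy ρ C))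
      (t : ZMod p)) => (z.2 : fixedBy ρ C)) h
      exact this
    have : Fintype Q := Fintype.ofFinite Q
    have hWfin : Finite (fixedBy ρ C) := Module.finite_of_finite (ZMod p)
    have h1 := Nat.card_le_card_of_injective _ hinj
    rw [Nat.card_sigma, Module.natCard_eq_pow_finrank (K := ZMod p), Nat.card_zmod] at h1
    have h2 : ∑ q : Q, Nat.card (Module.End.eigenspace
      ((q : (Module.End (ZMod p) (fixedBy ρ C))ˣ) : Module.End (ZMod p) (fixedBy ρ C))
      (t : ZMod p)) ≤ ∑ q : Q, p ^ (n / 2) := by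
      apply Finset.sum_le_sum
      intro q _
      rw [Module.natCard_eq_pow_finrank (K := ZMod p), Nat.card_zmod]
      apply Nat.pow_le_pow_right hp.pos
      have := hQeig q
      omega
    rw [Finset.sum_const, Finset.card_univ, smul_eq_mul, ← Nat.card_eq_fintype_card] at h2
    have h3 : p ^ n ≤ Nat.card Q * p ^ (n / 2) := h1.trans h2
    have h4 : p ^ n * p ^ n ≤ Nat.card Q ^ 2 * p ^ n := by
      calc p ^ n * p ^ n ≤ (Nat.card Q * p ^ (n / 2)) * (Nat.card Q * p ^ (n / 2)) :=
            Nat.mul_le_mul h3 h3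
        _ = Nat.card Q ^ 2 * p ^ (n / 2 + n / 2) := by rw [pow_add]; ring
        _ ≤ Nat.card Q ^ 2 * p ^ n := by
            apply Nat.mul_le_mul_left
            apply Nat.pow_le_pow_right hp.pos
            omega
    exact Nat.le_of_mul_le_mul_right h4 (Nat.pow_pos hp.pos)
  -- the order of `Q`
  have hQcard : Nat.card Q ≤ (Nat.lcmUpto (4 * k * n)) ^ 2 := by
    apply card_le_lcmUpto_sq
    intro r hr hrQ
    have : Fact r.Prime := ⟨hr⟩
    obtain ⟨P⟩ : Nonempty (Sylow r Q) := inferInstance
    have hcyc : ∀ A : Subgroup P, IsMulCommutative A → IsCyclic A := by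
      intro A hA
      let cA : CommGroup A := { (inferInstance : Group A) with mul_comm := hA.1.1 }
      let σ : A →* (fixedBy ρ C →ₗ[ZMod p] fixedBy ρ C) :=
        { toFun := fun a => (((a : P) : Q) : (Module.End (ZMod p) (fixedBy ρ C))ˣ).val
          map_one' := rfl
          map_mul' := fun a b => rfl }
      exact isCyclic_of_free σ (fun a w hw h => by
        have := hQfree ((a : P) : Q) w hw h
        apply Subtype.ext
        apply Subtype.ext
        exact this)
    obtain ⟨x, hx⟩ := exists_large_cyclic P.isPGroup' hcyc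
    obtain ⟨b, hb⟩ := (IsPGroup.iff_orderOf.1 P.isPGroup') x
    refine ⟨b, ?_, ?_⟩
    · -- the eigenvalue count
      obtain ⟨⟨_, ⟨y, rfl⟩⟩, hxP⟩ := x
      have hord : orderOf (τ y) = r ^ b := by
        rw [← hb]
        rw [← Subgroup.orderOf_coe, ← Subgroup.orderOf_coe]
      have he : r ^ b ∣ Nat.card H := by
        rw [← hord]
        exact (orderOf_map_dvd τ y).trans ((orderOf_dvd_natCard y).trans
          (Subgroup.card_subgroup_dvd_card N))
      have hTe : (actHom ρ C y) ^ (r ^ b) = 1 := by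
        have h1 : (τ y) ^ (r ^ b) = 1 := by rw [← hord]; exact pow_orderOf_eq_one (τ y)
        have h2 := congrArg Units.val h1
        exact h2
      have hpc := powCount_bound ρ hHp hm hcard hconj C y (Nat.pow_pos hr.pos) he hTe (by
        intro i hi hie w hw
        by_contra hne
        have h1 := hQfree ⟨(τ y) ^ i, ⟨y ^ i, map_pow τ y i⟩⟩ w hne hw
        have h2 : (τ y) ^ i = 1 := congrArg Subtype.val h1
        have h3 := orderOf_dvd_of_pow_eq_one h2
        rw [hord] at h3
        exact absurd (Nat.le_of_dvd hi h3) (by omega))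
      calc r ^ b ≤ 4 * k * powCount k (r ^ b) := le_powCount hk hr b
        _ ≤ 4 * k * n := Nat.mul_le_mul_left _ hpc
    · rw [← Sylow.card_eq_multiplicity P, ← hb]
      exact hx
  exact final_bound hnpos hcount hQcard hp.pos hk

end Core

end Pool.Agent.Lib.MP_3c3661_al
end
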