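import Mathlib
import Pool.Agent.Lib.MP_3c3661_al.Gassmann
import Pool.Agent.Lib.MP_3c3661_al.Twist
import Pool.Agent.Lib.MP_3c3661_al.Core

section

/-!
Almost conjugate `p'`-subgroups of a finite group have fixed spaces of the same dimension in every
`ZMod p`-representation.
-/

set_option autoImplicit false

namespace Pool.Agent.Lib.MP_3c3661_al

open Matrix

variable {p : ℕ} [Fact p.Prime]

section Conj

variable {i n : ℕ}

/-- Lifts of conjugate matrices of order prime to `p` have the same trace. -/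
theorem trace_eq_of_conj_red {N : ℕ} (hN : N.Coprime p)
    {A B : Matrix (Fin n) (Fin n) (ZMod (p ^ (i + 1)))} (hA : A ^ N = 1) (hB : B ^ N = 1)
    (g g' : Matrix (Fin n) (Fin n) (ZMod p)) (hg : g * g' = 1)
    (h : B.map (red p i) = g * A.map (red p i) * g') : A.trace = B.trace := by
  classical
  have hp : p.Prime := Fact.out
  have hN0 : 0 < N := by
    rcases Nat.eq_zero_or_pos N with h0 | h0
    · rw [h0, Nat.coprime_zero_left] at hN
      exact absurd hN hp.one_lt.ne'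
    · exact h0
  set lift : ZMod p → ZMod (p ^ (i + 1)) := fun x => ((x.val : ℕ) : ZMod (p ^ (i + 1)))
    with hlift
  have hredlift : ∀ x, red p i (lift x) = x := fun x => red_surj x
  set P := g.map lift with hP
  set Q := g'.map lift with hQ
  have hP' : P.map (red p i) = g := by
    ext a b; simp [hP, hredlift]
  have hQ' : Q.map (red p i) = g' := by
    ext a b; simp [hQ, hredlift]
  have hone : (1 : Matrix (Fin n) (Fin n) (ZMod (p ^ (i + 1)))).map (red p i) = 1 := by
    ext a b; simp [Matrix.one_apply, apply_ite]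
  have h1 : (P * Q).map (red p i) = (1 : Matrix (Fin n) (Fin n) _).map (red p i) := by
    rw [Matrix.map_mul, hP', hQ', hg, hone]
  obtain ⟨C, hC⟩ := congr_of_map_eq h1
  obtain ⟨u, hu⟩ := isUnit_one_add_nat_mul (p_pow_zero (p := p) (i := i)) C
  rw [← hC] at hu
  set V : Matrix (Fin n) (Fin n) (ZMod (p ^ (i + 1))) :=
    (↑u⁻¹ : Matrix (Fin n) (Fin n) (ZMod (p ^ (i + 1)))) with hV
  have hPQV : P * (Q * V) = 1 := by
    rw [← Matrix.mul_assoc, ← hu, hV, Units.mul_inv]
  have hQVP : (Q * V) * P = 1 := mul_eq_one_comm.1 hPQV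
  have hVred : V.map (red p i) = 1 := by
    have h2 : (P * Q * V).map (red p i) = 1 := by
      rw [Matrix.mul_assoc, hPQV, hone]
    rw [Matrix.map_mul, h1, hone, one_mul] at h2
    exact h2
  -- conjugate of `A`
  set A' := P * A * (Q * V) with hA'
  have hA'pow : ∀ j : ℕ, A' ^ j = P * A ^ j * (Q * V) := by
    intro j
    induction j with
    | zero => rw [pow_zero, pow_zero, Matrix.mul_one, hPQV]
    | succ j ih =>
      rw [pow_succ A' j, ih, hA', pow_succ A j]
      calc P * A ^ j * (Q * V) * (P * A * (Q * V))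
          = P * A ^ j * ((Q * V) * P) * A * (Q * V) := by simp only [Matrix.mul_assoc]
        _ = _ := by rw [hQVP, Matrix.mul_one]; simp only [Matrix.mul_assoc]
  have hA'N : A' ^ N = 1 := by rw [hA'pow, hA, Matrix.mul_one, hPQV]
  have hredA' : A'.map (red p i) = B.map (red p i) := by
    rw [hA', Matrix.map_mul, Matrix.map_mul, Matrix.map_mul, hP', hQ', hVred, Matrix.mul_one, h]
  have htrA : A'.trace = A.trace := by
    rw [hA', Matrix.mul_assoc, Matrix.trace_mul_comm, Matrix.mul_assoc, hQVP, Matrix.mul_one]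
  -- intertwiner
  set X := ∑ j ∈ Finset.range N, A' ^ j * B ^ (N - 1 - j) * B with hX
  have hXB : ∀ j ∈ Finset.range N, A' ^ j * B ^ (N - 1 - j) * B = A' ^ j * B ^ (N - j) := by
    intro j hj
    rw [Finset.mem_range] at hj
    rw [Matrix.mul_assoc, ← pow_succ]
    congr 2
    omega
  have hX2 : X = ∑ j ∈ Finset.range N, A' ^ j * B ^ (N - j) := Finset.sum_congr rfl hXB
  have hcomm : A' * X = X * B := by
    rw [hX2, Finset.mul_sum, Finset.sum_mul]
    have e1 : ∑ j ∈ Finset.range N, A' * (A' ^ j * B ^ (N - j))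
        = ∑ j ∈ Finset.range N, A' ^ (j + 1) * B ^ (N + 1 - (j + 1)) := by
      apply Finset.sum_congr rfl
      intro j hj
      rw [← Matrix.mul_assoc, ← pow_succ']
      congr 2
      omega
    have e2 : ∑ j ∈ Finset.range N, A' ^ j * B ^ (N - j) * B
        = ∑ j ∈ Finset.range N, A' ^ j * B ^ (N + 1 - j) := by
      apply Finset.sum_congr rfl
      intro j hj
      rw [Finset.mem_range] at hj
      rw [Matrix.mul_assoc, ← pow_succ]
      congr 2
      omega
    rw [e1, e2]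
    have h3 := Finset.sum_range_succ (fun j => A' ^ j * B ^ (N + 1 - j)) N
    have h4 := Finset.sum_range_succ' (fun j => A' ^ j * B ^ (N + 1 - j)) N
    rw [h3] at h4
    have h5 : A' ^ N * B ^ (N + 1 - N) = A' ^ 0 * B ^ (N + 1 - 0) := by
      rw [hA'N, pow_zero, Nat.sub_zero, pow_succ B N, hB, Nat.add_sub_cancel_left, pow_one,
        Matrix.one_mul, Matrix.one_mul]
    rw [h5] at h4
    exact (add_right_cancel h4).symm
  have hXred : X.map (red p i) = ((N : ZMod (p ^ (i + 1))) • (1 : Matrix (Fin n) (Fin n) _)).map (red p i) := by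
    have e1 : X.map (red p i) = ∑ j ∈ Finset.range N, (A' ^ j * B ^ (N - j)).map (red p i) := by
      rw [hX2]
      exact map_sum (RingHom.mapMatrix (red p i)) _ _
    have hpow : ∀ (Y : Matrix (Fin n) (Fin n) (ZMod (p ^ (i + 1)))) (j : ℕ),
        (Y ^ j).map (red p i) = (Y.map (red p i)) ^ j := by
      intro Y j
      exact map_pow (RingHom.mapMatrix (red p i)) Y j
    have e2 : ∀ j ∈ Finset.range N, (A' ^ j * B ^ (N - j)).map (red p i) = 1 := by
      intro j hj
      rw [Finset.mem_range] at hj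
      rw [Matrix.map_mul, hpow, hpow, hredA', ← pow_add]
      have : j + (N - j) = N := by omega
      rw [this, ← hpow, hB, hone]
    rw [e1, Finset.sum_congr rfl e2, Finset.sum_const, Finset.card_range]
    ext x y
    by_cases hxy : x = y
    · subst hxy; simp [Matrix.smul_apply]
    · simp [hxy, Matrix.smul_apply]
  obtain ⟨D, hD⟩ := congr_of_map_eq hXred
  have hunitN : IsUnit ((N : ℕ) : ZMod (p ^ (i + 1))) := by
    rw [ZMod.isUnit_iff_coprime]
    exact hN.pow_right _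
  obtain ⟨w, hw⟩ := hunitN.exists_right_inv
  have hXunit : IsUnit X := by
    have h6 : X = ((N : ZMod (p ^ (i + 1))) • (1 : Matrix (Fin n) (Fin n) _)) *
        (1 + ((p : ℕ) : ZMod (p ^ (i + 1))) • (w • D)) := by
      have h7 : (N : ZMod (p ^ (i + 1))) • (((p : ℕ) : ZMod (p ^ (i + 1))) • (w • D))
          = ((p : ℕ) : ZMod (p ^ (i + 1))) • D := by
        rw [smul_smul, smul_smul]
        congr 1
        calc (N : ZMod (p ^ (i + 1))) * (p : ℕ) * w = (p : ℕ) * ((N : ZMod (p ^ (i + 1))) * w) := by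
              ring
          _ = (p : ℕ) := by rw [hw, mul_one]
      rw [hD, mul_add, Matrix.mul_one, smul_mul_assoc, Matrix.one_mul, h7]
    rw [h6]
    refine IsUnit.mul ?_ (isUnit_one_add_nat_mul (p_pow_zero (p := p) (i := i)) _)
    refine isUnit_iff_exists.2 ⟨w • 1, ?_, ?_⟩
    · rw [smul_mul_smul_comm, hw, one_smul, Matrix.one_mul]
    · rw [smul_mul_smul_comm, mul_comm, hw, one_smul, Matrix.one_mul]
  obtain ⟨v, hv⟩ := hXunit
  have hA'B : A' = (v : Matrix (Fin n) (Fin n) (ZMod (p ^ (i + 1)))) * B *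
      (↑v⁻¹ : Matrix (Fin n) (Fin n) (ZMod (p ^ (i + 1)))) := by
    rw [hv, ← hcomm, ← hv, Matrix.mul_assoc, Units.mul_inv, Matrix.mul_one]
  rw [← htrA, hA'B, Matrix.trace_mul_cycle, Units.inv_mul, Matrix.one_mul]

end Conj

section Main

variable {G : Type*} [Group G] {M : Type*} [AddCommGroup M] [Module (ZMod p) M]
  [Module.Finite (ZMod p) M]

omit [Module.Finite (ZMod p) M] in
/-- The fixed space dimension of a `p'`-group through the traces of a lifted representation. -/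
lemma sum_trace_eq {Δ : Type*} [Group Δ] [Fintype Δ] {n : ℕ} (b : Module.Basis (Fin n) (ZMod p) M)
    (σ : Δ →* (M →ₗ[ZMod p] M)) {i : ℕ}
    (ρ' : Δ →* Matrix (Fin n) (Fin n) (ZMod (p ^ (i + 1))))
    (hρ' : ∀ g, (ρ' g).map (red p i) = LinearMap.toMatrix b b (σ g))
    {u : ZMod (p ^ (i + 1))} (hu : u * (Fintype.card Δ : ZMod (p ^ (i + 1))) = 1)
    (hred : red p i u = (Fintype.card Δ : ZMod p)⁻¹) :
    u * ∑ δ : Δ, (ρ' δ).trace =
      ((Module.finrank (ZMod p) (LinearMap.range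
        (((Fintype.card Δ : ZMod p)⁻¹) • ∑ γ : Δ, σ γ)) : ℕ) : ZMod (p ^ (i + 1))) := by
  classical
  set E : Matrix (Fin n) (Fin n) (ZMod (p ^ (i + 1))) := u • ∑ δ : Δ, ρ' δ with hE
  have hmul : ∀ δ : Δ, ρ' δ * ∑ δ : Δ, ρ' δ = ∑ δ : Δ, ρ' δ := by
    intro δ
    rw [Finset.mul_sum]
    refine Fintype.sum_equiv (Equiv.mulLeft δ) _ _ (fun γ => ?_)
    simp [map_mul]
  have hEE : E * E = E := by
    rw [hE, smul_mul_smul_comm, Finset.sum_mul, Finset.sum_congr rfl fun δ _ => hmul δ,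
      Finset.sum_const, Finset.card_univ, ← Nat.cast_smul_eq_nsmul (ZMod (p ^ (i + 1))), smul_smul,
      mul_assoc, hu, mul_one]
  have htr : E.trace = u * ∑ δ : Δ, (ρ' δ).trace := by
    rw [hE, Matrix.trace_smul, Matrix.trace_sum, smul_eq_mul]
  rw [← htr, trace_idem_eq_rank E hEE]
  congr 1
  have hEred : E.map (red p i) =
      LinearMap.toMatrix b b (((Fintype.card Δ : ZMod p)⁻¹) • ∑ γ : Δ, σ γ) := by
    have h1 : (∑ δ : Δ, ρ' δ).map (red p i) = ∑ δ : Δ, LinearMap.toMatrix b b (σ δ) := by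
      have : (∑ δ : Δ, ρ' δ).map (red p i) = ∑ δ : Δ, (ρ' δ).map (red p i) := by
        exact map_sum (RingHom.mapMatrix (red p i)) _ _
      rw [this]
      exact Finset.sum_congr rfl fun δ _ => hρ' _
    have h2 : E.map (red p i) = (red p i u) • (∑ δ : Δ, ρ' δ).map (red p i) := by
      ext x y
      simp [hE]
    rw [h2, h1, hred]
    rw [map_smul, map_sum]
  rw [hEred]
  rw [Matrix.rank_eq_finrank_range_toLin _ b b, Matrix.toLin_toMatrix]

/-- **Almost conjugate `p'`-subgroups have fixed spaces of equal dimension.** -/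
theorem finrank_fixedBy_eq' (σ : G →* (M →ₗ[ZMod p] M))
    (Γ Γ' : Subgroup G) [Finite Γ] (hΓ : (Nat.card Γ).Coprime p) (φ : Γ ≃ Γ')
    (hφ : ∀ γ : Γ, ∃ h : G, h * (γ : G) * h⁻¹ = (φ γ : G)) :
    Module.finrank (ZMod p) (fixedBy σ Γ) = Module.finrank (ZMod p) (fixedBy σ Γ') := by
  classical
  have hp : p.Prime := Fact.out
  have hfΓ : Fintype Γ := Fintype.ofFinite Γ
  have hfΓ' : Fintype Γ' := Fintype.ofEquiv Γ φ
  set n := Module.finrank (ZMod p) M with hn
  let b : Module.Basis (Fin n) (ZMod p) M := Module.finBasis (ZMod p) M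
  have hcardeq : Fintype.card Γ = Fintype.card Γ' := Fintype.card_congr φ
  rw [Nat.card_eq_fintype_card] at hΓ
  have hΓ' : (Fintype.card Γ').Coprime p := by rw [← hcardeq]; exact hΓ
  let ρ : ∀ Δ : Subgroup G, Δ →* Matrix (Fin n) (Fin n) (ZMod p) := fun Δ =>
    { toFun := fun g => LinearMap.toMatrix b b (σ (g : G))
      map_one' := by rw [OneMemClass.coe_one, map_one]; exact LinearMap.toMatrix_one b
      map_mul' := fun g h => by
        rw [Subgroup.coe_mul, map_mul]; exact LinearMap.toMatrix_mul b _ _ }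
  obtain ⟨ρ₁, hρ₁⟩ := exists_lift_rep hΓ n (ρ Γ)
  obtain ⟨ρ₂, hρ₂⟩ := exists_lift_rep hΓ' n (ρ Γ')
  have hunit : IsUnit ((Fintype.card Γ : ℕ) : ZMod (p ^ (n + 1))) := by
    rw [ZMod.isUnit_iff_coprime]
    exact hΓ.pow_right _
  obtain ⟨u, hu⟩ := hunit.exists_left_inv
  have hured : red p n u = (Fintype.card Γ : ZMod p)⁻¹ := by
    have := congrArg (red p n) hu
    rw [map_mul, map_natCast, map_one] at this
    exact eq_inv_of_mul_eq_one_left this
  have hcardΓ : (Fintype.card Γ : ZMod p) ≠ 0 := by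
    intro h0
    have := congrArg (red p n) hu
    rw [map_mul, map_natCast, h0, mul_zero, map_one] at this
    exact zero_ne_one this
  have h1 := sum_trace_eq b (σ.comp Γ.subtype) ρ₁ hρ₁ hu hured
  have h2 := sum_trace_eq b (σ.comp Γ'.subtype) ρ₂ hρ₂ (by rw [← hcardeq]; exact hu)
    (by rw [← hcardeq]; exact hured)
  have e1 : LinearMap.range (((Fintype.card Γ : ZMod p)⁻¹) • ∑ γ : Γ, (σ.comp Γ.subtype) γ)
      = fixedBy σ Γ := range_avg σ Γ hcardΓ
  have e2 : LinearMap.range (((Fintype.card Γ' : ZMod p)⁻¹) • ∑ γ : Γ', (σ.comp Γ'.subtype) γ)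
      = fixedBy σ Γ' := range_avg σ Γ' (by rw [← hcardeq]; exact hcardΓ)
  rw [e1] at h1
  rw [e2] at h2
  have h3 : ∑ δ : Γ, (ρ₁ δ).trace = ∑ δ : Γ', (ρ₂ δ).trace := by
    refine Fintype.sum_equiv φ _ _ (fun γ => ?_)
    obtain ⟨h, hh⟩ := hφ γ
    refine trace_eq_of_conj_red hΓ (A := ρ₁ γ) (B := ρ₂ (φ γ)) ?_ ?_
      (LinearMap.toMatrix b b (σ h)) (LinearMap.toMatrix b b (σ h⁻¹)) ?_ ?_
    · rw [← map_pow, pow_card_eq_one, map_one]
    · rw [← map_pow, hcardeq, pow_card_eq_one, map_one]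
    · rw [← LinearMap.toMatrix_mul, ← map_mul, mul_inv_cancel, map_one]
      exact LinearMap.toMatrix_one b
    · rw [hρ₁, hρ₂]
      show LinearMap.toMatrix b b (σ (φ γ : G)) = _ * LinearMap.toMatrix b b (σ (γ : G)) * _
      rw [← hh, ← LinearMap.toMatrix_mul, ← LinearMap.toMatrix_mul, ← map_mul, ← map_mul]
  rw [h3, h2] at h1
  have hle : ∀ Δ : Subgroup G, Module.finrank (ZMod p) (fixedBy σ Δ) < p ^ (n + 1) := by
    intro Δ
    have h4 : Module.finrank (ZMod p) (fixedBy σ Δ) ≤ n := Submodule.finrank_le _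
    have h5 : n < p ^ n := Nat.lt_pow_self hp.one_lt
    have h6 : p ^ n ≤ p ^ (n + 1) := Nat.pow_le_pow_right hp.pos (by omega)
    omega
  have h7 := (ZMod.natCast_eq_natCast_iff' _ _ _).1 h1
  rw [Nat.mod_eq_of_lt (hle _), Nat.mod_eq_of_lt (hle _)] at h7
  exact h7.symm

end Main

end Pool.Agent.Lib.MP_3c3661_al
end

section

/-!
Spectral invariance on fixed spaces of `p'`-subgroups of arbitrary finite groups.
-/

set_option autoImplicit false

namespace Pool.Agent.Lib.MP_3c3661_al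

variable {p : ℕ} [Fact p.Prime]

section Twist

variable {H : Type*} [Group H] {V : Type*} [AddCommGroup V] [Module (ZMod p) V]
  {S : Type*} [AddCommGroup S] [Module (ZMod p) S]

variable [Finite H] [Module.Finite (ZMod p) V] [Module.Finite (ZMod p) S]

/-- **Spectral invariance**, general version. -/
theorem finrank_twistHom' (ρ : H →* (V →ₗ[ZMod p] V))
    (C : Subgroup H) (hC : (Nat.card C).Coprime p) {x : H}
    (hx : x ∈ Subgroup.normalizer (C : Set H)) (hxp : (orderOf x).Coprime p)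
    (a : S ≃ₗ[ZMod p] S) (ha : a ^ (orderOf x) = 1) {J : ℕ} (hJ : J.Coprime (Nat.card H))
    (hconj : ∀ h : H, ∃ g : H, g * h * g⁻¹ = h ^ J) :
    Module.finrank (ZMod p) (twistHom ρ C x a J) = Module.finrank (ZMod p) (twistHom ρ C x a 1) := by
  classical
  have hp : p.Prime := Fact.out
  have : Fintype H := Fintype.ofFinite H
  have hox : 0 < orderOf x := orderOf_pos x
  have hfin : IsOfFinOrder a := isOfFinOrder_iff_pow_eq_one.2 ⟨orderOf x, hox, ha⟩
  have hfz : Finite (Subgroup.zpowers a) := (finite_zpowers.2 hfin).to_subtype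
  have : Fintype (Subgroup.zpowers a) := Fintype.ofFinite _
  have hoax : orderOf a ∣ orderOf x := orderOf_dvd_of_pow_eq_one ha
  have hoa : orderOf a ∣ Nat.card H := hoax.trans (orderOf_dvd_natCard x)
  -- inverse exponent
  obtain ⟨J', hJ'⟩ : ∃ J' : ℕ, J * J' ≡ 1 [MOD Nat.card H] := by
    have : NeZero (Nat.card H) := ⟨Nat.card_pos.ne'⟩
    refine ⟨((ZMod.unitOfCoprime J hJ)⁻¹ : (ZMod (Nat.card H))ˣ).val.val, ?_⟩
    rw [← ZMod.natCast_eq_natCast_iff]
    push_cast
    rw [ZMod.natCast_val, ZMod.cast_id', id]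
    have h := Units.mul_inv (ZMod.unitOfCoprime J hJ)
    rwa [ZMod.coe_unitOfCoprime] at h
  have hpow : ∀ y : H, y ^ (J * J') = y := by
    intro y
    have : y ^ (J * J') = y ^ 1 := by
      rw [pow_eq_pow_iff_modEq]
      exact hJ'.of_dvd (orderOf_dvd_natCard y)
    rwa [pow_one] at this
  have hpowa : ∀ j : ℤ, a ^ (J * (j * J') : ℤ) = a ^ j := by
    intro j
    rw [zpow_eq_zpow_iff_modEq]
    have h1 : ((J * J' : ℕ) : ℤ) ≡ 1 [ZMOD (orderOf a : ℤ)] :=
      (Int.natCast_modEq_iff.2 (hJ'.of_dvd hoa))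
    have h2 := h1.mul_right j
    push_cast at h2
    calc (J : ℤ) * (j * J') = J * J' * j := by ring
      _ ≡ 1 * j [ZMOD (orderOf a : ℤ)] := h2
      _ = j := one_mul j
  rw [← fixedBy_graphSub ρ C hx a J, ← fixedBy_graphSub ρ C hx a 1]
  have hto : ∀ g ∈ graphSub C hx a J, ((g.1 ^ J, g.2) : H × Subgroup.zpowers a) ∈
      graphSub C hx a 1 := by
    rintro g ⟨c, hc, j, h1, h2⟩
    obtain ⟨c', hc', h3⟩ := exists_pow_mul hx hc j J
    refine ⟨c', hc', j * J, ?_, ?_⟩
    · show g.1 ^ J = _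
      rw [h1, h3]
    · show (g.2 : S ≃ₗ[ZMod p] S) = _
      rw [h2]; congr 1; ring
  have hinv : ∀ g ∈ graphSub C hx a 1, ((g.1 ^ J', g.2) : H × Subgroup.zpowers a) ∈
      graphSub C hx a J := by
    rintro g ⟨c, hc, j, h1, h2⟩
    obtain ⟨c', hc', h3⟩ := exists_pow_mul hx hc j J'
    refine ⟨c', hc', j * J', ?_, ?_⟩
    · show g.1 ^ J' = _
      rw [h1, h3]
    · show (g.2 : S ≃ₗ[ZMod p] S) = _
      rw [h2, hpowa]; congr 1; ring
  let φ : graphSub C hx a J ≃ graphSub C hx a 1 :=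
    { toFun := fun g => ⟨(g.1.1 ^ J, g.1.2), hto g.1 g.2⟩
      invFun := fun g => ⟨(g.1.1 ^ J', g.1.2), hinv g.1 g.2⟩
      left_inv := by
        intro g
        apply Subtype.ext
        apply Prod.ext
        · show (g.1.1 ^ J) ^ J' = g.1.1
          rw [← pow_mul, hpow]
        · rfl
      right_inv := by
        intro g
        apply Subtype.ext
        apply Prod.ext
        · show (g.1.1 ^ J') ^ J = g.1.1
          rw [← pow_mul, mul_comm, hpow]
        · rfl }
  -- the graph subgroup has order prime to `p`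
  have hgraph : (Nat.card (graphSub C hx a J)).Coprime p := by
    have hexp : ∀ γ : graphSub C hx a J, γ ^ (orderOf x * Nat.card C) = 1 := by
      rintro ⟨g, c, hc, j, h1, h2⟩
      apply Subtype.ext
      apply Prod.ext
      · show g.1 ^ (orderOf x * Nat.card C) = 1
        obtain ⟨c', hc', h3⟩ := exists_pow_mul hx hc j (orderOf x)
        rw [pow_mul, h1, h3]
        have h4 : x ^ (j * (orderOf x : ℤ)) = 1 := by
          rw [mul_comm, zpow_mul, zpow_natCast, pow_orderOf_eq_one, one_zpow]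
        rw [h4, mul_one]
        have h5 : (⟨c', hc'⟩ : C) ^ (Nat.card C) = 1 := pow_card_eq_one'
        exact congrArg Subtype.val h5
      · apply Subtype.ext
        show (g.2 : S ≃ₗ[ZMod p] S) ^ (orderOf x * Nat.card C) = 1
        have h6 : a ^ ((J : ℤ) * j * ((orderOf x * Nat.card C : ℕ) : ℤ)) =
            (a ^ (orderOf x)) ^ ((J : ℤ) * j * (Nat.card C : ℤ)) := by
          rw [← zpow_natCast, ← zpow_mul]
          congr 1
          push_cast
          ring
        rw [h2, ← zpow_natCast, ← zpow_mul, h6, ha, one_zpow]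
    rw [Nat.coprime_comm, hp.coprime_iff_not_dvd]
    intro hdvd
    obtain ⟨γ, hγ⟩ := exists_prime_orderOf_dvd_card' p hdvd
    have h1 : p ∣ orderOf x * Nat.card C := by
      rw [← hγ]
      exact orderOf_dvd_of_pow_eq_one (hexp γ)
    rcases hp.dvd_mul.1 h1 with h2 | h2
    · exact (hp.coprime_iff_not_dvd.1 (Nat.coprime_comm.1 hxp)) h2
    · exact (hp.coprime_iff_not_dvd.1 (Nat.coprime_comm.1 hC)) h2
  refine finrank_fixedBy_eq' (homRep ρ a) _ _ hgraph φ ?_
  intro γ
  obtain ⟨g, hg⟩ := hconj γ.1.1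
  refine ⟨(g, 1), ?_⟩
  apply Prod.ext
  · show g * γ.1.1 * g⁻¹ = γ.1.1 ^ J
    exact hg
  · show 1 * γ.1.2 * 1⁻¹ = γ.1.2
    simp

end Twist

end Pool.Agent.Lib.MP_3c3661_al
end

section

/-!
Passing to normalisers of `r`-subgroups.
-/

set_option autoImplicit false

namespace Pool.Agent.Lib.MP_3c3661_al

section Lifts

/-- An element of the image of a homomorphism of a finite group can be lifted to an element whose
order involves only primes dividing the order of the image. -/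
lemma exists_lift_orderOf {K Q : Type*} [Group K] [Finite K] [Group Q] (f : K →* Q) (y₀ : K) :
    ∃ y : K, f y = f y₀ ∧ y ∈ Subgroup.zpowers y₀ ∧
      ∀ r : ℕ, r.Prime → r ∣ orderOf y → r ∣ orderOf (f y₀) := by
  classical
  -- minimal order
  obtain ⟨y, ⟨hy1, hy2⟩, hmin⟩ := Set.exists_min_image
    {y : K | f y = f y₀ ∧ y ∈ Subgroup.zpowers y₀} orderOf (Set.toFinite _)
    ⟨y₀, rfl, Subgroup.mem_zpowers y₀⟩
  refine ⟨y, hy1, hy2, fun r hr hry => ?_⟩
  by_contra hnot
  have hN : 0 < orderOf y := orderOf_pos y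
  set a := (orderOf y).factorization r with ha
  set s := orderOf y / r ^ a with hs
  have hdec : r ^ a * s = orderOf y := Nat.ordProj_mul_ordCompl_eq_self (orderOf y) r
  have hcop : (r ^ a).Coprime s := by
    apply Nat.Coprime.pow_left
    exact Nat.coprime_ordCompl hr hN.ne'
  have ha0 : a ≠ 0 := by
    intro h0
    have := (hr.dvd_iff_one_le_factorization hN.ne').1 hry
    omega
  obtain ⟨c, hc1, hc2⟩ := Nat.chineseRemainder hcop 0 1
  have hq : orderOf (f y) ∣ s := by
    have h1 : orderOf (f y) ∣ r ^ a * s := by rw [hdec]; exact orderOf_map_dvd f y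
    have h2 : (orderOf (f y)).Coprime (r ^ a) := by
      apply Nat.Coprime.pow_right
      rw [Nat.coprime_comm, hr.coprime_iff_not_dvd, hy1]
      exact hnot
    exact h2.dvd_of_dvd_mul_left h1
  have hfc : f (y ^ c) = f y₀ := by
    rw [map_pow, ← hy1]
    have h3 : (f y) ^ c = (f y) ^ 1 := by
      rw [pow_eq_pow_iff_modEq]
      exact hc2.of_dvd hq
    rw [h3, pow_one]
  have hmem : y ^ c ∈ Subgroup.zpowers y₀ := Subgroup.pow_mem _ hy2 c
  have hle := hmin (y ^ c) ⟨hfc, hmem⟩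
  have hord : orderOf (y ^ c) ∣ s := by
    apply orderOf_dvd_of_pow_eq_one
    rw [← pow_mul]
    have h4 : r ^ a ∣ c := (Nat.modEq_zero_iff_dvd).1 hc1
    obtain ⟨d, hd⟩ := h4
    have h5 : c * s = orderOf y * d := by rw [hd, ← hdec]; ring
    rw [h5, pow_mul, pow_orderOf_eq_one, one_pow]
  have hspos : 0 < s := by
    rcases Nat.eq_zero_or_pos s with h0 | h0
    · rw [h0, mul_zero] at hdec; omega
    · exact h0
  have h6 : orderOf (y ^ c) ≤ s := Nat.le_of_dvd hspos hord
  have h7 : s < orderOf y := by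
    rw [← hdec]
    have : 1 < r ^ a := Nat.one_lt_pow ha0 hr.one_lt
    nlinarith
  omega

end Lifts

section ProdSub

variable {H : Type*} [Group H]

/-- The product subgroup `C R`, where `R` normalises `C`. -/
def prodSub (C R : Subgroup H) (h : R ≤ Subgroup.normalizer (C : Set H)) : Subgroup H where
  carrier := {z | ∃ c ∈ C, ∃ s ∈ R, z = c * s}
  mul_mem' := by
    rintro _ _ ⟨c, hc, s, hs, rfl⟩ ⟨c', hc', s', hs', rfl⟩
    refine ⟨c * (s * c' * s⁻¹), C.mul_mem hc ?_, s * s', R.mul_mem hs hs', by group⟩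
    exact (Subgroup.mem_normalizer_iff.1 (h hs) c').1 hc'
  one_mem' := ⟨1, C.one_mem, 1, R.one_mem, by simp⟩
  inv_mem' := by
    rintro _ ⟨c, hc, s, hs, rfl⟩
    refine ⟨s⁻¹ * c⁻¹ * s, ?_, s⁻¹, R.inv_mem hs, by group⟩
    have := (Subgroup.mem_normalizer_iff.1 (h (R.inv_mem hs)) c⁻¹).1 (C.inv_mem hc)
    rwa [inv_inv] at this

lemma left_le_prodSub (C R : Subgroup H) (h : R ≤ Subgroup.normalizer (C : Set H)) :
    C ≤ prodSub C R h := fun c hc => ⟨c, hc, 1, R.one_mem, by simp⟩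

lemma right_le_prodSub (C R : Subgroup H) (h : R ≤ Subgroup.normalizer (C : Set H)) :
    R ≤ prodSub C R h := fun s hs => ⟨1, C.one_mem, s, hs, by simp⟩

lemma card_prodSub_coprime [Finite H] {p : ℕ} (hp : p.Prime) (C R : Subgroup H)
    (h : R ≤ Subgroup.normalizer (C : Set H)) (hC : (Nat.card C).Coprime p)
    (hR : (Nat.card R).Coprime p) : (Nat.card (prodSub C R h)).Coprime p := by
  have : Fact p.Prime := ⟨hp⟩
  rw [Nat.coprime_comm, hp.coprime_iff_not_dvd]
  intro hdvd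
  obtain ⟨⟨z, c, hc, s, hs, rfl⟩, hz⟩ := exists_prime_orderOf_dvd_card' p hdvd
  rw [← Subgroup.orderOf_coe] at hz
  have h1 : (c * s) ^ (Nat.card R * Nat.card C) = 1 := by
    obtain ⟨c', hc', h3⟩ := exists_pow_mul (h hs) hc 1 (Nat.card R)
    rw [zpow_one, one_mul, zpow_natCast] at h3
    have h4 : s ^ (Nat.card R) = 1 := by
      have : (⟨s, hs⟩ : R) ^ (Nat.card R) = 1 := pow_card_eq_one'
      exact congrArg Subtype.val this
    rw [pow_mul, h3, h4, mul_one]
    have h5 : (⟨c', hc'⟩ : C) ^ (Nat.card C) = 1 := pow_card_eq_one'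
    exact congrArg Subtype.val h5
  have h2 : p ∣ Nat.card R * Nat.card C := by
    rw [← hz]; exact orderOf_dvd_of_pow_eq_one h1
  rcases hp.dvd_mul.1 h2 with h3 | h3
  · exact (hp.coprime_iff_not_dvd.1 (Nat.coprime_comm.1 hR)) h3
  · exact (hp.coprime_iff_not_dvd.1 (Nat.coprime_comm.1 hC)) h3

end ProdSub

section Step

variable {p : ℕ} [Fact p.Prime] {H : Type*} [Group H] {V : Type*} [AddCommGroup V]
  [Module (ZMod p) V] (ρ : H →* (V →ₗ[ZMod p] V))

/-- A pair of subgroups `(C, K)` such that `C` is a `p'`-group with a nonzero fixed space, normalised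
by `K`, and such that every `C`-fixed vector is multiplied by `t` by some element of `K`. -/
def GoodPair (t : ZMod p) (C K : Subgroup H) : Prop :=
  K ≤ Subgroup.normalizer (C : Set H) ∧ (Nat.card C).Coprime p ∧
    (∃ w ∈ fixedBy ρ C, w ≠ 0) ∧ ∀ w ∈ fixedBy ρ C, ∃ h ∈ K, ρ h w = t • w

lemma mem_fixedBy_iff_le_stab {Γ : Subgroup H} {w : V} : w ∈ fixedBy ρ Γ ↔ Γ ≤ stab ρ w := Iff.rfl

variable [Finite H]

/-- The step: an `r`-element of `K` outside `C` with a nonzero fixed vector allows to enlarge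
`C`. -/
lemma GoodPair.step {t : ZMod p} {C K : Subgroup H} (hCK : GoodPair ρ t C K) {r : ℕ}
    (hr : r.Prime) (hrp : r ≠ p) {y : H} (hyK : y ∈ K) (hyr : ∃ b, orderOf y = r ^ b) (hyC : y ∉ C)
    {w₀ : V} (hw₀ : w₀ ∈ fixedBy ρ C) (hw₀0 : w₀ ≠ 0) (hyw : ρ y w₀ = w₀) :
    ∃ C' K' : Subgroup H, GoodPair ρ t C' K' ∧ Nat.card C < Nat.card C' := by
  classical
  have hp : p.Prime := Fact.out
  have : Fact r.Prime := ⟨hr⟩
  obtain ⟨hKN, hCp, hCne, hT⟩ := hCK
  -- choose a maximal `r`-subgroup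
  let 𝓡 : Set (Subgroup H) := {R | IsPGroup r R ∧ R ≤ K ∧ y ∈ R ∧
    ∃ w ∈ fixedBy ρ C, w ∈ fixedBy ρ R ∧ w ≠ 0}
  have hzp : Subgroup.zpowers y ∈ 𝓡 := by
    refine ⟨?_, ?_, Subgroup.mem_zpowers y, w₀, hw₀, ?_, hw₀0⟩
    · obtain ⟨b, hb⟩ := hyr
      exact IsPGroup.of_card (n := b) (by rw [Nat.card_zpowers, hb])
    · rw [Subgroup.zpowers_le]; exact hyK
    · rw [mem_fixedBy_iff_le_stab, Subgroup.zpowers_le]; exact hyw
  obtain ⟨R, ⟨hRr, hRK, hyR, w₁, hw₁C, hw₁R, hw₁0⟩, hRmax⟩ := Set.exists_max_image 𝓡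
    (fun R => Nat.card R) (Set.toFinite _) ⟨_, hzp⟩
  have hRN : R ≤ Subgroup.normalizer (C : Set H) := hRK.trans hKN
  have hRp : (Nat.card R).Coprime p := by
    obtain ⟨b, hb⟩ := IsPGroup.iff_card.1 hRr
    rw [hb]
    exact Nat.Coprime.pow_left _ ((Nat.coprime_primes hr hp).2 hrp)
  have hfix : ∀ w : V, w ∈ fixedBy ρ (prodSub C R hRN) ↔ w ∈ fixedBy ρ C ∧ w ∈ fixedBy ρ R := by
    intro w
    constructor
    · intro h
      exact ⟨fun c hc => h c (left_le_prodSub C R hRN hc), fun s hs => h s (right_le_prodSub C R hRN hs)⟩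
    · rintro ⟨h1, h2⟩ _ ⟨c, hc, s, hs, rfl⟩
      rw [rho_mul_apply, h2 s hs, h1 c hc]
  refine ⟨prodSub C R hRN, K ⊓ Subgroup.normalizer (R : Set H), ⟨?_, ?_, ?_, ?_⟩, ?_⟩
  · -- normalises
    intro n hn
    obtain ⟨hnK, hnR⟩ := Subgroup.mem_inf.1 hn
    apply Subgroup.mem_normalizer_fintype
    rintro _ ⟨c, hc, s, hs, rfl⟩
    refine ⟨n * c * n⁻¹, (Subgroup.mem_normalizer_iff.1 (hKN hnK) c).1 hc, n * s * n⁻¹,
      (Subgroup.mem_normalizer_iff.1 hnR s).1 hs, by group⟩
  · exact card_prodSub_coprime hp C R hRN hCp hRp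
  · exact ⟨w₁, (hfix w₁).2 ⟨hw₁C, hw₁R⟩, hw₁0⟩
  · intro w hw
    obtain ⟨hwC, hwR⟩ := (hfix w).1 hw
    by_cases hw0 : w = 0
    · exact ⟨1, Subgroup.one_mem _, by rw [hw0, map_zero, smul_zero]⟩
    obtain ⟨h, hhK, hh⟩ := hT w hwC
    have ht0 : t ≠ 0 := by
      rintro rfl
      rw [zero_smul] at hh
      have := rho_inv_apply ρ h w
      rw [hh, map_zero] at this
      exact hw0 this.symm
    let S : Subgroup H := stab ρ w ⊓ K
    have hRS : R ≤ S := le_inf hwR hRK
    -- conjugate of `R`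
    have hconjS : ∀ z ∈ R, h * z * h⁻¹ ∈ S := by
      intro z hz
      refine Subgroup.mem_inf.2 ⟨?_, K.mul_mem (K.mul_mem hhK (hRK hz)) (K.inv_mem hhK)⟩
      have hn := mem_normalizer_stab ρ ht0 hh
      exact (Subgroup.mem_normalizer_iff.1 hn z).1 (hwR z hz)
    have hmaxS : ∀ P : Subgroup S, IsPGroup r P → Nat.card R ≤ Nat.card P → R.subgroupOf S ≤ P →
        R.subgroupOf S = P := by
      intro P hP _ hRP
      have h1 : P.map S.subtype ∈ 𝓡 := by
        refine ⟨hP.map _, ?_, ?_, w, hwC, ?_, hw0⟩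
        · rintro _ ⟨z, _, rfl⟩
          exact (Subgroup.mem_inf.1 z.2).2
        · exact ⟨⟨y, hRS hyR⟩, hRP hyR, rfl⟩
        · rintro _ ⟨z, _, rfl⟩
          exact (Subgroup.mem_inf.1 z.2).1
      have h2 := hRmax _ h1
      have h3 : Nat.card (P.map S.subtype) = Nat.card P :=
        Subgroup.card_map_of_injective S.subtype_injective
      have h4 : Nat.card (R.subgroupOf S) = Nat.card R :=
        Nat.card_congr (Subgroup.subgroupOfEquivOfLe hRS).toEquiv
      apply Subgroup.eq_of_le_of_card_ge hRP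
      rw [h4]
      simpa only [h3] using h2
    let P₁ : Sylow r S := ⟨R.subgroupOf S, by
      have := hRr.comap_subtype (K := S)
      exact this, by
      intro P hP hRP
      have h4 : Nat.card (R.subgroupOf S) = Nat.card R :=
        Nat.card_congr (Subgroup.subgroupOfEquivOfLe hRS).toEquiv
      exact (hmaxS P hP (by rw [← h4]; exact Subgroup.card_le_of_le hRP) hRP).symm⟩
    let Rh : Subgroup H := R.map (MulAut.conj h).toMonoidHom
    have hRhS : Rh ≤ S := by
      rintro _ ⟨z, hz, rfl⟩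
      exact hconjS z hz
    have hRhcard : Nat.card Rh = Nat.card R :=
      Subgroup.card_map_of_injective (MulAut.conj h).injective
    obtain ⟨P₃, hP₃⟩ := ((hRr.map (MulAut.conj h).toMonoidHom).comap_subtype (K := S)).exists_le_sylow
    have hcard3 : Nat.card P₃ = Nat.card P₁ := by
      rw [Sylow.card_eq_multiplicity, Sylow.card_eq_multiplicity]
    have hcard1 : Nat.card P₁ = Nat.card R :=
      Nat.card_congr (Subgroup.subgroupOfEquivOfLe hRS).toEquiv
    have hcard2 : Nat.card (Rh.subgroupOf S) = Nat.card Rh :=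
      Nat.card_congr (Subgroup.subgroupOfEquivOfLe hRhS).toEquiv
    have hP₂ : Rh.subgroupOf S = (P₃ : Subgroup S) := by
      have hP₃' : Rh.subgroupOf S ≤ (P₃ : Subgroup S) := hP₃
      apply Subgroup.eq_of_le_of_card_ge hP₃'
      rw [hcard2, hRhcard, ← hcard1]
      exact hcard3.le
    obtain ⟨s, hs⟩ := MulAction.exists_smul_eq S P₁ P₃
    have hkey : ∀ z ∈ R, ((s : H)⁻¹ * h) * z * ((s : H)⁻¹ * h)⁻¹ ∈ R := by
      intro z hz
      have h1 : (⟨h * z * h⁻¹, hconjS z hz⟩ : S) ∈ (P₃ : Subgroup S) := by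
        rw [← hP₂, Subgroup.mem_subgroupOf]
        exact ⟨z, hz, rfl⟩
      rw [← hs, Sylow.coe_subgroup_smul, Subgroup.mem_pointwise_smul_iff_inv_smul_mem] at h1
      have h2 : (((MulAut.conj s)⁻¹ • (⟨h * z * h⁻¹, hconjS z hz⟩ : S) : S) : H) ∈ R := h1
      have h3 : (((MulAut.conj s)⁻¹ • (⟨h * z * h⁻¹, hconjS z hz⟩ : S) : S) : H)
          = (s : H)⁻¹ * (h * z * h⁻¹) * s := by
        rw [← map_inv, MulAut.smul_def, MulAut.conj_apply, inv_inv]
        rfl
      rw [h3] at h2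
      have h4 : ((s : H)⁻¹ * h) * z * ((s : H)⁻¹ * h)⁻¹ = (s : H)⁻¹ * (h * z * h⁻¹) * s := by group
      rw [h4]
      exact h2
    refine ⟨(s : H)⁻¹ * h, Subgroup.mem_inf.2 ⟨?_, ?_⟩, ?_⟩
    · exact K.mul_mem (K.inv_mem (Subgroup.mem_inf.1 s.2).2) hhK
    · exact Subgroup.mem_normalizer_fintype hkey
    · rw [rho_mul_apply, hh, map_smul]
      congr 1
      have h5 : (s : H)⁻¹ ∈ stab ρ w := (stab ρ w).inv_mem (Subgroup.mem_inf.1 s.2).1
      exact h5
  · -- the order increases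
    have h1 : C < prodSub C R hRN := by
      refine lt_of_le_of_ne (left_le_prodSub C R hRN) ?_
      intro heq
      apply hyC
      rw [heq]
      exact right_le_prodSub C R hRN hyR
    refine lt_of_le_of_ne (Subgroup.card_le_of_le h1.le) (fun heq => h1.ne ?_)
    exact Subgroup.eq_of_le_of_card_ge h1.le heq.ge

end Step

end Pool.Agent.Lib.MP_3c3661_al
end
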