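import Mathlib
import Pool.Agent.Lib.MP_3c3661_al.Step

/-!
The core estimate for arbitrary linear groups.
-/

set_option autoImplicit false

namespace Pool.Agent.Lib.MP_3c3661_al

section NT2

/-- Arithmetic form of `card_le_lcmUpto_sq`. -/
theorem le_lcmUpto_sq {N : ℕ} (hN : N ≠ 0) (M : ℕ)
    (h : ∀ r : ℕ, r.Prime → r ∣ N → ∃ b : ℕ, r ^ b ≤ M ∧
      r ^ N.factorization r ≤ (r ^ b) ^ 2) :
    N ≤ (Nat.lcmUpto M) ^ 2 := by
  classical
  have h1 : N = ∏ r ∈ N.primeFactors, r ^ N.factorization r := by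
    conv_lhs => rw [← Nat.prod_factorization_pow_eq_self hN]
    rw [Nat.prod_factorization_eq_prod_primeFactors]
  rw [h1, Nat.lcmUpto_eq_prod_pow_log, ← Finset.prod_pow]
  have hsub : N.primeFactors ⊆ Nat.primesLE M := by
    intro r hr
    have hrp := Nat.prime_of_mem_primeFactors hr
    obtain ⟨b, hb1, hb2⟩ := h r hrp (Nat.dvd_of_mem_primeFactors hr)
    rw [Nat.mem_primesLE]
    refine ⟨?_, hrp⟩
    have hfac : 1 ≤ N.factorization r :=
      (hrp.dvd_iff_one_le_factorization hN).1 (Nat.dvd_of_mem_primeFactors hr)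
    have hb0 : b ≠ 0 := by
      rintro rfl
      have h3 : r ^ 1 ≤ r ^ N.factorization r := Nat.pow_le_pow_right hrp.pos hfac
      rw [pow_zero, one_pow] at hb2
      rw [pow_one] at h3
      have := hrp.two_le
      omega
    calc r = r ^ 1 := (pow_one r).symm
      _ ≤ r ^ b := Nat.pow_le_pow_right hrp.pos (Nat.one_le_iff_ne_zero.2 hb0)
      _ ≤ M := hb1
  calc ∏ r ∈ N.primeFactors, r ^ N.factorization r
      ≤ ∏ r ∈ N.primeFactors, (r ^ r.log M) ^ 2 := by
        apply Finset.prod_le_prod'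
        intro r hr
        have hrp := Nat.prime_of_mem_primeFactors hr
        obtain ⟨b, hb1, hb2⟩ := h r hrp (Nat.dvd_of_mem_primeFactors hr)
        refine hb2.trans (Nat.pow_le_pow_left ?_ 2)
        apply Nat.pow_le_pow_right hrp.pos
        exact Nat.le_log_of_pow_le hrp.one_lt hb1
    _ ≤ ∏ r ∈ Nat.primesLE M, (r ^ r.log M) ^ 2 := by
        apply Finset.prod_le_prod_of_subset_of_one_le' hsub
        intro r hr _
        have hrp := Nat.prime_of_mem_primesLE hr
        exact Nat.one_le_pow _ _ (Nat.pow_pos hrp.pos)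

/-- The fourth power of the least common multiple. -/
theorem lcmUpto_pow_le {n k : ℕ} : (Nat.lcmUpto (4 * k * n)) ^ 4 ≤ 2 ^ (125 * k * n) := by
  have hL : (0 : ℝ) < (Nat.lcmUpto (4 * k * n) : ℝ) := by exact_mod_cast Nat.lcmUpto_pos _
  have h5 : Real.log (Nat.lcmUpto (4 * k * n)) ≤ (Real.log 4 + 4) * (4 * k * n) := by
    rw [← Chebyshev.psi_eq_log_lcmUpto]
    have := Chebyshev.psi_le_const_mul_self (x := ((4 * k * n : ℕ) : ℝ)) (by positivity)
    push_cast at this ⊢
    exact this
  have hlog4 : Real.log 4 = 2 * Real.log 2 := by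
    rw [show (4 : ℝ) = 2 ^ 2 by norm_num, Real.log_pow]; norm_num
  have h8 := Real.log_two_gt_d9
  have hkn : (0 : ℝ) ≤ (k : ℝ) * n := by positivity
  have h7 : Real.log ((Nat.lcmUpto (4 * k * n) : ℝ) ^ 4) ≤ Real.log ((2 : ℝ) ^ (125 * k * n)) := by
    rw [Real.log_pow, Real.log_pow]
    push_cast
    rw [hlog4] at h5
    nlinarith
  have h9 : (Nat.lcmUpto (4 * k * n) : ℝ) ^ 4 ≤ (2 : ℝ) ^ (125 * k * n) :=
    (Real.log_le_log_iff (by positivity) (by positivity)).1 h7
  exact_mod_cast h9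

/-- Final combination of the estimates. -/
theorem final_bound2 {p n k c e φ : ℕ} (h1 : p ^ n ≤ c ^ 2)
    (h2 : c ≤ p ^ e * (Nat.lcmUpto (4 * k * n)) ^ 2) (hp : 0 < p) (hφ : φ ≤ n) :
    p ^ φ ≤ 2 ^ (125 * k * φ) * p ^ (2 * e) := by
  have h3 : p ^ n ≤ 2 ^ (125 * k * n) * p ^ (2 * e) := by
    calc p ^ n ≤ c ^ 2 := h1
      _ ≤ (p ^ e * (Nat.lcmUpto (4 * k * n)) ^ 2) ^ 2 := Nat.pow_le_pow_left h2 2
      _ = (Nat.lcmUpto (4 * k * n)) ^ 4 * p ^ (2 * e) := by ring
      _ ≤ 2 ^ (125 * k * n) * p ^ (2 * e) := Nat.mul_le_mul_right _ lcmUpto_pow_le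
  rcases le_or_gt p (2 ^ (125 * k)) with h4 | h4
  · calc p ^ φ ≤ (2 ^ (125 * k)) ^ φ := Nat.pow_le_pow_left h4 φ
      _ = 2 ^ (125 * k * φ) * 1 := by rw [← pow_mul, mul_one]
      _ ≤ 2 ^ (125 * k * φ) * p ^ (2 * e) := Nat.mul_le_mul_left _ (Nat.one_le_pow _ _ hp)
  · obtain ⟨d, rfl⟩ := Nat.exists_eq_add_of_le hφ
    have h5 : (2 ^ (125 * k)) ^ d ≤ p ^ d := Nat.pow_le_pow_left h4.le d
    have h6 : p ^ φ * (2 ^ (125 * k)) ^ d ≤ (2 ^ (125 * k * φ) * p ^ (2 * e)) * (2 ^ (125 * k)) ^ d := by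
      calc p ^ φ * (2 ^ (125 * k)) ^ d ≤ p ^ φ * p ^ d := Nat.mul_le_mul_left _ h5
        _ = p ^ (φ + d) := (pow_add _ _ _).symm
        _ ≤ 2 ^ (125 * k * (φ + d)) * p ^ (2 * e) := h3
        _ = _ := by rw [mul_add, pow_add, pow_mul 2 (125 * k) d]; ring
    exact Nat.le_of_mul_le_mul_right h6 (by positivity)

end NT2

section Core

variable {p : ℕ} [Fact p.Prime] {H : Type*} [Group H] {V : Type*} [AddCommGroup V]
  [Module (ZMod p) V] (ρ : H →* (V →ₗ[ZMod p] V)) [Finite H] [Module.Finite (ZMod p) V]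

/-- Eigenvalue count for a `p'`-element of the normaliser. -/
lemma powCount_bound' {k m : ℕ} (hm : 0 < m) (hcard : Nat.card H ∣ m)
    (hconj : ∀ j : ℕ, j.Coprime m → ∀ h : H, ∃ g : H, g * h * g⁻¹ = h ^ (j ^ k))
    (C : Subgroup H) (hC : (Nat.card C).Coprime p) [Nontrivial (fixedBy ρ C)]
    (n : Subgroup.normalizer (C : Set H)) (hnp : (orderOf (n : H)).Coprime p) {e : ℕ}
    (he0 : 0 < e) (he : e ∣ orderOf (n : H)) (hTe : (actHom ρ C n) ^ e = 1)
    (hfree : ∀ i, 0 < i → i < e → ∀ w, ((actHom ρ C n) ^ i) w = w → w = 0) :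
    powCount k e ≤ Module.finrank (ZMod p) (fixedBy ρ C) := by
  set T := actHom ρ C n with hTdef
  have heH : e ∣ Nat.card H := he.trans (orderOf_dvd_natCard _)
  apply powCount_le_finrank T hm (heH.trans hcard) hTe hfree
  intro j hj S hST hSne
  have hJ : (j ^ k).Coprime (Nat.card H) := (Nat.Coprime.coprime_dvd_right hcard hj).pow_left k
  have hTinj : Function.Injective T := by
    intro a b hab
    have h1 : ∀ w, (T ^ (e - 1)) (T w) = w := by
      intro w
      rw [← Module.End.mul_apply, ← pow_succ, Nat.sub_add_cancel he0, hTe]; rfl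
    rw [← h1 a, ← h1 b, hab]
  let a : S ≃ₗ[ZMod p] S := LinearEquiv.ofInjectiveEndo (T.restrict hST) (by
    intro x y hxy
    apply Subtype.ext
    apply hTinj
    exact congrArg Subtype.val hxy)
  have ha1 : ∀ s : S, ((a s : S) : fixedBy ρ C) = T s := fun s => rfl
  have hai : ∀ (i : ℕ) (s : S), (((a ^ i) s : S) : fixedBy ρ C) = (T ^ i) s := by
    intro i
    induction i with
    | zero => intro s; simp
    | succ i ih =>
      intro s
      rw [pow_succ', LinearEquiv.mul_apply, ha1, ih, pow_succ', Module.End.mul_apply]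
  have hTc : T ^ (orderOf (n : H)) = 1 := by
    obtain ⟨b, hb⟩ := he
    rw [hb, pow_mul, hTe, one_pow]
  have hacard : a ^ (orderOf (n : H)) = 1 := by
    ext s
    rw [hai, hTc]; rfl
  have hfr := finrank_twistHom' ρ C hC n.2 hnp a hacard hJ (hconj j hj)
  have hpos : 0 < Module.finrank (ZMod p) (twistHom ρ C (n : H) a 1) := by
    rw [Module.finrank_pos_iff_exists_ne_zero]
    refine ⟨⟨(fixedBy ρ C).subtype ∘ₗ S.subtype, ?_, ?_⟩, ?_⟩
    · intro c hc s
      exact s.1.2 c hc
    · intro s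
      rw [pow_one]
      rfl
    · intro h0
      apply hSne
      rw [Submodule.eq_bot_iff]
      intro s hs
      have h1 := congrArg Subtype.val h0
      have h2 := LinearMap.congr_fun h1 ⟨s, hs⟩
      apply Subtype.ext
      exact h2
  rw [← hfr, Module.finrank_pos_iff_exists_ne_zero] at hpos
  obtain ⟨⟨L', hL'1, hL'2⟩, hL'0⟩ := hpos
  refine ⟨LinearMap.codRestrict (fixedBy ρ C) L' (fun s c hc => hL'1 c hc s), ?_, ?_⟩
  · intro h0
    apply hL'0
    apply Subtype.ext
    ext s
    have := LinearMap.congr_fun h0 s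
    exact congrArg Subtype.val this
  · intro s s' hs
    apply Subtype.ext
    show ρ n (L' s) = L' s'
    rw [hL'2 s]
    congr 1
    apply Subtype.ext
    rw [hai, hs]

/-- Equality of eigenspace dimensions, general version. -/
lemma finrank_eigenspace_eq' (C : Subgroup H) (hC : (Nat.card C).Coprime p)
    (n : Subgroup.normalizer (C : Set H)) (hnp : (orderOf (n : H)).Coprime p)
    (t : (ZMod p)ˣ) (ht : t ^ (orderOf (n : H)) = 1) {J : ℕ}
    (hJ : J.Coprime (Nat.card H)) (hconj : ∀ h : H, ∃ g : H, g * h * g⁻¹ = h ^ J) :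
    Module.finrank (ZMod p) (Module.End.eigenspace (actHom ρ C n) ((t : ZMod p) ^ J)) =
      Module.finrank (ZMod p) (Module.End.eigenspace (actHom ρ C n) (t : ZMod p)) := by
  let a : ZMod p ≃ₗ[ZMod p] ZMod p := LinearEquiv.smulOfUnit t
  have hai : ∀ (i : ℕ) (v : ZMod p), (a ^ i) v = (t : ZMod p) ^ i * v := by
    intro i
    induction i with
    | zero => intro v; simp
    | succ i ih =>
      intro v
      rw [pow_succ', LinearEquiv.mul_apply, ih, pow_succ', mul_assoc]
      rfl
  have hacard : a ^ (orderOf (n : H)) = 1 := by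
    ext
    rw [hai]
    have : ((t ^ (orderOf (n : H)) : (ZMod p)ˣ) : ZMod p) = 1 := by rw [ht]; rfl
    push_cast at this
    rw [this]; simp
  have key : ∀ u : ℕ, Module.finrank (ZMod p)
      (Module.End.eigenspace (actHom ρ C n) ((t : ZMod p) ^ u)) =
      Module.finrank (ZMod p) (twistHom ρ C (n : H) a u) := by
    intro u
    let f : twistHom ρ C (n : H) a u →ₗ[ZMod p]
        Module.End.eigenspace (actHom ρ C n) ((t : ZMod p) ^ u) :=
      { toFun := fun L => ⟨⟨L.1 1, fun c hc => L.2.1 c hc 1⟩, by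
          rw [Module.End.mem_eigenspace_iff]
          apply Subtype.ext
          show ρ n (L.1 1) = (t : ZMod p) ^ u • L.1 1
          rw [L.2.2 1, hai, mul_one, ← map_smul, smul_eq_mul, mul_one]⟩
        map_add' := fun L L' => rfl
        map_smul' := fun c L => rfl }
    let g : Module.End.eigenspace (actHom ρ C n) ((t : ZMod p) ^ u) →ₗ[ZMod p]
        twistHom ρ C (n : H) a u :=
      { toFun := fun w => ⟨LinearMap.toSpanSingleton (ZMod p) V (w.1 : V), by
          constructor
          · intro c hc v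
            rw [LinearMap.toSpanSingleton_apply, map_smul, w.1.2 c hc]
          · intro v
            rw [LinearMap.toSpanSingleton_apply, LinearMap.toSpanSingleton_apply, map_smul, hai]
            have h1 := Module.End.mem_eigenspace_iff.1 w.2
            have h2 : ρ n (w.1 : V) = (t : ZMod p) ^ u • (w.1 : V) := congrArg Subtype.val h1
            rw [h2, smul_smul, mul_comm]⟩
        map_add' := fun w w' => by
          apply Subtype.ext
          ext
          simp
        map_smul' := fun c w => by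
          apply Subtype.ext
          ext
          simp }
    refine (LinearEquiv.finrank_eq (LinearEquiv.ofLinearMap f g ?_ ?_)).symm
    · ext w
      show (LinearMap.toSpanSingleton (ZMod p) V (w.1 : V)) 1 = (w.1 : V)
      rw [LinearMap.toSpanSingleton_apply, one_smul]
    · ext L
      show (LinearMap.toSpanSingleton (ZMod p) V (L.1 1)) 1 = L.1 1
      rw [LinearMap.toSpanSingleton_apply, one_smul]
  have h1 := key 1
  rw [pow_one] at h1
  rw [key J, h1]
  exact finrank_twistHom' ρ C hC n.2 hnp a hacard hJ hconj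

omit [Finite H] [Module.Finite (ZMod p) V] in
lemma rho_pow_smul {h : H} {w : V} {t : ZMod p} (hw : ρ h w = t • w) (i : ℕ) :
    ρ (h ^ i) w = (t ^ i) • w := by
  induction i with
  | zero => rw [pow_zero, pow_zero, map_one, one_smul]; rfl
  | succ i ih => rw [pow_succ, rho_mul_apply, hw, map_smul, ih, smul_smul, pow_succ']

omit [Finite H] [Module.Finite (ZMod p) V] in
lemma pow_eq_one_of_smul {h : H} {w : V} (hw0 : w ≠ 0) {t : (ZMod p)ˣ}
    (hw : ρ h w = (t : ZMod p) • w) : t ^ (orderOf h) = 1 := by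
  have h1 := rho_pow_smul ρ hw (orderOf h)
  rw [pow_orderOf_eq_one, map_one, Module.End.one_apply] at h1
  apply Units.ext
  push_cast
  by_contra hne
  have h5 : ((t : ZMod p) ^ (orderOf h) - 1) • w = 0 := by
    rw [sub_smul, ← h1, one_smul, sub_self]
  rcases smul_eq_zero.1 h5 with h6 | h6
  · exact hne (sub_eq_zero.1 h6)
  · exact hw0 h6

omit [Module.Finite (ZMod p) V] in
/-- Realising a scalar by an element of order prime to `p`. -/
lemma exists_pprime_scalar {h : H} {w : V} (hw0 : w ≠ 0) {t : (ZMod p)ˣ}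
    (hw : ρ h w = (t : ZMod p) • w) :
    ∃ c : ℕ, (orderOf (h ^ c)).Coprime p ∧ ρ (h ^ c) w = (t : ZMod p) • w := by
  have hp : p.Prime := Fact.out
  have hN : 0 < orderOf h := orderOf_pos h
  set a := (orderOf h).factorization p with ha
  set s := orderOf h / p ^ a with hs
  have hdec : p ^ a * s = orderOf h := Nat.ordProj_mul_ordCompl_eq_self (orderOf h) p
  have hcops : p.Coprime s := Nat.coprime_ordCompl hp hN.ne'
  have hcop : (p ^ a).Coprime s := Nat.Coprime.pow_left _ hcops
  obtain ⟨c, hc1, hc2⟩ := Nat.chineseRemainder hcop 0 1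
  have htord : orderOf t ∣ s := by
    have h1 : orderOf t ∣ p ^ a * s := by
      rw [hdec]; exact orderOf_dvd_of_pow_eq_one (pow_eq_one_of_smul ρ hw0 hw)
    have h2 : (orderOf t).Coprime (p ^ a) := by
      apply Nat.Coprime.pow_right
      have h3 : orderOf t ∣ p - 1 := by
        have := orderOf_dvd_card (x := t)
        rwa [ZMod.card_units] at this
      apply Nat.Coprime.coprime_dvd_left h3
      have h4 : (p - 1).Coprime (p - 1 + 1) := by simp
      rwa [Nat.sub_add_cancel hp.one_le] at h4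
    exact h2.dvd_of_dvd_mul_left h1
  refine ⟨c, ?_, ?_⟩
  · have hord : orderOf (h ^ c) ∣ s := by
      apply orderOf_dvd_of_pow_eq_one
      rw [← pow_mul]
      obtain ⟨d, hd⟩ := (Nat.modEq_zero_iff_dvd).1 hc1
      have h5 : c * s = orderOf h * d := by rw [hd, ← hdec]; ring
      rw [h5, pow_mul, pow_orderOf_eq_one, one_pow]
    exact Nat.Coprime.coprime_dvd_left hord hcops.symm
  · rw [rho_pow_smul ρ hw]
    congr 1
    have h6 : t ^ c = t ^ 1 := by
      rw [pow_eq_pow_iff_modEq]
      exact hc2.of_dvd htord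
    rw [pow_one] at h6
    exact congrArg Units.val h6

omit [Finite H] in
/-- Scalars: if all `t ^ (j ^ k)` are eigenvalues then the dimension is at least the number of
`k`-th powers modulo the order of `t`. -/
lemma powCount_le_of_hasEigenvalue {W : Type*} [AddCommGroup W] [Module (ZMod p) W]
    [Module.Finite (ZMod p) W] (T : Module.End (ZMod p) W) (t : (ZMod p)ˣ) {k m : ℕ}
    (hm : 0 < m) (htm : orderOf t ∣ m)
    (h : ∀ j : ℕ, j.Coprime m → T.HasEigenvalue ((t : ZMod p) ^ (j ^ k))) :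
    powCount k (orderOf t) ≤ Module.finrank (ZMod p) W := by
  classical
  have hpos : 0 < orderOf t := orderOf_pos t
  have hNZ : NeZero (orderOf t) := ⟨hpos.ne'⟩
  have hcast : ∀ (j : ℕ) (u : (ZMod (orderOf t))ˣ), (j : ZMod (orderOf t)) = u →
      t ^ (u : ZMod (orderOf t)).val = t ^ j := by
    intro j u hju
    rw [← hju, ZMod.val_natCast, pow_mod_orderOf]
  set Rt := (LinearMap.charpoly T).roots.toFinset with hRt
  have hne0 : LinearMap.charpoly T ≠ 0 := (LinearMap.charpoly_monic T).ne_zero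
  have hmemR : ∀ x : (powMonoidHom k : (ZMod (orderOf t))ˣ →* (ZMod (orderOf t))ˣ).range,
      ((t ^ ((x : (ZMod (orderOf t))ˣ) : ZMod (orderOf t)).val : (ZMod p)ˣ) : ZMod p) ∈ Rt := by
    rintro ⟨x, u, rfl⟩
    obtain ⟨j, hj, hju⟩ := exists_coprime_lift hm htm u
    rw [hRt, Multiset.mem_toFinset, Polynomial.mem_roots hne0,
      ← Module.End.hasEigenvalue_iff_isRoot_charpoly]
    have h1 := hcast (j ^ k) (powMonoidHom k u) (by push_cast; rw [hju]; rfl)
    show T.HasEigenvalue ((t ^ ((powMonoidHom k u : (ZMod (orderOf t))ˣ) :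
      ZMod (orderOf t)).val : (ZMod p)ˣ) : ZMod p)
    rw [h1]
    push_cast
    exact h j hj
  have hinjR : Function.Injective
      (fun x : (powMonoidHom k : (ZMod (orderOf t))ˣ →* (ZMod (orderOf t))ˣ).range =>
      (⟨((t ^ ((x : (ZMod (orderOf t))ˣ) : ZMod (orderOf t)).val : (ZMod p)ˣ) : ZMod p),
        hmemR x⟩ : Rt)) := by
    intro x y hxy
    have h1 : ((t ^ ((x : (ZMod (orderOf t))ˣ) : ZMod (orderOf t)).val : (ZMod p)ˣ) : ZMod p) =
      ((t ^ ((y : (ZMod (orderOf t))ˣ) : ZMod (orderOf t)).val : (ZMod p)ˣ) : ZMod p) :=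
      congrArg Subtype.val hxy
    have h2 := Units.ext h1
    apply Subtype.ext
    apply Units.ext
    apply ZMod.val_injective (orderOf t)
    exact pow_injOn_Iio_orderOf (Set.mem_Iio.2 (ZMod.val_lt _))
      (Set.mem_Iio.2 (ZMod.val_lt _)) h2
  have hcard := Nat.card_le_card_of_injective _ hinjR
  rw [powCount]
  refine hcard.trans ?_
  rw [Nat.card_eq_fintype_card, Fintype.card_coe, hRt]
  calc (LinearMap.charpoly T).roots.toFinset.card ≤ (LinearMap.charpoly T).roots.card :=
        Multiset.toFinset_card_le _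
    _ ≤ (LinearMap.charpoly T).natDegree := Polynomial.card_roots' _
    _ = Module.finrank (ZMod p) W := LinearMap.charpoly_natDegree T

/-- **The core theorem**, general version. -/
theorem core2 [Nontrivial V] {k m e : ℕ} (hk : 0 < k) (hm : 0 < m)
    (hcard : Nat.card H ∣ m) (hpm : p ∣ m) (hpm1 : (p - 1) ∣ m)
    (he : (Nat.card H).factorization p ≤ e)
    (hconj : ∀ j : ℕ, j.Coprime m → ∀ h : H, ∃ g : H, g * h * g⁻¹ = h ^ (j ^ k))
    (hT : ∀ j : ℕ, j.Coprime m → ∀ v : V, ∃ g : H, ρ g v = (j ^ k) • v) :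
    p ^ powCount k ((p - 1) / Nat.gcd (p - 1) k) ≤
      2 ^ (125 * k * powCount k ((p - 1) / Nat.gcd (p - 1) k)) * p ^ (2 * e) := by
  classical
  have hp : p.Prime := Fact.out
  -- the scalar
  obtain ⟨g, hg⟩ := IsCyclic.exists_generator (α := (ZMod p)ˣ)
  set t : (ZMod p)ˣ := g ^ k with ht
  have hordg : orderOf g = p - 1 := by
    rw [orderOf_eq_card_of_forall_mem_zpowers hg, Nat.card_eq_fintype_card, ZMod.card_units]
  have hordt : orderOf t = (p - 1) / Nat.gcd (p - 1) k := by
    rw [ht, orderOf_pow, hordg]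
  rw [← hordt]
  have htp1 : orderOf t ∣ p - 1 := by
    rw [hordt]; exact Nat.div_dvd_of_dvd (Nat.gcd_dvd_left _ _)
  have htm : orderOf t ∣ m := htp1.trans hpm1
  by_cases hfix : ∀ j : ℕ, j.Coprime m → t ^ (j ^ k) = t
  · -- the scalar has few conjugates
    have h1 := le_of_fixed hp hk hm hpm1 g hg hfix
    have h2 : k * 6 ^ k + 1 ≤ 2 ^ (125 * k) := by
      have h3 : k < 2 ^ k := Nat.lt_two_pow_self
      have h4 : 6 ^ k ≤ 2 ^ (3 * k) := by
        rw [pow_mul]; exact Nat.pow_le_pow_left (by norm_num) k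
      calc k * 6 ^ k + 1 ≤ 2 ^ k * 2 ^ (3 * k) := by
            have h5 : 1 ≤ 6 ^ k := Nat.one_le_pow _ _ (by norm_num)
            have h6 : (k + 1) * 6 ^ k ≤ 2 ^ k * 2 ^ (3 * k) := Nat.mul_le_mul h3 h4
            nlinarith
        _ = 2 ^ (4 * k) := by rw [← pow_add]; congr 1; ring
        _ ≤ 2 ^ (125 * k) := Nat.pow_le_pow_right (by norm_num) (by omega)
    calc p ^ powCount k (orderOf t) ≤ (2 ^ (125 * k)) ^ powCount k (orderOf t) :=
          Nat.pow_le_pow_left (h1.trans h2) _
      _ = 2 ^ (125 * k * powCount k (orderOf t)) * 1 := by rw [← pow_mul, mul_one]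
      _ ≤ _ := Nat.mul_le_mul_left _ (Nat.one_le_pow _ _ hp.pos)
  push Not at hfix
  obtain ⟨j₀, hj₀, hj₀t⟩ := hfix
  -- the initial good pair
  have hgood0 : GoodPair ρ (t : ZMod p) (⊥ : Subgroup H) ⊤ := by
    refine ⟨?_, ?_, ?_, ?_⟩
    · intro x _
      apply Subgroup.mem_normalizer_fintype
      intro n hn
      have : n = 1 := hn
      rw [this, mul_one, mul_inv_cancel]; exact Subgroup.one_mem _
    · rw [Subgroup.card_bot]; exact Nat.coprime_one_left p
    · obtain ⟨w, hw⟩ := exists_ne (0 : V)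
      refine ⟨w, ?_, hw⟩
      intro c hc
      rw [Subgroup.mem_bot] at hc
      rw [hc, map_one]; rfl
    · intro w _
      obtain ⟨j, hj, hjg⟩ := exists_coprime_lift hm hpm g
      obtain ⟨h, hh⟩ := hT j hj w
      refine ⟨h, Subgroup.mem_top h, ?_⟩
      rw [hh, ht, Units.val_pow_eq_pow_val, ← hjg, ← Nat.cast_pow, Nat.cast_smul_eq_nsmul]
  -- maximal good pair
  obtain ⟨⟨C, K⟩, hCK, hmax⟩ := Set.exists_max_image
    {P : Subgroup H × Subgroup H | GoodPair ρ (t : ZMod p) P.1 P.2}
    (fun P => Nat.card P.1) (Set.toFinite _) ⟨(⊥, ⊤), hgood0⟩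
  have hCK' : GoodPair ρ (t : ZMod p) C K := hCK
  obtain ⟨hKN, hCp, ⟨w₀, hw₀, hw₀0⟩, hTK⟩ := hCK'
  have hNontriv : Nontrivial (fixedBy ρ C) := ⟨⟨⟨w₀, hw₀⟩, 0, fun h => hw₀0 (congrArg Subtype.val h)⟩⟩
  -- elements of prime power order of `K` act freely or trivially
  have hfreeK : ∀ r : ℕ, r.Prime → r ≠ p → ∀ y ∈ K, (∃ b, orderOf y = r ^ b) →
      ∀ w ∈ fixedBy ρ C, w ≠ 0 → ρ y w = w → y ∈ C := by
    intro r hr hrp y hyK hyr w hw hw0 hyw
    by_contra hyC
    obtain ⟨C', K', hgood, hlt⟩ := GoodPair.step ρ hCK hr hrp hyK hyr hyC hw hw0 hyw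
    exact absurd hlt (not_lt.2 (hmax (C', K') hgood))
  -- the acting group
  let τ : K →* (Module.End (ZMod p) (fixedBy ρ C))ˣ :=
    ((actHom ρ C).comp (Subgroup.inclusion hKN)).toHomUnits
  let Q : Subgroup (Module.End (ZMod p) (fixedBy ρ C))ˣ := τ.range
  have hQfin : Finite Q := Finite.of_surjective τ.rangeRestrict τ.rangeRestrict_surjective
  have hQdvd : Nat.card Q ∣ Nat.card H :=
    (Subgroup.card_range_dvd τ).trans (Subgroup.card_subgroup_dvd_card K)
  have hQfree : ∀ r : ℕ, r.Prime → r ≠ p → ∀ y₀ : K, (∃ b, orderOf (τ y₀) = r ^ b) →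
      ∀ w : fixedBy ρ C, w ≠ 0 →
      ((τ y₀ : (Module.End (ZMod p) (fixedBy ρ C))ˣ) : Module.End (ZMod p) (fixedBy ρ C)) w = w →
      τ y₀ = 1 := by
    rintro r hr hrp y₀ ⟨b, hb⟩ w hw h
    obtain ⟨y, hy1, -, hy3⟩ := exists_lift_orderOf τ y₀
    have hyr : ∃ b, orderOf (y : H) = r ^ b := by
      rw [Subgroup.orderOf_coe]
      refine ⟨_, Nat.eq_prime_pow_of_unique_prime_dvd (orderOf_pos y).ne' (p := r) ?_⟩
      intro d hd hdy
      have h1 := hy3 d hd hdy
      rw [hb] at h1
      exact (Nat.prime_dvd_prime_iff_eq hd hr).1 (hd.dvd_of_dvd_pow h1)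
    rw [← hy1] at h ⊢
    have h2 : ρ (y : H) (w : V) = w := congrArg Subtype.val h
    have h3 := hfreeK r hr hrp y y.2 hyr w w.2 (fun h => hw (Subtype.ext h)) h2
    apply Units.ext
    ext u
    exact u.2 (y : H) h3
  -- realising the scalar by `p'`-elements
  have hscal : ∀ w : fixedBy ρ C, ∃ x : K, (orderOf (x : H)).Coprime p ∧
      actHom ρ C (Subgroup.inclusion hKN x) w = (t : ZMod p) • w := by
    intro w
    by_cases hw : w = 0
    · exact ⟨1, by simp, by rw [hw, map_zero, smul_zero]⟩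
    have hw' : (w : V) ≠ 0 := fun h => hw (Subtype.ext h)
    obtain ⟨h, hhK, hh⟩ := hTK w w.2
    obtain ⟨c, hc1, hc2⟩ := exists_pprime_scalar ρ hw' hh
    exact ⟨⟨h ^ c, K.pow_mem hhK c⟩, hc1, Subtype.ext hc2⟩
  set n := Module.finrank (ZMod p) (fixedBy ρ C) with hn
  have hnpos : 0 < n := Module.finrank_pos
  -- eigenspaces of `p'`-elements
  have heig0 : ∀ x : K, (orderOf (x : H)).Coprime p →
      Module.End.eigenspace (actHom ρ C (Subgroup.inclusion hKN x)) (t : ZMod p) ≠ ⊥ →
      ∀ j : ℕ, j.Coprime m → Module.finrank (ZMod p)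
        (Module.End.eigenspace (actHom ρ C (Subgroup.inclusion hKN x)) ((t : ZMod p) ^ (j ^ k))) =
      Module.finrank (ZMod p)
        (Module.End.eigenspace (actHom ρ C (Subgroup.inclusion hKN x)) (t : ZMod p)) := by
    intro x hx hne j hj
    obtain ⟨w, hwE, hw0⟩ := Submodule.exists_mem_ne_zero_of_ne_bot hne
    have h1 : ρ (x : H) (w : V) = (t : ZMod p) • (w : V) :=
      congrArg Subtype.val (Module.End.mem_eigenspace_iff.1 hwE)
    have h2 := pow_eq_one_of_smul ρ (fun h => hw0 (Subtype.ext h)) h1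
    have hJ : (j ^ k).Coprime (Nat.card H) :=
      (Nat.Coprime.coprime_dvd_right hcard hj).pow_left k
    exact finrank_eigenspace_eq' ρ C hCp (Subgroup.inclusion hKN x) hx t h2 hJ (hconj j hj)
  -- eigenspaces are at most half
  have heig : ∀ x : K, (orderOf (x : H)).Coprime p → 2 * Module.finrank (ZMod p)
      (Module.End.eigenspace (actHom ρ C (Subgroup.inclusion hKN x)) (t : ZMod p)) ≤ n := by
    intro x hx
    by_cases hne : Module.End.eigenspace (actHom ρ C (Subgroup.inclusion hKN x)) (t : ZMod p) = ⊥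
    · rw [hne, finrank_bot]; omega
    have h1 := heig0 x hx hne j₀ hj₀
    have h2 : ((t : ZMod p) ^ (j₀ ^ k)) ≠ (t : ZMod p) := by
      intro h
      apply hj₀t
      apply Units.ext
      push_cast
      exact h
    have h3 : Disjoint
        (Module.End.eigenspace (actHom ρ C (Subgroup.inclusion hKN x)) ((t : ZMod p) ^ (j₀ ^ k)))
        (Module.End.eigenspace (actHom ρ C (Subgroup.inclusion hKN x)) (t : ZMod p)) :=
      Module.End.disjoint_genEigenspace _ h2 1 1
    have h4 := Submodule.finrank_add_finrank_le_of_disjoint h3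
    rw [h1] at h4
    omega
  -- the dimension is at least the number of `k`-th powers
  have hφn : powCount k (orderOf t) ≤ n := by
    obtain ⟨x, hx, hxw⟩ := hscal ⟨w₀, hw₀⟩
    have hw₀' : (⟨w₀, hw₀⟩ : fixedBy ρ C) ≠ 0 := fun h => hw₀0 (congrArg Subtype.val h)
    have hne : Module.End.eigenspace (actHom ρ C (Subgroup.inclusion hKN x)) (t : ZMod p) ≠ ⊥ := by
      intro h0
      have h1 : (⟨w₀, hw₀⟩ : fixedBy ρ C) ∈
        Module.End.eigenspace (actHom ρ C (Subgroup.inclusion hKN x)) (t : ZMod p) :=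
        Module.End.mem_eigenspace_iff.2 hxw
      rw [h0] at h1
      exact hw₀' ((Submodule.mem_bot _).1 h1)
    apply powCount_le_of_hasEigenvalue (actHom ρ C (Subgroup.inclusion hKN x)) t hm htm
    intro j hj
    have h2 := heig0 x hx hne j hj
    have h3 : 0 < Module.finrank (ZMod p)
        (Module.End.eigenspace (actHom ρ C (Subgroup.inclusion hKN x)) (t : ZMod p)) := by
      have : Nontrivial (Module.End.eigenspace (actHom ρ C (Subgroup.inclusion hKN x))
        (t : ZMod p)) := (Submodule.nontrivial_iff_ne_bot).2 hne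
      exact Module.finrank_pos
    intro h0
    have h0' : Module.End.eigenspace (actHom ρ C (Subgroup.inclusion hKN x))
      ((t : ZMod p) ^ (j ^ k)) = ⊥ := h0
    rw [← h2, h0', finrank_bot] at h3
    exact lt_irrefl _ h3
  -- counting vectors
  let Q' := {q : Q // 2 * Module.finrank (ZMod p) (Module.End.eigenspace
      ((q : (Module.End (ZMod p) (fixedBy ρ C))ˣ) : Module.End (ZMod p) (fixedBy ρ C))
      (t : ZMod p)) ≤ n}
  have hcount : p ^ n ≤ Nat.card Q ^ 2 := by
    have hch : ∀ w : fixedBy ρ C, ∃ q : Q', w ∈ Module.End.eigenspace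
      (((q : Q) : (Module.End (ZMod p) (fixedBy ρ C))ˣ) : Module.End (ZMod p) (fixedBy ρ C))
      (t : ZMod p) := by
      intro w
      obtain ⟨x, hx, hxw⟩ := hscal w
      exact ⟨⟨⟨τ x, x, rfl⟩, heig x hx⟩, Module.End.mem_eigenspace_iff.2 hxw⟩
    choose qf hqf using hch
    have hinj : Function.Injective (fun w : fixedBy ρ C =>
        (⟨qf w, ⟨w, hqf w⟩⟩ : Σ q : Q', Module.End.eigenspace
      (((q : Q) : (Module.End (ZMod p) (fixedBy ρ C))ˣ) : Module.End (ZMod p) (fixedBy ρ C))
      (t : ZMod p))) := by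
      intro w w' h
      have := congrArg (fun z : (Σ q : Q', Module.End.eigenspace
      (((q : Q) : (Module.End (ZMod p) (fixedBy ρ C))ˣ) : Module.End (ZMod p) (fixedBy ρ C))
      (t : ZMod p)) => (z.2 : fixedBy ρ C)) h
      exact this
    have : Fintype Q' := Fintype.ofFinite Q'
    have hWfin : Finite (fixedBy ρ C) := Module.finite_of_finite (ZMod p)
    have h1 := Nat.card_le_card_of_injective _ hinj
    rw [Nat.card_sigma, Module.natCard_eq_pow_finrank (K := ZMod p), Nat.card_zmod] at h1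
    have h2 : ∑ q : Q', Nat.card (Module.End.eigenspace
      (((q : Q) : (Module.End (ZMod p) (fixedBy ρ C))ˣ) : Module.End (ZMod p) (fixedBy ρ C))
      (t : ZMod p)) ≤ ∑ q : Q', p ^ (n / 2) := by
      apply Finset.sum_le_sum
      intro q _
      rw [Module.natCard_eq_pow_finrank (K := ZMod p), Nat.card_zmod]
      apply Nat.pow_le_pow_right hp.pos
      have := q.2
      omega
    rw [Finset.sum_const, Finset.card_univ, smul_eq_mul, ← Nat.card_eq_fintype_card] at h2
    have hQQ : Nat.card Q' ≤ Nat.card Q := Nat.card_le_card_of_injective _ Subtype.val_injective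
    have h3 : p ^ n ≤ Nat.card Q * p ^ (n / 2) :=
      (h1.trans h2).trans (Nat.mul_le_mul_right _ hQQ)
    have h4 : p ^ n * p ^ n ≤ Nat.card Q ^ 2 * p ^ n := by
      calc p ^ n * p ^ n ≤ (Nat.card Q * p ^ (n / 2)) * (Nat.card Q * p ^ (n / 2)) :=
            Nat.mul_le_mul h3 h3
        _ = Nat.card Q ^ 2 * p ^ (n / 2 + n / 2) := by rw [pow_add]; ring
        _ ≤ Nat.card Q ^ 2 * p ^ n := by
            apply Nat.mul_le_mul_left
            apply Nat.pow_le_pow_right hp.pos
            omega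
    exact Nat.le_of_mul_le_mul_right h4 (Nat.pow_pos hp.pos)
  -- the order of `Q`
  have hQ0 : Nat.card Q ≠ 0 := Nat.card_pos.ne'
  have hQp : p ^ (Nat.card Q).factorization p ≤ p ^ e := by
    apply Nat.pow_le_pow_right hp.pos
    refine le_trans ?_ he
    exact (Nat.factorization_le_iff_dvd hQ0 Nat.card_pos.ne').2 hQdvd p
  have hQp' : Nat.card Q / p ^ (Nat.card Q).factorization p ≤ (Nat.lcmUpto (4 * k * n)) ^ 2 := by
    have hN0 : Nat.card Q / p ^ (Nat.card Q).factorization p ≠ 0 := by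
      intro h0
      have := Nat.ordProj_mul_ordCompl_eq_self (Nat.card Q) p
      rw [h0, mul_zero] at this
      exact hQ0 this.symm
    apply le_lcmUpto_sq hN0
    intro r hr hrQ
    have hrp : r ≠ p := by
      rintro rfl
      exact (hr.coprime_iff_not_dvd.1 (Nat.coprime_ordCompl hr hQ0)) hrQ
    have hfac : (Nat.card Q / p ^ (Nat.card Q).factorization p).factorization r =
        (Nat.card Q).factorization r := by
      rw [Nat.factorization_ordCompl, Finsupp.erase_ne hrp]
    rw [hfac]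
    have : Fact r.Prime := ⟨hr⟩
    obtain ⟨P⟩ : Nonempty (Sylow r Q) := inferInstance
    have hPfree : ∀ q : P, ∀ w : fixedBy ρ C, w ≠ 0 →
        (((q : Q) : (Module.End (ZMod p) (fixedBy ρ C))ˣ) : Module.End (ZMod p) (fixedBy ρ C)) w = w →
        q = 1 := by
      intro q w hw h
      obtain ⟨b, hb⟩ := (IsPGroup.iff_orderOf.1 P.isPGroup') q
      obtain ⟨y, hy⟩ := (q : Q).2
      have h1 : orderOf (τ y) = r ^ b := by
        rw [hy, ← hb, Subgroup.orderOf_coe, Subgroup.orderOf_coe]
      have h2 := hQfree r hr hrp y ⟨b, h1⟩ w hw (by rw [hy]; exact h)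
      apply Subtype.ext
      apply Subtype.ext
      rw [← hy, h2]; rfl
    have hcyc : ∀ A : Subgroup P, IsMulCommutative A → IsCyclic A := by
      intro A hA
      let cA : CommGroup A := { (inferInstance : Group A) with mul_comm := hA.1.1 }
      let σ : A →* (fixedBy ρ C →ₗ[ZMod p] fixedBy ρ C) :=
        { toFun := fun a => (((a : P) : Q) : (Module.End (ZMod p) (fixedBy ρ C))ˣ).val
          map_one' := rfl
          map_mul' := fun a b => rfl }
      exact isCyclic_of_free σ (fun a w hw h => by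
        have := hPfree (a : P) w hw h
        apply Subtype.ext
        exact this)
    obtain ⟨x, hx⟩ := exists_large_cyclic P.isPGroup' hcyc
    obtain ⟨b, hb⟩ := (IsPGroup.iff_orderOf.1 P.isPGroup') x
    refine ⟨b, ?_, ?_⟩
    · -- the eigenvalue count
      obtain ⟨y₀, hy₀⟩ := (x : Q).2
      have hord0 : orderOf (τ y₀) = r ^ b := by
        rw [hy₀, ← hb, Subgroup.orderOf_coe, Subgroup.orderOf_coe]
      obtain ⟨y, hy1, -, hy3⟩ := exists_lift_orderOf τ y₀
      have hord : orderOf (τ y) = r ^ b := by rw [hy1, hord0]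
      have hyr : ∀ d : ℕ, d.Prime → d ∣ orderOf (y : H) → d = r := by
        intro d hd hdy
        rw [Subgroup.orderOf_coe] at hdy
        have h1 := hy3 d hd hdy
        rw [hord0] at h1
        exact (Nat.prime_dvd_prime_iff_eq hd hr).1 (hd.dvd_of_dvd_pow h1)
      have hyp : (orderOf (y : H)).Coprime p := by
        rw [Nat.coprime_comm, hp.coprime_iff_not_dvd]
        intro hdvd
        exact hrp (hyr p hp hdvd).symm
      have he' : r ^ b ∣ orderOf ((Subgroup.inclusion hKN y : Subgroup.normalizer (C : Set H)) : H) := by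
        rw [← hord, Subgroup.coe_inclusion, Subgroup.orderOf_coe]
        exact orderOf_map_dvd τ y
      have hTe : (actHom ρ C (Subgroup.inclusion hKN y)) ^ (r ^ b) = 1 := by
        have h1 : (τ y) ^ (r ^ b) = 1 := by rw [← hord]; exact pow_orderOf_eq_one (τ y)
        have h2 := congrArg Units.val h1
        exact h2
      have hpc := powCount_bound' ρ hm hcard hconj C hCp (Subgroup.inclusion hKN y) hyp
        (Nat.pow_pos hr.pos) he' hTe (by
        intro i hi hie w hw
        by_contra hne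
        have hri : ∃ c, orderOf (τ (y ^ i)) = r ^ c := by
          rw [map_pow]
          have h4 : orderOf ((τ y) ^ i) ∣ r ^ b := by
            rw [← hord]; exact orderOf_pow_dvd i
          obtain ⟨c, -, hc⟩ := (Nat.dvd_prime_pow hr).1 h4
          exact ⟨c, hc⟩
        have h1 := hQfree r hr hrp (y ^ i) hri w hne (by rw [map_pow]; exact hw)
        rw [map_pow] at h1
        have h3 := orderOf_dvd_of_pow_eq_one h1
        rw [hord] at h3
        exact absurd (Nat.le_of_dvd hi h3) (by omega))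
      calc r ^ b ≤ 4 * k * powCount k (r ^ b) := le_powCount hk hr b
        _ ≤ 4 * k * n := Nat.mul_le_mul_left _ hpc
    · rw [← Sylow.card_eq_multiplicity P, ← hb]
      exact hx
  have hQcard : Nat.card Q ≤ p ^ e * (Nat.lcmUpto (4 * k * n)) ^ 2 := by
    calc Nat.card Q = p ^ (Nat.card Q).factorization p *
          (Nat.card Q / p ^ (Nat.card Q).factorization p) :=
          (Nat.ordProj_mul_ordCompl_eq_self _ _).symm
      _ ≤ _ := Nat.mul_le_mul hQp hQp'
  exact final_bound2 hcount hQcard hp.pos hφn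

end Core

end Pool.Agent.Lib.MP_3c3661_al
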