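import Mathlib

/-!
Definitions used in the statements about `k`-rational groups.
-/

set_option autoImplicit false

namespace Pool.Agent.Lib.MP_3c3661_al

/-- `HasNonPPart p e G`: the group `G` has a chain of normal subgroups from `1` to `G` such that
every factor is a `p`-group or has order with `p`-part at most `p ^ w i`, where the exponents `w i`
add up to at most `e`. Equivalently (refine to a chief series): `p ^ e` is at least the `p`-part of
the product of the orders of the nonabelian composition factors of `G`. -/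
def HasNonPPart (p e : ℕ) (G : Type*) [Group G] : Prop :=
  ∃ (n : ℕ) (S : ℕ → Subgroup G) (w : ℕ → ℕ), S 0 = ⊥ ∧ S n = ⊤ ∧ (∀ i, (S i).Normal) ∧
    (∀ i, S i ≤ S (i + 1)) ∧ (∑ i ∈ Finset.range n, w i ≤ e) ∧
    ∀ i < n, (∃ a : ℕ, (S i).relIndex (S (i + 1)) = p ^ a) ∨
      ((S i).relIndex (S (i + 1))).factorization p ≤ w i

/-- The number of `k`-th powers in the group of units modulo `(p - 1) / gcd (p - 1) k`. -/
noncomputable def powUnits (k p : ℕ) : ℕ :=
  Nat.card (powMonoidHom k : (ZMod ((p - 1) / Nat.gcd (p - 1) k))ˣ →*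
    (ZMod ((p - 1) / Nat.gcd (p - 1) k))ˣ).range

end Pool.Agent.Lib.MP_3c3661_al
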