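import Mathlib

/-!
Definitions used in the statements about `k`-rational groups: local pairs.
-/

set_option autoImplicit false

namespace Pool.Agent.Lib.MP_3c3661_al

/-- Local pairs of a subgroup `M` of `G` with respect to the prime `p`. The first ones are
`(⟨h⟩, C(h))` for an element `h` of order prime to `p` with nontrivial fixed points on `M`
(for instance `h = 1`). From a local pair `(L, D)` and a `q`-subgroup `Q` of `D`, `q ≠ p` a prime,
such that `C_M(L Q) ≠ 1` and no `q`-subgroup of `D` of larger order has this property, we get the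
local pair `(L Q, L N_D(Q))`. -/
inductive LocalPair {G : Type*} [Group G] (p : ℕ) (M : Subgroup G) :
    Subgroup G → Subgroup G → Prop
  | base (h : G) (hh : (orderOf h).Coprime p) (hne : M ⊓ Subgroup.centralizer {h} ≠ ⊥) :
      LocalPair p M (Subgroup.zpowers h) (Subgroup.centralizer {h})
  | step (L D Q : Subgroup G) (q : ℕ) (hLD : LocalPair p M L D) (hq : q.Prime) (hqp : q ≠ p)
      (hQ : IsPGroup q Q) (hQD : Q ≤ D)
      (hne : M ⊓ Subgroup.centralizer ((L ⊔ Q : Subgroup G) : Set G) ≠ ⊥)
      (hmax : ∀ R : Subgroup G, IsPGroup q R → R ≤ D →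
        M ⊓ Subgroup.centralizer ((L ⊔ R : Subgroup G) : Set G) ≠ ⊥ →
          Nat.card R ≤ Nat.card Q) :
      LocalPair p M (L ⊔ Q) (L ⊔ (D ⊓ Subgroup.normalizer (Q : Set G)))

/-- The elements of `A` normalising `X`. -/
def normIn {G : Type*} [Group G] (A X : Subgroup G) : Subgroup G :=
  A ⊓ Subgroup.normalizer (X : Set G)

end Pool.Agent.Lib.MP_3c3661_al
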