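import Mathlib

/-!
Definitions used in the statements about `k`-rational groups: maximal `2`-subgroups with fixed
points.
-/

set_option autoImplicit false

namespace Pool.Agent.Lib.MP_3c3661_al

/-- `R` is a `2`-subgroup with `h ∈ R ≤ C(h)` and with nontrivial fixed points on `M`, and no
strictly larger subgroup has these properties. -/
structure MaxTwo {G : Type*} [Group G] (M : Subgroup G) (h : G) (R : Subgroup G) : Prop where
  two : IsPGroup 2 R
  mem : h ∈ R
  le : R ≤ Subgroup.centralizer {h}
  ne : M ⊓ Subgroup.centralizer (R : Set G) ≠ ⊥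
  max : ∀ S : Subgroup G, IsPGroup 2 S → R ≤ S → S ≤ Subgroup.centralizer {h} →
    M ⊓ Subgroup.centralizer (S : Set G) ≠ ⊥ → S = R

/-- The subgroup generated by the products of two elements of `D` which have order `2` modulo
`R`. -/
def twoProds {G : Type*} [Group G] (D R : Subgroup G) : Subgroup G :=
  Subgroup.closure {x | ∃ n ∈ D, ∃ n' ∈ D, n ∉ R ∧ n' ∉ R ∧ n ^ 2 ∈ R ∧ n' ^ 2 ∈ R ∧ x = n * n'}

end Pool.Agent.Lib.MP_3c3661_al
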