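import Mathlib
import Pool.Agent.Lib.MP_3c3661_al.Core
import Pool.Agent.Lib.MP_3c3661_al.Char
import Pool.Agent.Lib.MP_3c3661_al.Core2
import Pool.Agent.Lib.MP_3c3661_al.Defs2

section

/-!
From linear groups to finite groups.
-/

set_option autoImplicit false

namespace Pool.Agent.Lib.MP_3c3661_al

/-- power-conjugacy property -/
def PowConj (k m : ℕ) (G : Type*) [Group G] : Prop :=
  ∀ j : ℕ, j.Coprime m → ∀ g : G, ∃ x : G, x * g * x⁻¹ = g ^ (j ^ k)

lemma PowConj.of_surjective {k m : ℕ} {G G' : Type*} [Group G] [Group G'] (h : PowConj k m G)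
    (f : G →* G') (hf : Function.Surjective f) : PowConj k m G' := by
  intro j hj g'
  obtain ⟨g, rfl⟩ := hf g'
  obtain ⟨x, hx⟩ := h j hj g
  exact ⟨f x, by rw [← map_inv, ← map_mul, ← map_mul, hx, map_pow]⟩

/-- Automorphisms of an elementary abelian group as linear maps. -/
def autHom (p : ℕ) (E : Type*) [CommGroup E] [Module (ZMod p) (Additive E)] :
    MulAut E →* (Additive E →ₗ[ZMod p] Additive E) where
  toFun f := AddMonoidHom.toZModLinearMap p (MonoidHom.toAdditive f.toMonoidHom)
  map_one' := by ext x; rfl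
  map_mul' f g := by ext x; rfl

section Elem

variable {p : ℕ} [Fact p.Prime] {G : Type*} [Group G] [Finite G]

/-- Bound from an action on an elementary abelian group. -/
theorem bound_of_action {k m : ℕ} (hk : 0 < k) (hm : 0 < m) (hcard : Nat.card G ∣ m)
    (hpm : p ∣ m) (hpm1 : (p - 1) ∣ m) (hG : PowConj k m G) {E : Type*} [CommGroup E] [Finite E]
    [Nontrivial E] [Module (ZMod p) (Additive E)] (φ : G →* MulAut E)
    (hφ : φ.ker.index.Coprime p)
    (hT : ∀ j : ℕ, j.Coprime m → ∀ e : E, ∃ x : G, φ x e = e ^ (j ^ k)) :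
    p ≤ 2 ^ (125 * k) := by
  classical
  let H : Subgroup (MulAut E) := φ.range
  have hHf : Finite H := Finite.of_surjective φ.rangeRestrict φ.rangeRestrict_surjective
  let ρ : H →* (Additive E →ₗ[ZMod p] Additive E) := (autHom p E).comp H.subtype
  have h2 : Nat.card H = φ.ker.index := by
    rw [Subgroup.index_ker]
  have hHG' : Nat.card H ∣ Nat.card G := by
    rw [h2]; exact φ.ker.index_dvd_card
  have hNt : Nontrivial (Additive E) := inferInstanceAs (Nontrivial E)
  have hFin : Finite (Additive E) := inferInstanceAs (Finite E)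
  refine core ρ (by rw [h2]; exact hφ) hk hm (hHG'.trans hcard) hpm hpm1 ?_ ?_
  · exact hG.of_surjective φ.rangeRestrict φ.rangeRestrict_surjective
  · intro j hj v
    obtain ⟨x, hx⟩ := hT j hj v.toMul
    exact ⟨⟨φ x, x, rfl⟩, congrArg Additive.ofMul hx⟩

/-- Bound from a normal elementary abelian subgroup. -/
theorem bound_of_elementary {k m : ℕ} (hk : 0 < k) (hm : 0 < m) (hcard : Nat.card G ∣ m)
    (hpm : p ∣ m) (hpm1 : (p - 1) ∣ m) (hG : PowConj k m G) (E : Subgroup G) [E.Normal]
    (hE : E ≠ ⊥) (hcomm : ∀ a ∈ E, ∀ b ∈ E, a * b = b * a) (hexp : ∀ a ∈ E, a ^ p = 1)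
    (C : Subgroup G) (hC : ∀ c ∈ C, ∀ e ∈ E, c * e = e * c) (hCi : C.index.Coprime p) :
    p ≤ 2 ^ (125 * k) := by
  classical
  let cE : CommGroup E := { (inferInstance : Group E) with
    mul_comm := fun a b => Subtype.ext (hcomm a a.2 b b.2) }
  have hNt : Nontrivial E := (Subgroup.nontrivial_iff_ne_bot E).2 hE
  let φ : G →* MulAut E := MulAut.conjNormal
  have hφ : ∀ (g : G) (e : E), ((φ g e : E) : G) = g * e * g⁻¹ := fun g e => rfl
  have h1 : C ≤ φ.ker := by
    intro c hc
    rw [MonoidHom.mem_ker]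
    ext e
    rw [hφ, hC c hc e e.2, mul_inv_cancel_right]; rfl
  have mE : Module (ZMod p) (Additive E) := AddCommGroup.zmodModule (by
    intro x
    exact congrArg Additive.ofMul (Subtype.ext (hexp (x.toMul : G) x.toMul.2)))
  refine @bound_of_action p _ G _ _ k m hk hm hcard hpm hpm1 hG E cE _ hNt mE φ ?_ ?_
  · exact Nat.Coprime.coprime_dvd_left (Subgroup.index_dvd_of_le h1) hCi
  · intro j hj e
    obtain ⟨x, hx⟩ := hG j hj (e : G)
    exact ⟨x, Subtype.ext hx⟩

/-- Bound from a normal `p`-subgroup whose central part has a centraliser of `p'`-index. -/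
theorem bound_of_pgroup {k m : ℕ} (hk : 0 < k) (hm : 0 < m) (hcard : Nat.card G ∣ m)
    (hpm : p ∣ m) (hpm1 : (p - 1) ∣ m) (hG : PowConj k m G) (A : Subgroup G) [A.Normal]
    (hA : A ≠ ⊥) (hAp : IsPGroup p A)
    (C : Subgroup G) (hC : ∀ c ∈ C, ∀ e ∈ A, (∀ a ∈ A, a * e = e * a) → c * e = e * c)
    (hCi : C.index.Coprime p) :
    p ≤ 2 ^ (125 * k) := by
  classical
  let E : Subgroup G :=
    { carrier := {e | e ∈ A ∧ (∀ a ∈ A, a * e = e * a) ∧ e ^ p = 1}
      mul_mem' := by
        rintro x y ⟨hx1, hx2, hx3⟩ ⟨hy1, hy2, hy3⟩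
        refine ⟨A.mul_mem hx1 hy1, ?_, ?_⟩
        · intro a ha
          rw [← mul_assoc, hx2 a ha, mul_assoc, hy2 a ha, mul_assoc]
        · rw [(show Commute x y from hy2 x hx1).mul_pow, hx3, hy3, one_mul]
      one_mem' := ⟨A.one_mem, fun a _ => by rw [mul_one, one_mul], one_pow p⟩
      inv_mem' := by
        rintro x ⟨hx1, hx2, hx3⟩
        refine ⟨A.inv_mem hx1, ?_, by rw [inv_pow, hx3, inv_one]⟩
        intro a ha
        exact (show Commute a x from hx2 a ha).inv_right }
  have hEn : E.Normal := by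
    refine ⟨?_⟩
    rintro x ⟨hx1, hx2, hx3⟩ g
    refine ⟨(inferInstance : A.Normal).conj_mem x hx1 g, ?_, ?_⟩
    · intro a ha
      have h1 : g⁻¹ * a * g ∈ A := by
        have := (inferInstance : A.Normal).conj_mem a ha g⁻¹
        rwa [inv_inv] at this
      have h2 := hx2 _ h1
      calc a * (g * x * g⁻¹) = g * ((g⁻¹ * a * g) * x) * g⁻¹ := by group
        _ = g * (x * (g⁻¹ * a * g)) * g⁻¹ := by rw [h2]
        _ = (g * x * g⁻¹) * a := by group
    · rw [conj_pow, hx3, mul_one, mul_inv_cancel]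
  have hEne : E ≠ ⊥ := by
    have hnt : Nontrivial A := (Subgroup.nontrivial_iff_ne_bot A).2 hA
    have h1 : Nontrivial (Subgroup.center A) := hAp.center_nontrivial
    have h2 : IsPGroup p (Subgroup.center A) := hAp.to_subgroup _
    have h3 : p ∣ Nat.card (Subgroup.center A) := by
      obtain ⟨n, hn⟩ := IsPGroup.iff_card.1 h2
      rw [hn]
      apply dvd_pow_self
      rintro rfl
      rw [pow_zero] at hn
      have : 1 < Nat.card (Subgroup.center A) := Finite.one_lt_card
      omega
    obtain ⟨z, hz⟩ := exists_prime_orderOf_dvd_card' p h3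
    intro h0
    have h4 : ((z : A) : G) ∈ E := by
      refine ⟨(z : A).2, ?_, ?_⟩
      · intro a ha
        have := Subgroup.mem_center_iff.1 z.2 ⟨a, ha⟩
        exact congrArg Subtype.val this
      · have h5 : z ^ p = 1 := by rw [← hz]; exact pow_orderOf_eq_one z
        exact congrArg (fun y : Subgroup.center A => ((y : A) : G)) h5
    rw [h0, Subgroup.mem_bot] at h4
    have h6 : z = 1 := Subtype.ext (Subtype.ext h4)
    rw [h6, orderOf_one] at hz
    exact (Fact.out : p.Prime).one_lt.ne hz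
  refine bound_of_elementary hk hm hcard hpm hpm1 hG E hEne ?_ (fun a ha => ha.2.2) C
    (fun c hc e he => hC c hc e he.1 he.2.1) hCi
  intro a ha b hb
  exact hb.2.1 a ha.1

end Elem

section Solv

variable {p : ℕ} [Fact p.Prime]

lemma bound_of_section {G : Type*} [Group G] [Finite G] {k m : ℕ} (hk : 0 < k) (hm : 0 < m)
    (hcard : Nat.card G ∣ m)
    (hpm : p ∣ m) (hpm1 : (p - 1) ∣ m) (hG : PowConj k m G) (N M C : Subgroup G) [N.Normal]
    [M.Normal] (hNM : N ≤ M) (hne : N ≠ M) {a : ℕ} (ha : N.relIndex M = p ^ a)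
    (hC : ∀ c ∈ C, ∀ x ∈ M, (∀ y ∈ M, y * x * y⁻¹ * x⁻¹ ∈ N) → c * x * c⁻¹ * x⁻¹ ∈ N)
    (hCi : C.index.Coprime p) : p ≤ 2 ^ (125 * k) := by
  classical
  let π : G →* G ⧸ N := QuotientGroup.mk' N
  have hπ : Function.Surjective π := QuotientGroup.mk'_surjective N
  let A : Subgroup (G ⧸ N) := M.map π
  have hAn : A.Normal := (inferInstance : M.Normal).map π hπ
  have hAcard : Nat.card A = p ^ a := by
    let f : M →* G ⧸ N := π.comp M.subtype
    have h1 : f.range = A := by
      rw [MonoidHom.range_comp, Subgroup.range_subtype]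
    have h2 : f.ker = N.subgroupOf M := by
      ext x
      rw [MonoidHom.mem_ker, Subgroup.mem_subgroupOf]
      exact QuotientGroup.eq_one_iff (x : G)
    rw [← ha, Subgroup.relIndex, ← h2, Subgroup.index_ker, h1]
  have hπ1 : ∀ x : G, π x = 1 ↔ x ∈ N := fun x => QuotientGroup.eq_one_iff x
  have hcm : ∀ x y : G, π x * π y = π y * π x ↔ x * y * x⁻¹ * y⁻¹ ∈ N := by
    intro x y
    rw [← hπ1, map_mul, map_mul, map_mul, map_inv, map_inv, mul_inv_eq_one, mul_inv_eq_iff_eq_mul]
  refine bound_of_pgroup hk hm ((Subgroup.card_quotient_dvd_card N).trans hcard) hpm hpm1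
    (hG.of_surjective π hπ) A ?_ (IsPGroup.of_card hAcard) (C.map π) ?_ ?_
  · intro h0
    rw [Subgroup.map_eq_bot_iff, QuotientGroup.ker_mk'] at h0
    exact hne (le_antisymm hNM h0)
  · rintro _ ⟨c, hc, rfl⟩ _ ⟨x, hx, rfl⟩ h
    rw [hcm]
    apply hC c hc x hx
    intro y hy
    rw [← hcm]
    exact h (π y) ⟨y, hy, rfl⟩
  · exact Nat.Coprime.coprime_dvd_left (Subgroup.index_map_dvd C hπ) hCi

/-- Bound for `p`-solvable groups. -/
theorem bound_of_psolvable {G : Type*} [Group G] [Finite G] {k m : ℕ} (hk : 0 < k) (hm : 0 < m)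
    (hcard : Nat.card G ∣ m)
    (hpm : p ∣ m) (hpm1 : (p - 1) ∣ m) (hG : PowConj k m G) (hs : IsPSolvable p G)
    (hpG : ¬ (Nat.card G).Coprime p) : p ≤ 2 ^ (125 * k) := by
  obtain ⟨n, S, h0, hn, hnorm, hle, hfac⟩ := hs
  have hP0 : ¬ (S 0).index.Coprime p := by
    rw [h0, Subgroup.index_bot]; exact hpG
  have hPn : (S n).index.Coprime p := by
    rw [hn, Subgroup.index_top]; exact Nat.coprime_one_left p
  obtain ⟨i, hi1, hi2⟩ : ∃ i, (S (i + 1)).index.Coprime p ∧ ¬ (S i).index.Coprime p := by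
    by_contra hcon
    push Not at hcon
    have : ∀ l, l ≤ n → (S (n - l)).index.Coprime p := by
      intro l
      induction l with
      | zero => intro _; simpa using hPn
      | succ l ih =>
        intro hl
        apply hcon
        have : n - (l + 1) + 1 = n - l := by omega
        rw [this]
        exact ih (by omega)
    have := this n le_rfl
    rw [Nat.sub_self] at this
    exact hP0 this
  have hmul := Subgroup.relIndex_mul_index (hle i)
  have hnc : ¬ ((S i).relIndex (S (i + 1))).Coprime p := by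
    intro h
    apply hi2
    rw [← hmul]
    exact Nat.Coprime.mul_left h hi1
  obtain ⟨a, ha⟩ := (hfac i).resolve_right hnc
  have := hnorm i
  have := hnorm (i + 1)
  refine bound_of_section hk hm hcard hpm hpm1 hG (S i) (S (i + 1)) (S (i + 1)) (hle i) ?_ ha
    (fun c hc x _ h => h c hc) hi1
  intro heq
  apply hi2
  rw [heq]
  exact hi1

/-- Main theorem: chief factors with `p`-solvable action. -/
theorem main {k : ℕ} (hk : 0 < k) {G : Type} [Group G] [Finite G] (hG : KRational k G)
    (N M C : Subgroup G) [N.Normal] [M.Normal] [C.Normal] (hNM : N ≤ M) (hne : N ≠ M) {a : ℕ}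
    (ha : N.relIndex M = p ^ a) (hC : ∀ c ∈ C, ∀ x ∈ M, c * x * c⁻¹ * x⁻¹ ∈ N)
    (hs : IsPSolvable p (G ⧸ C)) : p ≤ 2 ^ (125 * k) := by
  have hp : p.Prime := Fact.out
  set m := Nat.card G * p * (p - 1) with hm
  have hm0 : 0 < m := by
    have h1 : 0 < Nat.card G := Nat.card_pos
    have h2 := hp.two_le
    have h3 : 0 < p - 1 := by omega
    positivity
  have hGm : Nat.card G ∣ m := ⟨p * (p - 1), by rw [hm, mul_assoc]⟩
  have hpm : p ∣ m := ⟨Nat.card G * (p - 1), by rw [hm]; ring⟩
  have hpm1 : (p - 1) ∣ m := ⟨Nat.card G * p, by rw [hm]; ring⟩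
  have hP : PowConj k m G := by
    intro j hj g
    have h1 := hG.isConj_pow (Nat.Coprime.coprime_dvd_right hGm hj) g
    obtain ⟨x, hx⟩ := isConj_iff.1 h1
    exact ⟨x, hx⟩
  by_cases hCi : C.index.Coprime p
  · exact bound_of_section hk hm0 hGm hpm hpm1 hP N M C hNM hne ha
      (fun c hc x hx _ => hC c hc x hx) hCi
  · refine bound_of_psolvable hk hm0 ((Subgroup.card_quotient_dvd_card C).trans hGm) hpm hpm1
      (hP.of_surjective (QuotientGroup.mk' C) (QuotientGroup.mk'_surjective C)) hs ?_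
    rwa [← Subgroup.index_eq_card]

end Solv

end Pool.Agent.Lib.MP_3c3661_al
end

section

/-!
From linear groups to finite groups, general version.
-/

set_option autoImplicit false

namespace Pool.Agent.Lib.MP_3c3661_al

/-- The conclusion. -/
def Concl (k p e : ℕ) : Prop :=
  p ^ powUnits k p ≤ 2 ^ (125 * k * powUnits k p) * p ^ (2 * e)

lemma factorization_le_of_dvd {a b p e : ℕ} (hb : b ≠ 0) (h : a ∣ b) (hbe : b.factorization p ≤ e) :
    a.factorization p ≤ e :=
  le_trans ((Nat.factorization_le_iff_dvd (ne_zero_of_dvd_ne_zero hb h) hb).2 h p) hbe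

section Elem

variable {p : ℕ} [Fact p.Prime] {G : Type*} [Group G] [Finite G]

/-- Bound from an action on an elementary abelian group. -/
theorem concl_of_action {k m e : ℕ} (hk : 0 < k) (hm : 0 < m) (hcard : Nat.card G ∣ m)
    (hpm : p ∣ m) (hpm1 : (p - 1) ∣ m) (hG : PowConj k m G) {E : Type*} [CommGroup E] [Finite E]
    [Nontrivial E] [Module (ZMod p) (Additive E)] (φ : G →* MulAut E)
    (hφ : φ.ker.index.factorization p ≤ e)
    (hT : ∀ j : ℕ, j.Coprime m → ∀ e : E, ∃ x : G, φ x e = e ^ (j ^ k)) :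
    Concl k p e := by
  classical
  let H : Subgroup (MulAut E) := φ.range
  have hHf : Finite H := Finite.of_surjective φ.rangeRestrict φ.rangeRestrict_surjective
  let ρ : H →* (Additive E →ₗ[ZMod p] Additive E) := (autHom p E).comp H.subtype
  have h2 : Nat.card H = φ.ker.index := by
    rw [Subgroup.index_ker]
  have hHG' : Nat.card H ∣ Nat.card G := by
    rw [h2]; exact φ.ker.index_dvd_card
  have hNt : Nontrivial (Additive E) := inferInstanceAs (Nontrivial E)
  have hFin : Finite (Additive E) := inferInstanceAs (Finite E)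
  refine core2 ρ hk hm (hHG'.trans hcard) hpm hpm1 (by rw [h2]; exact hφ) ?_ ?_
  · exact hG.of_surjective φ.rangeRestrict φ.rangeRestrict_surjective
  · intro j hj v
    obtain ⟨x, hx⟩ := hT j hj v.toMul
    exact ⟨⟨φ x, x, rfl⟩, congrArg Additive.ofMul hx⟩

/-- Bound from a normal elementary abelian subgroup. -/
theorem concl_of_elementary {k m e : ℕ} (hk : 0 < k) (hm : 0 < m) (hcard : Nat.card G ∣ m)
    (hpm : p ∣ m) (hpm1 : (p - 1) ∣ m) (hG : PowConj k m G) (E : Subgroup G) [E.Normal]
    (hE : E ≠ ⊥) (hcomm : ∀ a ∈ E, ∀ b ∈ E, a * b = b * a) (hexp : ∀ a ∈ E, a ^ p = 1)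
    (C : Subgroup G) (hC : ∀ c ∈ C, ∀ e ∈ E, c * e = e * c) (hCi : C.index.factorization p ≤ e) :
    Concl k p e := by
  classical
  let cE : CommGroup E := { (inferInstance : Group E) with
    mul_comm := fun a b => Subtype.ext (hcomm a a.2 b b.2) }
  have hNt : Nontrivial E := (Subgroup.nontrivial_iff_ne_bot E).2 hE
  let φ : G →* MulAut E := MulAut.conjNormal
  have hφ : ∀ (g : G) (e : E), ((φ g e : E) : G) = g * e * g⁻¹ := fun g e => rfl
  have h1 : C ≤ φ.ker := by
    intro c hc
    rw [MonoidHom.mem_ker]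
    ext e
    rw [hφ, hC c hc e e.2, mul_inv_cancel_right]; rfl
  have mE : Module (ZMod p) (Additive E) := AddCommGroup.zmodModule (by
    intro x
    exact congrArg Additive.ofMul (Subtype.ext (hexp (x.toMul : G) x.toMul.2)))
  refine @concl_of_action p _ G _ _ k m e hk hm hcard hpm hpm1 hG E cE _ hNt mE φ ?_ ?_
  · exact factorization_le_of_dvd C.index_ne_zero_of_finite (Subgroup.index_dvd_of_le h1) hCi
  · intro j hj e
    obtain ⟨x, hx⟩ := hG j hj (e : G)
    exact ⟨x, Subtype.ext hx⟩

/-- Bound from a normal `p`-subgroup. -/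
theorem concl_of_pgroup {k m e : ℕ} (hk : 0 < k) (hm : 0 < m) (hcard : Nat.card G ∣ m)
    (hpm : p ∣ m) (hpm1 : (p - 1) ∣ m) (hG : PowConj k m G) (A : Subgroup G) [A.Normal]
    (hA : A ≠ ⊥) (hAp : IsPGroup p A)
    (C : Subgroup G) (hC : ∀ c ∈ C, ∀ e ∈ A, (∀ a ∈ A, a * e = e * a) → c * e = e * c)
    (hCi : C.index.factorization p ≤ e) :
    Concl k p e := by
  classical
  let E : Subgroup G :=
    { carrier := {e | e ∈ A ∧ (∀ a ∈ A, a * e = e * a) ∧ e ^ p = 1}
      mul_mem' := by
        rintro x y ⟨hx1, hx2, hx3⟩ ⟨hy1, hy2, hy3⟩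
        refine ⟨A.mul_mem hx1 hy1, ?_, ?_⟩
        · intro a ha
          rw [← mul_assoc, hx2 a ha, mul_assoc, hy2 a ha, mul_assoc]
        · rw [(show Commute x y from hy2 x hx1).mul_pow, hx3, hy3, one_mul]
      one_mem' := ⟨A.one_mem, fun a _ => by rw [mul_one, one_mul], one_pow p⟩
      inv_mem' := by
        rintro x ⟨hx1, hx2, hx3⟩
        refine ⟨A.inv_mem hx1, ?_, by rw [inv_pow, hx3, inv_one]⟩
        intro a ha
        exact (show Commute a x from hx2 a ha).inv_right }
  have hEn : E.Normal := by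
    refine ⟨?_⟩
    rintro x ⟨hx1, hx2, hx3⟩ g
    refine ⟨(inferInstance : A.Normal).conj_mem x hx1 g, ?_, ?_⟩
    · intro a ha
      have h1 : g⁻¹ * a * g ∈ A := by
        have := (inferInstance : A.Normal).conj_mem a ha g⁻¹
        rwa [inv_inv] at this
      have h2 := hx2 _ h1
      calc a * (g * x * g⁻¹) = g * ((g⁻¹ * a * g) * x) * g⁻¹ := by group
        _ = g * (x * (g⁻¹ * a * g)) * g⁻¹ := by rw [h2]
        _ = (g * x * g⁻¹) * a := by group
    · rw [conj_pow, hx3, mul_one, mul_inv_cancel]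
  have hEne : E ≠ ⊥ := by
    have hnt : Nontrivial A := (Subgroup.nontrivial_iff_ne_bot A).2 hA
    have h1 : Nontrivial (Subgroup.center A) := hAp.center_nontrivial
    have h2 : IsPGroup p (Subgroup.center A) := hAp.to_subgroup _
    have h3 : p ∣ Nat.card (Subgroup.center A) := by
      obtain ⟨n, hn⟩ := IsPGroup.iff_card.1 h2
      rw [hn]
      apply dvd_pow_self
      rintro rfl
      rw [pow_zero] at hn
      have : 1 < Nat.card (Subgroup.center A) := Finite.one_lt_card
      omega
    obtain ⟨z, hz⟩ := exists_prime_orderOf_dvd_card' p h3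
    intro h0
    have h4 : ((z : A) : G) ∈ E := by
      refine ⟨(z : A).2, ?_, ?_⟩
      · intro a ha
        have := Subgroup.mem_center_iff.1 z.2 ⟨a, ha⟩
        exact congrArg Subtype.val this
      · have h5 : z ^ p = 1 := by rw [← hz]; exact pow_orderOf_eq_one z
        exact congrArg (fun y : Subgroup.center A => ((y : A) : G)) h5
    rw [h0, Subgroup.mem_bot] at h4
    have h6 : z = 1 := Subtype.ext (Subtype.ext h4)
    rw [h6, orderOf_one] at hz
    exact (Fact.out : p.Prime).one_lt.ne hz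
  refine concl_of_elementary hk hm hcard hpm hpm1 hG E hEne ?_ (fun a ha => ha.2.2) C
    (fun c hc e he => hC c hc e he.1 he.2.1) hCi
  intro a ha b hb
  exact hb.2.1 a ha.1

end Elem

section Solv

variable {p : ℕ} [Fact p.Prime]

lemma concl_of_section {G : Type*} [Group G] [Finite G] {k m e : ℕ} (hk : 0 < k) (hm : 0 < m)
    (hcard : Nat.card G ∣ m)
    (hpm : p ∣ m) (hpm1 : (p - 1) ∣ m) (hG : PowConj k m G) (N M C : Subgroup G) [N.Normal]
    [M.Normal] (hNM : N ≤ M) (hne : N ≠ M) {a : ℕ} (ha : N.relIndex M = p ^ a)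
    (hC : ∀ c ∈ C, ∀ x ∈ M, (∀ y ∈ M, y * x * y⁻¹ * x⁻¹ ∈ N) → c * x * c⁻¹ * x⁻¹ ∈ N)
    (hCi : C.index.factorization p ≤ e) : Concl k p e := by
  classical
  let π : G →* G ⧸ N := QuotientGroup.mk' N
  have hπ : Function.Surjective π := QuotientGroup.mk'_surjective N
  let A : Subgroup (G ⧸ N) := M.map π
  have hAn : A.Normal := (inferInstance : M.Normal).map π hπ
  have hAcard : Nat.card A = p ^ a := by
    let f : M →* G ⧸ N := π.comp M.subtype
    have h1 : f.range = A := by
      rw [MonoidHom.range_comp, Subgroup.range_subtype]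
    have h2 : f.ker = N.subgroupOf M := by
      ext x
      rw [MonoidHom.mem_ker, Subgroup.mem_subgroupOf]
      exact QuotientGroup.eq_one_iff (x : G)
    rw [← ha, Subgroup.relIndex, ← h2, Subgroup.index_ker, h1]
  have hπ1 : ∀ x : G, π x = 1 ↔ x ∈ N := fun x => QuotientGroup.eq_one_iff x
  have hcm : ∀ x y : G, π x * π y = π y * π x ↔ x * y * x⁻¹ * y⁻¹ ∈ N := by
    intro x y
    rw [← hπ1, map_mul, map_mul, map_mul, map_inv, map_inv, mul_inv_eq_one, mul_inv_eq_iff_eq_mul]
  refine concl_of_pgroup hk hm ((Subgroup.card_quotient_dvd_card N).trans hcard) hpm hpm1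
    (hG.of_surjective π hπ) A ?_ (IsPGroup.of_card hAcard) (C.map π) ?_ ?_
  · intro h0
    rw [Subgroup.map_eq_bot_iff, QuotientGroup.ker_mk'] at h0
    exact hne (le_antisymm hNM h0)
  · rintro _ ⟨c, hc, rfl⟩ _ ⟨x, hx, rfl⟩ h
    rw [hcm]
    apply hC c hc x hx
    intro y hy
    rw [← hcm]
    exact h (π y) ⟨y, hy, rfl⟩
  · exact factorization_le_of_dvd C.index_ne_zero_of_finite (Subgroup.index_map_dvd C hπ) hCi

/-- Bound for groups with a controlled non-`p`-part: either the whole group has small `p`-part or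
the bound holds. -/
theorem concl_or_factorization_le {G : Type*} [Group G] [Finite G] {k m e : ℕ} (hk : 0 < k)
    (hm : 0 < m) (hcard : Nat.card G ∣ m)
    (hpm : p ∣ m) (hpm1 : (p - 1) ∣ m) (hG : PowConj k m G) (hs : HasNonPPart p e G) :
    Concl k p e ∨ (Nat.card G).factorization p ≤ e := by
  classical
  have hp : p.Prime := Fact.out
  obtain ⟨n, S, w, h0, hn, hnorm, hle, hw, hfac⟩ := hs
  by_contra hcon
  push Not at hcon
  obtain ⟨hcon1, hcon2⟩ := hcon
  have key : ∀ l, l ≤ n → (S (n - l)).index.factorization p ≤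
      ∑ i ∈ Finset.Ico (n - l) n, w i := by
    intro l
    induction l with
    | zero =>
      intro _
      rw [Nat.sub_zero, hn, Subgroup.index_top]
      simp
    | succ l ih =>
      intro hl
      have ih' := ih (by omega)
      obtain ⟨i, hi⟩ : ∃ i, n - (l + 1) = i := ⟨_, rfl⟩
      have hi1 : n - l = i + 1 := by omega
      have hin : i < n := by omega
      rw [hi1] at ih'
      rw [hi]
      have hmul := Subgroup.relIndex_mul_index (hle i)
      have hr0 : (S i).relIndex (S (i + 1)) ≠ 0 :=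
        Subgroup.index_ne_zero_of_finite (H := (S i).subgroupOf (S (i + 1)))
      have hx0 : (S (i + 1)).index ≠ 0 := Subgroup.index_ne_zero_of_finite
      have hfacsum : (S i).index.factorization p = ((S i).relIndex (S (i + 1))).factorization p +
          (S (i + 1)).index.factorization p := by
        rw [← hmul, Nat.factorization_mul hr0 hx0]; rfl
      have hsum : ∑ i ∈ Finset.Ico i n, w i = w i + ∑ i ∈ Finset.Ico (i + 1) n, w i :=
        Finset.sum_eq_sum_Ico_succ_bot hin w
      rw [hfacsum, hsum]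
      refine Nat.add_le_add ?_ ih'
      rcases hfac i hin with ⟨a, ha⟩ | h
      · -- a nontrivial `p`-factor is impossible here
        by_cases hSeq : S i = S (i + 1)
        · rw [hSeq, Subgroup.relIndex_self]; simp
        · exfalso
          apply hcon1
          have := hnorm i
          have := hnorm (i + 1)
          refine concl_of_section hk hm hcard hpm hpm1 hG (S i) (S (i + 1)) (S (i + 1)) (hle i)
            hSeq ha (fun c hc x _ h => h c hc) ?_
          refine ih'.trans (le_trans ?_ hw)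
          rw [← Finset.sum_range_add_sum_Ico w (show i + 1 ≤ n by omega)]
          exact Nat.le_add_left _ _
      · exact h
  have := key n le_rfl
  rw [Nat.sub_self, h0, Subgroup.index_bot] at this
  have h5 : ∑ i ∈ Finset.Ico 0 n, w i = ∑ i ∈ Finset.range n, w i := by
    rw [Finset.range_eq_Ico]
  omega

/-- Main theorem, general version. -/
theorem main2 {k e : ℕ} (hk : 0 < k) {G : Type} [Group G] [Finite G] (hG : KRational k G)
    (N M C : Subgroup G) [N.Normal] [M.Normal] [C.Normal] (hNM : N ≤ M) (hne : N ≠ M) {a : ℕ}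
    (ha : N.relIndex M = p ^ a) (hC : ∀ c ∈ C, ∀ x ∈ M, c * x * c⁻¹ * x⁻¹ ∈ N)
    (hs : HasNonPPart p e (G ⧸ C)) : Concl k p e := by
  have hp : p.Prime := Fact.out
  set m := Nat.card G * p * (p - 1) with hm
  have hm0 : 0 < m := by
    have h1 : 0 < Nat.card G := Nat.card_pos
    have h2 := hp.two_le
    have h3 : 0 < p - 1 := by omega
    positivity
  have hGm : Nat.card G ∣ m := ⟨p * (p - 1), by rw [hm, mul_assoc]⟩
  have hpm : p ∣ m := ⟨Nat.card G * (p - 1), by rw [hm]; ring⟩
  have hpm1 : (p - 1) ∣ m := ⟨Nat.card G * p, by rw [hm]; ring⟩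
  have hP : PowConj k m G := by
    intro j hj g
    have h1 := hG.isConj_pow (Nat.Coprime.coprime_dvd_right hGm hj) g
    obtain ⟨x, hx⟩ := isConj_iff.1 h1
    exact ⟨x, hx⟩
  rcases concl_or_factorization_le hk hm0 ((Subgroup.card_quotient_dvd_card C).trans hGm) hpm hpm1
      (hP.of_surjective (QuotientGroup.mk' C) (QuotientGroup.mk'_surjective C)) hs with h | h
  · exact h
  · refine concl_of_section hk hm0 hGm hpm hpm1 hP N M C hNM hne ha
      (fun c hc x hx _ => hC c hc x hx) ?_
    rwa [Subgroup.index_eq_card]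

end Solv

end Pool.Agent.Lib.MP_3c3661_al
end
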