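import Mathlib
import Pool.Agent.Lib.MP_3c3661_al.Step
import Pool.Agent.Lib.MP_3c3661_al.Core2
import Pool.Agent.Lib.MP_3c3661_al.Final2
import Pool.Agent.Lib.MP_3c3661_al.Defs3

section

/-!
Internal direct sums given by a finite independent set of submodules.
-/

set_option autoImplicit false

namespace Pool.Agent.Lib.MP_3c3661_al

section Decomp

variable {R V : Type*} [Ring R] [AddCommGroup V] [Module R V] {𝓧 : Set (Submodule R V)}
  [Fintype 𝓧]

lemma eq_zero_of_sum_eq_zero (hind : sSupIndep 𝓧) {f : 𝓧 → V} (hf : ∀ X : 𝓧, f X ∈ X.1)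
    (h : ∑ X, f X = 0) (X : 𝓧) : f X = 0 := by
  classical
  have h1 := hind X.2
  have h2 : f X ∈ sSup (𝓧 \ {X.1}) := by
    rw [← Finset.add_sum_erase Finset.univ f (Finset.mem_univ X)] at h
    have h3 : f X = - ∑ Y ∈ Finset.univ.erase X, f Y := eq_neg_of_add_eq_zero_left h
    rw [h3]
    apply Submodule.neg_mem
    apply Submodule.sum_mem
    intro Y hY
    have h4 : Y.1 ≤ sSup (𝓧 \ {X.1}) := by
      apply le_sSup
      refine ⟨Y.2, ?_⟩
      intro h5
      exact (Finset.mem_erase.1 hY).1 (Subtype.ext h5)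
    exact h4 (hf Y)
  exact (Submodule.disjoint_def.1 h1) _ (hf X) h2

lemma eq_of_sum_eq (hind : sSupIndep 𝓧) {f g : 𝓧 → V} (hf : ∀ X : 𝓧, f X ∈ X.1)
    (hg : ∀ X : 𝓧, g X ∈ X.1) (h : ∑ X, f X = ∑ X, g X) (X : 𝓧) : f X = g X := by
  have h1 := eq_zero_of_sum_eq_zero hind (f := fun X => f X - g X)
    (fun X => X.1.sub_mem (hf X) (hg X)) (by rw [Finset.sum_sub_distrib, h, sub_self]) X
  exact sub_eq_zero.1 h1

lemma exists_sum_of_mem_sSup {v : V} (hv : v ∈ sSup 𝓧) :
    ∃ f : 𝓧 → V, (∀ X : 𝓧, f X ∈ X.1) ∧ ∑ X, f X = v := by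
  classical
  rw [sSup_eq_iSup'] at hv
  induction hv using Submodule.iSup_induction' with
  | mem X x hx =>
    refine ⟨fun Y => if Y = X then x else 0, ?_, ?_⟩
    · intro Y
      by_cases h : Y = X
      · simp only [h, if_true]; exact hx
      · simp only [h, if_false]; exact Y.1.zero_mem
    · rw [Finset.sum_ite_eq']; simp
  | zero => exact ⟨fun _ => 0, fun X => X.1.zero_mem, by simp⟩
  | add x y _ _ ihx ihy =>
    obtain ⟨f, hf1, hf2⟩ := ihx
    obtain ⟨g, hg1, hg2⟩ := ihy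
    exact ⟨fun X => f X + g X, fun X => X.1.add_mem (hf1 X) (hg1 X), by
      rw [Finset.sum_add_distrib, hf2, hg2]⟩

/-- The projections of an internal direct sum. -/
lemma exists_proj (hind : sSupIndep 𝓧) :
    ∃ π : 𝓧 → ((sSup 𝓧 : Submodule R V) →ₗ[R] V), (∀ X v, π X v ∈ X.1) ∧
      ∀ v, ∑ X, π X v = (v : V) := by
  choose f hf1 hf2 using fun v : (sSup 𝓧 : Submodule R V) => exists_sum_of_mem_sSup v.2
  refine ⟨fun X =>
    { toFun := fun v => f v X
      map_add' := fun v w => ?_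
      map_smul' := fun a v => ?_ }, fun X v => hf1 v X, fun v => hf2 v⟩
  · exact eq_of_sum_eq hind (hf1 (v + w)) (fun X => X.1.add_mem (hf1 v X) (hf1 w X)) (by
      rw [Finset.sum_add_distrib, hf2, hf2, hf2]; rfl) X
  · exact eq_of_sum_eq hind (hf1 (a • v)) (fun X => X.1.smul_mem a (hf1 v X)) (by
      rw [← Finset.smul_sum, hf2, hf2]; rfl) X

/-- Equivariance of the projections. -/
lemma proj_equivariant (hind : sSupIndep 𝓧) {π : 𝓧 → ((sSup 𝓧 : Submodule R V) →ₗ[R] V)}
    (hπ1 : ∀ X v, π X v ∈ X.1) (hπ2 : ∀ v, ∑ X, π X v = (v : V)) (T : V →ₗ[R] V)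
    (σ : Equiv.Perm 𝓧) (hσ : ∀ X : 𝓧, (σ X).1 = X.1.map T)
    (v w : (sSup 𝓧 : Submodule R V)) (hw : (w : V) = T v) (X : 𝓧) : π (σ X) w = T (π X v) := by
  have h1 := eq_of_sum_eq hind (f := fun Y => π Y w) (g := fun Y => T (π (σ.symm Y) v))
    (fun Y => hπ1 Y w) (fun Y => by
      have h2 := hσ (σ.symm Y)
      rw [σ.apply_symm_apply] at h2
      rw [h2]
      exact ⟨_, hπ1 _ _, rfl⟩) (by
      rw [hπ2, hw]
      rw [← Equiv.sum_comp σ (fun Y => T (π (σ.symm Y) v))]
      simp only [σ.symm_apply_apply]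
      rw [← map_sum, hπ2]) (σ X)
  simp only [σ.symm_apply_apply] at h1
  exact h1

end Decomp

end Pool.Agent.Lib.MP_3c3661_al
end

section

/-!
A group `K` permuting the orbits of a group `C`.
-/

set_option autoImplicit false

open scoped Pointwise

namespace Pool.Agent.Lib.MP_3c3661_al

section Orbits

variable {K C 𝓑 : Type*} [Group K] [Group C] [MulAction K 𝓑] [MulAction C 𝓑]

lemma smul_orbit_eq (hcomp : ∀ (y : K) (c : C), ∃ c' : C, ∀ X : 𝓑, y • c • X = c' • y • X)
    (y : K) (X : 𝓑) : y • MulAction.orbit C X = MulAction.orbit C (y • X) := by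
  have key : ∀ (y : K) (X : 𝓑), y • MulAction.orbit C X ⊆ MulAction.orbit C (y • X) := by
    rintro y X _ ⟨_, ⟨c, rfl⟩, rfl⟩
    obtain ⟨c', hc'⟩ := hcomp y c
    exact ⟨c', (hc' X).symm⟩
  refine Set.Subset.antisymm (key y X) ?_
  have h1 := key y⁻¹ (y • X)
  rw [inv_smul_smul] at h1
  rwa [Set.smul_set_subset_iff_subset_inv_smul_set, inv_inv] at h1

/-- The set of the orbits which meet `B`. -/
def Orbs (C : Type*) [Group C] [MulAction C 𝓑] (B : Set 𝓑) : Type _ :=
  {o : Set 𝓑 // ∃ X ∈ B, MulAction.orbit C X = o}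

instance (B : Set 𝓑) [Finite 𝓑] : Finite (Orbs C B) := by
  unfold Orbs
  infer_instance

/-- The action on the orbits. -/
@[reducible] def orbsAction (hcomp : ∀ (y : K) (c : C), ∃ c' : C, ∀ X : 𝓑, y • c • X = c' • y • X)
    {B : Set 𝓑} (hB : ∀ (y : K), ∀ X ∈ B, y • X ∈ B) : MulAction K (Orbs C B) where
  smul y o := ⟨y • o.1, by
    obtain ⟨X, hX, hXo⟩ := o.2
    exact ⟨y • X, hB y X hX, by rw [← hXo, smul_orbit_eq hcomp]⟩⟩
  one_smul o := Subtype.ext (one_smul K o.1)
  mul_smul y z o := Subtype.ext (mul_smul y z o.1)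

/-- The kernel of the action on the orbits has small index in a Sylow subgroup. -/
lemma exists_kernel [Finite K] [Finite 𝓑] {p : ℕ} [Fact p.Prime]
    (hcomp : ∀ (y : K) (c : C), ∃ c' : C, ∀ X : 𝓑, y • c • X = c' • y • X)
    {B : Set 𝓑} (hB : ∀ (y : K), ∀ X ∈ B, y • X ∈ B) (R : Sylow p K) :
    ∃ (T : Subgroup K) (a : ℕ), T.relIndex (R : Subgroup K) = p ^ a ∧
      (p - 1) * a ≤ Nat.card (Orbs C B) ∧ ∀ y ∈ T, ∀ o : Orbs C B, y • o.1 = o.1 := by
  classical
  have hp : p.Prime := Fact.out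
  let _act := orbsAction hcomp hB
  let f : K →* Equiv.Perm (Orbs C B) := MulAction.toPermHom K (Orbs C B)
  obtain ⟨a, ha⟩ := IsPGroup.iff_card.1 (R.isPGroup'.map f)
  refine ⟨f.ker, a, ?_, ?_, ?_⟩
  · rw [Subgroup.relIndex_ker]; exact ha
  · have h1 : p ^ a ∣ (Nat.card (Orbs C B)).factorial := by
      have : Fintype (Orbs C B) := Fintype.ofFinite _
      have h2 : Nat.card (Equiv.Perm (Orbs C B)) = (Nat.card (Orbs C B)).factorial := by
        rw [Nat.card_eq_fintype_card, Fintype.card_perm, Nat.card_eq_fintype_card]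
      rw [← h2, ← ha]
      exact Subgroup.card_subgroup_dvd_card _
    have h3 : a ≤ padicValNat p (Nat.card (Orbs C B)).factorial :=
      (padicValNat_dvd_iff_le (Nat.factorial_ne_zero _)).1 h1
    calc (p - 1) * a ≤ (p - 1) * padicValNat p (Nat.card (Orbs C B)).factorial :=
          Nat.mul_le_mul_left _ h3
      _ = Nat.card (Orbs C B) - (p.digits (Nat.card (Orbs C B))).sum :=
          sub_one_mul_padicValNat_factorial _
      _ ≤ Nat.card (Orbs C B) := Nat.sub_le _ _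
  · intro y hy o
    have h1 : f y = 1 := MonoidHom.mem_ker.1 hy
    have h2 := congrArg (fun g : Equiv.Perm (Orbs C B) => (g o).1) h1
    exact h2

/-- A `p`-group stabilising an orbit of a `p'`-group has a fixed point in it. -/
lemma exists_fixed_mem_orbit [Finite K] [Finite C] {p : ℕ} [Fact p.Prime]
    (hC : (Nat.card C).Coprime p) {T : Subgroup K} (hT : IsPGroup p T) {X₀ : 𝓑}
    (h : ∀ y ∈ T, y • MulAction.orbit C X₀ = MulAction.orbit C X₀) :
    ∃ X ∈ MulAction.orbit C X₀, ∀ y ∈ T, y • X = X := by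
  classical
  have hp : p.Prime := Fact.out
  let act : MulAction T (MulAction.orbit C X₀) :=
    { smul := fun y X => ⟨(y : K) • X.1, by
        have h1 : (y : K) • X.1 ∈ (y : K) • MulAction.orbit C X₀ := Set.smul_mem_smul_set X.2
        rwa [h y y.2] at h1⟩
      one_smul := fun X => Subtype.ext (one_smul K X.1)
      mul_smul := fun y z X => Subtype.ext (mul_smul (y : K) (z : K) X.1) }
  have hcard : ¬ p ∣ Nat.card (MulAction.orbit C X₀) := by
    intro hdvd
    have h1 : Nat.card (MulAction.orbit C X₀) = (MulAction.stabilizer C X₀).index :=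
      (MulAction.index_stabilizer C X₀).symm
    have h2 : Nat.card (MulAction.orbit C X₀) ∣ Nat.card C := by
      rw [h1]; exact Subgroup.index_dvd_card _
    exact (hp.coprime_iff_not_dvd.1 hC.symm) (hdvd.trans h2)
  obtain ⟨X, hX⟩ := hT.nonempty_fixed_point_of_prime_not_dvd_card (MulAction.orbit C X₀) hcard
  refine ⟨X.1, X.2, ?_⟩
  intro y hy
  exact congrArg Subtype.val (hX ⟨y, hy⟩)

end Orbits

end Pool.Agent.Lib.MP_3c3661_al
end

section

/-!
The step for good pairs, with control of the subgroups.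
-/

set_option autoImplicit false

namespace Pool.Agent.Lib.MP_3c3661_al

section Step

variable {p : ℕ} [Fact p.Prime] {H : Type*} [Group H] {V : Type*} [AddCommGroup V]
  [Module (ZMod p) V] (ρ : H →* (V →ₗ[ZMod p] V)) [Finite H]

/-- The step: an `r`-element of `K` outside `C` with a nonzero fixed vector allows to enlarge
`C`. -/
lemma GoodPair.step2 {t : ZMod p} {C K : Subgroup H} (hCK : GoodPair ρ t C K) {r : ℕ}
    (hr : r.Prime) (hrp : r ≠ p) {y : H} (hyK : y ∈ K) (hyr : ∃ b, orderOf y = r ^ b) (hyC : y ∉ C)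
    {w₀ : V} (hw₀ : w₀ ∈ fixedBy ρ C) (hw₀0 : w₀ ≠ 0) (hyw : ρ y w₀ = w₀) :
    ∃ C' K' : Subgroup H, GoodPair ρ t C' K' ∧ C ≤ C' ∧ (∀ L : Subgroup H, C ≤ L → K ≤ L → C' ≤ L) ∧
      K' ≤ K ∧ Nat.card C < Nat.card C' := by
  classical
  have hp : p.Prime := Fact.out
  have : Fact r.Prime := ⟨hr⟩
  obtain ⟨hKN, hCp, hCne, hT⟩ := hCK
  -- choose a maximal `r`-subgroup
  let 𝓡 : Set (Subgroup H) := {R | IsPGroup r R ∧ R ≤ K ∧ y ∈ R ∧
    ∃ w ∈ fixedBy ρ C, w ∈ fixedBy ρ R ∧ w ≠ 0}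
  have hzp : Subgroup.zpowers y ∈ 𝓡 := by
    refine ⟨?_, ?_, Subgroup.mem_zpowers y, w₀, hw₀, ?_, hw₀0⟩
    · obtain ⟨b, hb⟩ := hyr
      exact IsPGroup.of_card (n := b) (by rw [Nat.card_zpowers, hb])
    · rw [Subgroup.zpowers_le]; exact hyK
    · rw [mem_fixedBy_iff_le_stab, Subgroup.zpowers_le]; exact hyw
  obtain ⟨R, ⟨hRr, hRK, hyR, w₁, hw₁C, hw₁R, hw₁0⟩, hRmax⟩ := Set.exists_max_image 𝓡
    (fun R => Nat.card R) (Set.toFinite _) ⟨_, hzp⟩
  have hRN : R ≤ Subgroup.normalizer (C : Set H) := hRK.trans hKN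
  have hRp : (Nat.card R).Coprime p := by
    obtain ⟨b, hb⟩ := IsPGroup.iff_card.1 hRr
    rw [hb]
    exact Nat.Coprime.pow_left _ ((Nat.coprime_primes hr hp).2 hrp)
  have hfix : ∀ w : V, w ∈ fixedBy ρ (prodSub C R hRN) ↔ w ∈ fixedBy ρ C ∧ w ∈ fixedBy ρ R := by
    intro w
    constructor
    · intro h
      exact ⟨fun c hc => h c (left_le_prodSub C R hRN hc), fun s hs => h s (right_le_prodSub C R hRN hs)⟩
    · rintro ⟨h1, h2⟩ _ ⟨c, hc, s, hs, rfl⟩
      rw [rho_mul_apply, h2 s hs, h1 c hc]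
  refine ⟨prodSub C R hRN, K ⊓ Subgroup.normalizer (R : Set H), ⟨?_, ?_, ?_, ?_⟩,
    left_le_prodSub C R hRN, ?_, inf_le_left, ?_⟩
  · -- normalises
    intro n hn
    obtain ⟨hnK, hnR⟩ := Subgroup.mem_inf.1 hn
    apply Subgroup.mem_normalizer_fintype
    rintro _ ⟨c, hc, s, hs, rfl⟩
    refine ⟨n * c * n⁻¹, (Subgroup.mem_normalizer_iff.1 (hKN hnK) c).1 hc, n * s * n⁻¹,
      (Subgroup.mem_normalizer_iff.1 hnR s).1 hs, by group⟩
  · exact card_prodSub_coprime hp C R hRN hCp hRp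
  · exact ⟨w₁, (hfix w₁).2 ⟨hw₁C, hw₁R⟩, hw₁0⟩
  · intro w hw
    obtain ⟨hwC, hwR⟩ := (hfix w).1 hw
    by_cases hw0 : w = 0
    · exact ⟨1, Subgroup.one_mem _, by rw [hw0, map_zero, smul_zero]⟩
    obtain ⟨h, hhK, hh⟩ := hT w hwC
    have ht0 : t ≠ 0 := by
      rintro rfl
      rw [zero_smul] at hh
      have := rho_inv_apply ρ h w
      rw [hh, map_zero] at this
      exact hw0 this.symm
    let S : Subgroup H := stab ρ w ⊓ K
    have hRS : R ≤ S := le_inf hwR hRK
    -- conjugate of `R`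
    have hconjS : ∀ z ∈ R, h * z * h⁻¹ ∈ S := by
      intro z hz
      refine Subgroup.mem_inf.2 ⟨?_, K.mul_mem (K.mul_mem hhK (hRK hz)) (K.inv_mem hhK)⟩
      have hn := mem_normalizer_stab ρ ht0 hh
      exact (Subgroup.mem_normalizer_iff.1 hn z).1 (hwR z hz)
    have hmaxS : ∀ P : Subgroup S, IsPGroup r P → Nat.card R ≤ Nat.card P → R.subgroupOf S ≤ P →
        R.subgroupOf S = P := by
      intro P hP _ hRP
      have h1 : P.map S.subtype ∈ 𝓡 := by
        refine ⟨hP.map _, ?_, ?_, w, hwC, ?_, hw0⟩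
        · rintro _ ⟨z, _, rfl⟩
          exact (Subgroup.mem_inf.1 z.2).2
        · exact ⟨⟨y, hRS hyR⟩, hRP hyR, rfl⟩
        · rintro _ ⟨z, _, rfl⟩
          exact (Subgroup.mem_inf.1 z.2).1
      have h2 := hRmax _ h1
      have h3 : Nat.card (P.map S.subtype) = Nat.card P :=
        Subgroup.card_map_of_injective S.subtype_injective
      have h4 : Nat.card (R.subgroupOf S) = Nat.card R :=
        Nat.card_congr (Subgroup.subgroupOfEquivOfLe hRS).toEquiv
      apply Subgroup.eq_of_le_of_card_ge hRP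
      rw [h4]
      simpa only [h3] using h2
    let P₁ : Sylow r S := ⟨R.subgroupOf S, by
      have := hRr.comap_subtype (K := S)
      exact this, by
      intro P hP hRP
      have h4 : Nat.card (R.subgroupOf S) = Nat.card R :=
        Nat.card_congr (Subgroup.subgroupOfEquivOfLe hRS).toEquiv
      exact (hmaxS P hP (by rw [← h4]; exact Subgroup.card_le_of_le hRP) hRP).symm⟩
    let Rh : Subgroup H := R.map (MulAut.conj h).toMonoidHom
    have hRhS : Rh ≤ S := by
      rintro _ ⟨z, hz, rfl⟩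
      exact hconjS z hz
    have hRhcard : Nat.card Rh = Nat.card R :=
      Subgroup.card_map_of_injective (MulAut.conj h).injective
    obtain ⟨P₃, hP₃⟩ := ((hRr.map (MulAut.conj h).toMonoidHom).comap_subtype (K := S)).exists_le_sylow
    have hcard3 : Nat.card P₃ = Nat.card P₁ := by
      rw [Sylow.card_eq_multiplicity, Sylow.card_eq_multiplicity]
    have hcard1 : Nat.card P₁ = Nat.card R :=
      Nat.card_congr (Subgroup.subgroupOfEquivOfLe hRS).toEquiv
    have hcard2 : Nat.card (Rh.subgroupOf S) = Nat.card Rh :=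
      Nat.card_congr (Subgroup.subgroupOfEquivOfLe hRhS).toEquiv
    have hP₂ : Rh.subgroupOf S = (P₃ : Subgroup S) := by
      have hP₃' : Rh.subgroupOf S ≤ (P₃ : Subgroup S) := hP₃
      apply Subgroup.eq_of_le_of_card_ge hP₃'
      rw [hcard2, hRhcard, ← hcard1]
      exact hcard3.le
    obtain ⟨s, hs⟩ := MulAction.exists_smul_eq S P₁ P₃
    have hkey : ∀ z ∈ R, ((s : H)⁻¹ * h) * z * ((s : H)⁻¹ * h)⁻¹ ∈ R := by
      intro z hz
      have h1 : (⟨h * z * h⁻¹, hconjS z hz⟩ : S) ∈ (P₃ : Subgroup S) := by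
        rw [← hP₂, Subgroup.mem_subgroupOf]
        exact ⟨z, hz, rfl⟩
      rw [← hs, Sylow.coe_subgroup_smul, Subgroup.mem_pointwise_smul_iff_inv_smul_mem] at h1
      have h2 : (((MulAut.conj s)⁻¹ • (⟨h * z * h⁻¹, hconjS z hz⟩ : S) : S) : H) ∈ R := h1
      have h3 : (((MulAut.conj s)⁻¹ • (⟨h * z * h⁻¹, hconjS z hz⟩ : S) : S) : H)
          = (s : H)⁻¹ * (h * z * h⁻¹) * s := by
        rw [← map_inv, MulAut.smul_def, MulAut.conj_apply, inv_inv]
        rfl
      rw [h3] at h2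
      have h4 : ((s : H)⁻¹ * h) * z * ((s : H)⁻¹ * h)⁻¹ = (s : H)⁻¹ * (h * z * h⁻¹) * s := by group
      rw [h4]
      exact h2
    refine ⟨(s : H)⁻¹ * h, Subgroup.mem_inf.2 ⟨?_, ?_⟩, ?_⟩
    · exact K.mul_mem (K.inv_mem (Subgroup.mem_inf.1 s.2).2) hhK
    · exact Subgroup.mem_normalizer_fintype hkey
    · rw [rho_mul_apply, hh, map_smul]
      congr 1
      have h5 : (s : H)⁻¹ ∈ stab ρ w := (stab ρ w).inv_mem (Subgroup.mem_inf.1 s.2).1
      exact h5
  · rintro L hCL hKL _ ⟨c, hc, s, hs, rfl⟩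
    exact L.mul_mem (hCL hc) (hKL (hRK hs))
  · -- the order increases
    have h1 : C < prodSub C R hRN := by
      refine lt_of_le_of_ne (left_le_prodSub C R hRN) ?_
      intro heq
      apply hyC
      rw [heq]
      exact right_le_prodSub C R hRN hyR
    refine lt_of_le_of_ne (Subgroup.card_le_of_le h1.le) (fun heq => h1.ne ?_)
    exact Subgroup.eq_of_le_of_card_ge h1.le heq.ge

end Step

end Pool.Agent.Lib.MP_3c3661_al
end

section

/-!
Counting vectors in the layers of a filtration.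
-/

set_option autoImplicit false

namespace Pool.Agent.Lib.MP_3c3661_al

section Layer

variable {p : ℕ} [Fact p.Prime] {W : Type*} [AddCommGroup W] [Module (ZMod p) W]
  [Module.Finite (ZMod p) W]

/-- The dimensions of the eigenspaces add up to at most the dimension of the space. -/
lemma sum_finrank_eigenspace_le (T : Module.End (ZMod p) W) (S : Finset (ZMod p)) :
    ∑ a ∈ S, Module.finrank (ZMod p) (T.eigenspace a) ≤ Module.finrank (ZMod p) W := by
  classical
  have key : ∑ a ∈ S, Module.finrank (ZMod p) (T.eigenspace a) =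
      Module.finrank (ZMod p) (⨆ a ∈ S, T.eigenspace a : Submodule (ZMod p) W) := by
    induction S using Finset.induction_on with
    | empty =>
      have h0 : (⨆ a ∈ (∅ : Finset (ZMod p)), T.eigenspace a) = (⊥ : Submodule (ZMod p) W) := by
        simp
      rw [h0]
      simp
    | insert a S ha ih =>
      rw [Finset.sum_insert ha, ih, Finset.iSup_insert]
      have h1 : Disjoint (T.eigenspace a) (⨆ b ∈ S, T.eigenspace b) :=
        T.eigenspaces_iSupIndep.disjoint_biSup (x := a) (y := (S : Set (ZMod p))) (by simpa using ha)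
      have h2 := Submodule.finrank_sup_add_finrank_inf_eq (T.eigenspace a)
        (⨆ b ∈ S, T.eigenspace b)
      rw [h1.eq_bot, finrank_bot, add_zero] at h2
      exact h2.symm
  rw [key]
  exact Submodule.finrank_le _

/-- If all eigenspaces for `t ^ (j ^ k)` have the same dimension then it is at most the dimension
of the space divided by the number of `k`-th powers. -/
lemma powCount_mul_finrank_le (T : Module.End (ZMod p) W) (t : (ZMod p)ˣ) {k m : ℕ}
    (hm : 0 < m) (htm : orderOf t ∣ m)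
    (h : ∀ j : ℕ, j.Coprime m → Module.finrank (ZMod p) (T.eigenspace ((t : ZMod p) ^ (j ^ k))) =
      Module.finrank (ZMod p) (T.eigenspace (t : ZMod p))) :
    powCount k (orderOf t) * Module.finrank (ZMod p) (T.eigenspace (t : ZMod p)) ≤
      Module.finrank (ZMod p) W := by
  classical
  have hpos : 0 < orderOf t := orderOf_pos t
  have hNZ : NeZero (orderOf t) := ⟨hpos.ne'⟩
  have hcast : ∀ (j : ℕ) (u : (ZMod (orderOf t))ˣ), (j : ZMod (orderOf t)) = u →
      t ^ (u : ZMod (orderOf t)).val = t ^ j := by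
    intro j u hju
    rw [← hju, ZMod.val_natCast, pow_mod_orderOf]
  -- the eigenvalues
  let R := (powMonoidHom k : (ZMod (orderOf t))ˣ →* (ZMod (orderOf t))ˣ).range
  let f : R → ZMod p := fun u => ((t ^ ((u : (ZMod (orderOf t))ˣ) : ZMod (orderOf t)).val : (ZMod p)ˣ) : ZMod p)
  have hf : Function.Injective f := by
    intro u v huv
    have h1 : t ^ ((u : (ZMod (orderOf t))ˣ) : ZMod (orderOf t)).val =
        t ^ ((v : (ZMod (orderOf t))ˣ) : ZMod (orderOf t)).val := Units.ext huv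
    rw [pow_inj_mod, Nat.mod_eq_of_lt (ZMod.val_lt _), Nat.mod_eq_of_lt (ZMod.val_lt _)] at h1
    exact Subtype.ext (Units.ext (ZMod.val_injective _ h1))
  have : Fintype R := Fintype.ofFinite R
  have h1 := sum_finrank_eigenspace_le T (Finset.univ.image f)
  rw [Finset.sum_image (fun a _ b _ hab => hf hab)] at h1
  have h2 : ∀ u : R, Module.finrank (ZMod p) (T.eigenspace (f u)) =
      Module.finrank (ZMod p) (T.eigenspace (t : ZMod p)) := by
    rintro ⟨u, v, hv⟩
    obtain ⟨j, hj, hju⟩ := exists_coprime_lift hm htm v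
    have h3 : ((j ^ k : ℕ) : ZMod (orderOf t)) = u := by
      rw [← hv]
      push_cast
      rw [hju]
      simp
    have h4 : f ⟨u, v, hv⟩ = (t : ZMod p) ^ (j ^ k) := by
      show ((t ^ (u : ZMod (orderOf t)).val : (ZMod p)ˣ) : ZMod p) = _
      rw [hcast (j ^ k) u h3]
      push_cast
      rfl
    rw [h4]
    exact h j hj
  rw [Finset.sum_congr rfl (fun u _ => h2 u), Finset.sum_const, smul_eq_mul, Finset.card_univ,
    ← Nat.card_eq_fintype_card] at h1
  exact h1

/-- dimension of an inverse image -/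
lemma finrank_comap_le (A : W →ₗ[ZMod p] W) (F : Submodule (ZMod p) W) :
    Module.finrank (ZMod p) (F.comap A) ≤
      Module.finrank (ZMod p) F + Module.finrank (ZMod p) (LinearMap.ker A) := by
  let B : F.comap A →ₗ[ZMod p] F := A.restrict (p := F.comap A) (q := F) (fun x hx => hx)
  have h1 := LinearMap.finrank_range_add_finrank_ker B
  have h2 : Module.finrank (ZMod p) (LinearMap.range B) ≤ Module.finrank (ZMod p) F :=
    Submodule.finrank_le _
  have h3 : Module.finrank (ZMod p) (LinearMap.ker B) ≤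
      Module.finrank (ZMod p) (LinearMap.ker A) := by
    let g : LinearMap.ker B →ₗ[ZMod p] LinearMap.ker A :=
      LinearMap.codRestrict (LinearMap.ker A)
        ((F.comap A).subtype ∘ₗ (LinearMap.ker B).subtype) (fun x => by
          rw [LinearMap.mem_ker]
          have h4 := LinearMap.mem_ker.1 x.2
          exact congrArg Subtype.val h4)
    refine LinearMap.finrank_le_finrank_of_injective (f := g) ?_
    intro x y hxy
    have h5 : ((g x : LinearMap.ker A) : W) = ((g y : LinearMap.ker A) : W) := by rw [hxy]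
    exact Subtype.ext (Subtype.ext h5)
  omega

/-- **The layer lemma.** If every vector of `F` is multiplied by `t` by a good element of `Q`, and
the subgroup `U` acts trivially on `F / F'`, then `|F / F'|` is at most the index of `U` times the
largest size of an eigenspace of a good element. -/
theorem layer_count (Q : Subgroup (Module.End (ZMod p) W)ˣ) [Finite Q] (U : Subgroup Q)
    (good : Q → Prop) (t : (ZMod p)ˣ) (F F' : Submodule (ZMod p) W) {s : ℕ}
    (hU : ∀ u ∈ U, ∀ w ∈ F,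
      (((u : Q) : (Module.End (ZMod p) W)ˣ) : Module.End (ZMod p) W) w - w ∈ F')
    (hgood : ∀ q : Q, good q → Module.finrank (ZMod p) (Module.End.eigenspace
      ((q : (Module.End (ZMod p) W)ˣ) : Module.End (ZMod p) W) (t : ZMod p)) ≤ s)
    (hcov : ∀ w ∈ F, ∃ q : Q, good q ∧
      ((q : (Module.End (ZMod p) W)ˣ) : Module.End (ZMod p) W) w = (t : ZMod p) • w) :
    p ^ Module.finrank (ZMod p) F ≤ U.index * p ^ (Module.finrank (ZMod p) F' + s) := by
  classical
  have hp : p.Prime := Fact.out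
  -- representatives of the cosets
  let A : Q → (W →ₗ[ZMod p] W) := fun q =>
    (t : ZMod p) • (((q⁻¹ : Q) : (Module.End (ZMod p) W)ˣ) : Module.End (ZMod p) W) - 1
  have hker : ∀ q, good q → Module.finrank (ZMod p) (LinearMap.ker (A q)) ≤ s := by
    intro q hq
    refine le_trans ?_ (hgood q hq)
    apply Submodule.finrank_mono
    intro w hw
    rw [Module.End.mem_eigenspace_iff]
    have h1 : (t : ZMod p) • ((((q⁻¹ : Q) : (Module.End (ZMod p) W)ˣ) : Module.End (ZMod p) W) w) -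
        w = 0 := LinearMap.mem_ker.1 hw
    rw [sub_eq_zero] at h1
    have h2 : ((q : (Module.End (ZMod p) W)ˣ) : Module.End (ZMod p) W)
        ((((q⁻¹ : Q) : (Module.End (ZMod p) W)ˣ) : Module.End (ZMod p) W) w) = w := by
      rw [← Module.End.mul_apply, ← Units.val_mul, ← Subgroup.coe_mul, mul_inv_cancel]
      rfl
    conv_lhs => rw [← h1]
    rw [map_smul, h2]
  choose! qf hqf1 hqf2 using hcov
  let rep : Q ⧸ U → Q := fun c =>
    if h : ∃ q : Q, good q ∧ (QuotientGroup.mk q : Q ⧸ U) = c then h.choose else 1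
  have hrep : ∀ q : Q, good q → good (rep (QuotientGroup.mk q)) ∧
      (QuotientGroup.mk (rep (QuotientGroup.mk q)) : Q ⧸ U) = QuotientGroup.mk q := by
    intro q hq
    have h : ∃ q' : Q, good q' ∧ (QuotientGroup.mk q' : Q ⧸ U) = QuotientGroup.mk q := ⟨q, hq, rfl⟩
    have h1 : rep (QuotientGroup.mk q) = h.choose := dif_pos h
    rw [h1]
    exact h.choose_spec
  let S : Q ⧸ U → Submodule (ZMod p) W := fun c =>
    if good (rep c) then F'.comap (A (rep c)) else ⊥
  have hS : ∀ c, Module.finrank (ZMod p) (S c) ≤ Module.finrank (ZMod p) F' + s := by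
    intro c
    by_cases h : good (rep c)
    · have h1 : S c = F'.comap (A (rep c)) := if_pos h
      rw [h1]
      exact (finrank_comap_le _ _).trans (Nat.add_le_add_left (hker _ h) _)
    · have h1 : S c = ⊥ := if_neg h
      rw [h1, finrank_bot]
      exact Nat.zero_le _
  have hmem : ∀ w ∈ F, w ∈ S (QuotientGroup.mk (qf w)) := by
    intro w hw
    obtain ⟨h1, h2⟩ := hrep (qf w) (hqf1 w hw)
    have h3 : S (QuotientGroup.mk (qf w)) = F'.comap (A (rep (QuotientGroup.mk (qf w)))) := if_pos h1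
    rw [h3, Submodule.mem_comap]
    set q₀ := rep (QuotientGroup.mk (qf w)) with hq₀
    have h4 : q₀⁻¹ * qf w ∈ U := QuotientGroup.eq.1 h2
    have h5 := hU _ h4 w hw
    have h6 : (((q₀⁻¹ * qf w : Q) : (Module.End (ZMod p) W)ˣ) : Module.End (ZMod p) W) w =
        (t : ZMod p) • (((q₀⁻¹ : Q) : (Module.End (ZMod p) W)ˣ) : Module.End (ZMod p) W) w := by
      rw [Subgroup.coe_mul, Units.val_mul, Module.End.mul_apply, hqf2 w hw, map_smul]
    rw [h6] at h5
    exact h5
  -- counting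
  have hWfin : Finite W := Module.finite_of_finite (ZMod p)
  have hinj : Function.Injective (fun w : F =>
      (⟨QuotientGroup.mk (qf (w : W)), ⟨(w : W), hmem w w.2⟩⟩ : Σ c : Q ⧸ U, S c)) := by
    intro w w' h
    have h1 := congrArg (fun z : (Σ c : Q ⧸ U, S c) => (z.2 : W)) h
    exact Subtype.ext h1
  have : Fintype (Q ⧸ U) := Fintype.ofFinite _
  have h1 := Nat.card_le_card_of_injective _ hinj
  rw [Nat.card_sigma, Module.natCard_eq_pow_finrank (K := ZMod p), Nat.card_zmod] at h1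
  have h2 : ∑ c : Q ⧸ U, Nat.card (S c) ≤ ∑ c : Q ⧸ U, p ^ (Module.finrank (ZMod p) F' + s) := by
    apply Finset.sum_le_sum
    intro c _
    rw [Module.natCard_eq_pow_finrank (K := ZMod p), Nat.card_zmod]
    exact Nat.pow_le_pow_right hp.pos (hS c)
  rw [Finset.sum_const, Finset.card_univ, smul_eq_mul, ← Nat.card_eq_fintype_card] at h2
  exact h1.trans h2

/-- Multiplying the layers together. -/
theorem layers_count (Q : Subgroup (Module.End (ZMod p) W)ˣ) [Finite Q] (U : Subgroup Q)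
    (good : Q → Prop) (t : (ZMod p)ˣ) (F : ℕ → Submodule (ZMod p) W) {s c : ℕ}
    (hU : ∀ i, ∀ u ∈ U, ∀ w ∈ F i,
      (((u : Q) : (Module.End (ZMod p) W)ˣ) : Module.End (ZMod p) W) w - w ∈ F (i + 1))
    (hgood : ∀ q : Q, good q → Module.finrank (ZMod p) (Module.End.eigenspace
      ((q : (Module.End (ZMod p) W)ˣ) : Module.End (ZMod p) W) (t : ZMod p)) ≤ s)
    (hcov : ∀ w : W, ∃ q : Q, good q ∧
      ((q : (Module.End (ZMod p) W)ˣ) : Module.End (ZMod p) W) w = (t : ZMod p) • w)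
    (h0 : F 0 = ⊤) (hc : F c = ⊥) :
    p ^ Module.finrank (ZMod p) W ≤ (U.index * p ^ s) ^ c := by
  have key : ∀ i, p ^ Module.finrank (ZMod p) W ≤
      (U.index * p ^ s) ^ i * p ^ Module.finrank (ZMod p) (F i) := by
    intro i
    induction i with
    | zero => rw [h0, pow_zero, one_mul, finrank_top]
    | succ i ih =>
      refine ih.trans ?_
      have h1 := layer_count Q U good t (F i) (F (i + 1)) (hU i) hgood (fun w _ => hcov w)
      calc (U.index * p ^ s) ^ i * p ^ Module.finrank (ZMod p) (F i)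
          ≤ (U.index * p ^ s) ^ i *
            (U.index * p ^ (Module.finrank (ZMod p) (F (i + 1)) + s)) :=
            Nat.mul_le_mul_left _ h1
        _ = (U.index * p ^ s) ^ (i + 1) * p ^ Module.finrank (ZMod p) (F (i + 1)) := by
            rw [pow_add, pow_succ]
            ring
  have h1 := key c
  rw [hc, finrank_bot, pow_zero, mul_one] at h1
  exact h1

end Layer

end Pool.Agent.Lib.MP_3c3661_al
end

section

/-!
The local structure: from a good pair to a maximal one, and the bound by a short filtration.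
-/

set_option autoImplicit false

namespace Pool.Agent.Lib.MP_3c3661_al

section Core

variable {p : ℕ} [Fact p.Prime] {H : Type*} [Group H] {V : Type*} [AddCommGroup V]
  [Module (ZMod p) V] (ρ : H →* (V →ₗ[ZMod p] V)) [Finite H] [Module.Finite (ZMod p) V]

/-- **The local theorem.** Every good pair `(C₀, K₀)` leads to a good pair `(C, K)` below it with
the following property: with `n` the dimension of the fixed space of `C`, for every subgroup `R₀`
of `K` which acts trivially on the layers of a filtration of length `c` of that fixed space,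
`p ^ n` is at most the `c`-th power of (index of `R₀` in a Sylow `p`-subgroup of `K`) times
`lcm (1, ..., 4 k n) ^ 2 * p ^ (n / φ)`. -/
theorem exists_local {k m : ℕ} (hk : 0 < k) (hm : 0 < m)
    (hcard : Nat.card H ∣ m)
    (hconj : ∀ j : ℕ, j.Coprime m → ∀ h : H, ∃ g : H, g * h * g⁻¹ = h ^ (j ^ k))
    (t : (ZMod p)ˣ) (htm : orderOf t ∣ m) {C₀ K₀ : Subgroup H}
    (hCK₀ : GoodPair ρ (t : ZMod p) C₀ K₀) (hC₀ : C₀ ≤ K₀) :
    ∃ C K : Subgroup H, C₀ ≤ C ∧ C ≤ K₀ ∧ K ≤ K₀ ∧ GoodPair ρ (t : ZMod p) C K ∧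
      powCount k (orderOf t) ≤ Module.finrank (ZMod p) (fixedBy ρ C) ∧
      ∀ (R : Sylow p K) (R₀ : Subgroup K) (F : ℕ → Submodule (ZMod p) V) (c : ℕ),
        fixedBy ρ C ≤ F 0 → fixedBy ρ C ⊓ F c = ⊥ →
        (∀ i, ∀ y ∈ R₀, ∀ v ∈ fixedBy ρ C ⊓ F i, ρ (y : H) v - v ∈ F (i + 1)) →
        p ^ Module.finrank (ZMod p) (fixedBy ρ C) ≤
          (R₀.relIndex (R : Subgroup K) *
            (Nat.lcmUpto (4 * k * Module.finrank (ZMod p) (fixedBy ρ C))) ^ 2 *
            p ^ (Module.finrank (ZMod p) (fixedBy ρ C) / powCount k (orderOf t))) ^ c := by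
  classical
  have hp : p.Prime := Fact.out
  -- maximal good pair
  obtain ⟨⟨C, K⟩, ⟨hCK, hC₀C, hCK₀', hKK₀⟩, hmax⟩ := Set.exists_max_image
    {P : Subgroup H × Subgroup H | GoodPair ρ (t : ZMod p) P.1 P.2 ∧ C₀ ≤ P.1 ∧ P.1 ≤ K₀ ∧
      P.2 ≤ K₀}
    (fun P => Nat.card P.1) (Set.toFinite _) ⟨(C₀, K₀), hCK₀, le_rfl, hC₀, le_rfl⟩
  simp only at hCK hC₀C hCK₀' hKK₀ hmax
  refine ⟨C, K, hC₀C, hCK₀', hKK₀, hCK, ?_⟩
  have hCK' : GoodPair ρ (t : ZMod p) C K := hCK
  obtain ⟨hKN, hCp, ⟨w₀, hw₀, hw₀0⟩, hTK⟩ := hCK'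
  have hNontriv : Nontrivial (fixedBy ρ C) := ⟨⟨⟨w₀, hw₀⟩, 0, fun h => hw₀0 (congrArg Subtype.val h)⟩⟩
  -- elements of prime power order of `K` act freely or trivially
  have hfreeK : ∀ r : ℕ, r.Prime → r ≠ p → ∀ y ∈ K, (∃ b, orderOf y = r ^ b) →
      ∀ w ∈ fixedBy ρ C, w ≠ 0 → ρ y w = w → y ∈ C := by
    intro r hr hrp y hyK hyr w hw hw0 hyw
    by_contra hyC
    obtain ⟨C', K', hgood, h1, h2, h3, hlt⟩ := GoodPair.step2 ρ hCK hr hrp hyK hyr hyC hw hw0 hyw
    exact absurd hlt (not_lt.2 (hmax (C', K') ⟨hgood, hC₀C.trans h1, h2 K₀ hCK₀' hKK₀,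
      h3.trans hKK₀⟩))
  -- the acting group
  let τ : K →* (Module.End (ZMod p) (fixedBy ρ C))ˣ :=
    ((actHom ρ C).comp (Subgroup.inclusion hKN)).toHomUnits
  let Q : Subgroup (Module.End (ZMod p) (fixedBy ρ C))ˣ := τ.range
  have hQfin : Finite Q := Finite.of_surjective τ.rangeRestrict τ.rangeRestrict_surjective
  have hQdvd : Nat.card Q ∣ Nat.card H :=
    (Subgroup.card_range_dvd τ).trans (Subgroup.card_subgroup_dvd_card K)
  have hQfree : ∀ r : ℕ, r.Prime → r ≠ p → ∀ y₀ : K, (∃ b, orderOf (τ y₀) = r ^ b) →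
      ∀ w : fixedBy ρ C, w ≠ 0 →
      ((τ y₀ : (Module.End (ZMod p) (fixedBy ρ C))ˣ) : Module.End (ZMod p) (fixedBy ρ C)) w = w →
      τ y₀ = 1 := by
    rintro r hr hrp y₀ ⟨b, hb⟩ w hw h
    obtain ⟨y, hy1, -, hy3⟩ := exists_lift_orderOf τ y₀
    have hyr : ∃ b, orderOf (y : H) = r ^ b := by
      rw [Subgroup.orderOf_coe]
      refine ⟨_, Nat.eq_prime_pow_of_unique_prime_dvd (orderOf_pos y).ne' (p := r) ?_⟩
      intro d hd hdy
      have h1 := hy3 d hd hdy
      rw [hb] at h1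
      exact (Nat.prime_dvd_prime_iff_eq hd hr).1 (hd.dvd_of_dvd_pow h1)
    rw [← hy1] at h ⊢
    have h2 : ρ (y : H) (w : V) = w := congrArg Subtype.val h
    have h3 := hfreeK r hr hrp y y.2 hyr w w.2 (fun h => hw (Subtype.ext h)) h2
    apply Units.ext
    ext u
    exact u.2 (y : H) h3
  -- realising the scalar by `p'`-elements
  have hscal : ∀ w : fixedBy ρ C, ∃ x : K, (orderOf (x : H)).Coprime p ∧
      actHom ρ C (Subgroup.inclusion hKN x) w = (t : ZMod p) • w := by
    intro w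
    by_cases hw : w = 0
    · exact ⟨1, by simp, by rw [hw, map_zero, smul_zero]⟩
    have hw' : (w : V) ≠ 0 := fun h => hw (Subtype.ext h)
    obtain ⟨h, hhK, hh⟩ := hTK w w.2
    obtain ⟨c, hc1, hc2⟩ := exists_pprime_scalar ρ hw' hh
    exact ⟨⟨h ^ c, K.pow_mem hhK c⟩, hc1, Subtype.ext hc2⟩
  set n := Module.finrank (ZMod p) (fixedBy ρ C) with hn
  have hnpos : 0 < n := Module.finrank_pos
  -- eigenspaces of `p'`-elements
  have heig0 : ∀ x : K, (orderOf (x : H)).Coprime p →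
      Module.End.eigenspace (actHom ρ C (Subgroup.inclusion hKN x)) (t : ZMod p) ≠ ⊥ →
      ∀ j : ℕ, j.Coprime m → Module.finrank (ZMod p)
        (Module.End.eigenspace (actHom ρ C (Subgroup.inclusion hKN x)) ((t : ZMod p) ^ (j ^ k))) =
      Module.finrank (ZMod p)
        (Module.End.eigenspace (actHom ρ C (Subgroup.inclusion hKN x)) (t : ZMod p)) := by
    intro x hx hne j hj
    obtain ⟨w, hwE, hw0⟩ := Submodule.exists_mem_ne_zero_of_ne_bot hne
    have h1 : ρ (x : H) (w : V) = (t : ZMod p) • (w : V) :=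
      congrArg Subtype.val (Module.End.mem_eigenspace_iff.1 hwE)
    have h2 := pow_eq_one_of_smul ρ (fun h => hw0 (Subtype.ext h)) h1
    have hJ : (j ^ k).Coprime (Nat.card H) :=
      (Nat.Coprime.coprime_dvd_right hcard hj).pow_left k
    exact finrank_eigenspace_eq' ρ C hCp (Subgroup.inclusion hKN x) hx t h2 hJ (hconj j hj)
  -- the dimensions of the eigenspaces
  set φ := powCount k (orderOf t) with hφdef
  have hφpos : 0 < φ := Nat.card_pos
  have heig : ∀ x : K, (orderOf (x : H)).Coprime p → Module.finrank (ZMod p)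
      (Module.End.eigenspace (actHom ρ C (Subgroup.inclusion hKN x)) (t : ZMod p)) ≤ n / φ := by
    intro x hx
    by_cases hne : Module.End.eigenspace (actHom ρ C (Subgroup.inclusion hKN x)) (t : ZMod p) = ⊥
    · rw [hne, finrank_bot]; exact Nat.zero_le _
    · rw [Nat.le_div_iff_mul_le hφpos, mul_comm]
      exact powCount_mul_finrank_le _ t hm htm (heig0 x hx hne)
  -- the dimension is at least the number of `k`-th powers
  have hφn : φ ≤ n := by
    obtain ⟨x, hx, hxw⟩ := hscal ⟨w₀, hw₀⟩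
    have hw₀' : (⟨w₀, hw₀⟩ : fixedBy ρ C) ≠ 0 := fun h => hw₀0 (congrArg Subtype.val h)
    have hne : Module.End.eigenspace (actHom ρ C (Subgroup.inclusion hKN x)) (t : ZMod p) ≠ ⊥ := by
      intro h0
      have h1 : (⟨w₀, hw₀⟩ : fixedBy ρ C) ∈
        Module.End.eigenspace (actHom ρ C (Subgroup.inclusion hKN x)) (t : ZMod p) :=
        Module.End.mem_eigenspace_iff.2 hxw
      rw [h0] at h1
      exact hw₀' ((Submodule.mem_bot _).1 h1)
    apply powCount_le_of_hasEigenvalue (actHom ρ C (Subgroup.inclusion hKN x)) t hm htm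
    intro j hj
    have h2 := heig0 x hx hne j hj
    have h3 : 0 < Module.finrank (ZMod p)
        (Module.End.eigenspace (actHom ρ C (Subgroup.inclusion hKN x)) (t : ZMod p)) := by
      have : Nontrivial (Module.End.eigenspace (actHom ρ C (Subgroup.inclusion hKN x))
        (t : ZMod p)) := (Submodule.nontrivial_iff_ne_bot).2 hne
      exact Module.finrank_pos
    intro h0
    have h0' : Module.End.eigenspace (actHom ρ C (Subgroup.inclusion hKN x))
      ((t : ZMod p) ^ (j ^ k)) = ⊥ := h0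
    rw [← h2, h0', finrank_bot] at h3
    exact lt_irrefl _ h3
  refine ⟨hφn, ?_⟩
  intro R R₀ F c hF0 hFc hF
  let τ' : K →* Q := τ.rangeRestrict
  have hτ' : Function.Surjective τ' := τ.rangeRestrict_surjective
  let U : Subgroup Q := (R₀ ⊓ (R : Subgroup K)).map τ'
  let SQ : Sylow p Q := R.mapSurjective hτ'
  have hSQ : (SQ : Subgroup Q) = (R : Subgroup K).map τ' := Sylow.coe_mapSurjective hτ' R
  have hUle : U ≤ (SQ : Subgroup Q) := by
    rw [hSQ]
    exact Subgroup.map_mono inf_le_right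
  have hUrel : U.relIndex (SQ : Subgroup Q) ≤ R₀.relIndex (R : Subgroup K) := by
    rw [hSQ, ← Subgroup.relIndex_comap, ← Subgroup.inf_relIndex_right R₀]
    exact Subgroup.relIndex_le_of_le_left (Subgroup.le_comap_map τ' (R₀ ⊓ (R : Subgroup K)))
      (Subgroup.index_ne_zero_of_finite (H := (R₀ ⊓ (R : Subgroup K)).subgroupOf (R : Subgroup K)))
  -- the filtration
  have hcount : p ^ n ≤ (U.index * p ^ (n / φ)) ^ c := by
    refine layers_count Q U (fun q => ∃ x : K, (orderOf (x : H)).Coprime p ∧ τ' x = q) t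
      (fun i => (F i).comap (fixedBy ρ C).subtype) ?_ ?_ ?_ ?_ ?_
    · rintro i _ ⟨y, hy, rfl⟩ w hw
      rw [Submodule.mem_comap]
      exact hF i y hy.1 (w : V) ⟨w.2, hw⟩
    · rintro _ ⟨x, hx, rfl⟩
      exact heig x hx
    · intro w
      obtain ⟨x, hx, hxw⟩ := hscal w
      exact ⟨τ' x, ⟨x, hx, rfl⟩, hxw⟩
    · show (F 0).comap (fixedBy ρ C).subtype = ⊤
      rw [eq_top_iff]
      intro w _
      exact hF0 w.2
    · show (F c).comap (fixedBy ρ C).subtype = ⊥
      rw [eq_bot_iff]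
      intro w hw
      have h1 : (w : V) ∈ fixedBy ρ C ⊓ F c := ⟨w.2, hw⟩
      rw [hFc, Submodule.mem_bot] at h1
      exact (Submodule.mem_bot _).2 (Subtype.ext h1)
  -- the order of `Q`
  have hQ0 : Nat.card Q ≠ 0 := Nat.card_pos.ne'
  have hQp' : Nat.card Q / p ^ (Nat.card Q).factorization p ≤ (Nat.lcmUpto (4 * k * n)) ^ 2 := by
    have hN0 : Nat.card Q / p ^ (Nat.card Q).factorization p ≠ 0 := by
      intro h0
      have := Nat.ordProj_mul_ordCompl_eq_self (Nat.card Q) p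
      rw [h0, mul_zero] at this
      exact hQ0 this.symm
    apply le_lcmUpto_sq hN0
    intro r hr hrQ
    have hrp : r ≠ p := by
      rintro rfl
      exact (hr.coprime_iff_not_dvd.1 (Nat.coprime_ordCompl hr hQ0)) hrQ
    have hfac : (Nat.card Q / p ^ (Nat.card Q).factorization p).factorization r =
        (Nat.card Q).factorization r := by
      rw [Nat.factorization_ordCompl, Finsupp.erase_ne hrp]
    rw [hfac]
    have : Fact r.Prime := ⟨hr⟩
    obtain ⟨P⟩ : Nonempty (Sylow r Q) := inferInstance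
    have hPfree : ∀ q : P, ∀ w : fixedBy ρ C, w ≠ 0 →
        (((q : Q) : (Module.End (ZMod p) (fixedBy ρ C))ˣ) : Module.End (ZMod p) (fixedBy ρ C)) w = w →
        q = 1 := by
      intro q w hw h
      obtain ⟨b, hb⟩ := (IsPGroup.iff_orderOf.1 P.isPGroup') q
      obtain ⟨y, hy⟩ := (q : Q).2
      have h1 : orderOf (τ y) = r ^ b := by
        rw [hy, ← hb, Subgroup.orderOf_coe, Subgroup.orderOf_coe]
      have h2 := hQfree r hr hrp y ⟨b, h1⟩ w hw (by rw [hy]; exact h)
      apply Subtype.ext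
      apply Subtype.ext
      rw [← hy, h2]; rfl
    have hcyc : ∀ A : Subgroup P, IsMulCommutative A → IsCyclic A := by
      intro A hA
      let cA : CommGroup A := { (inferInstance : Group A) with mul_comm := hA.1.1 }
      let σ : A →* (fixedBy ρ C →ₗ[ZMod p] fixedBy ρ C) :=
        { toFun := fun a => (((a : P) : Q) : (Module.End (ZMod p) (fixedBy ρ C))ˣ).val
          map_one' := rfl
          map_mul' := fun a b => rfl }
      exact isCyclic_of_free σ (fun a w hw h => by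
        have := hPfree (a : P) w hw h
        apply Subtype.ext
        exact this)
    obtain ⟨x, hx⟩ := exists_large_cyclic P.isPGroup' hcyc
    obtain ⟨b, hb⟩ := (IsPGroup.iff_orderOf.1 P.isPGroup') x
    refine ⟨b, ?_, ?_⟩
    · -- the eigenvalue count
      obtain ⟨y₀, hy₀⟩ := (x : Q).2
      have hord0 : orderOf (τ y₀) = r ^ b := by
        rw [hy₀, ← hb, Subgroup.orderOf_coe, Subgroup.orderOf_coe]
      obtain ⟨y, hy1, -, hy3⟩ := exists_lift_orderOf τ y₀
      have hord : orderOf (τ y) = r ^ b := by rw [hy1, hord0]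
      have hyr : ∀ d : ℕ, d.Prime → d ∣ orderOf (y : H) → d = r := by
        intro d hd hdy
        rw [Subgroup.orderOf_coe] at hdy
        have h1 := hy3 d hd hdy
        rw [hord0] at h1
        exact (Nat.prime_dvd_prime_iff_eq hd hr).1 (hd.dvd_of_dvd_pow h1)
      have hyp : (orderOf (y : H)).Coprime p := by
        rw [Nat.coprime_comm, hp.coprime_iff_not_dvd]
        intro hdvd
        exact hrp (hyr p hp hdvd).symm
      have he' : r ^ b ∣ orderOf ((Subgroup.inclusion hKN y : Subgroup.normalizer (C : Set H)) : H) := by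
        rw [← hord, Subgroup.coe_inclusion, Subgroup.orderOf_coe]
        exact orderOf_map_dvd τ y
      have hTe : (actHom ρ C (Subgroup.inclusion hKN y)) ^ (r ^ b) = 1 := by
        have h1 : (τ y) ^ (r ^ b) = 1 := by rw [← hord]; exact pow_orderOf_eq_one (τ y)
        have h2 := congrArg Units.val h1
        exact h2
      have hpc := powCount_bound' ρ hm hcard hconj C hCp (Subgroup.inclusion hKN y) hyp
        (Nat.pow_pos hr.pos) he' hTe (by
        intro i hi hie w hw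
        by_contra hne
        have hri : ∃ c, orderOf (τ (y ^ i)) = r ^ c := by
          rw [map_pow]
          have h4 : orderOf ((τ y) ^ i) ∣ r ^ b := by
            rw [← hord]; exact orderOf_pow_dvd i
          obtain ⟨c, -, hc⟩ := (Nat.dvd_prime_pow hr).1 h4
          exact ⟨c, hc⟩
        have h1 := hQfree r hr hrp (y ^ i) hri w hne (by rw [map_pow]; exact hw)
        rw [map_pow] at h1
        have h3 := orderOf_dvd_of_pow_eq_one h1
        rw [hord] at h3
        exact absurd (Nat.le_of_dvd hi h3) (by omega))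
      calc r ^ b ≤ 4 * k * powCount k (r ^ b) := le_powCount hk hr b
        _ ≤ 4 * k * n := Nat.mul_le_mul_left _ hpc
    · rw [← Sylow.card_eq_multiplicity P, ← hb]
      exact hx
  have hSQi : (SQ : Subgroup Q).index = Nat.card Q / p ^ (Nat.card Q).factorization p := by
    rw [← Sylow.card_eq_multiplicity SQ]
    have h1 := (SQ : Subgroup Q).index_mul_card
    rw [← h1]
    exact (Nat.mul_div_cancel _ Nat.card_pos).symm
  have hUi : U.index ≤ R₀.relIndex (R : Subgroup K) * (Nat.lcmUpto (4 * k * n)) ^ 2 := by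
    rw [← Subgroup.relIndex_mul_index hUle, hSQi]
    exact Nat.mul_le_mul hUrel hQp'
  exact hcount.trans (Nat.pow_le_pow_left (Nat.mul_le_mul_right _ hUi) c)

end Core

end Pool.Agent.Lib.MP_3c3661_al
end

section

/-!
The bound for modules with permuted blocks.
-/

set_option autoImplicit false

open scoped Pointwise

namespace Pool.Agent.Lib.MP_3c3661_al

/-- Final combination of the estimates. -/
theorem final_bound4 {p n k c e b φ s : ℕ}
    (h1 : p ^ n ≤ (p ^ e * (Nat.lcmUpto (4 * k * n)) ^ 2 * p ^ s) ^ c) (hp : 0 < p) (hφ : φ ≤ n)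
    (hs : φ * s ≤ b * n) (hn : 0 < n) :
    p ^ (2 * φ) ≤ 2 ^ (125 * k * c * φ) * p ^ (2 * c * (e + b)) := by
  have h3 : (p ^ n) ^ 2 ≤ (p ^ (2 * (e + s)) * 2 ^ (125 * k * n)) ^ c := by
    calc (p ^ n) ^ 2 ≤ ((p ^ e * (Nat.lcmUpto (4 * k * n)) ^ 2 * p ^ s) ^ c) ^ 2 :=
          Nat.pow_le_pow_left h1 2
      _ = (p ^ (2 * (e + s)) * (Nat.lcmUpto (4 * k * n)) ^ 4) ^ c := by
          rw [← pow_mul, mul_comm c 2, pow_mul]
          congr 1
          rw [mul_add, pow_add]
          ring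
      _ ≤ (p ^ (2 * (e + s)) * 2 ^ (125 * k * n)) ^ c :=
          Nat.pow_le_pow_left (Nat.mul_le_mul_left _ lcmUpto_pow_le) c
  have h4 : (p ^ (2 * φ)) ^ n ≤ (2 ^ (125 * k * c * φ) * p ^ (2 * c * (e + b))) ^ n := by
    calc (p ^ (2 * φ)) ^ n = ((p ^ n) ^ 2) ^ φ := by
          rw [← pow_mul, ← pow_mul, ← pow_mul]; congr 1; ring
      _ ≤ ((p ^ (2 * (e + s)) * 2 ^ (125 * k * n)) ^ c) ^ φ := Nat.pow_le_pow_left h3 φ
      _ = p ^ (2 * c * (φ * (e + s))) * 2 ^ (125 * k * c * φ * n) := by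
          rw [← pow_mul, mul_pow, ← pow_mul, ← pow_mul]
          congr 2 <;> ring
      _ ≤ p ^ (2 * c * ((e + b) * n)) * 2 ^ (125 * k * c * φ * n) := by
          apply Nat.mul_le_mul_right
          apply Nat.pow_le_pow_right hp
          apply Nat.mul_le_mul_left
          have h5 : φ * e ≤ n * e := Nat.mul_le_mul_right e hφ
          calc φ * (e + s) = φ * e + φ * s := by ring
            _ ≤ n * e + b * n := Nat.add_le_add h5 hs
            _ = (e + b) * n := by ring
      _ = (2 ^ (125 * k * c * φ) * p ^ (2 * c * (e + b))) ^ n := by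
          rw [mul_pow, ← pow_mul, ← pow_mul, mul_comm]
          congr 2
          ring
  exact (Nat.pow_le_pow_iff_left hn.ne').1 h4

lemma powCount_le_self {k N : ℕ} (hN : 0 < N) : powCount k N ≤ N := by
  have : NeZero N := ⟨hN.ne'⟩
  have h1 : powCount k N ≤ Nat.card (ZMod N)ˣ := by
    unfold powCount
    exact Nat.card_le_card_of_injective _ Subtype.val_injective
  have h2 : Nat.card (ZMod N)ˣ ≤ Nat.card (ZMod N) :=
    Nat.card_le_card_of_injective _ Units.val_injective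
  rw [Nat.card_zmod] at h2
  exact h1.trans h2

section Block

variable {p : ℕ} [Fact p.Prime] {H : Type*} [Group H] {V : Type*} [AddCommGroup V]
  [Module (ZMod p) V] (ρ : H →* (V →ₗ[ZMod p] V))

lemma map_rho_map (X : Submodule (ZMod p) V) (a b : H) :
    (X.map (ρ a)).map (ρ b) = X.map (ρ (b * a)) := by
  rw [← Submodule.map_comp, map_mul]
  rfl

lemma map_rho_one (X : Submodule (ZMod p) V) : X.map (ρ 1) = X := by
  rw [map_one]
  exact Submodule.map_id X

/-- the action on a stable set of submodules -/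
@[reducible] def setAct {K₀ : Subgroup H} {𝓧 : Set (Submodule (ZMod p) V)}
    (hX : ∀ g ∈ K₀, ∀ X ∈ 𝓧, X.map (ρ g) ∈ 𝓧) : MulAction K₀ 𝓧 where
  smul g X := ⟨X.1.map (ρ g), hX g g.2 X X.2⟩
  one_smul X := Subtype.ext (map_rho_one ρ X.1)
  mul_smul g h X := Subtype.ext (map_rho_map ρ X.1 (h : H) (g : H)).symm

variable [Finite H] [Module.Finite (ZMod p) V]

/-- **The block theorem**, linear version. -/
theorem block_bound {k m e c : ℕ} (hk : 0 < k) (hm : 0 < m) (hcard : Nat.card H ∣ m)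
    (hconj : ∀ j : ℕ, j.Coprime m → ∀ h : H, ∃ g : H, g * h * g⁻¹ = h ^ (j ^ k))
    (t : (ZMod p)ˣ) (htm : orderOf t ∣ m) {C₀ K₀ : Subgroup H}
    (hCK₀ : GoodPair ρ (t : ZMod p) C₀ K₀) (hC₀ : C₀ ≤ K₀)
    {𝓧 : Set (Submodule (ZMod p) V)} (hind : sSupIndep 𝓧) (hsup : sSup 𝓧 = fixedBy ρ C₀)
    (hX : ∀ g ∈ K₀, ∀ X ∈ 𝓧, X.map (ρ g) ∈ 𝓧)
    (P : Sylow p K₀) (A : Subgroup K₀) (hAe : A.relIndex (P : Subgroup K₀) ≤ p ^ e)
    (G : Submodule (ZMod p) V → ℕ → Submodule (ZMod p) V) (hG0 : ∀ X ∈ 𝓧, X ≤ G X 0)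
    (hGc : ∀ X ∈ 𝓧, G X c = ⊥)
    (hG : ∀ X ∈ 𝓧, ∀ i, ∀ u ∈ A, X.map (ρ (u : H)) = X → ∀ v ∈ G X i,
      ρ (u : H) v - v ∈ G X (i + 1)) :
    p ^ (2 * powCount k (orderOf t)) ≤
      2 ^ (125 * k * c * powCount k (orderOf t)) * p ^ (2 * c * (e + 2)) := by
  classical
  have hp : p.Prime := Fact.out
  obtain ⟨C, K, hC₀C, hCK₀', hKK₀, hgood, hφn, hmain⟩ :=
    exists_local ρ hk hm hcard hconj t htm hCK₀ hC₀
  set n := Module.finrank (ZMod p) (fixedBy ρ C) with hn
  set φ := powCount k (orderOf t) with hφ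
  obtain ⟨hKN, hCp, ⟨w₀, hw₀, hw₀0⟩, -⟩ := hgood
  have hVfin : Finite V := Module.finite_of_finite (ZMod p)
  have hSubfin : Finite (Submodule (ZMod p) V) :=
    Finite.of_injective (fun S : Submodule (ZMod p) V => (S : Set V)) SetLike.coe_injective
  have : Fintype 𝓧 := Fintype.ofFinite _
  have hnpos : 0 < n := by
    have : Nontrivial (fixedBy ρ C) :=
      ⟨⟨⟨w₀, hw₀⟩, 0, fun h => hw₀0 (congrArg Subtype.val h)⟩⟩
    exact Module.finrank_pos
  -- the actions
  let _actK₀ : MulAction K₀ 𝓧 := setAct ρ hX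
  let _actK : MulAction K 𝓧 := MulAction.compHom 𝓧 (Subgroup.inclusion hKK₀)
  let _actC : MulAction C 𝓧 := MulAction.compHom 𝓧 (Subgroup.inclusion hCK₀')
  have hsK₀ : ∀ (g : K₀) (X : 𝓧), (g • X).1 = X.1.map (ρ (g : H)) := fun g X => rfl
  have hsK : ∀ (g : K) (X : 𝓧), (g • X).1 = X.1.map (ρ (g : H)) := fun g X => rfl
  have hsC : ∀ (g : C) (X : 𝓧), (g • X).1 = X.1.map (ρ (g : H)) := fun g X => rfl
  have hcomp : ∀ (y : K) (c : C), ∃ c' : C, ∀ X : 𝓧, y • c • X = c' • y • X := by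
    intro y c
    refine ⟨⟨y * c * (y : H)⁻¹, (Subgroup.mem_normalizer_iff.1 (hKN y.2) c).1 c.2⟩, fun X => ?_⟩
    apply Subtype.ext
    rw [hsK, hsC, hsC, hsK, map_rho_map, map_rho_map]
    congr 2
    group
  -- the projections
  obtain ⟨π, hπ1, hπ2⟩ := exists_proj hind
  have hWle : fixedBy ρ C ≤ sSup 𝓧 := by
    rw [hsup]
    intro w hw c hc
    exact hw c (hC₀C hc)
  let πW : 𝓧 → (fixedBy ρ C →ₗ[ZMod p] V) := fun X => π X ∘ₗ Submodule.inclusion hWle
  have hπW1 : ∀ X w, πW X w ∈ X.1 := fun X w => hπ1 X _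
  have hπW2 : ∀ w, ∑ X, πW X w = (w : V) := fun w => hπ2 _
  have heqK : ∀ (y : K) (w w' : fixedBy ρ C), (w' : V) = ρ (y : H) w → ∀ X,
      πW (y • X) w' = ρ (y : H) (πW X w) := by
    intro y w w' hw' X
    exact proj_equivariant hind hπ1 hπ2 (ρ (y : H)) (MulAction.toPerm y) (fun X => rfl)
      (Submodule.inclusion hWle w) (Submodule.inclusion hWle w') hw' X
  have heqC : ∀ (c : C) (w : fixedBy ρ C) (X : 𝓧), πW (c • X) w = ρ (c : H) (πW X w) := by
    intro c w X
    exact proj_equivariant hind hπ1 hπ2 (ρ (c : H)) (MulAction.toPerm c) (fun X => rfl)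
      (Submodule.inclusion hWle w) (Submodule.inclusion hWle w) (w.2 c c.2).symm X
  have hKW : ∀ (y : K) (w : fixedBy ρ C), ρ (y : H) w ∈ fixedBy ρ C := fun y w =>
    (actHom ρ C (Subgroup.inclusion hKN y) w).2
  -- the relevant blocks
  let B : Set 𝓧 := {X | ∃ w : fixedBy ρ C, πW X w ≠ 0}
  have hBK : ∀ (y : K), ∀ X ∈ B, y • X ∈ B := by
    rintro y X ⟨w, hw⟩
    refine ⟨⟨ρ (y : H) w, hKW y w⟩, ?_⟩
    rw [heqK y w _ rfl X]
    intro h0
    apply hw
    have h1 := rho_inv_apply ρ (y : H) (πW X w)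
    rw [h0, map_zero] at h1
    exact h1.symm
  -- the number of relevant orbits
  have horb : Nat.card (Orbs C B) ≤ n := by
    let E : Orbs C B → Submodule (ZMod p) (fixedBy ρ C) := fun o =>
      ⨅ X ∈ (o.1)ᶜ, LinearMap.ker (πW X)
    have hE : ∀ (o : Orbs C B) (w : fixedBy ρ C), w ∈ E o ↔ ∀ X ∉ o.1, πW X w = 0 := by
      intro o w
      simp only [E, Submodule.mem_iInf, Set.mem_compl_iff, LinearMap.mem_ker]
    have hdisj : ∀ o o' : Orbs C B, o' ≠ o → ∀ X ∈ o.1, X ∉ o'.1 := by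
      intro o o' hne X hXo hXo'
      obtain ⟨Y, -, hY⟩ := o.2
      obtain ⟨Y', -, hY'⟩ := o'.2
      apply hne
      apply Subtype.ext
      rw [← hY, ← hY']
      rw [← hY] at hXo
      rw [← hY'] at hXo'
      rw [← MulAction.orbit_eq_iff.2 hXo, ← MulAction.orbit_eq_iff.2 hXo']
    have hEind : iSupIndep E := by
      intro o
      rw [Submodule.disjoint_def]
      intro w hw hw'
      have h1 : (⨆ (o') (_ : o' ≠ o), E o') ≤ ⨅ X ∈ o.1, LinearMap.ker (πW X) := by
        apply iSup₂_le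
        intro o' hne w hw
        rw [hE] at hw
        simp only [Submodule.mem_iInf, LinearMap.mem_ker]
        intro X hX
        exact hw X (hdisj o o' hne X hX)
      have h2 := h1 hw'
      simp only [Submodule.mem_iInf, LinearMap.mem_ker] at h2
      rw [hE] at hw
      apply Subtype.ext
      rw [← hπW2 w]
      apply Finset.sum_eq_zero
      intro X _
      by_cases hXo : X ∈ o.1
      · exact h2 X hXo
      · exact hw X hXo
    have hEne : ∀ o, E o ≠ ⊥ := by
      intro o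
      obtain ⟨X₀, ⟨w, hw⟩, hX₀⟩ := o.2
      -- the part of `w` in the orbit
      let w' : V := ∑ X, if X ∈ o.1 then πW X w else 0
      have hw'C : w' ∈ fixedBy ρ C := by
        intro c hc
        show ρ c w' = w'
        have h1 : ρ c w' = ∑ X, if X ∈ o.1 then πW ((⟨c, hc⟩ : C) • X) w else 0 := by
          rw [map_sum]
          apply Finset.sum_congr rfl
          intro X _
          by_cases h : X ∈ o.1
          · simp only [h, if_true]
            exact (heqC ⟨c, hc⟩ w X).symm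
          · simp only [h, if_false, map_zero]
        rw [h1]
        show _ = ∑ X, if X ∈ o.1 then πW X w else 0
        rw [← Equiv.sum_comp (MulAction.toPerm (⟨c, hc⟩ : C)) (fun X => if X ∈ o.1 then πW X w else 0)]
        apply Finset.sum_congr rfl
        intro X _
        have h2 : (MulAction.toPerm (⟨c, hc⟩ : C) X ∈ o.1) ↔ X ∈ o.1 := by
          rw [← hX₀, MulAction.toPerm_apply, ← MulAction.orbit_eq_iff, ← MulAction.orbit_eq_iff,
            MulAction.orbit_smul]
        simp only [h2]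
        rfl
      have hproj : ∀ X, πW X ⟨w', hw'C⟩ = if X ∈ o.1 then πW X w else 0 := by
        intro X
        refine eq_of_sum_eq hind (f := fun X => πW X ⟨w', hw'C⟩)
          (g := fun X => if X ∈ o.1 then πW X w else 0) (fun X => hπW1 X _) ?_ ?_ X
        · intro X
          by_cases h : X ∈ o.1
          · simp only [h, if_true]; exact hπW1 X w
          · simp only [h, if_false]; exact X.1.zero_mem
        · rw [hπW2]
      intro h0
      have h1 : (⟨w', hw'C⟩ : fixedBy ρ C) ∈ E o := by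
        rw [hE]
        intro X hX
        rw [hproj, if_neg hX]
      rw [h0, Submodule.mem_bot] at h1
      apply hw
      have h2 := hproj X₀
      have h3 : X₀ ∈ o.1 := by
        rw [← hX₀]
        exact MulAction.mem_orbit_self X₀
      rw [h1, map_zero, if_pos h3] at h2
      exact h2.symm
    have : Fintype {o // E o ≠ ⊥} := Fintype.ofFinite _
    have h1 := hEind.subtype_ne_bot_le_finrank
    rw [← Nat.card_eq_fintype_card] at h1
    refine le_trans ?_ h1
    exact Nat.card_le_card_of_injective (fun o : Orbs C B => (⟨o, hEne o⟩ : {o // E o ≠ ⊥}))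
      (fun o o' h => congrArg Subtype.val h)
  -- the Sylow subgroup
  obtain ⟨R⟩ : Nonempty (Sylow p K) := inferInstance
  obtain ⟨T₁, a, hT₁, ha, hT₁o⟩ := exists_kernel (C := C) hcomp hBK R
  let ι : K →* K₀ := Subgroup.inclusion hKK₀
  obtain ⟨P', hP'⟩ : ∃ P' : Sylow p K₀, (R : Subgroup K).map ι ≤ P' :=
    (R.isPGroup'.map ι).exists_le_sylow
  obtain ⟨g₀, hg₀⟩ := MulAction.exists_smul_eq K₀ P P'
  have hP'eq : (P' : Subgroup K₀) = (P : Subgroup K₀).map (MulAut.conj g₀).toMonoidHom := by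
    rw [← hg₀]; rfl
  let A' : Subgroup K₀ := A.map (MulAut.conj g₀).toMonoidHom
  have hA' : A'.relIndex (P' : Subgroup K₀) ≤ p ^ e := by
    rw [hP'eq]
    have h1 : A'.relIndex ((P : Subgroup K₀).map (MulAut.conj g₀).toMonoidHom) =
        A.relIndex (P : Subgroup K₀) :=
      Subgroup.relIndex_map_map_of_injective A _ (MulAut.conj g₀).injective
    rw [h1]; exact hAe
  have hA'R : (A'.comap ι).relIndex (R : Subgroup K) ≤ p ^ e := by
    rw [Subgroup.relIndex_comap]
    exact (Subgroup.relIndex_le_of_le_right hP' (Subgroup.index_ne_zero_of_finite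
      (H := A'.subgroupOf (P' : Subgroup K₀)))).trans hA'
  let T : Subgroup K := (T₁ ⊓ A'.comap ι) ⊓ (R : Subgroup K)
  have hTidx : T.relIndex (R : Subgroup K) ≤ p ^ a * p ^ e := by
    rw [Subgroup.inf_relIndex_right, ← hT₁]
    exact Subgroup.relIndex_inf_le.trans (Nat.mul_le_mul_left _ hA'R)
  have hTp : IsPGroup p T := R.isPGroup'.to_le inf_le_right
  -- fixed blocks
  have hfix : ∀ o : Orbs C B, ∃ X ∈ o.1, ∀ y ∈ T, y • X = X := by
    intro o
    obtain ⟨X₀, -, hX₀⟩ := o.2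
    have h1 := exists_fixed_mem_orbit (C := C) hCp hTp (X₀ := X₀) (by
      intro y hy
      rw [hX₀]
      exact hT₁o y hy.1.1 o)
    rwa [hX₀] at h1
  choose Xf hXf1 hXf2 using hfix
  -- the filtration
  let Gc : Orbs C B → ℕ → Submodule (ZMod p) V := fun o i =>
    (G ((g₀⁻¹ • Xf o : 𝓧) : Submodule (ZMod p) V) i).map (ρ (g₀ : H))
  have hGcX : ∀ o, (Xf o).1 ≤ Gc o 0 := by
    intro o
    have h1 := hG0 _ (g₀⁻¹ • Xf o : 𝓧).2
    have h2 : (Xf o).1 = ((g₀⁻¹ • Xf o : 𝓧) : Submodule (ZMod p) V).map (ρ (g₀ : H)) := by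
      rw [← hsK₀, smul_inv_smul]
    rw [h2]
    exact Submodule.map_mono h1
  have hGcc : ∀ o, Gc o c = ⊥ := by
    intro o
    show (G ((g₀⁻¹ • Xf o : 𝓧) : Submodule (ZMod p) V) c).map (ρ (g₀ : H)) = ⊥
    rw [hGc _ (g₀⁻¹ • Xf o : 𝓧).2, Submodule.map_bot]
  have hGcs : ∀ o i, ∀ y ∈ T, ∀ v ∈ Gc o i, ρ (y : H) v - v ∈ Gc o (i + 1) := by
    rintro o i y hy _ ⟨v, hv, rfl⟩
    obtain ⟨a', ha', hay⟩ := (hy.1.2 : ι y ∈ A')
    have hay' : (g₀ : H) * a' * (g₀ : H)⁻¹ = (y : H) := congrArg Subtype.val hay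
    have h1 : (y : H) * g₀ = g₀ * a' := by
      rw [← hay']
      group
    have h2 : ((g₀⁻¹ • Xf o : 𝓧) : Submodule (ZMod p) V).map (ρ (a' : H)) =
        ((g₀⁻¹ • Xf o : 𝓧) : Submodule (ZMod p) V) := by
      have h3 : (Xf o).1.map (ρ (y : H)) = (Xf o).1 := by
        rw [← hsK, hXf2 o y hy]
      rw [hsK₀, map_rho_map]
      have h4 : (a' : H) * ((g₀⁻¹ : K₀) : H) = ((g₀⁻¹ : K₀) : H) * (y : H) := by
        rw [← hay', Subgroup.coe_inv]
        group
      rw [h4, ← map_rho_map, h3]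
    refine ⟨ρ (a' : H) v - v, hG _ (g₀⁻¹ • Xf o : 𝓧).2 i a' ha' h2 v hv, ?_⟩
    rw [map_sub, ← rho_mul_apply, ← rho_mul_apply, h1]
  let F : ℕ → Submodule (ZMod p) V := fun i =>
    (⨅ o, (Gc o i).comap (πW (Xf o))).map (fixedBy ρ C).subtype
  have hFmem : ∀ i (w : fixedBy ρ C), (w : V) ∈ F i ↔ ∀ o, πW (Xf o) w ∈ Gc o i := by
    intro i w
    constructor
    · rintro ⟨w', hw', hww'⟩ o
      have h1 : w' = w := Subtype.ext hww'
      rw [← h1]
      exact (Submodule.mem_iInf _).1 hw' o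
    · intro h
      exact ⟨w, (Submodule.mem_iInf _).2 h, rfl⟩
  have hbound := hmain R T F c (fun w hw => (hFmem 0 ⟨w, hw⟩).2 (fun o => hGcX o (hπW1 _ _))) (by
    rw [eq_bot_iff]
    rintro w ⟨hw, hwF⟩
    have h1 := (hFmem c ⟨w, hw⟩).1 hwF
    rw [Submodule.mem_bot]
    show ((⟨w, hw⟩ : fixedBy ρ C) : V) = 0
    rw [← hπW2 ⟨w, hw⟩]
    apply Finset.sum_eq_zero
    intro X _
    by_contra hne
    let o : Orbs C B := ⟨MulAction.orbit C X, X, ⟨⟨w, hw⟩, hne⟩, rfl⟩
    have h2 := h1 o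
    rw [hGcc, Submodule.mem_bot] at h2
    have h3 : Xf o ∈ MulAction.orbit C X := hXf1 o
    obtain ⟨c', hc'⟩ : ∃ c' : C, c' • Xf o = X := by
      obtain ⟨c', hc'⟩ := h3
      refine ⟨c'⁻¹, ?_⟩
      have hc'' : c' • X = Xf o := hc'
      rw [← hc'', inv_smul_smul]
    apply hne
    rw [← hc', heqC, h2, map_zero]) (by
    rintro i y hy v ⟨hvW, hvF⟩
    have h1 := (hFmem i ⟨v, hvW⟩).1 hvF
    have h2 : ρ (y : H) v - v ∈ fixedBy ρ C := Submodule.sub_mem _ (hKW y ⟨v, hvW⟩) hvW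
    refine (hFmem (i + 1) ⟨ρ (y : H) v - v, h2⟩).2 ?_
    intro o
    have h3 : (⟨ρ (y : H) v - v, h2⟩ : fixedBy ρ C) = ⟨ρ (y : H) v, hKW y ⟨v, hvW⟩⟩ - ⟨v, hvW⟩ := rfl
    rw [h3, map_sub]
    have h4 := heqK y ⟨v, hvW⟩ ⟨ρ (y : H) v, hKW y ⟨v, hvW⟩⟩ rfl (Xf o)
    rw [hXf2 o y hy] at h4
    rw [h4]
    exact hGcs o i y hy _ (h1 o))
  -- conclusion
  have hord : 0 < orderOf t := orderOf_pos t
  have hφp : φ ≤ p - 1 := by
    have h1 : orderOf t ∣ p - 1 := by
      have := orderOf_dvd_natCard t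
      rwa [Nat.card_eq_fintype_card, ZMod.card_units] at this
    exact (powCount_le_self hord).trans (Nat.le_of_dvd (by have := hp.two_le; omega) h1)
  refine final_bound4 (s := a + n / φ) (e := e) (c := c) (k := k) (n := n) (b := 2) (φ := φ) ?_
    hp.pos hφn ?_ hnpos
  · refine hbound.trans (Nat.pow_le_pow_left ?_ c)
    calc T.relIndex (R : Subgroup K) * (Nat.lcmUpto (4 * k * n)) ^ 2 * p ^ (n / φ)
        ≤ p ^ a * p ^ e * (Nat.lcmUpto (4 * k * n)) ^ 2 * p ^ (n / φ) :=
          Nat.mul_le_mul_right _ (Nat.mul_le_mul_right _ hTidx)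
      _ = p ^ e * (Nat.lcmUpto (4 * k * n)) ^ 2 * p ^ (a + n / φ) := by
          rw [pow_add]; ring
  · have h1 : φ * a ≤ n := (Nat.mul_le_mul_right a hφp).trans (ha.trans horb)
    have h2 : φ * (n / φ) ≤ n := Nat.mul_div_le n φ
    rw [mul_add]
    omega

end Block

end Pool.Agent.Lib.MP_3c3661_al
end

section

/-!
From linear groups to finite groups: blocks and centralisers of `p'`-elements.
-/

set_option autoImplicit false

open scoped commutatorElement

namespace Pool.Agent.Lib.MP_3c3661_al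

section Main

variable {p : ℕ} [Fact p.Prime] {G : Type*} [Group G] [Finite G]

/-- In a group with the power-conjugacy property: if `h` is a `p'`-element, `w` commutes with `h`
and `w ^ p = 1`, then an element of the centraliser of `h` conjugates `w` to `w ^ (j ^ k)`, for
`j` in a prescribed class modulo `p`. -/
lemma PowConj.local_conj {k m : ℕ} (hm : 0 < m) (hcard : Nat.card G ∣ m) (hpm : p ∣ m)
    (hG : PowConj k m G) {h : G} (hh : (orderOf h).Coprime p) {w : G} (hw : w ^ p = 1)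
    (hhw : h * w = w * h) (u : (ZMod p)ˣ) :
    ∃ g : G, g * h = h * g ∧ ∃ j : ℕ, (j : ZMod p) = u ∧ g * w * g⁻¹ = w ^ (j ^ k) := by
  have hp : p.Prime := Fact.out
  -- the exponent
  obtain ⟨j₁, hj₁⟩ : ∃ j₁ : ℕ, (j₁ : ZMod p) = u := ⟨(u : ZMod p).val, by
    rw [ZMod.natCast_val, ZMod.cast_id]⟩
  have hord : 0 < orderOf h := orderOf_pos h
  obtain ⟨j₂, hj₂1, hj₂2⟩ := Nat.chineseRemainder hh 1 j₁
  have hj₂cop : j₂.Coprime (orderOf h * p) := by
    apply Nat.Coprime.mul_right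
    · have h1 : j₂.gcd (orderOf h) = (1 : ℕ).gcd (orderOf h) := Nat.ModEq.gcd_eq hj₂1
      rw [Nat.coprime_iff_gcd_eq_one, h1, Nat.gcd_one_left]
    · rw [Nat.coprime_comm, hp.coprime_iff_not_dvd]
      intro hdvd
      have h1 : (j₂ : ZMod p) = (j₁ : ZMod p) := (ZMod.natCast_eq_natCast_iff _ _ _).2 hj₂2
      rw [hj₁, (ZMod.natCast_eq_zero_iff j₂ p).2 hdvd] at h1
      exact u.ne_zero h1.symm
  have hdm : orderOf h * p ∣ m := by
    apply Nat.Coprime.mul_dvd_of_dvd_of_dvd hh _ hpm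
    exact (orderOf_dvd_natCard h).trans hcard
  obtain ⟨j, hj, hjj⟩ := exists_coprime_lift hm hdm (ZMod.unitOfCoprime j₂ hj₂cop)
  rw [ZMod.coe_unitOfCoprime] at hjj
  have hjmod : j ≡ j₂ [MOD (orderOf h * p)] := (ZMod.natCast_eq_natCast_iff _ _ _).1 hjj
  have hjh : j ≡ 1 [MOD orderOf h] := (hjmod.of_mul_right p).trans hj₂1
  have hjp : j ≡ j₁ [MOD p] := (hjmod.of_mul_left (orderOf h)).trans hj₂2
  obtain ⟨g, hg⟩ := hG j hj (h * w)
  have hcm : Commute h w := hhw
  have hpow : h ^ (j ^ k) = h := by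
    have h1 : h ^ (j ^ k) = h ^ 1 := by
      rw [pow_eq_pow_iff_modEq]
      have := hjh.pow k
      rwa [one_pow] at this
    rw [h1, pow_one]
  have hg1 : g * (h * w) * g⁻¹ = h * w ^ (j ^ k) := by
    rw [hg, hcm.mul_pow, hpow]
  -- separate the parts
  obtain ⟨a, ha1, ha2⟩ := Nat.chineseRemainder hh 1 0
  have hap : ∀ z : G, z ^ p = 1 → z ^ a = 1 := by
    intro z hz
    obtain ⟨b, hb⟩ := (Nat.modEq_zero_iff_dvd).1 ha2
    rw [hb, pow_mul, hz, one_pow]
  have hah : h ^ a = h := by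
    have h1 : h ^ a = h ^ 1 := pow_eq_pow_iff_modEq.2 ha1
    rw [h1, pow_one]
  have hw' : (w ^ (j ^ k)) ^ p = 1 := by
    rw [← pow_mul, mul_comm, pow_mul, hw, one_pow]
  have hgh : g * h * g⁻¹ = h := by
    have h1 : (g * (h * w) * g⁻¹) ^ a = (h * w ^ (j ^ k)) ^ a := by rw [hg1]
    rw [conj_pow, hcm.mul_pow, (hcm.pow_right (j ^ k)).mul_pow, hap w hw, hap _ hw', hah,
      mul_one] at h1
    exact h1
  refine ⟨g, mul_inv_eq_iff_eq_mul.1 hgh, j, ?_, ?_⟩
  · rw [← hj₁]
    exact (ZMod.natCast_eq_natCast_iff _ _ _).2 hjp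
  · have h1 : g * (h * w) * g⁻¹ = (g * h * g⁻¹) * (g * w * g⁻¹) := by group
    rw [hg1, hgh] at h1
    exact (mul_left_cancel h1).symm

/-- good pairs of subgroups of `G` -/
def GoodSub (k : ℕ) (M L D : Subgroup G) (u : (ZMod p)ˣ) : Prop :=
  L ≤ D ∧ D ≤ Subgroup.normalizer (L : Set G) ∧ (Nat.card L).Coprime p ∧
    M ⊓ Subgroup.centralizer (L : Set G) ≠ ⊥ ∧
    ∀ x ∈ M ⊓ Subgroup.centralizer (L : Set G), ∃ g ∈ D, ∃ j : ℕ, (j : ZMod p) = u ∧
      g * x * g⁻¹ = x ^ (j ^ k)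

omit [Fact p.Prime] [Finite G] in
lemma centralizer_zpowers (h : G) :
    Subgroup.centralizer ((Subgroup.zpowers h : Subgroup G) : Set G) =
      Subgroup.centralizer {h} := by
  rw [Subgroup.zpowers_eq_closure, Subgroup.centralizer_closure]

lemma goodSub_base {k m : ℕ} (hm : 0 < m) (hcard : Nat.card G ∣ m) (hpm : p ∣ m)
    (hG : PowConj k m G) {M : Subgroup G} (hexp : ∀ a ∈ M, a ^ p = 1) {h : G}
    (hh : (orderOf h).Coprime p) (hne : M ⊓ Subgroup.centralizer {h} ≠ ⊥) (u : (ZMod p)ˣ) :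
    GoodSub k M (Subgroup.zpowers h) (Subgroup.centralizer {h}) u := by
  have hc : ∀ z ∈ Subgroup.centralizer ({h} : Set G), z * h = h * z := fun z hz =>
    Subgroup.mem_centralizer_singleton_iff.1 hz
  refine ⟨?_, ?_, ?_, ?_, ?_⟩
  · rw [Subgroup.zpowers_le]
    exact Subgroup.mem_centralizer_singleton_iff.2 rfl
  · intro z hz
    apply Subgroup.mem_normalizer_fintype
    rintro _ ⟨n, rfl⟩
    have h1 : Commute z h := hc z hz
    have h2 : z * h ^ n * z⁻¹ = h ^ n := by
      rw [(h1.zpow_right n).eq, mul_inv_cancel_right]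
    show z * h ^ n * z⁻¹ ∈ Subgroup.zpowers h
    rw [h2]
    exact Subgroup.zpow_mem_zpowers _ _
  · rw [Nat.card_zpowers]; exact hh
  · rw [centralizer_zpowers]; exact hne
  · rintro x ⟨hxM, hxC⟩
    rw [centralizer_zpowers] at hxC
    obtain ⟨g, hg, j, hj, hgx⟩ := hG.local_conj hm hcard hpm hh (hexp x hxM) (hc x hxC).symm u
    exact ⟨g, Subgroup.mem_centralizer_singleton_iff.2 hg, j, hj, hgx⟩

lemma goodSub_step {k : ℕ} {M L D Q : Subgroup G} {u : (ZMod p)ˣ} (hexp : ∀ a ∈ M, a ^ p = 1)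
    (hgood : GoodSub k M L D u) {q : ℕ} (hq : q.Prime) (hqp : q ≠ p) (hQ : IsPGroup q Q)
    (hQD : Q ≤ D) (hne : M ⊓ Subgroup.centralizer ((L ⊔ Q : Subgroup G) : Set G) ≠ ⊥)
    (hmax : ∀ R : Subgroup G, IsPGroup q R → R ≤ D →
      M ⊓ Subgroup.centralizer ((L ⊔ R : Subgroup G) : Set G) ≠ ⊥ → Nat.card R ≤ Nat.card Q) :
    GoodSub k M (L ⊔ Q) (L ⊔ (D ⊓ Subgroup.normalizer (Q : Set G))) u := by
  classical
  have hp : p.Prime := Fact.out
  have : Fact q.Prime := ⟨hq⟩
  obtain ⟨hLD, hDN, hLp, -, hT⟩ := hgood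
  have hQN : Q ≤ Subgroup.normalizer (L : Set G) := hQD.trans hDN
  have hcen : ∀ (R : Subgroup G) (x : G), x ∈ Subgroup.centralizer ((L ⊔ R : Subgroup G) : Set G) ↔
      (L ≤ Subgroup.centralizer {x} ∧ R ≤ Subgroup.centralizer {x}) := by
    intro R x
    rw [← sup_le_iff]
    constructor
    · intro hx z hz
      exact Subgroup.mem_centralizer_singleton_iff.2 (Subgroup.mem_centralizer_iff.1 hx z hz)
    · intro hx
      exact Subgroup.mem_centralizer_iff.2 fun z hz =>
        Subgroup.mem_centralizer_singleton_iff.1 (hx hz)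
  refine ⟨?_, ?_, ?_, hne, ?_⟩
  · exact sup_le_sup_left (le_inf hQD Subgroup.le_normalizer) L
  · apply sup_le
    · exact le_sup_left.trans Subgroup.le_normalizer
    · rintro n ⟨hnD, hnQ⟩
      apply Subgroup.mem_normalizer_fintype
      intro z hz
      have h1 : (L ⊔ Q).map (MulAut.conj n).toMonoidHom ≤ L ⊔ Q := by
        rw [Subgroup.map_sup]
        apply sup_le
        · rintro _ ⟨l, hl, rfl⟩
          exact Subgroup.mem_sup_left ((Subgroup.mem_normalizer_iff.1 (hDN hnD) l).1 hl)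
        · rintro _ ⟨l, hl, rfl⟩
          exact Subgroup.mem_sup_right ((Subgroup.mem_normalizer_iff.1 hnQ l).1 hl)
      exact h1 ⟨z, hz, rfl⟩
  · have h1 : L ⊔ Q ≤ prodSub L Q hQN :=
      sup_le (left_le_prodSub L Q hQN) (right_le_prodSub L Q hQN)
    have h2 : (Nat.card Q).Coprime p := by
      obtain ⟨b, hb⟩ := IsPGroup.iff_card.1 hQ
      rw [hb]
      exact Nat.Coprime.pow_left _ ((Nat.coprime_primes hq hp).2 hqp)
    exact Nat.Coprime.coprime_dvd_left (Subgroup.card_dvd_of_le h1)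
      (card_prodSub_coprime hp L Q hQN hLp h2)
  · rintro x ⟨hxM, hxC⟩
    obtain ⟨hxL, hxQ⟩ := (hcen Q x).1 hxC
    have hxL' : x ∈ Subgroup.centralizer (L : Set G) := Subgroup.mem_centralizer_iff.2 fun z hz =>
      Subgroup.mem_centralizer_singleton_iff.1 (hxL hz)
    by_cases hx1 : x = 1
    · refine ⟨1, Subgroup.one_mem _, (u : ZMod p).val, by rw [ZMod.natCast_val, ZMod.cast_id], ?_⟩
      rw [hx1]
      simp
    obtain ⟨g, hgD, j, hj, hgx⟩ := hT x ⟨hxM, hxL'⟩
    have hjp : (j ^ k).Coprime p := by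
      apply Nat.Coprime.pow_left
      rw [Nat.coprime_comm, hp.coprime_iff_not_dvd]
      intro hdvd
      rw [(ZMod.natCast_eq_zero_iff j p).2 hdvd] at hj
      exact u.ne_zero hj.symm
    -- the centraliser of `x ^ (j ^ k)` is that of `x`
    have hxpow : ∀ z : G, z * x ^ (j ^ k) = x ^ (j ^ k) * z → z * x = x * z := by
      intro z hz
      obtain ⟨a, ha1, ha2⟩ : ∃ a : ℕ, j ^ k * a ≡ 1 [MOD p] ∧ True := by
        obtain ⟨a, ha⟩ := Nat.exists_mul_mod_eq_one_of_coprime hjp hp.one_lt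
        exact ⟨a, by rw [Nat.ModEq, ha.2, Nat.mod_eq_of_lt hp.one_lt], trivial⟩
      have h1 : x ^ (j ^ k * a) = x := by
        have h2 : x ^ (j ^ k * a) = x ^ 1 := by
          rw [pow_eq_pow_iff_modEq]
          exact ha1.of_dvd (orderOf_dvd_of_pow_eq_one (hexp x hxM))
        rw [h2, pow_one]
      have h3 : Commute z (x ^ (j ^ k)) := hz
      have h4 := h3.pow_right a
      rw [← pow_mul, h1] at h4
      exact h4
    let S : Subgroup G := D ⊓ Subgroup.centralizer {x}
    have hQS : Q ≤ S := le_inf hQD hxQ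
    have hconjS : ∀ z ∈ Q, g * z * g⁻¹ ∈ S := by
      intro z hz
      refine ⟨D.mul_mem (D.mul_mem hgD (hQD hz)) (D.inv_mem hgD), ?_⟩
      apply Subgroup.mem_centralizer_singleton_iff.2
      apply hxpow
      rw [← hgx]
      have h1 := Subgroup.mem_centralizer_singleton_iff.1 (hxQ hz)
      calc g * z * g⁻¹ * (g * x * g⁻¹) = g * (z * x) * g⁻¹ := by group
        _ = g * (x * z) * g⁻¹ := by rw [h1]
        _ = g * x * g⁻¹ * (g * z * g⁻¹) := by group
    have hmaxS : ∀ P : Subgroup S, IsPGroup q P → Nat.card P ≤ Nat.card Q := by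
      intro P hP
      have h1 := hmax (P.map S.subtype) (hP.map _) (by
        rintro _ ⟨z, _, rfl⟩
        exact z.2.1) (by
        intro h0
        apply hx1
        have h2 : x ∈ M ⊓ Subgroup.centralizer
            ((L ⊔ P.map S.subtype : Subgroup G) : Set G) := by
          refine ⟨hxM, (hcen _ x).2 ⟨hxL, ?_⟩⟩
          rintro _ ⟨z, _, rfl⟩
          exact z.2.2
        rw [h0, Subgroup.mem_bot] at h2
        exact h2)
      have h3 : Nat.card (P.map S.subtype) = Nat.card P :=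
        Subgroup.card_map_of_injective S.subtype_injective
      rwa [h3] at h1
    -- the two Sylow subgroups
    have hsyl : ∀ R : Subgroup G, IsPGroup q R → R ≤ S → Nat.card R = Nat.card Q →
        ∃ P : Sylow q S, (P : Subgroup S) = R.subgroupOf S := by
      intro R hR hRS hRc
      obtain ⟨P, hP⟩ := (hR.comap_subtype (K := S)).exists_le_sylow
      refine ⟨P, (Subgroup.eq_of_le_of_card_ge hP ?_).symm⟩
      have h4 : Nat.card (R.subgroupOf S) = Nat.card R :=
        Nat.card_congr (Subgroup.subgroupOfEquivOfLe hRS).toEquiv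
      have h5 := hmaxS P P.isPGroup'
      rw [← hRc, ← h4] at h5
      exact h5
    let Qg : Subgroup G := Q.map (MulAut.conj g).toMonoidHom
    have hQgS : Qg ≤ S := by
      rintro _ ⟨z, hz, rfl⟩
      exact hconjS z hz
    have hQgc : Nat.card Qg = Nat.card Q :=
      Subgroup.card_map_of_injective (MulAut.conj g).injective
    obtain ⟨P₁, hP₁⟩ := hsyl Q hQ hQS rfl
    obtain ⟨P₂, hP₂⟩ := hsyl Qg (hQ.map _) hQgS hQgc
    obtain ⟨s, hs⟩ := MulAction.exists_smul_eq S P₁ P₂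
    have hkey : ∀ z ∈ Q, ((s : G)⁻¹ * g) * z * ((s : G)⁻¹ * g)⁻¹ ∈ Q := by
      intro z hz
      have h1 : (⟨g * z * g⁻¹, hconjS z hz⟩ : S) ∈ (P₂ : Subgroup S) := by
        rw [hP₂, Subgroup.mem_subgroupOf]
        exact ⟨z, hz, rfl⟩
      rw [← hs, Sylow.coe_subgroup_smul, Subgroup.mem_pointwise_smul_iff_inv_smul_mem, hP₁,
        Subgroup.mem_subgroupOf] at h1
      have h3 : (((MulAut.conj s)⁻¹ • (⟨g * z * g⁻¹, hconjS z hz⟩ : S) : S) : G)
          = (s : G)⁻¹ * (g * z * g⁻¹) * s := by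
        rw [← map_inv, MulAut.smul_def, MulAut.conj_apply, inv_inv]
        rfl
      rw [h3] at h1
      have h4 : ((s : G)⁻¹ * g) * z * ((s : G)⁻¹ * g)⁻¹ = (s : G)⁻¹ * (g * z * g⁻¹) * s := by group
      rw [h4]
      exact h1
    refine ⟨(s : G)⁻¹ * g, Subgroup.mem_sup_right ⟨D.mul_mem (D.inv_mem s.2.1) hgD,
      Subgroup.mem_normalizer_fintype hkey⟩, j, hj, ?_⟩
    have h5 : (s : G) * x = x * s := Subgroup.mem_centralizer_singleton_iff.1 s.2.2
    have h6 : (s : G)⁻¹ * x ^ (j ^ k) * s = x ^ (j ^ k) := by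
      have h7 : Commute (s : G) (x ^ (j ^ k)) := (show Commute (s : G) x from h5).pow_right _
      rw [mul_assoc, ← h7.eq, inv_mul_cancel_left]
    calc (s : G)⁻¹ * g * x * ((s : G)⁻¹ * g)⁻¹ = (s : G)⁻¹ * (g * x * g⁻¹) * s := by group
      _ = x ^ (j ^ k) := by rw [hgx, h6]

/-- Local pairs are good. -/
theorem LocalPair.goodSub {k m : ℕ} (hm : 0 < m) (hcard : Nat.card G ∣ m) (hpm : p ∣ m)
    (hG : PowConj k m G) {M : Subgroup G} (hexp : ∀ a ∈ M, a ^ p = 1) {L D : Subgroup G}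
    (h : LocalPair p M L D) (u : (ZMod p)ˣ) : GoodSub k M L D u := by
  induction h with
  | base h hh hne => exact goodSub_base hm hcard hpm hG hexp hh hne u
  | step L D Q q _ hq hqp hQ hQD hne hmax ih =>
    exact goodSub_step hexp ih hq hqp hQ hQD hne hmax

end Main

section Emb

variable {p : ℕ} [Fact p.Prime] {G : Type*} [Group G] {E : Type*} [CommGroup E]
  [Module (ZMod p) (Additive E)] (ι : E →* G)

/-- the submodule given by a subgroup -/
def toSub (Y : Subgroup G) : Submodule (ZMod p) (Additive E) where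
  carrier := {v | ι (Additive.toMul v) ∈ Y}
  add_mem' := by
    intro a b ha hb
    show ι (Additive.toMul (a + b)) ∈ Y
    rw [toMul_add, map_mul]
    exact Y.mul_mem ha hb
  zero_mem' := by
    show ι (Additive.toMul 0) ∈ Y
    rw [toMul_zero, map_one]
    exact Y.one_mem
  smul_mem' := by
    intro a v hv
    show ι (Additive.toMul (a • v)) ∈ Y
    have h1 : a • v = a.val • v := by
      conv_lhs => rw [← ZMod.natCast_zmod_val a]
      rw [Nat.cast_smul_eq_nsmul]
    rw [h1, toMul_nsmul, map_pow]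
    exact Y.pow_mem hv _

lemma mem_toSub {Y : Subgroup G} {v : Additive E} :
    v ∈ toSub (p := p) ι Y ↔ ι (Additive.toMul v) ∈ Y := Iff.rfl

/-- the subgroup given by a submodule -/
def ofSub (S : Submodule (ZMod p) (Additive E)) : Subgroup G :=
  (AddSubgroup.toSubgroup' S.toAddSubgroup).map ι

lemma mem_ofSub {S : Submodule (ZMod p) (Additive E)} {x : G} :
    x ∈ ofSub ι S ↔ ∃ e : E, Additive.ofMul e ∈ S ∧ ι e = x := Iff.rfl

lemma ofSub_toSub {Y : Subgroup G} (hY : Y ≤ ι.range) : ofSub ι (toSub (p := p) ι Y) = Y := by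
  ext x
  rw [mem_ofSub]
  constructor
  · rintro ⟨e, he, rfl⟩
    exact he
  · intro hx
    obtain ⟨e, rfl⟩ := hY hx
    exact ⟨e, hx, rfl⟩

lemma toSub_mono {Y Y' : Subgroup G} (h : Y ≤ Y') :
    toSub (p := p) ι Y ≤ toSub (p := p) ι Y' := fun _ hv => h hv

lemma toSub_bot (hι : Function.Injective ι) : toSub (p := p) ι (⊥ : Subgroup G) = ⊥ := by
  rw [eq_bot_iff]
  intro v hv
  rw [mem_toSub, Subgroup.mem_bot] at hv
  have h1 : Additive.toMul v = 1 := hι (by rw [hv, map_one])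
  exact (Submodule.mem_bot _).2 (Additive.toMul.injective h1)

lemma toSub_sSup_le (hι : Function.Injective ι) {𝓨 : Set (Subgroup G)}
    (h𝓨 : ∀ Y ∈ 𝓨, Y ≤ ι.range) :
    toSub (p := p) ι (sSup 𝓨) ≤ sSup (toSub (p := p) ι '' 𝓨) := by
  have h1 : sSup 𝓨 ≤ ofSub ι (sSup (toSub (p := p) ι '' 𝓨)) := by
    apply sSup_le
    intro Y hY x hx
    obtain ⟨e, rfl⟩ := h𝓨 Y hY hx
    refine ⟨e, ?_, rfl⟩
    have h2 : toSub (p := p) ι Y ≤ sSup (toSub (p := p) ι '' 𝓨) := le_sSup ⟨Y, hY, rfl⟩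
    exact h2 hx
  intro v hv
  obtain ⟨e, he, hev⟩ := h1 hv
  have h3 : e = Additive.toMul v := hι hev
  rw [h3] at he
  exact he

variable [Finite G] [Finite E]

/-- **The bound for finite groups**, for an elementary abelian normal subgroup given as the image
of `E`. -/
theorem main3_emb {k m e c : ℕ} (hk : 0 < k) (hm : 0 < m) (hcard : Nat.card G ∣ m)
    (hpm : p ∣ m) (hpm1 : (p - 1) ∣ m) (hG : PowConj k m G) (hι : Function.Injective ι)
    (φ : G →* MulAut E) (hφ : ∀ g x, ι (φ g x) = g * ι x * g⁻¹)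
    (L D : Subgroup G) (hLDu : ∀ u : (ZMod p)ˣ, GoodSub k ι.range L D u)
    (𝓧 : Set (Subgroup G)) (hind : sSupIndep 𝓧)
    (hsup : sSup 𝓧 = ι.range ⊓ Subgroup.centralizer (L : Set G))
    (hX : ∀ g ∈ D, ∀ X ∈ 𝓧, X.map (MulAut.conj g).toMonoidHom ∈ 𝓧)
    (P : Sylow p D) (A : Subgroup G)
    (hAe : (A.subgroupOf D).relIndex (P : Subgroup D) ≤ p ^ e)
    (hc : ∀ X ∈ 𝓧, (fun Y : Subgroup G => ⁅Y, normIn A X⁆)^[c] X = ⊥) :
    p ^ (2 * powUnits k p) ≤ 2 ^ (125 * k * c * powUnits k p) * p ^ (2 * c * (e + 2)) := by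
  classical
  have hp : p.Prime := Fact.out
  let H : Subgroup (MulAut E) := φ.range
  have hHf : Finite H := Finite.of_surjective φ.rangeRestrict φ.rangeRestrict_surjective
  let φ' : G →* H := φ.rangeRestrict
  have hφ' : Function.Surjective φ' := φ.rangeRestrict_surjective
  let ρ : H →* (Additive E →ₗ[ZMod p] Additive E) := (autHom p E).comp H.subtype
  have hFin : Finite (Additive E) := inferInstanceAs (Finite E)
  have hρ : ∀ (g : G) (v : Additive E), ι (Additive.toMul (ρ (φ' g) v)) =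
      g * ι (Additive.toMul v) * g⁻¹ := fun g v => hφ g (Additive.toMul v)
  have hXle : ∀ X ∈ 𝓧, X ≤ ι.range ⊓ Subgroup.centralizer (L : Set G) := by
    intro X hX
    rw [← hsup]
    exact le_sSup hX
  have hXr : ∀ X ∈ 𝓧, X ≤ ι.range := fun X hX => (hXle X hX).trans inf_le_left
  have hexp : ∀ x : E, x ^ p = 1 := by
    intro x
    have h1 : (p : ZMod p) • (Additive.ofMul x) = 0 := by
      rw [ZMod.natCast_self, zero_smul]
    rw [Nat.cast_smul_eq_nsmul] at h1
    exact congrArg Additive.toMul h1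
  -- the scalar
  obtain ⟨g₁, hg₁⟩ := IsCyclic.exists_generator (α := (ZMod p)ˣ)
  set t : (ZMod p)ˣ := g₁ ^ k with ht
  have hordg : orderOf g₁ = p - 1 := by
    rw [orderOf_eq_card_of_forall_mem_zpowers hg₁, Nat.card_eq_fintype_card, ZMod.card_units]
  have hordt : orderOf t = (p - 1) / Nat.gcd (p - 1) k := by
    rw [ht, orderOf_pow, hordg]
  have htp1 : orderOf t ∣ p - 1 := by
    rw [hordt]; exact Nat.div_dvd_of_dvd (Nat.gcd_dvd_left _ _)
  have htm : orderOf t ∣ m := htp1.trans hpm1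
  have hpow : powUnits k p = powCount k (orderOf t) := by
    rw [hordt]; rfl
  rw [hpow]
  -- the good pair
  obtain ⟨hLD, hDN, hLp, hne, hT⟩ := hLDu g₁
  let C₀ : Subgroup H := L.map φ'
  let K₀ : Subgroup H := D.map φ'
  have hfixC : ∀ v : Additive E, v ∈ fixedBy ρ C₀ ↔
      ι (Additive.toMul v) ∈ Subgroup.centralizer (L : Set G) := by
    intro v
    rw [Subgroup.mem_centralizer_iff]
    constructor
    · intro hv z hz
      have h1 := hv (φ' z) ⟨z, hz, rfl⟩
      have h2 := hρ z v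
      rw [h1] at h2
      exact (mul_inv_eq_iff_eq_mul.1 h2.symm)
    · rintro hv _ ⟨z, hz, rfl⟩
      apply Additive.toMul.injective
      apply hι
      rw [hρ, hv z hz, mul_inv_cancel_right]
  have hgood : GoodPair ρ (t : ZMod p) C₀ K₀ := by
    refine ⟨?_, ?_, ?_, ?_⟩
    · rintro _ ⟨z, hz, rfl⟩
      apply Subgroup.mem_normalizer_fintype
      rintro _ ⟨n, hn, rfl⟩
      refine ⟨z * n * z⁻¹, (Subgroup.mem_normalizer_iff.1 (hDN hz) n).1 hn, ?_⟩
      rw [map_mul, map_mul, map_inv]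
    · exact Nat.Coprime.coprime_dvd_left (Subgroup.card_map_dvd L φ') hLp
    · obtain ⟨x, hx, hx1⟩ := (Subgroup.bot_or_exists_ne_one _).resolve_left hne
      obtain ⟨⟨w, rfl⟩, hxc⟩ := hx
      refine ⟨Additive.ofMul w, ?_, ?_⟩
      · rw [hfixC]
        exact hxc
      · intro h0
        apply hx1
        have h1 : w = 1 := congrArg Additive.toMul h0
        rw [h1, map_one]
    · intro w hw
      rw [hfixC] at hw
      obtain ⟨g, hgD, j, hj, hgw⟩ := hT (ι (Additive.toMul w)) ⟨⟨_, rfl⟩, hw⟩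
      refine ⟨φ' g, ⟨g, hgD, rfl⟩, ?_⟩
      have h1 : (t : ZMod p) • w = (j ^ k) • w := by
        rw [ht, Units.val_pow_eq_pow_val, ← hj, ← Nat.cast_pow, Nat.cast_smul_eq_nsmul]
      rw [h1]
      apply Additive.toMul.injective
      apply hι
      rw [hρ, hgw, toMul_nsmul, map_pow]
  have hC₀K₀ : C₀ ≤ K₀ := Subgroup.map_mono hLD
  -- the blocks
  let 𝓧' : Set (Submodule (ZMod p) (Additive E)) := toSub ι '' 𝓧
  have hmapsub : ∀ (z : G) (X : Subgroup G), (toSub (p := p) ι X).map (ρ (φ' z)) =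
      toSub ι (X.map (MulAut.conj z).toMonoidHom) := by
    intro z X
    ext v
    constructor
    · rintro ⟨w, hw, rfl⟩
      rw [mem_toSub, hρ]
      exact ⟨ι (Additive.toMul w), hw, rfl⟩
    · intro hv
      obtain ⟨x, hx, hxv⟩ := hv
      have hxv' : z * x * z⁻¹ = ι (Additive.toMul v) := hxv
      refine ⟨ρ (φ' z⁻¹) v, ?_, ?_⟩
      · show ι (Additive.toMul (ρ (φ' z⁻¹) v)) ∈ X
        rw [hρ, ← hxv']
        have h1 : z⁻¹ * (z * x * z⁻¹) * z⁻¹⁻¹ = x := by group
        rw [h1]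
        exact hx
      · rw [map_inv]
        exact rho_apply_inv ρ (φ' z) v
  have hind' : sSupIndep 𝓧' := by
    rintro _ ⟨X, hX, rfl⟩
    rw [Submodule.disjoint_def]
    intro v hv hv'
    have h1 : sSup (𝓧' \ {toSub ι X}) ≤ toSub ι (sSup (𝓧 \ {X})) := by
      apply sSup_le
      rintro _ ⟨⟨X', hX', rfl⟩, hne'⟩
      apply toSub_mono
      apply le_sSup
      refine ⟨hX', ?_⟩
      intro h2
      apply hne'
      rw [Set.mem_singleton_iff] at h2 ⊢
      rw [h2]
    have h3 := hind hX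
    have h4 := (Subgroup.disjoint_def.1 h3) hv (h1 hv')
    exact Additive.toMul.injective (hι (by rw [h4, toMul_zero, map_one]))
  have hsup' : sSup 𝓧' = fixedBy ρ C₀ := by
    apply le_antisymm
    · apply sSup_le
      rintro _ ⟨X, hX, rfl⟩ v hv
      rw [hfixC]
      exact (hXle X hX hv).2
    · intro v hv
      rw [hfixC] at hv
      apply toSub_sSup_le ι hι hXr
      rw [mem_toSub, hsup]
      exact ⟨⟨_, rfl⟩, hv⟩
  have hX' : ∀ g ∈ K₀, ∀ S ∈ 𝓧', S.map (ρ g) ∈ 𝓧' := by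
    rintro _ ⟨z, hz, rfl⟩ _ ⟨X, hXX, rfl⟩
    exact ⟨_, hX z hz X hXX, (hmapsub z X).symm⟩
  -- the Sylow subgroup
  let Z : Subgroup G := D
  let ψ : Z →* K₀ := (φ'.comp Z.subtype).codRestrict K₀ (fun z => ⟨z, z.2, rfl⟩)
  have hψ : Function.Surjective ψ := by
    rintro ⟨_, ⟨z, hz, rfl⟩⟩
    exact ⟨⟨z, hz⟩, rfl⟩
  let P' : Sylow p K₀ := P.mapSurjective hψ
  let A' : Subgroup K₀ := (A.subgroupOf Z).map ψ
  have hA' : A'.relIndex (P' : Subgroup K₀) ≤ p ^ e := by
    rw [Sylow.coe_mapSurjective hψ P, ← Subgroup.relIndex_comap]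
    exact (Subgroup.relIndex_le_of_le_left (Subgroup.le_comap_map ψ (A.subgroupOf Z))
      (Subgroup.index_ne_zero_of_finite (H := (A.subgroupOf Z).subgroupOf (P : Subgroup Z)))).trans hAe
  have hHm : Nat.card H ∣ m := (Subgroup.card_range_dvd φ).trans hcard
  refine block_bound ρ hk hm hHm (hG.of_surjective φ' hφ') t htm hgood hC₀K₀ hind' hsup' hX' P' A'
    hA' (fun S i => toSub ι ((fun Y : Subgroup G => ⁅Y, normIn A (ofSub ι S)⁆)^[i] (ofSub ι S)))
    ?_ ?_ ?_
  · rintro _ ⟨X, hXX, rfl⟩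
    show toSub ι X ≤ toSub ι (ofSub ι (toSub ι X))
    rw [ofSub_toSub ι (hXr X hXX)]
  · rintro _ ⟨X, hXX, rfl⟩
    show toSub ι ((fun Y : Subgroup G => ⁅Y, normIn A (ofSub ι (toSub (p := p) ι X))⁆)^[c]
      (ofSub ι (toSub (p := p) ι X))) = ⊥
    rw [ofSub_toSub ι (hXr X hXX), hc X hXX, toSub_bot ι hι]
  · rintro _ ⟨X, hXX, rfl⟩ i _ ⟨a, ha, rfl⟩ haX v hv
    have hv' : ι (Additive.toMul v) ∈ (fun Y : Subgroup G => ⁅Y, normIn A X⁆)^[i] X := by
      have h1 := (mem_toSub ι).1 hv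
      rwa [ofSub_toSub ι (hXr X hXX)] at h1
    have haN : (a : G) ∈ normIn A X := by
      refine ⟨ha, ?_⟩
      apply Subgroup.mem_normalizer_fintype
      intro x hx
      obtain ⟨y, rfl⟩ := hXr X hXX hx
      have h1 : ρ (φ' (a : G)) (Additive.ofMul y) ∈ (toSub (p := p) ι X).map (ρ (φ' (a : G))) :=
        ⟨Additive.ofMul y, hx, rfl⟩
      have h2 : (toSub (p := p) ι X).map (ρ (φ' (a : G))) = toSub ι X := haX
      rw [h2, mem_toSub, hρ] at h1
      exact h1
    show ρ (φ' (a : G)) v - v ∈ toSub ι ((fun Y : Subgroup G =>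
      ⁅Y, normIn A (ofSub ι (toSub (p := p) ι X))⁆)^[i + 1] (ofSub ι (toSub (p := p) ι X)))
    rw [ofSub_toSub ι (hXr X hXX), mem_toSub, Function.iterate_succ_apply']
    have h3 : ι (Additive.toMul (ρ (φ' (a : G)) v - v)) =
        ⁅(a : G), ι (Additive.toMul v)⁆ := by
      rw [toMul_sub, map_div, hρ, commutatorElement_def, div_eq_mul_inv]
    rw [h3, ← commutatorElement_inv]
    exact Subgroup.inv_mem _ (Subgroup.commutator_mem_commutator hv' haN)

end Emb

section Quot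

variable {p : ℕ} [Fact p.Prime]

/-- Main theorem for quotients of `k`-rational groups. -/
theorem main3 {k e c : ℕ} (hk : 0 < k) {G : Type} [Group G] [Finite G] (hG : KRational k G)
    (N : Subgroup G) [N.Normal] (M : Subgroup (G ⧸ N)) [M.Normal]
    (hcomm : ∀ a ∈ M, ∀ b ∈ M, a * b = b * a) (hexp : ∀ a ∈ M, a ^ p = 1)
    (L D : Subgroup (G ⧸ N)) (hLD : LocalPair p M L D)
    (𝓧 : Set (Subgroup (G ⧸ N))) (hind : sSupIndep 𝓧)
    (hsup : sSup 𝓧 = M ⊓ Subgroup.centralizer (L : Set (G ⧸ N)))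
    (hX : ∀ g ∈ D, ∀ X ∈ 𝓧, X.map (MulAut.conj g).toMonoidHom ∈ 𝓧)
    (P : Sylow p D) (A : Subgroup (G ⧸ N))
    (hAe : (A.subgroupOf D).relIndex (P : Subgroup D) ≤ p ^ e)
    (hc : ∀ X ∈ 𝓧, (fun Y : Subgroup (G ⧸ N) => ⁅Y, normIn A X⁆)^[c] X = ⊥) :
    p ^ (2 * powUnits k p) ≤ 2 ^ (125 * k * c * powUnits k p) * p ^ (2 * c * (e + 2)) := by
  classical
  have hp : p.Prime := Fact.out
  set m := Nat.card G * p * (p - 1) with hm
  have hm0 : 0 < m := by
    have h1 : 0 < Nat.card G := Nat.card_pos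
    have h2 := hp.two_le
    have h3 : 0 < p - 1 := by omega
    positivity
  have hGm : Nat.card G ∣ m := ⟨p * (p - 1), by rw [hm, mul_assoc]⟩
  have hpm : p ∣ m := ⟨Nat.card G * (p - 1), by rw [hm]; ring⟩
  have hpm1 : (p - 1) ∣ m := ⟨Nat.card G * p, by rw [hm]; ring⟩
  have hP : PowConj k m G := by
    intro j hj g
    have h1 := hG.isConj_pow (Nat.Coprime.coprime_dvd_right hGm hj) g
    obtain ⟨x, hx⟩ := isConj_iff.1 h1
    exact ⟨x, hx⟩
  have hQ : PowConj k m (G ⧸ N) :=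
    hP.of_surjective (QuotientGroup.mk' N) (QuotientGroup.mk'_surjective N)
  have hQm : Nat.card (G ⧸ N) ∣ m := (Subgroup.card_quotient_dvd_card N).trans hGm
  let cM : CommGroup M := { (inferInstance : Group M) with
    mul_comm := fun a b => Subtype.ext (hcomm a a.2 b b.2) }
  have mM : Module (ZMod p) (Additive M) := AddCommGroup.zmodModule (by
    intro x
    exact congrArg Additive.ofMul (Subtype.ext (hexp (x.toMul : G ⧸ N) x.toMul.2)))
  have hr : M.subtype.range = M := M.range_subtype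
  refine @main3_emb p _ (G ⧸ N) _ M cM mM M.subtype _ _ k m e c hk hm0 hQm hpm hpm1 hQ
    M.subtype_injective MulAut.conjNormal (fun g x => rfl) L D
    (fun u => by rw [hr]; exact hLD.goodSub hm0 hQm hpm hQ hexp u) 𝓧 hind
    (by rw [hr]; exact hsup) hX P A hAe hc

end Quot

end Pool.Agent.Lib.MP_3c3661_al
end
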