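import Mathlib
import Pool.Agent.Lib.MP_3c3661_al.Final3
import Pool.Agent.Lib.MP_3c3661_al.Defs4

section

/-!
Counting commuting pairs in products of cosets.
-/

set_option autoImplicit false

namespace Pool.Agent.Lib.MP_3c3661_al

section Comm

variable {X : Type*} [Group X] [Finite X]

/-- **The counting lemma.** Let `L ≤ K` be normal subgroups of `X`, let `y` be an element of
`p`-power order modulo `L`, centralised modulo `L` by `K` and by an element `z` with `z ^ 2 ∈ K`,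
and suppose that `⟨K, z⟩ / L` is a `p'`-group. If every element of the coset `L y` commutes with an
element of the coset `K z` then no element of `L` is centralised by `K` and `y` and inverted
(and not fixed) by `z`. -/
theorem no_inversion {p a m' γ : ℕ} (hp : p.Prime) (L K : Subgroup X) [L.Normal] [K.Normal]
    (hle : L ≤ K) (y z w : X)
    (hcom : ∀ n : X, (n : X ⧸ K) = 1 ∨ (n : X ⧸ K) = z → Commute (n : X ⧸ L) (y : X ⧸ L))
    (hya : (y : X ⧸ L) ^ (p ^ a) = 1) (hm : m'.Coprime p)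
    (hexp : ∀ n : X, (n : X ⧸ K) = 1 ∨ (n : X ⧸ K) = z → (n : X ⧸ L) ^ m' = 1)
    (hzγ : (z : X ⧸ K) ^ γ = 1) (hyγ : (y : X ⧸ K) ^ γ = y)
    (hZ : ∀ x : X, (x : X ⧸ L) = y → ∃ n : X, (n : X ⧸ K) = z ∧ Commute n x)
    (hwL : w ∈ L) (hwK : ∀ l ∈ K, l * w = w * l) (hwy : y * w = w * y)
    (hwz : z * w * z⁻¹ = w⁻¹) (hw : w⁻¹ ≠ w) : False := by
  classical
  have hLK : ∀ u v : X, (u : X ⧸ L) = v → (u : X ⧸ K) = v := by
    intro u v huv
    rw [QuotientGroup.eq] at huv ⊢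
    exact hle huv
  have hK1 : ∀ u : X, u ∈ K ↔ (u : X ⧸ K) = 1 := fun u => (QuotientGroup.eq_one_iff u).symm
  have hL1 : ∀ u : X, u ∈ L ↔ (u : X ⧸ L) = 1 := fun u => (QuotientGroup.eq_one_iff u).symm
  -- the exponent
  obtain ⟨α, hα1, hα2⟩ : ∃ α : ℕ, m' ∣ α ∧ p ^ a ∣ α + 1 := by
    have hc : m'.Coprime (p ^ a) := Nat.Coprime.pow_right a hm
    obtain ⟨α, h1, h2⟩ := Nat.chineseRemainder hc 0 (p ^ a - 1)
    refine ⟨α, (Nat.modEq_zero_iff_dvd).1 h1, ?_⟩
    have h0 : 0 < p ^ a := Nat.pow_pos hp.pos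
    have h3 : α + 1 ≡ (p ^ a - 1) + 1 [MOD p ^ a] := h2.add_right 1
    rw [Nat.sub_add_cancel h0] at h3
    exact (Nat.modEq_zero_iff_dvd).1 (h3.trans (by simp [Nat.ModEq]))
  have hα1' : ∀ n : X, (n : X ⧸ K) = 1 ∨ (n : X ⧸ K) = z → (n : X ⧸ L) ^ α = 1 := by
    intro n hn
    obtain ⟨b, rfl⟩ := hα1
    rw [pow_mul, hexp n hn, one_pow]
  have hα2' : (y : X ⧸ L) ^ (α + 1) = 1 := by
    obtain ⟨b, hb⟩ := hα2
    rw [hb, pow_mul, hya, one_pow]
  -- the four sets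
  let A₁ : Set (X × X) := {q | (q.1 : X ⧸ K) = z ∧ (q.2 : X ⧸ L) = y ∧ Commute q.1 q.2}
  let A₂ : Set (X × X) := {q | (q.1 : X ⧸ K) = 1 ∧ (q.2 : X ⧸ L) = y ∧ Commute q.1 q.2}
  let B₁ : Set (X × X) := {q | (q.1 : X ⧸ L) = 1 ∧ (q.2 : X ⧸ K) = z * y ∧ Commute q.1 q.2}
  let B₂ : Set (X × X) := {q | (q.1 : X ⧸ L) = 1 ∧ (q.2 : X ⧸ K) = y ∧ Commute q.1 q.2}
  have hzy : (z : X ⧸ K) * y = y * z := by
    have h1 := (hcom z (Or.inr rfl)).eq
    have h2 : ((z * y : X) : X ⧸ L) = ((y * z : X) : X ⧸ L) := h1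
    exact hLK _ _ h2
  -- first step
  have h1 : B₁.ncard < B₂.ncard := by
    have hβ : ∃ β : X → X, ∀ g : X, (∃ b : X, (b : X ⧸ K) = z * y ∧ Commute g b) →
        ((β g : X) : X ⧸ K) = z * y ∧ Commute g (β g) := by
      refine ⟨fun g => if h : ∃ b : X, (b : X ⧸ K) = z * y ∧ Commute g b then h.choose else 1, ?_⟩
      intro g hg
      simp only [hg, dif_pos]
      exact hg.choose_spec
    obtain ⟨β, hβ⟩ := hβ
    let f : X × X → X × X := fun q => (q.1, q.2 * (β q.1)⁻¹ * (β q.1) ^ γ)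
    have hfinj : Function.Injective f := by
      rintro ⟨g, b⟩ ⟨g', b'⟩ h
      have h2 : g = g' := congrArg Prod.fst h
      subst h2
      have h3 : b * (β g)⁻¹ * (β g) ^ γ = b' * (β g)⁻¹ * (β g) ^ γ := congrArg Prod.snd h
      rw [mul_left_inj, mul_left_inj] at h3
      rw [h3]
    have hfB : f '' B₁ ⊂ B₂ := by
      constructor
      · rintro _ ⟨⟨g, b⟩, ⟨hg, hb, hgb⟩, rfl⟩
        obtain ⟨h2, h3⟩ := hβ g ⟨b, hb, hgb⟩
        refine ⟨hg, ?_, ?_⟩
        · show ((b * (β g)⁻¹ * (β g) ^ γ : X) : X ⧸ K) = y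
          have h4 : ((b * (β g)⁻¹ * (β g) ^ γ : X) : X ⧸ K) =
              (b : X ⧸ K) * ((β g : X) : X ⧸ K)⁻¹ * ((β g : X) : X ⧸ K) ^ γ := rfl
          have h5 : (b : X ⧸ K) = z * y := hb
          have h6 : Commute (z : X ⧸ K) (y : X ⧸ K) := hzy
          rw [h4, h2, h5, mul_inv_cancel, one_mul, h6.mul_pow, hzγ, hyγ, one_mul]
        · exact (hgb.mul_right h3.inv_right).mul_right (h3.pow_right γ)
      · intro h
        have h2 : (w, y) ∈ B₂ := ⟨(hL1 w).1 hwL, rfl, hwy.symm⟩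
        obtain ⟨⟨g, b⟩, ⟨hg, hb, hgb⟩, hfe⟩ := h h2
        have h3 : g = w := congrArg Prod.fst hfe
        subst h3
        -- `b` inverts `w`
        have h4 : (b : X ⧸ K) = ((z * y : X) : X ⧸ K) := hb
        rw [QuotientGroup.eq] at h4
        have h5 : b = (z * y) * ((z * y)⁻¹ * b) := by group
        have h6 : (z * y)⁻¹ * b ∈ K := by
          have h7 := K.inv_mem h4
          rwa [mul_inv_rev, inv_inv] at h7
        have h8 : b * g * b⁻¹ = g⁻¹ := by
          have h9 := hwK _ h6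
          have h10 : ((z * y)⁻¹ * b) * g * ((z * y)⁻¹ * b)⁻¹ = g := by
            rw [h9, mul_inv_cancel_right]
          calc b * g * b⁻¹ = (z * y) * (((z * y)⁻¹ * b) * g * ((z * y)⁻¹ * b)⁻¹) * (z * y)⁻¹ := by
                group
            _ = z * (y * g * y⁻¹) * z⁻¹ := by rw [h10]; group
            _ = g⁻¹ := by rw [hwy, mul_inv_cancel_right, hwz]
        have h11 : b * g * b⁻¹ = g := by
          have h12 : g * b = b * g := hgb
          rw [← h12, mul_inv_cancel_right]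
        exact hw (h8.symm.trans h11)
    calc B₁.ncard = (f '' B₁).ncard := (Set.ncard_image_of_injective B₁ hfinj).symm
      _ < B₂.ncard := Set.ncard_lt_ncard hfB
  -- second step
  have h2 : B₂.ncard ≤ A₂.ncard := by
    let f : X × X → X × X := fun q => (q.2 ^ (α + 1) * q.1⁻¹, (q.2 ^ α)⁻¹ * q.1)
    refine Set.ncard_le_ncard_of_injOn f ?_ ?_
    · rintro ⟨g, b⟩ ⟨hg, hb, hgb⟩
      have hg' : (g : X ⧸ L) = 1 := hg
      have hb' : (b : X ⧸ K) = y := hb
      have hgb' : Commute g b := hgb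
      have hgK : (g : X ⧸ K) = 1 := hLK g 1 hg'
      have hn0 : ((b * y⁻¹ : X) : X ⧸ K) = 1 := by
        have h3 : ((b * y⁻¹ : X) : X ⧸ K) = (b : X ⧸ K) * (y : X ⧸ K)⁻¹ := rfl
        rw [h3, hb', mul_inv_cancel]
      have h3 := hcom _ (Or.inl hn0)
      have h4 := hα1' _ (Or.inl hn0)
      have h5 : (b : X ⧸ L) = ((b * y⁻¹ : X) : X ⧸ L) * (y : X ⧸ L) := by
        rw [← QuotientGroup.mk_mul, inv_mul_cancel_right]
      have h6 : (b : X ⧸ L) ^ α = (y : X ⧸ L) ^ α := by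
        rw [h5, h3.mul_pow, h4, one_mul]
      refine ⟨?_, ?_, ?_⟩
      · show ((b ^ (α + 1) * g⁻¹ : X) : X ⧸ K) = 1
        have h7 : ((b ^ (α + 1) * g⁻¹ : X) : X ⧸ K) = (b : X ⧸ K) ^ (α + 1) * (g : X ⧸ K)⁻¹ := rfl
        have h8 : (y : X ⧸ K) ^ (α + 1) = 1 := hLK (y ^ (α + 1)) 1 hα2'
        rw [h7, hgK, hb', h8, inv_one, one_mul]
      · show (((b ^ α)⁻¹ * g : X) : X ⧸ L) = y
        have h7 : (((b ^ α)⁻¹ * g : X) : X ⧸ L) = ((b : X ⧸ L) ^ α)⁻¹ * (g : X ⧸ L) := rfl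
        rw [h7, hg', mul_one, h6, inv_eq_iff_mul_eq_one, ← pow_succ]
        exact hα2'
      · have h7 : Commute (b ^ (α + 1)) g := (hgb'.symm).pow_left _
        have h8 : Commute (b ^ (α + 1)) (b ^ α)⁻¹ := ((Commute.refl b).pow_pow _ _).inv_right
        exact (h8.mul_right h7).mul_left
          (((hgb'.inv_left.pow_right α).inv_right).mul_right (Commute.refl g).inv_left)
    · rintro ⟨g, b⟩ ⟨_, _, hgb⟩ ⟨g', b'⟩ ⟨_, _, hgb'⟩ h
      have hgb1 : Commute g b := hgb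
      have hgb1' : Commute g' b' := hgb'
      have h3 : b ^ (α + 1) * g⁻¹ = b' ^ (α + 1) * g'⁻¹ := congrArg Prod.fst h
      have h4 : (b ^ α)⁻¹ * g = (b' ^ α)⁻¹ * g' := congrArg Prod.snd h
      have key : ∀ g b : X, Commute g b → (b ^ (α + 1) * g⁻¹) * ((b ^ α)⁻¹ * g) = b := by
        intro g b hgb
        have h5 : g⁻¹ * (b ^ α)⁻¹ = (b ^ α)⁻¹ * g⁻¹ :=
          ((hgb.inv_left.pow_right α).inv_right).eq
        calc (b ^ (α + 1) * g⁻¹) * ((b ^ α)⁻¹ * g) = b ^ (α + 1) * (g⁻¹ * (b ^ α)⁻¹) * g := by group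
          _ = b ^ (α + 1) * ((b ^ α)⁻¹ * g⁻¹) * g := by rw [h5]
          _ = b := by rw [pow_succ']; group
      have h5 : b = b' := by
        rw [← key g b hgb1, h3, h4, key g' b' hgb1']
      subst h5
      have h6 : g = g' := by
        have h7 := mul_left_cancel h4
        exact h7
      rw [h6]
  -- third step
  have h3 : A₂.ncard ≤ A₁.ncard := by
    have hζ : ∃ ζ : X → X, ∀ x : X, (x : X ⧸ L) = y → ((ζ x : X) : X ⧸ K) = z ∧ Commute (ζ x) x := by
      refine ⟨fun x => if h : (x : X ⧸ L) = y then (hZ x h).choose else 1, ?_⟩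
      intro x hx
      simp only [hx, dif_pos]
      exact (hZ x hx).choose_spec
    obtain ⟨ζ, hζ⟩ := hζ
    refine Set.ncard_le_ncard_of_injOn (fun q => (q.1 * ζ q.2, q.2)) ?_ ?_
    · rintro ⟨n, x⟩ ⟨hn, hx, hnx⟩
      obtain ⟨h4, h5⟩ := hζ x hx
      refine ⟨?_, hx, ?_⟩
      · show ((n * ζ x : X) : X ⧸ K) = z
        have h6 : ((n * ζ x : X) : X ⧸ K) = (n : X ⧸ K) * ((ζ x : X) : X ⧸ K) := rfl
        have h7 : (n : X ⧸ K) = 1 := hn
        rw [h6, h7, h4, one_mul]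
      · exact Commute.mul_left hnx h5
    · rintro ⟨n, x⟩ _ ⟨n', x'⟩ _ h
      have h4 : x = x' := congrArg Prod.snd h
      subst h4
      have h5 : n * ζ x = n' * ζ x := congrArg Prod.fst h
      rw [mul_left_inj] at h5
      rw [h5]
  -- fourth step
  have h4 : A₁.ncard ≤ B₁.ncard := by
    refine Set.ncard_le_ncard_of_injOn (fun q => (q.1 ^ α * q.2 ^ (α + 1), q.1 * q.2)) ?_ ?_
    · rintro ⟨n, x⟩ ⟨hn, hx, hnx⟩
      have hn' : (n : X ⧸ K) = z := hn
      have hx' : (x : X ⧸ L) = y := hx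
      have hnx' : Commute n x := hnx
      refine ⟨?_, ?_, ?_⟩
      · show ((n ^ α * x ^ (α + 1) : X) : X ⧸ L) = 1
        have h5 : ((n ^ α * x ^ (α + 1) : X) : X ⧸ L) =
            (n : X ⧸ L) ^ α * (x : X ⧸ L) ^ (α + 1) := rfl
        rw [h5, hx', hα2', hα1' n (Or.inr hn'), one_mul]
      · show ((n * x : X) : X ⧸ K) = z * y
        have h5 : ((n * x : X) : X ⧸ K) = (n : X ⧸ K) * (x : X ⧸ K) := rfl
        rw [h5, hn', hLK x y hx']
      · have h5 : Commute n (n ^ α * x ^ (α + 1)) :=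
          ((Commute.refl n).pow_right α).mul_right (hnx'.pow_right _)
        have h6 : Commute x (n ^ α * x ^ (α + 1)) :=
          ((hnx'.symm).pow_right α).mul_right ((Commute.refl x).pow_right _)
        exact ((h5.mul_left h6)).symm
    · rintro ⟨n, x⟩ ⟨_, _, hnx⟩ ⟨n', x'⟩ ⟨_, _, hnx'⟩ h
      have hnx1 : Commute n x := hnx
      have hnx1' : Commute n' x' := hnx'
      have h5 : n ^ α * x ^ (α + 1) = n' ^ α * x' ^ (α + 1) := congrArg Prod.fst h
      have h6 : n * x = n' * x' := congrArg Prod.snd h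
      have key : ∀ n x : X, Commute n x → (n * x) ^ (α + 1) * (n ^ α * x ^ (α + 1))⁻¹ = n := by
        intro n x hnx
        rw [hnx.mul_pow, mul_inv_rev, ← mul_assoc, mul_inv_cancel_right, pow_succ']
        group
      have h7 : n = n' := by
        rw [← key n x hnx1, h5, h6, key n' x' hnx1']
      subst h7
      rw [mul_right_inj] at h6
      rw [h6]
  omega

end Comm

end Pool.Agent.Lib.MP_3c3661_al
end

section

/-!
Two-subgroups with fixed points and the inversion of `p`-parts.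
-/

set_option autoImplicit false

namespace Pool.Agent.Lib.MP_3c3661_al

section Exponents

/-- An exponent which is `-1` modulo `p ^ b` and `1` modulo `s` after taking `k`-th powers. -/
lemma exists_exponent {k m p b s : ℕ} (hp : p.Prime) (hp2 : p ≠ 2) (hk : 0 < k) (hm : 0 < m)
    (hdvd : p ^ b * s ∣ m) (hps : s.Coprime p) (hu : ∃ u : ZMod p, u ^ k = -1) :
    ∃ j : ℕ, j.Coprime m ∧ p ^ b ∣ j ^ k + 1 ∧ j ^ k ≡ 1 [MOD s] := by
  have : Fact p.Prime := ⟨hp⟩
  obtain ⟨u, hu⟩ := hu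
  -- lift to an integer
  have h1 : (p : ℤ) ∣ (u.val : ℤ) ^ k - (-1) := by
    rw [← ZMod.intCast_zmod_eq_zero_iff_dvd]
    push_cast
    rw [ZMod.natCast_val, ZMod.cast_id, hu]
    ring
  have hodd : Odd (p ^ b) := (hp.odd_of_ne_two hp2).pow
  have h2 := dvd_sub_pow_of_dvd_sub h1 b
  rw [hodd.neg_one_pow, ← pow_mul, mul_comm k, pow_mul] at h2
  set e : ℕ := u.val ^ (p ^ b) with he
  have h3 : ((p ^ (b + 1) : ℕ) : ℤ) ∣ ((e ^ k : ℕ) : ℤ) + 1 := by
    rw [he]
    push_cast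
    simpa using h2
  have h4 : ((p ^ b : ℕ) : ℤ) ∣ ((e ^ k : ℕ) : ℤ) + 1 := by
    refine dvd_trans ?_ h3
    exact_mod_cast pow_dvd_pow p (Nat.le_succ b)
  have h5 : ¬ p ∣ e := by
    intro h
    have h6 : (p : ℤ) ∣ ((e ^ k : ℕ) : ℤ) + 1 := by
      refine dvd_trans ?_ h3
      exact_mod_cast dvd_pow_self p (Nat.succ_ne_zero b)
    have h7 : (p : ℤ) ∣ ((e ^ k : ℕ) : ℤ) := by
      exact_mod_cast dvd_pow h hk.ne'
    have h8 : (p : ℤ) ∣ 1 := (dvd_add_right h7).1 h6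
    have h9 : p ∣ 1 := by exact_mod_cast h8
    exact hp.one_lt.ne' (Nat.dvd_one.1 h9)
  have hcop : (p ^ b).Coprime s := (hps.symm).pow_left b
  obtain ⟨j₂, hj1, hj2⟩ := Nat.chineseRemainder hcop e 1
  have hj₂ : j₂.Coprime (p ^ b * s) := by
    apply Nat.Coprime.mul_right
    · have h6 : j₂.gcd (p ^ b) = e.gcd (p ^ b) := Nat.ModEq.gcd_eq hj1
      rw [Nat.coprime_iff_gcd_eq_one, h6, ← Nat.coprime_iff_gcd_eq_one]
      exact Nat.Coprime.pow_right b ((hp.coprime_iff_not_dvd.2 h5).symm)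
    · have h6 : j₂.gcd s = (1 : ℕ).gcd s := Nat.ModEq.gcd_eq hj2
      rw [Nat.coprime_iff_gcd_eq_one, h6, Nat.gcd_one_left]
  obtain ⟨j, hj, hjj⟩ := exists_coprime_lift hm hdvd (ZMod.unitOfCoprime j₂ hj₂)
  rw [ZMod.coe_unitOfCoprime] at hjj
  have hjmod : j ≡ j₂ [MOD (p ^ b * s)] := (ZMod.natCast_eq_natCast_iff _ _ _).1 hjj
  refine ⟨j, hj, ?_, ?_⟩
  · have h6 : j ≡ e [MOD p ^ b] := (hjmod.of_mul_right s).trans hj1
    have h7 : ((p ^ b : ℕ) : ℤ) ∣ ((e ^ k : ℕ) : ℤ) - ((j ^ k : ℕ) : ℤ) :=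
      (Nat.modEq_iff_dvd).1 (h6.pow k)
    have h8 := dvd_sub h4 h7
    have h9 : ((e ^ k : ℕ) : ℤ) + 1 - (((e ^ k : ℕ) : ℤ) - ((j ^ k : ℕ) : ℤ)) =
        ((j ^ k : ℕ) : ℤ) + 1 := by ring
    rw [h9] at h8
    exact_mod_cast h8
  · have h6 : j ≡ 1 [MOD s] := (hjmod.of_mul_left (p ^ b)).trans hj2
    simpa using h6.pow k

end Exponents

section Two

variable {G : Type*} [Group G]

/-- A subgroup contains `c` if it contains two powers with coprime exponents. -/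
lemma mem_of_pow_mem_of_coprime {H : Subgroup G} {c : G} {a b : ℕ} (hab : a.Coprime b)
    (ha : c ^ a ∈ H) (hb : c ^ b ∈ H) : c ∈ H := by
  have h1 : ((1 : ℕ) : ℤ) = a * a.gcdA b + b * a.gcdB b := by
    rw [← Nat.gcd_eq_gcd_ab, hab]
  have h2 : c = (c ^ a) ^ (a.gcdA b) * (c ^ b) ^ (a.gcdB b) := by
    rw [← zpow_natCast, ← zpow_natCast, ← zpow_mul, ← zpow_mul, ← zpow_add, ← h1]
    simp
  rw [h2]
  exact H.mul_mem (H.zpow_mem ha _) (H.zpow_mem hb _)

/-- If `c` and `h` commute and have coprime orders then `c` and `h` are powers of `c h`. -/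
lemma exists_pow_eq_of_coprime {c h : G} (hch : Commute c h) 
    (hcop : (orderOf c).Coprime (orderOf h)) : ∃ e : ℕ, (c * h) ^ e = h := by
  obtain ⟨e, h1, h2⟩ := Nat.chineseRemainder hcop 0 1
  refine ⟨e, ?_⟩
  rw [hch.mul_pow]
  obtain ⟨x, hx⟩ := (Nat.modEq_zero_iff_dvd).1 h1
  have h3 : c ^ e = 1 := by rw [hx, pow_mul, pow_orderOf_eq_one, one_pow]
  have h4 : h ^ e = h ^ 1 := pow_eq_pow_iff_modEq.2 h2
  rw [h3, h4, one_mul, pow_one]

variable {M R : Subgroup G} {h : G}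

/-- conjugation by a normalising element preserves the fixed points -/
lemma conj_mem_fixed (hM : M.Normal) {n : G} (hn : n ∈ Subgroup.normalizer (R : Set G)) {w : G}
    (hw : w ∈ M ⊓ Subgroup.centralizer (R : Set G)) :
    n * w * n⁻¹ ∈ M ⊓ Subgroup.centralizer (R : Set G) := by
  refine Subgroup.mem_inf.2 ⟨hM.conj_mem w hw.1 n, ?_⟩
  rw [Subgroup.mem_centralizer_iff]
  intro r hr
  have h1 : n⁻¹ * r * n ∈ R := by
    have := (Subgroup.mem_normalizer_iff.1 ((Subgroup.normalizer (R : Set G)).inv_mem hn) r).1 hr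
    simpa using this
  have h2 : n⁻¹ * r * n * w = w * (n⁻¹ * r * n) := Subgroup.mem_centralizer_iff.1 hw.2 _ h1
  calc r * (n * w * n⁻¹) = n * (n⁻¹ * r * n * w) * n⁻¹ := by group
    _ = n * (w * (n⁻¹ * r * n)) * n⁻¹ := by rw [h2]
    _ = n * w * n⁻¹ * r := by group

lemma isPGroup_sup_zpowers (hR : IsPGroup 2 R) {n : G}
    (hn : n ∈ Subgroup.normalizer (R : Set G)) (hn2 : n ^ 2 ∈ R) :
    IsPGroup 2 (R ⊔ Subgroup.zpowers n : Subgroup G) := by
  have h1 : IsPGroup 2 (Subgroup.zpowers n) := by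
    obtain ⟨b, hb⟩ := hR ⟨n ^ 2, hn2⟩
    have hb' : (n ^ 2) ^ (2 ^ b) = 1 := congrArg Subtype.val hb
    rw [← pow_mul, ← pow_succ'] at hb'
    have h2 : orderOf n ∣ 2 ^ (b + 1) := orderOf_dvd_of_pow_eq_one hb'
    obtain ⟨c, -, hc⟩ := (Nat.dvd_prime_pow Nat.prime_two).1 h2
    exact IsPGroup.of_card (n := c) (by rw [Nat.card_zpowers, hc])
  exact IsPGroup.to_sup_of_normal_left' hR h1 (by rwa [Subgroup.zpowers_le])

lemma MaxTwo.eq_bot (hd : MaxTwo M h R) {n : G}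
    (hn : n ∈ Subgroup.normalizer (R : Set G)) (hnh : Commute n h) (hnR : n ∉ R)
    (hn2 : n ^ 2 ∈ R) :
    M ⊓ Subgroup.centralizer ((R ⊔ Subgroup.zpowers n : Subgroup G) : Set G) = ⊥ := by
  by_contra hne
  have h1 := hd.max _ (isPGroup_sup_zpowers hd.two hn hn2) le_sup_left
    (sup_le hd.le (by
      rw [Subgroup.zpowers_le]
      exact Subgroup.mem_centralizer_singleton_iff.2 hnh)) hne
  apply hnR
  rw [← h1]
  exact Subgroup.mem_sup_right (Subgroup.mem_zpowers n)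

/-- **Involutions of `N_{C(h)}(R) / R` act as inversion on `C_M(R)`.** -/
lemma MaxTwo.inverts (hM : M.Normal) (hcomm : ∀ a ∈ M, ∀ b ∈ M, a * b = b * a)
    (hd : MaxTwo M h R) {n : G}
    (hn : n ∈ Subgroup.normalizer (R : Set G)) (hnh : Commute n h) (hnR : n ∉ R)
    (hn2 : n ^ 2 ∈ R) {w : G} (hw : w ∈ M ⊓ Subgroup.centralizer (R : Set G)) :
    n * w * n⁻¹ = w⁻¹ := by
  have h1 := conj_mem_fixed hM hn hw
  have h2 : w * (n * w * n⁻¹) ∈ M ⊓ Subgroup.centralizer (R : Set G) := Subgroup.mul_mem _ hw h1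
  have h3 : w * (n * w * n⁻¹) ∈
      M ⊓ Subgroup.centralizer ((R ⊔ Subgroup.zpowers n : Subgroup G) : Set G) := by
    refine Subgroup.mem_inf.2 ⟨h2.1, ?_⟩
    have h4 : R ⊔ Subgroup.zpowers n ≤ Subgroup.centralizer {w * (n * w * n⁻¹)} := by
      apply sup_le
      · intro r hr
        exact Subgroup.mem_centralizer_singleton_iff.2 (Subgroup.mem_centralizer_iff.1 h2.2 r hr)
      · rw [Subgroup.zpowers_le]
        apply Subgroup.mem_centralizer_singleton_iff.2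
        have h5 : n ^ 2 * w = w * n ^ 2 := Subgroup.mem_centralizer_iff.1 hw.2 _ hn2
        have h6 : w * (n * w * n⁻¹) = (n * w * n⁻¹) * w := hcomm w hw.1 _ h1.1
        calc n * (w * (n * w * n⁻¹)) = (n * w * n⁻¹) * (n ^ 2 * w) * n⁻¹ := by
              rw [pow_two]; group
          _ = (n * w * n⁻¹) * (w * n ^ 2) * n⁻¹ := by rw [h5]
          _ = ((n * w * n⁻¹) * w) * n := by rw [pow_two]; group
          _ = w * (n * w * n⁻¹) * n := by rw [h6]
    rw [Subgroup.mem_centralizer_iff]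
    intro z hz
    exact Subgroup.mem_centralizer_singleton_iff.1 (h4 hz)
  rw [hd.eq_bot hn hnh hnR hn2, Subgroup.mem_bot] at h3
  exact eq_inv_of_mul_eq_one_right h3

lemma pow_conj_iter {g u : G} {J : ℕ} (h : g * u * g⁻¹ = u ^ J) (i : ℕ) :
    g ^ i * u * (g ^ i)⁻¹ = u ^ (J ^ i) := by
  induction i with
  | zero => simp
  | succ i ih =>
    have h1 : g ^ (i + 1) * u * (g ^ (i + 1))⁻¹ = g * (g ^ i * u * (g ^ i)⁻¹) * g⁻¹ := by
      rw [pow_succ']; group
    rw [h1, ih, ← conj_pow, h, ← pow_mul, pow_succ']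

/-- If the maximal subgroup `R` is strictly contained in a `2`-subgroup `T` then some element of
`T` normalises `R` and has order `2` modulo `R`. -/
lemma exists_normalizing [Finite G] {R T : Subgroup G} (hT : IsPGroup 2 T) (hRT : R < T) :
    ∃ n ∈ T, n ∈ Subgroup.normalizer (R : Set G) ∧ n ∉ R ∧ n ^ 2 ∈ R := by
  classical
  have : Fact (Nat.Prime 2) := ⟨Nat.prime_two⟩
  have hnil : Group.IsNilpotent T := hT.isNilpotent
  have hlt : R.subgroupOf T < ⊤ := by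
    rw [lt_top_iff_ne_top]
    intro h
    rw [Subgroup.subgroupOf_eq_top] at h
    exact absurd h (not_le_of_gt hRT)
  obtain ⟨n, hn, hnR⟩ := SetLike.exists_of_lt (Group.normalizerCondition_of_isNilpotent _ hlt)
  have hnN : (n : G) ∈ Subgroup.normalizer (R : Set G) := by
    apply Subgroup.mem_normalizer_fintype
    intro r hr
    have h1 := (Subgroup.mem_normalizer_iff.1 hn ⟨r, hRT.le hr⟩).1 hr
    exact h1
  obtain ⟨b, hb⟩ := hT n
  have hex : ∃ x, (n : G) ^ (2 ^ x) ∈ R := ⟨b, by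
    have : ((n : G)) ^ (2 ^ b) = 1 := by
      have := congrArg Subtype.val hb
      exact this
    rw [this]
    exact R.one_mem⟩
  have hx := Nat.find_spec hex
  have hx0 : Nat.find hex ≠ 0 := by
    intro h0
    rw [h0, pow_zero, pow_one] at hx
    exact hnR hx
  obtain ⟨x, hx1⟩ := Nat.exists_eq_succ_of_ne_zero hx0
  refine ⟨(n : G) ^ (2 ^ x), T.pow_mem n.2 _, Subgroup.pow_mem _ hnN _, ?_, ?_⟩
  · exact Nat.find_min hex (by omega)
  · rw [← pow_mul, ← pow_succ]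
    rw [hx1] at hx
    exact hx

/-- **The Frattini argument** for a `2`-subgroup `R` which is a maximal `2`-subgroup of `S`. -/
lemma frattini_two [Finite G] {R S : Subgroup G} (hR : IsPGroup 2 R) (hRS : R ≤ S)
    (hmax : ∀ T : Subgroup G, IsPGroup 2 T → R ≤ T → T ≤ S → T = R) {g : G}
    (hg : ∀ z ∈ R, g * z * g⁻¹ ∈ S) :
    ∃ s ∈ S, s⁻¹ * g ∈ Subgroup.normalizer (R : Set G) := by
  classical
  have : Fact (Nat.Prime 2) := ⟨Nat.prime_two⟩
  obtain ⟨T, hT⟩ := (hR.comap_subtype (K := S)).exists_le_sylow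
  have hRT : R.subgroupOf S = (T : Subgroup S) := by
    have h1 : (T : Subgroup S).map S.subtype = R := by
      refine hmax _ (T.isPGroup'.map _) ?_ ?_
      · intro r hr
        exact ⟨⟨r, hRS hr⟩, hT hr, rfl⟩
      · rintro _ ⟨z, _, rfl⟩
        exact z.2
    apply le_antisymm hT
    intro z hz
    show (z : G) ∈ R
    rw [← h1]
    exact ⟨z, hz, rfl⟩
  let Rg : Subgroup G := R.map (MulAut.conj g).toMonoidHom
  have hRgS : Rg ≤ S := by
    rintro _ ⟨z, hz, rfl⟩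
    exact hg z hz
  have hRgcard : Nat.card Rg = Nat.card R :=
    Subgroup.card_map_of_injective (MulAut.conj g).injective
  obtain ⟨P₃, hP₃⟩ := ((hR.map (MulAut.conj g).toMonoidHom).comap_subtype
    (K := S)).exists_le_sylow
  have hcard3 : Nat.card P₃ = Nat.card T := by
    rw [Sylow.card_eq_multiplicity, Sylow.card_eq_multiplicity]
  have hcard1 : Nat.card T = Nat.card R := by
    have h1 : Nat.card (R.subgroupOf S) = Nat.card R :=
      Nat.card_congr (Subgroup.subgroupOfEquivOfLe hRS).toEquiv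
    rw [← h1, hRT]
  have hcard2 : Nat.card (Rg.subgroupOf S) = Nat.card Rg :=
    Nat.card_congr (Subgroup.subgroupOfEquivOfLe hRgS).toEquiv
  have hP₂ : Rg.subgroupOf S = (P₃ : Subgroup S) := by
    have hP₃' : Rg.subgroupOf S ≤ (P₃ : Subgroup S) := hP₃
    apply Subgroup.eq_of_le_of_card_ge hP₃'
    rw [hcard2, hRgcard, ← hcard1]
    exact hcard3.le
  obtain ⟨s₀, hs₀⟩ := MulAction.exists_smul_eq S T P₃
  refine ⟨s₀, s₀.2, Subgroup.mem_normalizer_fintype ?_⟩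
  intro z hz
  have h1 : (⟨g * z * g⁻¹, hg z hz⟩ : S) ∈ (P₃ : Subgroup S) := by
    rw [← hP₂, Subgroup.mem_subgroupOf]
    exact ⟨z, hz, rfl⟩
  rw [← hs₀, Sylow.coe_subgroup_smul, Subgroup.mem_pointwise_smul_iff_inv_smul_mem, ← hRT,
    Subgroup.mem_subgroupOf] at h1
  have h3 : (((MulAut.conj s₀)⁻¹ • (⟨g * z * g⁻¹, hg z hz⟩ : S) : S) : G)
      = (s₀ : G)⁻¹ * (g * z * g⁻¹) * s₀ := by
    rw [← map_inv, MulAut.smul_def, MulAut.conj_apply, inv_inv]
    rfl
  rw [h3] at h1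
  have h4 : ((s₀ : G)⁻¹ * g) * z * ((s₀ : G)⁻¹ * g)⁻¹ = (s₀ : G)⁻¹ * (g * z * g⁻¹) * s₀ := by
    group
  rw [h4]
  exact h1

end Two

end Pool.Agent.Lib.MP_3c3661_al
end

section

/-!
The key lemma: elements acting as nontrivial `p`-elements commute with involutions.
-/

set_option autoImplicit false

namespace Pool.Agent.Lib.MP_3c3661_al

section Two

variable {G : Type*} [Group G] {M R : Subgroup G} {h : G}

/-- **The key lemma.** If `c ∈ C(R)` has odd order and acts on `C_M(R)` as a nontrivial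
`p`-element then `c` commutes with an element of `N_{C(h)}(R)` of order `2` modulo `R`. -/
theorem MaxTwo.exists_commuting [Finite G] {p : ℕ} [Fact p.Prime] {k m : ℕ} (hk : 0 < k)
    (hm : 0 < m) (hcard : Nat.card G ∣ m) (hG : PowConj k m G) (hp2 : p ≠ 2)
    (hu : ∃ u : ZMod p, u ^ k = -1) (hM : M.Normal) (hcomm : ∀ a ∈ M, ∀ b ∈ M, a * b = b * a)
    (hd : MaxTwo M h R) {c : G} (hcR : c ∈ Subgroup.centralizer (R : Set G))
    (hcodd : ¬ 2 ∣ orderOf c)
    (hcp : ∃ i, c ^ (p ^ i) ∈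
      Subgroup.centralizer ((M ⊓ Subgroup.centralizer (R : Set G) : Subgroup G) : Set G))
    (hcn : c ∉ Subgroup.centralizer ((M ⊓ Subgroup.centralizer (R : Set G) : Subgroup G) : Set G)) :
    ∃ n ∈ Subgroup.normalizer (R : Set G), Commute n h ∧ n ∉ R ∧ n ^ 2 ∈ R ∧ Commute n c := by
  classical
  have hp : p.Prime := Fact.out
  have : Fact (Nat.Prime 2) := ⟨Nat.prime_two⟩
  set W : Subgroup G := M ⊓ Subgroup.centralizer (R : Set G) with hW
  set CW : Subgroup G := Subgroup.centralizer (W : Set G) with hCW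
  have hch : Commute c h := (Subgroup.mem_centralizer_iff.1 hcR h hd.mem).symm
  -- orders
  obtain ⟨a, ha⟩ : ∃ a, orderOf h = 2 ^ a := by
    obtain ⟨a, ha⟩ := hd.two ⟨h, hd.mem⟩
    have ha' : h ^ (2 ^ a) = 1 := congrArg Subtype.val ha
    obtain ⟨b, -, hb⟩ := (Nat.dvd_prime_pow Nat.prime_two).1 (orderOf_dvd_of_pow_eq_one ha')
    exact ⟨b, hb⟩
  have hcop : (orderOf c).Coprime (orderOf h) := by
    rw [ha]
    exact Nat.Coprime.pow_right a (Nat.prime_two.coprime_iff_not_dvd.2 hcodd).symm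
  obtain ⟨e₃, he₃⟩ := exists_pow_eq_of_coprime hch hcop
  obtain ⟨e₄, he₄⟩ : ∃ e, (c * h) ^ e = c := by
    obtain ⟨e, he⟩ := exists_pow_eq_of_coprime hch.symm hcop.symm
    exact ⟨e, by rw [hch.eq]; exact he⟩
  set u : G := c * h with hu'
  have hordu : orderOf u = orderOf c * orderOf h := hch.orderOf_mul_eq_mul_orderOf_of_coprime hcop
  let S : Subgroup G := Subgroup.centralizer {u}
  have hSu : ∀ z, z ∈ S ↔ Commute z u := fun z => Subgroup.mem_centralizer_singleton_iff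
  have hS : ∀ z, z ∈ S → Commute z c ∧ Commute z h := by
    intro z hz
    have h1 := (hSu z).1 hz
    have h2 := h1.pow_right e₃
    have h3 := h1.pow_right e₄
    rw [he₃] at h2
    rw [he₄] at h3
    exact ⟨h3, h2⟩
  have hRc : ∀ r ∈ R, Commute r c := fun r hr => Subgroup.mem_centralizer_iff.1 hcR r hr
  have hRh : ∀ r ∈ R, Commute r h := fun r hr =>
    Subgroup.mem_centralizer_singleton_iff.1 (hd.le hr)
  have hRS : R ≤ S := fun r hr => (hSu r).2 ((hRc r hr).mul_right (hRh r hr))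
  by_cases hRT : ∀ T : Subgroup G, IsPGroup 2 T → R ≤ T → T ≤ S → T = R
  · exfalso
    -- exponents
    obtain ⟨b, s, hps, hos⟩ := Nat.exists_eq_pow_mul_and_not_dvd (orderOf_pos c).ne' p hp.ne_one
    have hs'p : (s * 2 ^ a).Coprime p := by
      apply Nat.Coprime.mul_left
      · exact (hp.coprime_iff_not_dvd.2 hps).symm
      · exact Nat.Coprime.pow_left a ((Nat.coprime_primes Nat.prime_two hp).2 (Ne.symm hp2))
    have hordu' : orderOf u = p ^ b * (s * 2 ^ a) := by rw [hordu, ha, hos, mul_assoc]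
    have hdvd : p ^ b * (s * 2 ^ a) ∣ m := by
      rw [← hordu']
      exact (orderOf_dvd_natCard u).trans hcard
    obtain ⟨j, hj, hj1, hj2⟩ := exists_exponent hp hp2 hk hm hdvd hs'p hu
    obtain ⟨g, hg⟩ := hG j hj u
    set J : ℕ := j ^ k with hJ
    have hJcop : J.Coprime (orderOf u) :=
      (Nat.Coprime.coprime_dvd_right ((orderOf_dvd_natCard u).trans hcard) hj).pow_left k
    -- the conjugate of `R`
    obtain ⟨x, hx⟩ := exists_pow_eq_self_of_coprime hJcop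
    have hconjS : ∀ z ∈ R, g * z * g⁻¹ ∈ S := by
      intro z hz
      rw [hSu]
      have h1 : Commute z u := (hSu z).1 (hRS hz)
      have h2 : Commute (g * z * g⁻¹) (u ^ J) := by
        rw [← hg]
        show (g * z * g⁻¹) * (g * u * g⁻¹) = (g * u * g⁻¹) * (g * z * g⁻¹)
        calc (g * z * g⁻¹) * (g * u * g⁻¹) = g * (z * u) * g⁻¹ := by group
          _ = g * (u * z) * g⁻¹ := by rw [h1.eq]
          _ = (g * u * g⁻¹) * (g * z * g⁻¹) := by group
      have h3 := h2.pow_right x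
      rwa [hx] at h3
    obtain ⟨s₀, hs₀, hg₁N⟩ := frattini_two hd.two hRS hRT hconjS
    set g₁ : G := s₀⁻¹ * g with hg₁
    have hg₁u : g₁ * u * g₁⁻¹ = u ^ J := by
      have h5 : Commute s₀⁻¹ (u ^ J) := (((hSu _).1 hs₀).inv_left).pow_right J
      calc g₁ * u * g₁⁻¹ = s₀⁻¹ * (g * u * g⁻¹) * s₀ := by rw [hg₁]; group
        _ = s₀⁻¹ * u ^ J * s₀ := by rw [hg]
        _ = u ^ J := by rw [h5.eq, inv_mul_cancel_right]
    -- the `2`-part
    obtain ⟨x₂, ν, hν, hν'⟩ := Nat.exists_eq_pow_mul_and_not_dvd (orderOf_pos g₁).ne' 2 (by norm_num)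
    have hνodd : Odd ν := by
      rw [← Nat.not_even_iff_odd, even_iff_two_dvd]; exact hν
    set g' : G := g₁ ^ ν with hg'
    have hg'N : g' ∈ Subgroup.normalizer (R : Set G) := Subgroup.pow_mem _ hg₁N ν
    have hg'2 : g' ^ (2 ^ x₂) = 1 := by
      rw [hg', ← pow_mul, mul_comm, ← hν', pow_orderOf_eq_one]
    have hg'u : g' * u * g'⁻¹ = u ^ (J ^ ν) := pow_conj_iter hg₁u ν
    have hJν1 : p ^ b ∣ J ^ ν + 1 := by
      have h1 := Odd.nat_add_dvd_pow_add_pow J 1 hνodd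
      rw [one_pow] at h1
      exact hj1.trans h1
    have hJν2 : J ^ ν ≡ 1 [MOD s * 2 ^ a] := by simpa using hj2.pow ν
    -- `g' ^ 2` centralises `u`
    have hg'S : g' ^ 2 ∈ S := by
      rw [hSu]
      have h1 := pow_conj_iter hg'u 2
      have h2 : u ^ ((J ^ ν) ^ 2) = u ^ 1 := by
        rw [pow_eq_pow_iff_modEq, hordu']
        have hc' : (p ^ b).Coprime (s * 2 ^ a) := (hs'p.symm).pow_left b
        refine (Nat.modEq_and_modEq_iff_modEq_mul hc').1 ⟨?_, by simpa using hJν2.pow 2⟩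
        have h3 : ((p ^ b : ℕ) : ℤ) ∣ ((J ^ ν : ℕ) : ℤ) + 1 := by exact_mod_cast hJν1
        apply Nat.ModEq.symm
        rw [Nat.modEq_iff_dvd]
        have h4 : ((((J ^ ν) ^ 2 : ℕ)) : ℤ) - ((1 : ℕ) : ℤ) =
            (((J ^ ν : ℕ) : ℤ) + 1) * (((J ^ ν : ℕ) : ℤ) - 1) := by push_cast; ring
        rw [h4]
        exact dvd_mul_of_dvd_left h3 _
      rw [h2, pow_one] at h1
      exact mul_inv_eq_iff_eq_mul.1 h1
    have hg'R : g' ^ 2 ∈ R := by
      have h1 : IsPGroup 2 (Subgroup.zpowers (g' ^ 2)) := by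
        have h2 : (g' ^ 2) ^ (2 ^ x₂) = 1 := by rw [← pow_mul, mul_comm, pow_mul, hg'2, one_pow]
        obtain ⟨y, -, hy⟩ := (Nat.dvd_prime_pow Nat.prime_two).1 (orderOf_dvd_of_pow_eq_one h2)
        exact IsPGroup.of_card (n := y) (by rw [Nat.card_zpowers, hy])
      have h2 : IsPGroup 2 (R ⊔ Subgroup.zpowers (g' ^ 2) : Subgroup G) :=
        IsPGroup.to_sup_of_normal_left' hd.two h1 (by
          rw [Subgroup.zpowers_le]; exact Subgroup.pow_mem _ hg'N 2)
      have h3 := hRT _ h2 le_sup_left (sup_le hRS (by rwa [Subgroup.zpowers_le]))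
      rw [← h3]
      exact Subgroup.mem_sup_right (Subgroup.mem_zpowers (g' ^ 2))
    have hg'h : Commute g' h := by
      have h1 : g' * h * g'⁻¹ = h := by
        calc g' * h * g'⁻¹ = (g' * u * g'⁻¹) ^ e₃ := by rw [conj_pow, he₃]
          _ = h ^ (J ^ ν) := by rw [hg'u, ← pow_mul, mul_comm, pow_mul, he₃]
          _ = h ^ 1 := by
              rw [pow_eq_pow_iff_modEq, ha]
              exact hJν2.of_mul_left s
          _ = h := pow_one h
      exact mul_inv_eq_iff_eq_mul.1 h1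
    -- the `p`-part
    have hb0 : b ≠ 0 := by
      rintro rfl
      obtain ⟨i, hi⟩ := hcp
      apply hcn
      have h1 : (orderOf c).Coprime (p ^ i) := by
        rw [hos, pow_zero, one_mul]
        exact Nat.Coprime.pow_right i (hp.coprime_iff_not_dvd.2 hps).symm
      exact mem_of_pow_mem_of_coprime h1 (by rw [pow_orderOf_eq_one]; exact CW.one_mem) hi
    obtain ⟨e, he1, he2⟩ := Nat.chineseRemainder ((hs'p.symm).pow_left b) 1 0
    set cp : G := u ^ e with hcpdef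
    have hcpc : cp = c ^ e := by
      rw [hcpdef, hu', hch.mul_pow]
      obtain ⟨y, hy⟩ := (Nat.modEq_zero_iff_dvd).1 he2
      have h1 : h ^ e = 1 := by
        rw [hy, mul_comm s, mul_assoc, pow_mul, ← ha, pow_orderOf_eq_one, one_pow]
      rw [h1, mul_one]
    have hcpn : cp ∉ CW := by
      intro h1
      obtain ⟨i, hi⟩ := hcp
      apply hcn
      refine mem_of_pow_mem_of_coprime (a := e) (b := p ^ i) ?_ (by rw [← hcpc]; exact h1) hi
      apply Nat.Coprime.pow_right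
      have h2 : e ≡ 1 [MOD p] := he1.of_dvd (dvd_pow_self p hb0)
      have h3 : e.gcd p = (1 : ℕ).gcd p := Nat.ModEq.gcd_eq h2
      rw [Nat.coprime_iff_gcd_eq_one, h3, Nat.gcd_one_left]
    have hcppow : cp ^ (p ^ b) = 1 := by
      rw [hcpdef, ← pow_mul]
      apply orderOf_dvd_iff_pow_eq_one.1
      rw [hordu', mul_comm]
      exact Nat.mul_dvd_mul ((Nat.modEq_zero_iff_dvd).1 he2) dvd_rfl
    have hcpinv : g' * cp * g'⁻¹ = cp⁻¹ := by
      have h1 : cp ^ (J ^ ν + 1) = 1 := by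
        obtain ⟨y, hy⟩ := hJν1
        rw [hy, pow_mul, hcppow, one_pow]
      rw [pow_succ] at h1
      calc g' * cp * g'⁻¹ = (g' * u * g'⁻¹) ^ e := by rw [conj_pow]
        _ = cp ^ (J ^ ν) := by rw [hg'u, ← pow_mul, mul_comm, pow_mul]
        _ = cp⁻¹ := eq_inv_of_mul_eq_one_left h1
    have h2cop : Nat.Coprime 2 (p ^ b) :=
      Nat.Coprime.pow_right b ((Nat.coprime_primes Nat.prime_two hp).2 (Ne.symm hp2))
    have hg'nR : g' ∉ R := by
      intro h1
      have h2 : Commute g' cp := ((hRc g' h1).mul_right (hRh g' h1)).pow_right e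
      have h3 : cp = cp⁻¹ := by
        rw [← hcpinv, h2.eq, mul_inv_cancel_right]
      have h4 : cp ^ 2 = 1 := by
        rw [pow_two]
        exact mul_eq_one_iff_eq_inv.2 h3
      apply hcpn
      exact mem_of_pow_mem_of_coprime h2cop (by rw [h4]; exact CW.one_mem)
        (by rw [hcppow]; exact CW.one_mem)
    -- the contradiction
    have hcpR : cp ∈ Subgroup.centralizer (R : Set G) := by
      rw [hcpc]; exact Subgroup.pow_mem _ hcR e
    have hcpN : cp ∈ Subgroup.normalizer (R : Set G) := by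
      apply Subgroup.mem_normalizer_fintype
      intro r hr
      have h1 : r * cp = cp * r := Subgroup.mem_centralizer_iff.1 hcpR r hr
      rw [← h1, mul_inv_cancel_right]
      exact hr
    apply hcpn
    refine mem_of_pow_mem_of_coprime h2cop ?_ (by rw [hcppow]; exact CW.one_mem)
    rw [hCW, Subgroup.mem_centralizer_iff]
    intro w hw
    have hw' : w⁻¹ ∈ W := W.inv_mem hw
    have h1 := hd.inverts hM hcomm hg'N hg'h hg'nR hg'R hw
    have h2 := hd.inverts hM hcomm hg'N hg'h hg'nR hg'R (conj_mem_fixed hM hcpN hw)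
    have h3 : g' * (cp * w * cp⁻¹) * g'⁻¹ = cp⁻¹ * w⁻¹ * cp := by
      calc g' * (cp * w * cp⁻¹) * g'⁻¹ =
          (g' * cp * g'⁻¹) * (g' * w * g'⁻¹) * (g' * cp * g'⁻¹)⁻¹ := by group
        _ = cp⁻¹ * w⁻¹ * cp := by rw [hcpinv, h1, inv_inv]
    rw [h3] at h2
    have h4 : cp⁻¹ * w⁻¹ * cp = cp * w⁻¹ * cp⁻¹ := by rw [h2]; group
    have h5 : w⁻¹ * cp ^ 2 = cp ^ 2 * w⁻¹ := by
      calc w⁻¹ * cp ^ 2 = cp * (cp⁻¹ * w⁻¹ * cp) * cp := by rw [pow_two]; group
        _ = cp * (cp * w⁻¹ * cp⁻¹) * cp := by rw [h4]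
        _ = cp ^ 2 * w⁻¹ := by rw [pow_two]; group
    have h6 : Commute w⁻¹ (cp ^ 2) := h5
    have h7 := h6.inv_left
    rw [inv_inv] at h7
    exact h7.eq
  · -- `R` is not a Sylow subgroup
    push Not at hRT
    obtain ⟨T', hT'2, hRT, hT'S, hne⟩ := hRT
    have hRT' : R < T' := lt_of_le_of_ne hRT (Ne.symm hne)
    obtain ⟨n, hnT, hnN, hnR, hn2⟩ := exists_normalizing hT'2 hRT'
    obtain ⟨h1, h2⟩ := hS n (hT'S hnT)
    exact ⟨n, hnN, h2, hnR, hn2, h1⟩

end Two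

end Pool.Agent.Lib.MP_3c3661_al
end

section

/-!
`p`-elements centralising `R` act trivially on `C_M(R)`.
-/

set_option autoImplicit false

namespace Pool.Agent.Lib.MP_3c3661_al

section Two

variable {G : Type*} [Group G] {M R : Subgroup G} {h : G}

/-- a `p`-element normalising a nontrivial elementary abelian `p`-subgroup has a nontrivial fixed
point -/
lemma exists_fixed [Finite G] {p : ℕ} [Fact p.Prime] {W : Subgroup G} (hW : W ≠ ⊥)
    (hexp : ∀ a ∈ W, a ^ p = 1) {y : G} (hyW : y ∈ Subgroup.normalizer (W : Set G))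
    (hy : ∃ i, y ^ (p ^ i) = 1) : ∃ w ∈ W, w ≠ 1 ∧ y * w = w * y := by
  classical
  have hp : p.Prime := Fact.out
  have hle : ∀ g : Subgroup.zpowers y, (g : G) ∈ Subgroup.normalizer (W : Set G) := by
    intro g
    exact (Subgroup.zpowers_le.2 hyW) g.2
  let _ : MulAction (Subgroup.zpowers y) W :=
    { smul := fun g w => ⟨(g : G) * w * (g : G)⁻¹, (Subgroup.mem_normalizer_iff.1 (hle g) w).1 w.2⟩
      one_smul := by
        intro w
        apply Subtype.ext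
        show ((1 : Subgroup.zpowers y) : G) * w * ((1 : Subgroup.zpowers y) : G)⁻¹ = w
        simp
      mul_smul := by
        intro g g' w
        apply Subtype.ext
        show ((g * g' : Subgroup.zpowers y) : G) * w * ((g * g' : Subgroup.zpowers y) : G)⁻¹ =
          (g : G) * ((g' : G) * w * (g' : G)⁻¹) * (g : G)⁻¹
        rw [Subgroup.coe_mul]
        group }
  have hsmul : ∀ (g : Subgroup.zpowers y) (w : W), ((g • w : W) : G) = (g : G) * w * (g : G)⁻¹ :=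
    fun g w => rfl
  have hP : IsPGroup p (Subgroup.zpowers y) := by
    obtain ⟨i, hi⟩ := hy
    obtain ⟨x, -, hx⟩ := (Nat.dvd_prime_pow hp).1 (orderOf_dvd_of_pow_eq_one hi)
    exact IsPGroup.of_card (n := x) (by rw [Nat.card_zpowers, hx])
  obtain ⟨w₀, hw₀, hw₀1⟩ := (Subgroup.bot_or_exists_ne_one W).resolve_left hW
  have hdvd : p ∣ Nat.card W := by
    have h1 : orderOf w₀ = p := orderOf_eq_prime (hexp w₀ hw₀) hw₀1
    have h2 : orderOf (⟨w₀, hw₀⟩ : W) = p := by rw [← h1, Subgroup.orderOf_mk]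
    rw [← h2]
    exact orderOf_dvd_natCard _
  have h1 : (1 : W) ∈ MulAction.fixedPoints (Subgroup.zpowers y) W := by
    intro g
    apply Subtype.ext
    rw [hsmul]
    simp
  obtain ⟨b, hb, hb1⟩ := hP.exists_fixed_point_of_prime_dvd_card_of_fixed_point W hdvd h1
  refine ⟨b, b.2, ?_, ?_⟩
  · intro h2
    exact hb1 (Subtype.ext h2.symm)
  · have h2 := congrArg Subtype.val (hb ⟨y, Subgroup.mem_zpowers y⟩)
    rw [hsmul] at h2
    exact mul_inv_eq_iff_eq_mul.1 h2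

/-- **`p`-elements centralising `R` act trivially on `C_M(R)`**, if the `p`-elements of
the subgroup generated by the products of two elements of order `2` modulo `R` of `N_{C(h)}(R)`
centralise `R`. -/
theorem MaxTwo.trivial_action [Finite G] {p : ℕ} [Fact p.Prime] {k m : ℕ} (hk : 0 < k)
    (hm : 0 < m) (hcard : Nat.card G ∣ m) (hG : PowConj k m G) (hp2 : p ≠ 2)
    (hu : ∃ u : ZMod p, u ^ k = -1) (hM : M.Normal) (hcomm : ∀ a ∈ M, ∀ b ∈ M, a * b = b * a)
    (hexp : ∀ a ∈ M, a ^ p = 1) (hd : MaxTwo M h R)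
    (H1 : ∀ x ∈ twoProds (Subgroup.centralizer {h} ⊓ Subgroup.normalizer (R : Set G)) R,
      (∃ i, x ^ (p ^ i) = 1) → x ∈ Subgroup.centralizer (R : Set G))
    {y : G} (hyR : y ∈ Subgroup.centralizer (R : Set G)) (hyp : ∃ i, y ^ (p ^ i) = 1) :
    y ∈ Subgroup.centralizer ((M ⊓ Subgroup.centralizer (R : Set G) : Subgroup G) : Set G) := by
  classical
  have hp : p.Prime := Fact.out
  have hp2' : Nat.Coprime 2 p := (Nat.coprime_primes Nat.prime_two hp).2 (Ne.symm hp2)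
  by_contra hyn
  set W : Subgroup G := M ⊓ Subgroup.centralizer (R : Set G) with hW
  set CW : Subgroup G := Subgroup.centralizer (W : Set G) with hCW
  set CR : Subgroup G := Subgroup.centralizer (R : Set G) with hCR
  obtain ⟨i, hi⟩ := hyp
  -- the group `Y`
  let Y : Subgroup G := Subgroup.centralizer {h} ⊓ Subgroup.normalizer (R : Set G)
  have hYmem : ∀ x, x ∈ Y ↔ Commute x h ∧ x ∈ Subgroup.normalizer (R : Set G) := by
    intro x
    exact ⟨fun hx => ⟨Subgroup.mem_centralizer_singleton_iff.1 hx.1, hx.2⟩,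
      fun hx => ⟨Subgroup.mem_centralizer_singleton_iff.2 hx.1, hx.2⟩⟩
  have hCRN : ∀ c ∈ CR, c ∈ Subgroup.normalizer (R : Set G) := by
    intro c hc
    apply Subgroup.mem_normalizer_fintype
    intro r hr
    have h1 : r * c = c * r := Subgroup.mem_centralizer_iff.1 hc r hr
    rw [← h1, mul_inv_cancel_right]
    exact hr
  have hCRY : CR ≤ Y := by
    intro c hc
    exact (hYmem c).2 ⟨(Subgroup.mem_centralizer_iff.1 hc h hd.mem).symm, hCRN c hc⟩
  have hRCW : R ≤ CW := by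
    intro r hr
    rw [hCW, Subgroup.mem_centralizer_iff]
    intro w hw
    exact (Subgroup.mem_centralizer_iff.1 hw.2 r hr).symm
  have hYW : ∀ x ∈ Y, ∀ w ∈ W, x * w * x⁻¹ ∈ W := fun x hx w hw =>
    conj_mem_fixed hM ((hYmem x).1 hx).2 hw
  -- normal subgroups of `Y`
  let R' : Subgroup Y := R.subgroupOf Y
  have hR'n : R'.Normal := Subgroup.normal_subgroupOf_of_le_normalizer inf_le_right
  let KY : Subgroup Y := CW.subgroupOf Y
  have hKYn : KY.Normal := by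
    constructor
    intro κ hκ x
    have hκ' : (κ : G) ∈ CW := hκ
    show (x : G) * κ * (x : G)⁻¹ ∈ CW
    rw [hCW, Subgroup.mem_centralizer_iff]
    intro w hw
    have h1 : (x : G)⁻¹ * w * x ∈ W := by
      have := hYW _ (Y.inv_mem x.2) w hw
      rwa [inv_inv] at this
    have h2 := Subgroup.mem_centralizer_iff.1 hκ' _ h1
    calc w * ((x : G) * κ * (x : G)⁻¹) = x * (((x : G)⁻¹ * w * x) * κ) * (x : G)⁻¹ := by group
      _ = x * (κ * ((x : G)⁻¹ * w * x)) * (x : G)⁻¹ := by rw [h2]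
      _ = (x : G) * κ * (x : G)⁻¹ * w := by group
  let CY : Subgroup Y := CR.subgroupOf Y
  have hCYn : CY.Normal := by
    constructor
    intro κ hκ x
    have hκ' : (κ : G) ∈ CR := hκ
    show (x : G) * κ * (x : G)⁻¹ ∈ CR
    rw [hCR, Subgroup.mem_centralizer_iff]
    intro w hw
    have h1 : (x : G)⁻¹ * w * x ∈ R := by
      have := (Subgroup.mem_normalizer_iff.1
        ((Subgroup.normalizer (R : Set G)).inv_mem ((hYmem x).1 x.2).2) w).1 hw
      simpa using this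
    have h2 := Subgroup.mem_centralizer_iff.1 hκ' _ h1
    calc w * ((x : G) * κ * (x : G)⁻¹) = x * (((x : G)⁻¹ * w * x) * κ) * (x : G)⁻¹ := by group
      _ = x * (κ * ((x : G)⁻¹ * w * x)) * (x : G)⁻¹ := by rw [h2]
      _ = (x : G) * κ * (x : G)⁻¹ * w := by group
  let LY : Subgroup Y := KY ⊓ CY
  have hLYn : LY.Normal := Subgroup.normal_inf_normal KY CY
  let JY : Subgroup Y := (twoProds Y R).subgroupOf Y
  have hYR : ∀ x ∈ Y, ∀ r : G, r ∈ R ↔ x * r * x⁻¹ ∈ R := fun x hx r =>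
    Subgroup.mem_normalizer_iff.1 ((hYmem x).1 hx).2 r
  have hJYn : JY.Normal := by
    constructor
    intro κ hκ x
    have hκ' : (κ : G) ∈ twoProds Y R := hκ
    show (x : G) * κ * (x : G)⁻¹ ∈ twoProds Y R
    have h1 : (twoProds Y R).map (MulAut.conj (x : G)).toMonoidHom ≤ twoProds Y R := by
      unfold twoProds
      rw [MonoidHom.map_closure]
      apply Subgroup.closure_mono
      rintro _ ⟨_, ⟨n, hn, n', hn', h1, h2, h3, h4, rfl⟩, rfl⟩
      refine ⟨(x : G) * n * (x : G)⁻¹, Y.mul_mem (Y.mul_mem x.2 hn) (Y.inv_mem x.2),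
        (x : G) * n' * (x : G)⁻¹,
        Y.mul_mem (Y.mul_mem x.2 hn') (Y.inv_mem x.2), ?_, ?_, ?_, ?_, ?_⟩
      · exact fun h5 => h1 ((hYR x x.2 n).2 h5)
      · exact fun h5 => h2 ((hYR x x.2 n').2 h5)
      · rw [conj_pow]; exact (hYR x x.2 _).1 h3
      · rw [conj_pow]; exact (hYR x x.2 _).1 h4
      · show (x : G) * (n * n') * (x : G)⁻¹ = _
        group
    exact h1 ⟨κ, hκ', rfl⟩
  have hJK : ∀ x ∈ twoProds Y R, x ∈ CW := by
    have h1 : twoProds Y R ≤ CW := by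
      unfold twoProds
      rw [Subgroup.closure_le]
      rintro _ ⟨n, hn, n', hn', h1, h2, h3, h4, rfl⟩
      show n * n' ∈ CW
      rw [hCW, Subgroup.mem_centralizer_iff]
      intro v hv
      have h5 := hd.inverts hM hcomm ((hYmem n').1 hn').2 ((hYmem n').1 hn').1 h2 h4 hv
      have h6 := hd.inverts hM hcomm ((hYmem n).1 hn).2 ((hYmem n).1 hn).1 h1 h3 (W.inv_mem hv)
      rw [inv_inv] at h6
      have h7 : (n * n') * v * (n * n')⁻¹ = v := by
        calc (n * n') * v * (n * n')⁻¹ = n * (n' * v * n'⁻¹) * n⁻¹ := by group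
          _ = v := by rw [h5, h6]
      exact (mul_inv_eq_iff_eq_mul.1 h7).symm
    exact h1
  let KK : Subgroup Y := JY ⊔ LY
  have hKKn : KK.Normal := Subgroup.sup_normal JY LY
  have hKK : KK ≤ KY := sup_le (fun x hx => hJK x hx) inf_le_left
  let π : Y →* Y ⧸ R' := QuotientGroup.mk' R'
  have hπ : Function.Surjective π := QuotientGroup.mk'_surjective R'
  have hπ1 : ∀ x : Y, π x = 1 ↔ (x : G) ∈ R := by
    intro x
    rw [show π x = (x : Y ⧸ R') from rfl, QuotientGroup.eq_one_iff]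
    rfl
  let K : Subgroup (Y ⧸ R') := KK.map π
  let L : Subgroup (Y ⧸ R') := LY.map π
  have hKn : K.Normal := hKKn.map π hπ
  have hLn : L.Normal := hLYn.map π hπ
  have hLK : L ≤ K := Subgroup.map_mono le_sup_right
  -- the elements `y`, `z`, `w`
  let y' : Y := ⟨y, hCRY hyR⟩
  have hy2 : ¬ 2 ∣ orderOf y := by
    intro h1
    have h2 : 2 ∣ p ^ i := h1.trans (orderOf_dvd_of_pow_eq_one hi)
    exact Nat.prime_two.coprime_iff_not_dvd.1 (Nat.Coprime.pow_right i hp2') h2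
  obtain ⟨n₀, hn₀N, hn₀h, hn₀R, hn₀2, hn₀y⟩ := hd.exists_commuting hk hm hcard hG hp2 hu hM hcomm
    hyR hy2 ⟨i, by rw [hi]; exact Subgroup.one_mem _⟩ hyn
  let z' : Y := ⟨n₀, (hYmem n₀).2 ⟨hn₀h, hn₀N⟩⟩
  have hWne : W ≠ ⊥ := hd.ne
  obtain ⟨w, hwW, hw1, hyw⟩ := exists_fixed hWne (fun a ha => hexp a ha.1) (y := y) (by
    apply Subgroup.mem_normalizer_fintype
    intro w hw
    exact hYW y (hCRY hyR) w hw) ⟨i, hi⟩
  have hwCR : w ∈ CR := hwW.2
  let w' : Y := ⟨w, hCRY hwCR⟩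
  have hwCW : w ∈ CW := by
    rw [hCW, Subgroup.mem_centralizer_iff]
    intro v hv
    exact hcomm v hv.1 w hwW.1
  -- exponents
  obtain ⟨γ, hγ1, hγ2⟩ := Nat.chineseRemainder (Nat.Coprime.pow_right i hp2') 0 1
  have hN0 : Nat.card G ≠ 0 := Nat.card_pos.ne'
  set m₁ : ℕ := Nat.card G / p ^ (Nat.card G).factorization p with hm₁
  have hm₁p : m₁.Coprime p := (Nat.coprime_ordCompl hp hN0).symm
  have hm₁e : ∀ x : G, (x ^ m₁) ^ (p ^ (Nat.card G).factorization p) = 1 := by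
    intro x
    rw [← pow_mul, mul_comm, Nat.ordProj_mul_ordCompl_eq_self, pow_card_eq_one']
  have hKexp : ∀ n ∈ K, n ^ m₁ ∈ L := by
    rintro _ ⟨κ, hκ, rfl⟩
    rw [← map_pow]
    refine ⟨κ ^ m₁, ?_, rfl⟩
    obtain ⟨j, hj, l, hl, rfl⟩ := Subgroup.mem_sup_of_normal_right.1 hκ
    have hj' : j ^ m₁ ∈ LY := by
      refine ⟨KY.pow_mem (hJK j hj) m₁, ?_⟩
      show ((j ^ m₁ : Y) : G) ∈ CR
      rw [Subgroup.coe_pow]
      exact H1 _ (Subgroup.pow_mem _ hj m₁) ⟨_, hm₁e j⟩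
    have h1 : ((j * l : Y) : Y ⧸ LY) = (j : Y ⧸ LY) := by
      rw [QuotientGroup.eq]
      have h2 : (j * l)⁻¹ * j = l⁻¹ * (j⁻¹ * j) := by group
      rw [h2, inv_mul_cancel, mul_one]
      exact LY.inv_mem hl
    show (j * l) ^ m₁ ∈ LY
    rw [← QuotientGroup.eq_one_iff, QuotientGroup.mk_pow, h1, ← QuotientGroup.mk_pow,
      QuotientGroup.eq_one_iff]
    exact hj'
  have hz2 : (π z') ^ 2 = 1 := by
    rw [← map_pow, hπ1]
    exact hn₀2
  have hzy : Commute (π z') (π y') := by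
    have h1 : z' * y' = y' * z' := Subtype.ext hn₀y
    show π z' * π y' = π y' * π z'
    rw [← map_mul, h1, map_mul]
  have hmkK : ∀ n : Y ⧸ R', ((n : (Y ⧸ R') ⧸ K) = 1) ↔ n ∈ K := fun n => QuotientGroup.eq_one_iff n
  have hmkL : ∀ n : Y ⧸ R', ((n : (Y ⧸ R') ⧸ L) = 1) ↔ n ∈ L := fun n => QuotientGroup.eq_one_iff n
  have hKy : ∀ n ∈ K, Commute (n : (Y ⧸ R') ⧸ L) ((π y' : Y ⧸ R') : (Y ⧸ R') ⧸ L) := by
    rintro _ ⟨κ, hκ, rfl⟩
    have h1 : (κ * y')⁻¹ * (y' * κ) ∈ LY := by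
      have h2 : (κ * y')⁻¹ * (y' * κ) = y'⁻¹ * (κ⁻¹ * y' * κ) := by group
      have h3 : (κ * y')⁻¹ * (y' * κ) = (y'⁻¹ * κ⁻¹ * y') * κ := by group
      refine ⟨?_, ?_⟩
      · show (κ * y')⁻¹ * (y' * κ) ∈ KY
        rw [h3]
        have h4 := hKYn.conj_mem κ⁻¹ (KY.inv_mem (hKK hκ)) y'⁻¹
        rw [inv_inv] at h4
        exact KY.mul_mem h4 (hKK hκ)
      · show (κ * y')⁻¹ * (y' * κ) ∈ CY
        rw [h2]
        have h5 : y' ∈ CY := hyR
        have h4 := hCYn.conj_mem y' h5 κ⁻¹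
        rw [inv_inv] at h4
        exact CY.mul_mem (CY.inv_mem h5) h4
    show ((π κ * π y' : Y ⧸ R') : (Y ⧸ R') ⧸ L) = ((π y' * π κ : Y ⧸ R') : (Y ⧸ R') ⧸ L)
    rw [QuotientGroup.eq, ← map_mul, ← map_mul, ← map_inv, ← map_mul]
    exact ⟨_, h1, rfl⟩
  have hcase : ∀ n : Y ⧸ R', (n : (Y ⧸ R') ⧸ K) = (π z' : Y ⧸ R') → ∃ κ ∈ K, n = π z' * κ := by
    intro n hn
    have h1 := QuotientGroup.eq.1 hn.symm
    exact ⟨(π z')⁻¹ * n, h1, by group⟩
  refine no_inversion (a := i) (m' := 2 * m₁) (γ := γ) hp L K hLK (π y') (π z') (π w')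
    ?_ ?_ ?_ ?_ ?_ ?_ ?_ ?_ ?_ ?_ ?_ ?_
  · -- commutation modulo `L`
    rintro n (hn | hn)
    · exact hKy n ((hmkK n).1 hn)
    · obtain ⟨κ, hκ, rfl⟩ := hcase n hn
      have h1 : Commute ((π z' : Y ⧸ R') : (Y ⧸ R') ⧸ L) ((π y' : Y ⧸ R') : (Y ⧸ R') ⧸ L) :=
        hzy.map (QuotientGroup.mk' L)
      exact h1.mul_left (hKy κ hκ)
  · rw [← QuotientGroup.mk_pow, ← map_pow]
    have h1 : y' ^ (p ^ i) = 1 := Subtype.ext hi
    rw [h1, map_one]
    rfl
  · exact Nat.Coprime.mul_left hp2' hm₁p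
  · rintro n (hn | hn)
    · rw [← QuotientGroup.mk_pow, hmkL, mul_comm, pow_mul]
      exact L.pow_mem (hKexp n ((hmkK n).1 hn)) 2
    · have h1 : n ^ 2 ∈ K := by
        rw [← hmkK, QuotientGroup.mk_pow, hn, ← QuotientGroup.mk_pow, hz2]
        rfl
      rw [← QuotientGroup.mk_pow, hmkL, pow_mul]
      exact hKexp _ h1
  · obtain ⟨x, hx⟩ := (Nat.modEq_zero_iff_dvd).1 hγ1
    rw [← QuotientGroup.mk_pow, hx, pow_mul, hz2, one_pow]
    rfl
  · rw [← QuotientGroup.mk_pow, ← map_pow]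
    have h1 : y ^ γ = y ^ 1 := by
      rw [pow_eq_pow_iff_modEq]
      exact hγ2.of_dvd (orderOf_dvd_of_pow_eq_one hi)
    have h2 : y' ^ γ = y' := Subtype.ext (by rw [Subgroup.coe_pow]; show y ^ γ = y; rw [h1, pow_one])
    rw [h2]
  · -- every element of the coset commutes with an involution
    intro x hx
    have h1 := QuotientGroup.eq.1 hx
    obtain ⟨l, hl, hlx⟩ := h1
    have hxl : x = π (y' * l⁻¹) := by
      rw [map_mul, map_inv, hlx]; group
    set c₀ : Y := y' * l⁻¹ with hc₀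
    have hc₀R : (c₀ : G) ∈ CR := CR.mul_mem hyR (CR.inv_mem hl.2)
    have hlK : l ∈ KY := hl.1
    have hc₀n : (c₀ : G) ∉ CW := by
      intro h2
      apply hyn
      have h3 : (c₀ * l : Y) ∈ KY := KY.mul_mem h2 hlK
      rw [hc₀, inv_mul_cancel_right] at h3
      exact h3
    have hc₀p : (c₀ : G) ^ (p ^ i) ∈ CW := by
      have h2 : (c₀ : Y ⧸ KY) = (y' : Y ⧸ KY) := by
        rw [QuotientGroup.eq, hc₀]
        have h3 : (y' * l⁻¹)⁻¹ * y' = l := by group
        rw [h3]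
        exact hlK
      have h3 : (c₀ ^ (p ^ i) : Y) ∈ KY := by
        rw [← QuotientGroup.eq_one_iff, QuotientGroup.mk_pow, h2, ← QuotientGroup.mk_pow]
        have h4 : y' ^ (p ^ i) = 1 := Subtype.ext hi
        rw [h4]
        rfl
      have h4 : ((c₀ ^ (p ^ i) : Y) : G) ∈ CW := h3
      rwa [Subgroup.coe_pow] at h4
    -- the odd part
    obtain ⟨f, o, ho, hfo⟩ := Nat.exists_eq_pow_mul_and_not_dvd (orderOf_pos (c₀ : G)).ne' 2
      (by norm_num)
    have hcopfo : (2 ^ f).Coprime o :=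
      Nat.Coprime.pow_left f (Nat.prime_two.coprime_iff_not_dvd.2 ho)
    obtain ⟨α, hα1, hα2⟩ := Nat.chineseRemainder hcopfo 0 1
    obtain ⟨β, hβ1, hβ2⟩ := Nat.chineseRemainder hcopfo 1 0
    set c : G := (c₀ : G) ^ α with hc
    set c₂ : G := (c₀ : G) ^ β with hc₂
    have hcc₂ : c * c₂ = c₀ := by
      rw [hc, hc₂, ← pow_add]
      have h2 : (c₀ : G) ^ (α + β) = (c₀ : G) ^ 1 := by
        rw [pow_eq_pow_iff_modEq, hfo]
        refine (Nat.modEq_and_modEq_iff_modEq_mul hcopfo).1 ⟨?_, ?_⟩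
        · have := hα1.add hβ1
          simpa using this
        · have := hα2.add hβ2
          simpa using this
      rw [h2, pow_one]
    have hc₂two : c₂ ^ (2 ^ f) = 1 := by
      rw [hc₂, ← pow_mul]
      apply orderOf_dvd_iff_pow_eq_one.1
      rw [hfo, mul_comm]
      exact Nat.mul_dvd_mul ((Nat.modEq_zero_iff_dvd).1 hβ2) dvd_rfl
    have hcodd : ¬ 2 ∣ orderOf c := by
      intro h2
      apply ho
      refine h2.trans (orderOf_dvd_of_pow_eq_one ?_)
      rw [hc, ← pow_mul]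
      apply orderOf_dvd_iff_pow_eq_one.1
      rw [hfo]
      exact Nat.mul_dvd_mul ((Nat.modEq_zero_iff_dvd).1 hα1) dvd_rfl
    have hcR : c ∈ CR := CR.pow_mem hc₀R α
    have hc₂R : c₂ ∈ CR := CR.pow_mem hc₀R β
    have hc₂W : c₂ ∈ CW := by
      refine mem_of_pow_mem_of_coprime (a := 2 ^ f) (b := p ^ i) ?_ ?_ ?_
      · exact Nat.Coprime.pow _ _ hp2'
      · rw [hc₂two]; exact CW.one_mem
      · rw [hc₂, ← pow_mul, mul_comm, pow_mul]
        exact CW.pow_mem hc₀p β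
    have hc₂mem : c₂ ∈ R := by
      have h2 : IsPGroup 2 (Subgroup.zpowers c₂) := by
        obtain ⟨x, -, hx⟩ := (Nat.dvd_prime_pow Nat.prime_two).1
          (orderOf_dvd_of_pow_eq_one hc₂two)
        exact IsPGroup.of_card (n := x) (by rw [Nat.card_zpowers, hx])
      have h3 : IsPGroup 2 (R ⊔ Subgroup.zpowers c₂ : Subgroup G) :=
        IsPGroup.to_sup_of_normal_left' hd.two h2 (by
          rw [Subgroup.zpowers_le]; exact hCRN _ hc₂R)
      have h4 : W ≤ M ⊓ Subgroup.centralizer ((R ⊔ Subgroup.zpowers c₂ : Subgroup G) : Set G) := by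
        intro v hv
        refine Subgroup.mem_inf.2 ⟨hv.1, ?_⟩
        have h5 : R ⊔ Subgroup.zpowers c₂ ≤ Subgroup.centralizer {v} := by
          apply sup_le
          · intro r hr
            exact Subgroup.mem_centralizer_singleton_iff.2 (Subgroup.mem_centralizer_iff.1 hv.2 r hr)
          · rw [Subgroup.zpowers_le]
            exact Subgroup.mem_centralizer_singleton_iff.2
              (Subgroup.mem_centralizer_iff.1 hc₂W v hv).symm
        rw [Subgroup.mem_centralizer_iff]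
        intro u hu'
        exact Subgroup.mem_centralizer_singleton_iff.1 (h5 hu')
      have h6 := hd.max _ h3 le_sup_left (sup_le hd.le (by
        rw [Subgroup.zpowers_le]
        exact (hCRY hc₂R).1)) (by
        intro h7
        rw [h7, le_bot_iff] at h4
        exact hWne h4)
      rw [← h6]
      exact Subgroup.mem_sup_right (Subgroup.mem_zpowers c₂)
    have hcn : c ∉ CW := by
      intro h2
      apply hc₀n
      rw [← hcc₂]
      exact CW.mul_mem h2 hc₂W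
    have hcp : c ^ (p ^ i) ∈ CW := by
      rw [hc, ← pow_mul, mul_comm, pow_mul]
      exact CW.pow_mem hc₀p α
    obtain ⟨n, hnN, hnh, hnR, hn2, hnc⟩ := hd.exists_commuting hk hm hcard hG hp2 hu hM hcomm
      hcR hcodd ⟨i, hcp⟩ hcn
    let n' : Y := ⟨n, (hYmem n).2 ⟨hnh, hnN⟩⟩
    let c' : Y := ⟨c, hCRY hcR⟩
    refine ⟨π n', ?_, ?_⟩
    · rw [QuotientGroup.eq, ← map_inv, ← map_mul]
      refine ⟨n'⁻¹ * z', Subgroup.mem_sup_left ?_, rfl⟩
      show n⁻¹ * n₀ ∈ twoProds Y R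
      apply Subgroup.subset_closure
      refine ⟨n⁻¹, Y.inv_mem n'.2, n₀, z'.2, ?_, hn₀R, ?_, hn₀2, rfl⟩
      · exact fun h2 => hnR (inv_mem_iff.1 h2)
      · rw [inv_pow]
        exact R.inv_mem hn2
    · have h2 : x = π c' := by
        rw [hxl]
        have h3 : c₀ = c' * ⟨c₂, hCRY hc₂R⟩ := Subtype.ext hcc₂.symm
        have h4 : π ⟨c₂, hCRY hc₂R⟩ = 1 := (hπ1 _).2 hc₂mem
        rw [h3, map_mul, h4, mul_one]
      have h3 : n' * c' = c' * n' := Subtype.ext hnc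
      rw [h2]
      show π n' * π c' = π c' * π n'
      rw [← map_mul, h3, map_mul]
  · exact ⟨w', ⟨hwCW, hwCR⟩, rfl⟩
  · rintro _ ⟨κ, hκ, rfl⟩
    have hκ' : (κ : G) ∈ CW := hKK hκ
    have h1 : κ * w' = w' * κ := Subtype.ext (Subgroup.mem_centralizer_iff.1 hκ' w hwW).symm
    rw [← map_mul, h1, map_mul]
  · have h1 : y' * w' = w' * y' := Subtype.ext hyw
    rw [← map_mul, h1, map_mul]
  · have h1 : z' * w' * z'⁻¹ = w'⁻¹ :=
      Subtype.ext (hd.inverts hM hcomm hn₀N hn₀h hn₀R hn₀2 hwW)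
    rw [← map_inv, ← map_mul, ← map_mul, h1, map_inv]
  · intro h1
    have h2 : π (w' * w') = 1 := by
      rw [map_mul]
      exact mul_eq_one_iff_eq_inv.2 h1.symm
    rw [hπ1] at h2
    have h3 : w * w ∈ R := h2
    obtain ⟨x, hx⟩ := hd.two ⟨w * w, h3⟩
    have hx' : (w * w) ^ (2 ^ x) = 1 := congrArg Subtype.val hx
    rw [← pow_two, ← pow_mul, ← pow_succ'] at hx'
    have h4 : w ∈ (⊥ : Subgroup G) := by
      refine mem_of_pow_mem_of_coprime (a := 2 ^ (x + 1)) (b := p) ?_ ?_ ?_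
      · exact Nat.Coprime.pow_left _ hp2'
      · rw [hx']; exact Subgroup.one_mem _
      · rw [hexp w hwW.1]; exact Subgroup.one_mem _
    exact hw1 (Subgroup.mem_bot.1 h4)

end Two

end Pool.Agent.Lib.MP_3c3661_al
end

section

/-!
`p`-elements centralising `R` act trivially on `C_M(R)`: the complemented case.
-/

set_option autoImplicit false

namespace Pool.Agent.Lib.MP_3c3661_al

section Two

variable {G : Type*} [Group G] {M R : Subgroup G} {h : G}

/-- **`p`-elements centralising `R` act trivially on `C_M(R)`**, if `C_M(R)` has a complement in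
`N_{C(h)}(R)`. -/
theorem MaxTwo.trivial_action_compl [Finite G] {p : ℕ} [Fact p.Prime] {k m : ℕ} (hk : 0 < k)
    (hm : 0 < m) (hcard : Nat.card G ∣ m) (hG : PowConj k m G) (hp2 : p ≠ 2)
    (hu : ∃ u : ZMod p, u ^ k = -1) (hM : M.Normal) (hcomm : ∀ a ∈ M, ∀ b ∈ M, a * b = b * a)
    (hexp : ∀ a ∈ M, a ^ p = 1) (hd : MaxTwo M h R) (D₀ : Subgroup G)
    (hD₀ : D₀ ≤ Subgroup.normalizer (R : Set G))
    (hint : (M ⊓ Subgroup.centralizer (R : Set G)) ⊓ D₀ = ⊥)
    (hsup : Subgroup.centralizer {h} ⊓ Subgroup.normalizer (R : Set G) ≤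
      (M ⊓ Subgroup.centralizer (R : Set G)) ⊔ D₀)
    {y : G} (hyR : y ∈ Subgroup.centralizer (R : Set G)) (hyp : ∃ i, y ^ (p ^ i) = 1) :
    y ∈ Subgroup.centralizer ((M ⊓ Subgroup.centralizer (R : Set G) : Subgroup G) : Set G) := by
  classical
  have hp : p.Prime := Fact.out
  have hp2' : Nat.Coprime 2 p := (Nat.coprime_primes Nat.prime_two hp).2 (Ne.symm hp2)
  by_contra hyn
  set W : Subgroup G := M ⊓ Subgroup.centralizer (R : Set G) with hW
  set CW : Subgroup G := Subgroup.centralizer (W : Set G) with hCW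
  set CR : Subgroup G := Subgroup.centralizer (R : Set G) with hCR
  have hWab : ∀ a ∈ W, ∀ b ∈ W, a * b = b * a := fun a ha b hb => hcomm a ha.1 b hb.1
  have hWCW : W ≤ CW := by
    intro w hw
    rw [hCW, Subgroup.mem_centralizer_iff]
    intro v hv
    exact hWab v hv w hw
  have hCRN : ∀ c ∈ CR, c ∈ Subgroup.normalizer (R : Set G) := by
    intro c hc
    apply Subgroup.mem_normalizer_fintype
    intro r hr
    have h1 : r * c = c * r := Subgroup.mem_centralizer_iff.1 hc r hr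
    rw [← h1, mul_inv_cancel_right]
    exact hr
  have hD₀W : D₀ ≤ Subgroup.normalizer (W : Set G) := by
    intro d hd₀
    apply Subgroup.mem_normalizer_fintype
    intro w hw
    exact conj_mem_fixed hM (hD₀ hd₀) hw
  -- decomposition
  have hdec : ∀ x ∈ Subgroup.centralizer {h} ⊓ Subgroup.normalizer (R : Set G),
      ∃ w ∈ W, ∃ d ∈ D₀, x = w * d := by
    intro x hx
    have h1 : W ⊔ D₀ ≤ prodSub W D₀ hD₀W :=
      sup_le (left_le_prodSub W D₀ hD₀W) (right_le_prodSub W D₀ hD₀W)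
    exact h1 (hsup hx)
  have huniq : ∀ w ∈ W, ∀ w' ∈ W, ∀ d ∈ D₀, ∀ d' ∈ D₀, w * d = w' * d' → w = w' ∧ d = d' := by
    intro w hw w' hw' d hd₀ d' hd₀' heq
    have h1 : w'⁻¹ * w = d' * d⁻¹ := by
      have h2 : w'⁻¹ * (w * d) * d⁻¹ = w'⁻¹ * (w' * d') * d⁻¹ := by rw [heq]
      calc w'⁻¹ * w = w'⁻¹ * (w * d) * d⁻¹ := by group
        _ = w'⁻¹ * (w' * d') * d⁻¹ := h2
        _ = d' * d⁻¹ := by group
    have h3 : w'⁻¹ * w ∈ W ⊓ D₀ := by
      refine Subgroup.mem_inf.2 ⟨W.mul_mem (W.inv_mem hw') hw, ?_⟩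
      rw [h1]
      exact D₀.mul_mem hd₀' (D₀.inv_mem hd₀)
    rw [hint, Subgroup.mem_bot] at h3
    have h4 : w = w' := by
      have := inv_mul_eq_one.1 h3
      exact this.symm
    refine ⟨h4, ?_⟩
    rw [h4] at heq
    exact mul_left_cancel heq
  have hRY : ∀ c ∈ CR, c ∈ Subgroup.centralizer {h} ⊓ Subgroup.normalizer (R : Set G) := by
    intro c hc
    exact Subgroup.mem_inf.2 ⟨Subgroup.mem_centralizer_singleton_iff.2
      (Subgroup.mem_centralizer_iff.1 hc h hd.mem).symm, hCRN c hc⟩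
  -- reduce to an element of `D₀`
  obtain ⟨i, hi⟩ := hyp
  obtain ⟨w₁, hw₁, y₀, hy₀, hyy⟩ := hdec y (hRY y hyR)
  have hy₀R : y₀ ∈ CR := by
    have h1 : y₀ = w₁⁻¹ * y := by rw [hyy]; group
    rw [h1]
    exact CR.mul_mem (CR.inv_mem hw₁.2) hyR
  have hy₀n : y₀ ∉ CW := by
    intro h1
    apply hyn
    rw [hyy]
    exact CW.mul_mem (hWCW hw₁) h1
  have hpow : ∀ w ∈ W, ∀ n : ℕ, ∃ w' ∈ W, (w * y₀) ^ n = w' * y₀ ^ n := by
    intro w hw n
    obtain ⟨w', hw', h1⟩ := exists_pow_mul (hD₀W hy₀) hw 1 n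
    refine ⟨w', hw', ?_⟩
    rw [zpow_one, one_mul, zpow_natCast] at h1
    exact h1
  have hy₀p : y₀ ^ (p ^ i) = 1 := by
    obtain ⟨w', hw', h1⟩ := hpow w₁ hw₁ (p ^ i)
    rw [← hyy, hi] at h1
    exact (huniq 1 W.one_mem w' hw' 1 D₀.one_mem _ (D₀.pow_mem hy₀ _) (by rw [one_mul]; exact h1)).2.symm
  have hconjW : ∀ w ∈ W, y₀ * w * y₀⁻¹ ∈ W := fun w hw => conj_mem_fixed hM (hCRN _ hy₀R) hw
  -- the endomorphism
  obtain ⟨v, hv, hv1, hyv⟩ := exists_fixed hd.ne (fun a ha => hexp a ha.1) (y := y₀) (hD₀W hy₀)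
    ⟨i, hy₀p⟩
  let f : W → W := fun w => ⟨(w : G) * (y₀ * (w : G)⁻¹ * y₀⁻¹),
    W.mul_mem w.2 (hconjW _ (W.inv_mem w.2))⟩
  have hfinj : ¬ Function.Injective f := by
    intro hinj
    have h1 : f ⟨v, hv⟩ = f 1 := by
      apply Subtype.ext
      show v * (y₀ * v⁻¹ * y₀⁻¹) = (1 : G) * (y₀ * (1 : G)⁻¹ * y₀⁻¹)
      have h2 : Commute y₀ v := hyv
      have h3 : y₀ * v⁻¹ = v⁻¹ * y₀ := h2.inv_right.eq
      rw [h3]
      group
    apply hv1
    exact congrArg Subtype.val (hinj h1)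
  have hfsurj : ¬ Function.Surjective f := by
    intro hs
    exact hfinj (Finite.injective_iff_surjective.2 hs)
  rw [Function.Surjective] at hfsurj
  push Not at hfsurj
  obtain ⟨⟨w₀, hw₀⟩, hw₀f⟩ := hfsurj
  -- the element `w₀ y₀`
  set c : G := w₀ * y₀ with hc
  have hcR : c ∈ CR := CR.mul_mem hw₀.2 hy₀R
  have hcp : c ^ (p ^ (i + 1)) = 1 := by
    obtain ⟨w', hw', h1⟩ := hpow w₀ hw₀ (p ^ i)
    rw [pow_succ, pow_mul, hc, h1, hy₀p, mul_one]
    exact hexp w' hw'.1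
  have hcn : c ∉ CW := by
    intro h1
    apply hy₀n
    have h2 : y₀ = w₀⁻¹ * c := by rw [hc]; group
    rw [h2]
    exact CW.mul_mem (CW.inv_mem (hWCW hw₀)) h1
  have hcodd : ¬ 2 ∣ orderOf c := by
    intro h1
    have h2 : 2 ∣ p ^ (i + 1) := h1.trans (orderOf_dvd_of_pow_eq_one hcp)
    exact Nat.prime_two.coprime_iff_not_dvd.1 (Nat.Coprime.pow_right (i + 1) hp2') h2
  obtain ⟨n, hnN, hnh, hnR, hn2, hnc⟩ := hd.exists_commuting hk hm hcard hG hp2 hu hM hcomm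
    hcR hcodd ⟨i + 1, by rw [hcp]; exact Subgroup.one_mem _⟩ hcn
  obtain ⟨wn, hwn, n₀, hn₀, hnn⟩ := hdec n
    (Subgroup.mem_inf.2 ⟨Subgroup.mem_centralizer_singleton_iff.2 hnh, hnN⟩)
  have hinv : n * w₀ * n⁻¹ = w₀⁻¹ := hd.inverts hM hcomm hnN hnh hnR hn2 hw₀
  have h1 : n * c * n⁻¹ = c := by
    have h2 : n * c = c * n := hnc
    rw [h2, mul_inv_cancel_right]
  set y₁ : G := n₀ * y₀ * n₀⁻¹ with hy₁
  have hy₁D : y₁ ∈ D₀ := D₀.mul_mem (D₀.mul_mem hn₀ hy₀) (D₀.inv_mem hn₀)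
  have h2 : n * c * n⁻¹ = (w₀⁻¹ * (wn * (y₁ * wn⁻¹ * y₁⁻¹))) * y₁ := by
    calc n * c * n⁻¹ = (n * w₀ * n⁻¹) * (n * y₀ * n⁻¹) := by rw [hc]; group
      _ = w₀⁻¹ * (n * y₀ * n⁻¹) := by rw [hinv]
      _ = w₀⁻¹ * (wn * y₁ * wn⁻¹) := by rw [hnn, hy₁]; group
      _ = _ := by group
  have hy₁W : y₁ * wn⁻¹ * y₁⁻¹ ∈ W :=
    (Subgroup.mem_normalizer_iff.1 (hD₀W hy₁D) _).1 (W.inv_mem hwn)
  obtain ⟨h3, h4⟩ := huniq (w₀⁻¹ * (wn * (y₁ * wn⁻¹ * y₁⁻¹)))
    (W.mul_mem (W.inv_mem hw₀) (W.mul_mem hwn hy₁W)) w₀ hw₀ y₁ hy₁D y₀ hy₀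
    (by rw [← h2, h1])
  rw [h4] at h3
  have h5 : wn * (y₀ * wn⁻¹ * y₀⁻¹) = w₀ ^ 2 := by
    rw [pow_two]
    exact inv_mul_eq_iff_eq_mul.1 h3
  -- `w₀` is in the image
  obtain ⟨a, ha⟩ : ∃ a : ℕ, p ∣ 2 * a - 1 ∧ 1 ≤ 2 * a := by
    refine ⟨(p + 1) / 2, ?_⟩
    have hodd : p % 2 = 1 := hp.eq_two_or_odd.resolve_left hp2
    have h6 : 2 * ((p + 1) / 2) = p + 1 := by omega
    rw [h6]
    exact ⟨by simp, by omega⟩
  have h6 : ∀ a : ℕ, (f (⟨wn, hwn⟩ ^ a) : G) = (w₀ ^ 2) ^ a := by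
    intro a
    induction a with
    | zero =>
      show (((⟨wn, hwn⟩ : W) ^ 0 : W) : G) * (y₀ * (((⟨wn, hwn⟩ : W) ^ 0 : W) : G)⁻¹ * y₀⁻¹) = _
      simp
    | succ a ih =>
      have h7 : ∀ s : ℕ, (f (⟨wn, hwn⟩ ^ s) : G) = wn ^ s * (y₀ * (wn ^ s)⁻¹ * y₀⁻¹) := by
        intro s; rfl
      rw [h7] at ih ⊢
      rw [pow_succ (w₀ ^ 2), ← ih, ← h5]
      have h8 : wn ^ a ∈ W := W.pow_mem hwn a
      have h9 : y₀ * (wn ^ a)⁻¹ * y₀⁻¹ ∈ W := hconjW _ (W.inv_mem h8)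
      have h10 : wn * (y₀ * (wn ^ a)⁻¹ * y₀⁻¹) = (y₀ * (wn ^ a)⁻¹ * y₀⁻¹) * wn := hWab _ hwn _ h9
      calc wn ^ (a + 1) * (y₀ * (wn ^ (a + 1))⁻¹ * y₀⁻¹)
          = wn ^ a * (wn * (y₀ * (wn ^ a)⁻¹ * y₀⁻¹)) * (y₀ * wn⁻¹ * y₀⁻¹) := by
            have h11 : (wn ^ (a + 1))⁻¹ = (wn ^ a)⁻¹ * wn⁻¹ := by rw [pow_succ', mul_inv_rev]
            rw [h11, pow_succ]
            group
        _ = wn ^ a * ((y₀ * (wn ^ a)⁻¹ * y₀⁻¹) * wn) * (y₀ * wn⁻¹ * y₀⁻¹) := by rw [h10]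
        _ = _ := by group
  apply hw₀f (⟨wn, hwn⟩ ^ a)
  apply Subtype.ext
  rw [h6]
  show (w₀ ^ 2) ^ a = w₀
  rw [← pow_mul]
  obtain ⟨⟨s, hs⟩, ha2⟩ := ha
  have h7 : 2 * a = p * s + 1 := by omega
  rw [h7, pow_succ, pow_mul, hexp w₀ hw₀.1, one_pow, one_mul]

end Two

end Pool.Agent.Lib.MP_3c3661_al
end

section

/-!
The bound in terms of the automizer of a maximal `2`-subgroup with fixed points.
-/

set_option autoImplicit false

open scoped commutatorElement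

namespace Pool.Agent.Lib.MP_3c3661_al

section Good

variable {p : ℕ} [Fact p.Prime] {G : Type*} [Group G] [Finite G] {M R : Subgroup G} {h : G}

/-- `R` and `N_{C(h)}(R)` form a good pair. -/
theorem MaxTwo.goodSub {k m : ℕ} (hm : 0 < m) (hcard : Nat.card G ∣ m) (hpm : p ∣ m)
    (hG : PowConj k m G) (hp2 : p ≠ 2) (hexp : ∀ a ∈ M, a ^ p = 1) (hd : MaxTwo M h R)
    (u : (ZMod p)ˣ) :
    GoodSub k M R (Subgroup.centralizer {h} ⊓ Subgroup.normalizer (R : Set G)) u := by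
  classical
  have hp : p.Prime := Fact.out
  have hp2' : Nat.Coprime 2 p := (Nat.coprime_primes Nat.prime_two hp).2 (Ne.symm hp2)
  refine ⟨le_inf hd.le Subgroup.le_normalizer, inf_le_right, ?_, hd.ne, ?_⟩
  · obtain ⟨b, hb⟩ := IsPGroup.iff_card.1 hd.two
    rw [hb]
    exact Nat.Coprime.pow_left _ hp2'
  · rintro x ⟨hxM, hxC⟩
    by_cases hx1 : x = 1
    · refine ⟨1, Subgroup.one_mem _, (u : ZMod p).val, by rw [ZMod.natCast_val, ZMod.cast_id], ?_⟩
      rw [hx1]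
      simp
    have hxR : ∀ r ∈ R, r * x = x * r := fun r hr => Subgroup.mem_centralizer_iff.1 hxC r hr
    have hh : (orderOf h).Coprime p := by
      obtain ⟨a, ha⟩ := hd.two ⟨h, hd.mem⟩
      have ha' : h ^ (2 ^ a) = 1 := congrArg Subtype.val ha
      exact Nat.Coprime.coprime_dvd_left (orderOf_dvd_of_pow_eq_one ha')
        (Nat.Coprime.pow_left a hp2')
    obtain ⟨g, hg, j, hj, hgx⟩ := hG.local_conj hm hcard hpm hh (hexp x hxM) (hxR h hd.mem) u
    have hjp : (j ^ k).Coprime (orderOf x) := by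
      apply Nat.Coprime.coprime_dvd_right (orderOf_dvd_of_pow_eq_one (hexp x hxM))
      apply Nat.Coprime.pow_left
      rw [Nat.coprime_comm, hp.coprime_iff_not_dvd]
      intro hdvd
      rw [(ZMod.natCast_eq_zero_iff j p).2 hdvd] at hj
      exact u.ne_zero hj.symm
    obtain ⟨a, ha⟩ := exists_pow_eq_self_of_coprime hjp
    let S : Subgroup G := Subgroup.centralizer {h} ⊓ Subgroup.centralizer {x}
    have hS : ∀ z, z ∈ S ↔ Commute z h ∧ Commute z x := by
      intro z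
      exact ⟨fun hz => ⟨Subgroup.mem_centralizer_singleton_iff.1 hz.1,
        Subgroup.mem_centralizer_singleton_iff.1 hz.2⟩,
        fun hz => ⟨Subgroup.mem_centralizer_singleton_iff.2 hz.1,
        Subgroup.mem_centralizer_singleton_iff.2 hz.2⟩⟩
    have hRS : R ≤ S := fun r hr => (hS r).2
      ⟨Subgroup.mem_centralizer_singleton_iff.1 (hd.le hr), hxR r hr⟩
    have hmax : ∀ T : Subgroup G, IsPGroup 2 T → R ≤ T → T ≤ S → T = R := by
      intro T hT hRT hTS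
      refine hd.max T hT hRT (fun t ht => (hTS ht).1) ?_
      intro h0
      apply hx1
      have h1 : x ∈ M ⊓ Subgroup.centralizer (T : Set G) := by
        refine Subgroup.mem_inf.2 ⟨hxM, ?_⟩
        rw [Subgroup.mem_centralizer_iff]
        intro t ht
        exact ((hS t).1 (hTS ht)).2
      rw [h0, Subgroup.mem_bot] at h1
      exact h1
    have hconj : ∀ z ∈ R, g * z * g⁻¹ ∈ S := by
      intro z hz
      obtain ⟨h1, h2⟩ := (hS z).1 (hRS hz)
      rw [hS]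
      have h3 : ∀ v : G, Commute z v → Commute (g * z * g⁻¹) (g * v * g⁻¹) := by
        intro v hv
        show (g * z * g⁻¹) * (g * v * g⁻¹) = (g * v * g⁻¹) * (g * z * g⁻¹)
        calc (g * z * g⁻¹) * (g * v * g⁻¹) = g * (z * v) * g⁻¹ := by group
          _ = g * (v * z) * g⁻¹ := by rw [hv.eq]
          _ = (g * v * g⁻¹) * (g * z * g⁻¹) := by group
      constructor
      · have h4 := h3 h h1
        have h5 : g * h * g⁻¹ = h := mul_inv_eq_iff_eq_mul.2 hg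
        rwa [h5] at h4
      · have h4 := (h3 x h2)
        rw [hgx] at h4
        have h5 := h4.pow_right a
        rwa [ha] at h5
    obtain ⟨s, hsS, hsN⟩ := frattini_two hd.two hRS hmax hconj
    obtain ⟨hsh, hsx⟩ := (hS s).1 hsS
    refine ⟨s⁻¹ * g, Subgroup.mem_inf.2 ⟨Subgroup.mem_centralizer_singleton_iff.2 ?_, hsN⟩,
      j, hj, ?_⟩
    · exact (hsh.inv_left.mul_left (show Commute g h from hg))
    · have h7 : Commute s⁻¹ (x ^ (j ^ k)) := (hsx.inv_left).pow_right _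
      calc s⁻¹ * g * x * (s⁻¹ * g)⁻¹ = s⁻¹ * (g * x * g⁻¹) * s := by group
        _ = x ^ (j ^ k) := by rw [hgx, h7.eq, inv_mul_cancel_right]

end Good

section Quot

variable {p : ℕ} [Fact p.Prime]

/-- Main theorem for quotients of `k`-rational groups. -/
theorem main4 {k e : ℕ} (hk : 0 < k) {G : Type} [Group G] [Finite G] (hG : KRational k G)
    (hp2 : p ≠ 2) (hu : ∃ u : ZMod p, u ^ k = -1)
    (N : Subgroup G) [N.Normal] (M : Subgroup (G ⧸ N)) [hM : M.Normal]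
    (hcomm : ∀ a ∈ M, ∀ b ∈ M, a * b = b * a) (hexp : ∀ a ∈ M, a ^ p = 1)
    (h : G ⧸ N) (R D W : Subgroup (G ⧸ N)) (hd : MaxTwo M h R)
    (hD : D = Subgroup.centralizer {h} ⊓ Subgroup.normalizer (R : Set (G ⧸ N)))
    (hW : W = M ⊓ Subgroup.centralizer (R : Set (G ⧸ N)))
    (hJ : (∀ x ∈ twoProds D R, (∃ i, orderOf x = p ^ i) →
      x ∈ Subgroup.centralizer (R : Set (G ⧸ N))) ∨
      ∃ D₀ ≤ D, W ⊓ D₀ = ⊥ ∧ D ≤ W ⊔ D₀)
    (P : Sylow p D)
    (hPe : ((((P : Subgroup D).map D.subtype ⊓ Subgroup.centralizer (R : Set (G ⧸ N))) ⊔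
      ((P : Subgroup D).map D.subtype ⊓ Subgroup.centralizer (W : Set (G ⧸ N)))).subgroupOf
        D).relIndex (P : Subgroup D) ≤ p ^ e) :
    p ^ (2 * powUnits k p) ≤ 2 ^ (125 * k * powUnits k p) * p ^ (2 * (e + 2)) := by
  classical
  have hp : p.Prime := Fact.out
  set m := Nat.card G * p * (p - 1) with hm
  have hm0 : 0 < m := by
    have h1 : 0 < Nat.card G := Nat.card_pos
    have h2 := hp.two_le
    have h3 : 0 < p - 1 := by omega
    positivity
  have hGm : Nat.card G ∣ m := ⟨p * (p - 1), by rw [hm, mul_assoc]⟩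
  have hpm : p ∣ m := ⟨Nat.card G * (p - 1), by rw [hm]; ring⟩
  have hpm1 : (p - 1) ∣ m := ⟨Nat.card G * p, by rw [hm]; ring⟩
  have hP : PowConj k m G := by
    intro j hj g
    have h1 := hG.isConj_pow (Nat.Coprime.coprime_dvd_right hGm hj) g
    obtain ⟨x, hx⟩ := isConj_iff.1 h1
    exact ⟨x, hx⟩
  have hQ : PowConj k m (G ⧸ N) :=
    hP.of_surjective (QuotientGroup.mk' N) (QuotientGroup.mk'_surjective N)
  have hQm : Nat.card (G ⧸ N) ∣ m := (Subgroup.card_quotient_dvd_card N).trans hGm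
  let cM : CommGroup M := { (inferInstance : Group M) with
    mul_comm := fun a b => Subtype.ext (hcomm a a.2 b b.2) }
  have mM : Module (ZMod p) (Additive M) := AddCommGroup.zmodModule (by
    intro x
    exact congrArg Additive.ofMul (Subtype.ext (hexp (x.toMul : G ⧸ N) x.toMul.2)))
  have hr : M.subtype.range = M := M.range_subtype
  -- the `p`-elements centralising `R`
  have htriv : ∀ y : G ⧸ N, y ∈ Subgroup.centralizer (R : Set (G ⧸ N)) →
      (∃ i, y ^ (p ^ i) = 1) → y ∈ Subgroup.centralizer (W : Set (G ⧸ N)) := by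
    intro y hy hy'
    rw [hW]
    rcases hJ with hJ | ⟨D₀, hD₀, hint, hsup⟩
    · refine hd.trivial_action hk hm0 hQm hQ hp2 hu hM hcomm hexp ?_ hy hy'
      rw [← hD]
      rintro x hx ⟨i, hi⟩
      obtain ⟨i', -, hi'⟩ := (Nat.dvd_prime_pow hp).1 (orderOf_dvd_of_pow_eq_one hi)
      exact hJ x hx ⟨i', hi'⟩
    · rw [hD] at hD₀ hsup
      rw [hW] at hint hsup
      exact hd.trivial_action_compl hk hm0 hQm hQ hp2 hu hM hcomm hexp D₀
        (hD₀.trans inf_le_right) hint hsup hy hy'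
  set A : Subgroup (G ⧸ N) :=
    ((P : Subgroup D).map D.subtype ⊓ Subgroup.centralizer (R : Set (G ⧸ N))) ⊔
      ((P : Subgroup D).map D.subtype ⊓ Subgroup.centralizer (W : Set (G ⧸ N))) with hA
  have hAW : A ≤ Subgroup.centralizer (W : Set (G ⧸ N)) := by
    apply sup_le
    · rintro x ⟨⟨x', hx', rfl⟩, hxR⟩
      apply htriv _ hxR
      obtain ⟨i, hi⟩ := P.isPGroup' ⟨x', hx'⟩
      exact ⟨i, by
        have h1 := congrArg Subtype.val (congrArg Subtype.val hi)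
        exact h1⟩
    · exact inf_le_right
  have hres := @main3_emb p _ (G ⧸ N) _ M cM mM M.subtype _ _ k m e 1 hk hm0 hQm hpm hpm1 hQ
    M.subtype_injective MulAut.conjNormal (fun g x => rfl) R D
    (fun u => by rw [hr, hD]; exact hd.goodSub hm0 hQm hpm hQ hp2 hexp u) {W} (by
      rintro X rfl
      rw [Set.sdiff_self, sSup_empty]
      exact disjoint_bot_right) (by rw [hr, sSup_singleton, hW]) (by
      rintro g hg X hX
      rw [Set.mem_singleton_iff] at hX ⊢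
      rw [hX]
      rw [hD] at hg
      rw [hW]
      apply le_antisymm
      · rintro _ ⟨w, hw, rfl⟩
        exact conj_mem_fixed hM hg.2 hw
      · intro w hw
        have h1 := conj_mem_fixed hM ((Subgroup.normalizer (R : Set (G ⧸ N))).inv_mem hg.2) hw
        refine ⟨g⁻¹ * w * g⁻¹⁻¹, h1, ?_⟩
        show g * (g⁻¹ * w * g⁻¹⁻¹) * g⁻¹ = w
        group) P A hPe (by
      intro X hX
      rw [Set.mem_singleton_iff] at hX
      rw [hX, Function.iterate_one]
      show ⁅W, normIn A W⁆ = ⊥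
      rw [Subgroup.commutator_eq_bot_iff_le_centralizer]
      intro w hw
      rw [Subgroup.mem_centralizer_iff]
      intro a ha
      exact (Subgroup.mem_centralizer_iff.1 (hAW ha.1) w hw).symm)
  simpa only [mul_one] using hres

end Quot

end Pool.Agent.Lib.MP_3c3661_al
end
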