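import Mathlib
import Pool.Agent.Lib.MP_3c3661_al.Core2
import Pool.Agent.Lib.MP_3c3661_al.Defs2

/-!
The explicit form of the bound.
-/

set_option autoImplicit false

namespace Pool.Agent.Lib.MP_3c3661_al

lemma powCount_le_of_dvd {k d m : ℕ} (hm : 0 < m) (hdm : d ∣ m) :
    powCount k d ≤ powCount k m := by
  have : NeZero m := ⟨hm.ne'⟩
  let f : (powMonoidHom k : (ZMod m)ˣ →* (ZMod m)ˣ).range →
      (powMonoidHom k : (ZMod d)ˣ →* (ZMod d)ˣ).range := fun u =>
    ⟨ZMod.unitsMap hdm u.1, by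
      obtain ⟨v, hv⟩ := u.2
      refine ⟨ZMod.unitsMap hdm v, ?_⟩
      rw [← hv, powMonoidHom_apply, powMonoidHom_apply, map_pow]⟩
  have hf : Function.Surjective f := by
    rintro ⟨_, v, rfl⟩
    obtain ⟨w, hw⟩ := ZMod.unitsMap_surjective hdm v
    refine ⟨⟨w ^ k, w, rfl⟩, ?_⟩
    apply Subtype.ext
    show ZMod.unitsMap hdm (w ^ k) = v ^ k
    rw [map_pow, hw]
  exact Nat.card_le_card_of_surjective f hf

lemma le_lcmUpto_powCount {k m : ℕ} (hk : 0 < k) (hm : 0 < m) :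
    m ≤ Nat.lcmUpto (4 * k * powCount k m) := by
  apply Nat.le_of_dvd (Nat.lcmUpto_pos _)
  rw [← Nat.factorization_prime_le_iff_dvd hm.ne' (Nat.lcmUpto_ne_zero _)]
  intro r hr
  rw [Nat.factorization_lcmUpto _ hr]
  apply Nat.le_log_of_pow_le hr.one_lt
  have h1 : r ^ m.factorization r ∣ m := Nat.ordProj_dvd m r
  calc r ^ m.factorization r ≤ 4 * k * powCount k (r ^ m.factorization r) := le_powCount hk hr _
    _ ≤ 4 * k * powCount k m := Nat.mul_le_mul_left _ (powCount_le_of_dvd hm h1)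

/-- the explicit form -/
theorem explicit_bound {k p c a : ℕ} (hp : p.Prime) (hk : 0 < k) (ha : 2 ≤ a)
    (h : p ^ (2 * powUnits k p) ≤ 2 ^ (125 * k * c * powUnits k p) * p ^ (2 * c * a)) :
    p ≤ k * 2 ^ (63 * k * c * a) + 1 := by
  set φ := powUnits k p with hφ
  have hp1 : 0 < p - 1 := by have := hp.two_le; omega
  set m := (p - 1) / Nat.gcd (p - 1) k with hm
  have hg : 0 < Nat.gcd (p - 1) k := Nat.gcd_pos_of_pos_left _ hp1
  have hmpos : 0 < m := Nat.div_pos (Nat.gcd_le_left _ hp1) hg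
  have hφm : φ = powCount k m := rfl
  have : NeZero m := ⟨hmpos.ne'⟩
  have hφpos : 0 < φ := by
    rw [hφm]; exact Nat.card_pos
  rcases le_or_gt (2 * c * a) φ with h1 | h1
  · -- large `φ`
    have h2 : p ^ φ * p ^ φ ≤ 2 ^ (125 * k * c * φ) * p ^ φ := by
      calc p ^ φ * p ^ φ = p ^ (2 * φ) := by rw [← pow_add]; congr 1; ring
        _ ≤ 2 ^ (125 * k * c * φ) * p ^ (2 * c * a) := h
        _ ≤ 2 ^ (125 * k * c * φ) * p ^ φ :=
            Nat.mul_le_mul_left _ (Nat.pow_le_pow_right hp.pos h1)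
    have h3 : p ^ φ ≤ (2 ^ (125 * k * c)) ^ φ := by
      rw [← pow_mul]
      exact Nat.le_of_mul_le_mul_right h2 (Nat.pow_pos hp.pos)
    have h4 : p ≤ 2 ^ (125 * k * c) := (Nat.pow_le_pow_iff_left hφpos.ne').1 h3
    have h5 : 2 ^ (125 * k * c) ≤ 2 ^ (63 * k * c * a) := by
      apply Nat.pow_le_pow_right (by norm_num)
      have h6 : 125 * k * c ≤ 63 * k * c * 2 := by nlinarith
      exact h6.trans (Nat.mul_le_mul_left _ ha)
    calc p ≤ 2 ^ (63 * k * c * a) := h4.trans h5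
      _ ≤ k * 2 ^ (63 * k * c * a) := Nat.le_mul_of_pos_left _ hk
      _ ≤ _ := Nat.le_succ _
  · -- small `φ`
    have h2 : m ^ 4 ≤ 2 ^ (125 * k * φ) := by
      calc m ^ 4 ≤ (Nat.lcmUpto (4 * k * φ)) ^ 4 :=
            Nat.pow_le_pow_left (le_lcmUpto_powCount hk hmpos) 4
        _ ≤ _ := lcmUpto_pow_le
    have h3 : 2 ^ (125 * k * φ) ≤ (2 ^ (63 * k * c * a)) ^ 4 := by
      rw [← pow_mul]
      apply Nat.pow_le_pow_right (by norm_num)
      have h4 : 125 * k * φ ≤ 125 * k * (2 * c * a) := Nat.mul_le_mul_left _ h1.le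
      have h5 : 125 * k * (2 * c * a) ≤ 63 * k * c * a * 4 := by
        have : 0 ≤ k * c * a := Nat.zero_le _
        calc 125 * k * (2 * c * a) = 250 * (k * c * a) := by ring
          _ ≤ 252 * (k * c * a) := Nat.mul_le_mul_right _ (by norm_num)
          _ = _ := by ring
      exact h4.trans h5
    have h4 : m ≤ 2 ^ (63 * k * c * a) :=
      (Nat.pow_le_pow_iff_left (by norm_num)).1 (h2.trans h3)
    have h5 : p - 1 = Nat.gcd (p - 1) k * m := by
      rw [hm, Nat.mul_div_cancel' (Nat.gcd_dvd_left _ _)]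
    have h6 : Nat.gcd (p - 1) k ≤ k := Nat.gcd_le_right _ hk
    have h7 : p - 1 ≤ k * 2 ^ (63 * k * c * a) := by
      rw [h5]; exact Nat.mul_le_mul h6 h4
    omega

end Pool.Agent.Lib.MP_3c3661_al
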